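import Pool.Agent.H78R2.Crys.Small

/-!
The crystal with elements the roots and the labels (the crystal of the adjoint representation).
-/

set_option autoImplicit false
set_option linter.unusedSectionVars false

namespace Pool.Agent.H78R2.Crys

open Crystal

namespace Laced

variable {I : Type} [Fintype I] [DecidableEq I] (C : CartanDatum I)
  (hs : ∀ i j, C.A i j = C.A j i) (hQ : ∀ x : I → ℤ, x ≠ 0 → 0 < Q C x)

/-- the elements -/
abbrev AdC : Type := {x : I → ℤ // Q C x = 2} ⊕ I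

/-- the arrows -/
def adArrow (i : I) : AdC C → AdC C → Prop
  | Sum.inl x, Sum.inl y => p C x.1 i = 1 ∧ y.1 = x.1 - e i
  | Sum.inl x, Sum.inr k => x.1 = e i ∧ k = i
  | Sum.inr k, Sum.inl y => k = i ∧ y.1 = - e i
  | Sum.inr _, Sum.inr _ => False

/-- the function `eps` -/
def adEps (i : I) : AdC C → ℕ
  | Sum.inl x => (- p C x.1 i).toNat
  | Sum.inr k => if k = i then 1 else 0

/-- the function `phi` -/
def adPhi (i : I) : AdC C → ℕ
  | Sum.inl x => (p C x.1 i).toNat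
  | Sum.inr k => if k = i then 1 else 0

include hs in
lemma root_sub {x : I → ℤ} (hx : Q C x = 2) {i : I} (h : p C x i = 1) : Q C (x - e i) = 2 := by
  rw [Q_sub_e C hs, hx, h]; norm_num

include hs in
lemma root_add {x : I → ℤ} (hx : Q C x = 2) {i : I} (h : p C x i = -1) : Q C (x + e i) = 2 := by
  rw [Q_add_e C hs, hx, h]; norm_num

lemma root_neg_e (i : I) : Q C (- e i) = 2 := by rw [Q_neg, Q_e]

lemma p_e_self (i : I) : p C (e i) i = 2 := by rw [p_e, C.diag]

lemma p_neg_e_self (i : I) : p C (- e i) i = -2 := by rw [p_neg, p_e, C.diag]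

/-- the adjoint crystal -/
@[reducible] def Adc : Crystal.{0} C where
  carrier := AdC C
  arrow := adArrow C
  eps := adEps C
  phi := adPhi C
  arrow_fun := by
    rintro i (x | k) (y | l) (y' | l') h h'
    · exact congrArg _ (Subtype.ext (h.2.trans h'.2.symm))
    · exfalso
      have h1 := h.1
      rw [h'.1, p_e_self] at h1
      omega
    · exfalso
      have h1 := h'.1
      rw [h.1, p_e_self] at h1
      omega
    · exact congrArg _ (h.2.trans h'.2.symm)
    · exact congrArg _ (Subtype.ext (h.2.trans h'.2.symm))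
    · exact h'.elim
    · exact h.elim
    · exact h.elim
  arrow_inj := by
    rintro i (x | k) (x' | l) (y | l') h h'
    · exact congrArg _ (Subtype.ext (sub_left_injective (h.2.symm.trans h'.2)))
    · exact congrArg _ (Subtype.ext (h.1.trans h'.1.symm))
    · exfalso
      have h1 : x.1 - e i = - e i := h.2.symm.trans h'.2
      have h2 : x.1 = 0 := by
        have := congrArg (· + e i) h1
        simpa using this
      have h3 := h.1
      rw [h2] at h3
      unfold p at h3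
      simp at h3
    · exact h'.elim
    · exfalso
      have h1 : x'.1 - e i = - e i := h'.2.symm.trans h.2
      have h2 : x'.1 = 0 := by
        have := congrArg (· + e i) h1
        simpa using this
      have h3 := h'.1
      rw [h2] at h3
      unfold p at h3
      simp at h3
    · exact h.elim
    · exact congrArg _ (h.1.trans h'.1.symm)
    · exact h.elim
  exists_of_phi := by
    rintro i (x | k) h
    · have h0 : 0 < (p C x.1 i).toNat := h
      have h1 := p_le C hs hQ x.2 i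
      have h2 : p C x.1 i = 1 ∨ p C x.1 i = 2 := by omega
      rcases h2 with h2 | h2
      · exact ⟨Sum.inl ⟨_, root_sub C hs x.2 h2⟩, h2, rfl⟩
      · exact ⟨Sum.inr i, eq_e C hs hQ x.2 h2, rfl⟩
    · have h0 : 0 < (if k = i then 1 else 0) := h
      by_cases hk : k = i
      · exact ⟨Sum.inl ⟨_, root_neg_e C i⟩, hk, rfl⟩
      · rw [if_neg hk] at h0; omega
  exists_of_eps := by
    rintro i (x | k) h
    · have h0 : 0 < (- p C x.1 i).toNat := h
      have h1 := le_p C hs hQ x.2 i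
      have h2 : p C x.1 i = -1 ∨ p C x.1 i = -2 := by omega
      rcases h2 with h2 | h2
      · refine ⟨Sum.inl ⟨_, root_add C hs x.2 h2⟩, ?_, ?_⟩
        · show p C (x.1 + e i) i = 1
          rw [p_add, p_e_self, h2]; norm_num
        · show x.1 = x.1 + e i - e i
          rw [add_sub_cancel_right]
      · exact ⟨Sum.inr i, rfl, eq_neg_e C hs hQ x.2 h2⟩
    · have h0 : 0 < (if k = i then 1 else 0) := h
      by_cases hk : k = i
      · exact ⟨Sum.inl ⟨_, Q_e C i⟩, rfl, hk⟩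
      · rw [if_neg hk] at h0; omega
  eps_arrow := by
    rintro i (x | k) (y | l) h
    · show (- p C y.1 i).toNat = (- p C x.1 i).toNat + 1
      rw [h.2, p_sub, p_e_self, h.1]; rfl
    · show (if l = i then 1 else 0) = (- p C x.1 i).toNat + 1
      rw [h.1, if_pos h.2, p_e_self]; rfl
    · show (- p C y.1 i).toNat = (if k = i then 1 else 0) + 1
      rw [h.2, if_pos h.1, p_neg_e_self]; rfl
    · exact h.elim
  phi_arrow := by
    rintro i (x | k) (y | l) h
    · show (p C x.1 i).toNat = (p C y.1 i).toNat + 1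
      rw [h.2, p_sub, p_e_self, h.1]; rfl
    · show (p C x.1 i).toNat = (if l = i then 1 else 0) + 1
      rw [h.1, if_pos h.2, p_e_self]; rfl
    · show (if k = i then 1 else 0) = (p C y.1 i).toNat + 1
      rw [h.2, if_pos h.1, p_neg_e_self]; rfl
    · exact h.elim
  weight_arrow := by
    rintro i (x | k) (y | l) h j
    · show ((p C y.1 j).toNat : ℤ) - (- p C y.1 j).toNat =
        ((p C x.1 j).toNat : ℤ) - (- p C x.1 j).toNat - C.A j i
      have h1 : p C y.1 j = p C x.1 j - C.A j i := by rw [h.2, p_sub, p_e]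
      omega
    · show (((if l = j then 1 else 0 : ℕ)) : ℤ) - ((if l = j then 1 else 0 : ℕ)) =
        ((p C x.1 j).toNat : ℤ) - (- p C x.1 j).toNat - C.A j i
      have h1 : p C x.1 j = C.A j i := by rw [h.1, p_e]
      omega
    · show ((p C y.1 j).toNat : ℤ) - (- p C y.1 j).toNat =
        (((if k = j then 1 else 0 : ℕ)) : ℤ) - ((if k = j then 1 else 0 : ℕ)) - C.A j i
      have h1 : p C y.1 j = - C.A j i := by rw [h.2, p_neg, p_e]
      omega
    · exact h.elim

lemma Adc_wt_inl (x : {x : I → ℤ // Q C x = 2}) (i : I) :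
    (Adc C hs hQ).wt (Sum.inl x) i = p C x.1 i := by
  rw [wt_apply]
  show ((p C x.1 i).toNat : ℤ) - ((- p C x.1 i).toNat : ℤ) = p C x.1 i
  omega

lemma Adc_wt_inr (k i : I) : (Adc C hs hQ).wt (Sum.inr k) i = 0 := by
  rw [wt_apply]
  show (((if k = i then 1 else 0 : ℕ)) : ℤ) - ((if k = i then 1 else 0 : ℕ)) = 0
  omega

lemma e_ne {i j : I} (h : i ≠ j) : e i ≠ e j := by
  intro h'
  have h1 := congrFun h' i
  rw [e_apply, e_apply, if_pos rfl, if_neg h] at h1
  omega

lemma Adc_orth {i j : I} (hij : i ≠ j) (h0 : C.A i j = 0) :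
    (∀ x y, (Adc C hs hQ).arrow i x y → (Adc C hs hQ).eps j y = (Adc C hs hQ).eps j x) ∧
    (∀ x y z, (Adc C hs hQ).arrow i x y → (Adc C hs hQ).arrow j x z →
      ∃ w, (Adc C hs hQ).arrow j y w ∧ (Adc C hs hQ).arrow i z w) := by
  have h0' : C.A j i = 0 := C.zero_symm h0
  refine ⟨?_, ?_⟩
  · rintro (x | k) (y | l) h
    · show (- p C y.1 j).toNat = (- p C x.1 j).toNat
      rw [h.2, p_sub, p_e, h0', sub_zero]
    · show (if l = j then 1 else 0) = (- p C x.1 j).toNat
      rw [h.1, h.2, if_neg hij, p_e, h0']; rfl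
    · show (- p C y.1 j).toNat = (if k = j then 1 else 0)
      rw [h.2, h.1, if_neg hij, p_neg, p_e, h0']; rfl
    · exact h.elim
  · rintro (x | k) (y | l) (z | m) h h'
    · have a1 : p C y.1 j = 1 := by rw [h.2, p_sub, p_e, h0', sub_zero, h'.1]
      have a2 : p C z.1 i = 1 := by rw [h'.2, p_sub, p_e, h0, sub_zero, h.1]
      refine ⟨Sum.inl ⟨_, root_sub C hs y.2 a1⟩, ⟨a1, rfl⟩, a2, ?_⟩
      show y.1 - e j = z.1 - e i
      rw [h.2, h'.2]; abel
    · exfalso
      have h1 := h.1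
      rw [h'.1, p_e, h0] at h1
      omega
    · exfalso
      have h1 := h'.1
      rw [h.1, p_e, h0'] at h1
      omega
    · exact absurd (h.1.symm.trans h'.1) (e_ne hij)
    · exact absurd (h.1.symm.trans h'.1) hij
    · exact h'.elim
    · exact h.elim
    · exact h.elim

section eight

variable {i j : I} (hij : i ≠ j) (h01 : C.A i j = -1) (h10 : C.A j i = -1)

include hs h01 in
lemma root_sum : Q C (e i + e j) = 2 := by
  rw [Q_add_e C hs, Q_e, p_e, hs j i, h01]; norm_num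

/-- the eight elements -/
def g8 (r : Q C (e i + e j) = 2) : ℕ → ℕ → ℕ → AdC C
  | 0, 0, 0 => Sum.inl ⟨e i + e j, r⟩
  | 1, 0, 0 => Sum.inl ⟨e j, Q_e C j⟩
  | 0, 1, 0 => Sum.inl ⟨e i, Q_e C i⟩
  | 1, 1, 0 => Sum.inr i
  | 2, 1, 0 => Sum.inl ⟨- e i, root_neg_e C i⟩
  | 0, 1, 1 => Sum.inr j
  | 0, 2, 1 => Sum.inl ⟨- e j, root_neg_e C j⟩
  | 1, 2, 1 => Sum.inl ⟨- (e i + e j), (Q_neg C _).trans r⟩
  | _, _, _ => Sum.inr i

variable (r : Q C (e i + e j) = 2)

include h01 h10 in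
lemma g8_f (a b c : ℕ) (h : A2.Nz 1 1 a b c) (h' : A2.Nz 1 1 (a + 1) b c) :
    adArrow C i (g8 C r a b c) (g8 C r (a + 1) b c) := by
  have hh : (a = 0 ∧ b = 0 ∧ c = 0) ∨ (a = 0 ∧ b = 1 ∧ c = 0) ∨ (a = 1 ∧ b = 1 ∧ c = 0) ∨
      (a = 0 ∧ b = 2 ∧ c = 1) := by
    unfold A2.Nz at h h'
    omega
  rcases hh with ⟨rfl, rfl, rfl⟩ | ⟨rfl, rfl, rfl⟩ | ⟨rfl, rfl, rfl⟩ | ⟨rfl, rfl, rfl⟩
  · show p C (e i + e j) i = 1 ∧ e j = e i + e j - e i
    rw [p_add, p_e, p_e, C.diag, h01]
    exact ⟨by norm_num, by abel⟩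
  · exact ⟨rfl, rfl⟩
  · exact ⟨rfl, rfl⟩
  · show p C (- e j) i = 1 ∧ - (e i + e j) = - e j - e i
    rw [p_neg, p_e, h01]
    exact ⟨by norm_num, by abel⟩

include h01 h10 in
lemma g8_t (a b c d k f : ℕ) (h : A2.Nz 1 1 a b c) (h' : A2.Nz 1 1 d k f)
    (h'' : A2.Ar a b c d k f) : adArrow C j (g8 C r a b c) (g8 C r d k f) := by
  have hh : (a = 0 ∧ b = 0 ∧ c = 0 ∧ d = 0 ∧ k = 1 ∧ f = 0) ∨
      (a = 1 ∧ b = 0 ∧ c = 0 ∧ d = 0 ∧ k = 1 ∧ f = 1) ∨
      (a = 2 ∧ b = 1 ∧ c = 0 ∧ d = 1 ∧ k = 2 ∧ f = 1) ∨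
      (a = 0 ∧ b = 1 ∧ c = 1 ∧ d = 0 ∧ k = 2 ∧ f = 1) := by
    unfold A2.Nz at h h'
    unfold A2.Ar at h''
    omega
  rcases hh with ⟨rfl, rfl, rfl, rfl, rfl, rfl⟩ | ⟨rfl, rfl, rfl, rfl, rfl, rfl⟩ |
    ⟨rfl, rfl, rfl, rfl, rfl, rfl⟩ | ⟨rfl, rfl, rfl, rfl, rfl, rfl⟩
  · show p C (e i + e j) j = 1 ∧ e i = e i + e j - e j
    rw [p_add, p_e, p_e, C.diag, h10]
    exact ⟨by norm_num, by abel⟩
  · exact ⟨rfl, rfl⟩
  · show p C (- e i) j = 1 ∧ - (e i + e j) = - e i - e j
    rw [p_neg, p_e, h10]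
    exact ⟨by norm_num, by abel⟩
  · exact ⟨rfl, rfl⟩

include hij h01 in
lemma g8_e0 (a b c : ℕ) (h : A2.Nz 1 1 a b c) : adEps C i (g8 C r a b c) = a := by
  rcases A2.eight h with ⟨rfl, rfl, rfl⟩ | ⟨rfl, rfl, rfl⟩ | ⟨rfl, rfl, rfl⟩ | ⟨rfl, rfl, rfl⟩ |
    ⟨rfl, rfl, rfl⟩ | ⟨rfl, rfl, rfl⟩ | ⟨rfl, rfl, rfl⟩ | ⟨rfl, rfl, rfl⟩
  · show (- p C (e i + e j) i).toNat = 0
    rw [p_add, p_e, p_e, C.diag, h01]; rfl
  · show (- p C (e j) i).toNat = 1
    rw [p_e, h01]; rfl
  · show (- p C (e i) i).toNat = 0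
    rw [p_e, C.diag]; rfl
  · show (if i = i then 1 else 0) = 1
    rw [if_pos rfl]
  · show (- p C (- e i) i).toNat = 2
    rw [p_neg, p_e, C.diag]; rfl
  · show (if j = i then 1 else 0) = 0
    rw [if_neg hij.symm]
  · show (- p C (- e j) i).toNat = 0
    rw [p_neg, p_e, h01]; rfl
  · show (- p C (- (e i + e j)) i).toNat = 1
    rw [p_neg, p_add, p_e, p_e, C.diag, h01]; rfl

include hij h10 in
lemma g8_e1 (a b c : ℕ) (h : A2.Nz 1 1 a b c) :
    adEps C j (g8 C r a b c) = max c (b - a) := by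
  rcases A2.eight h with ⟨rfl, rfl, rfl⟩ | ⟨rfl, rfl, rfl⟩ | ⟨rfl, rfl, rfl⟩ | ⟨rfl, rfl, rfl⟩ |
    ⟨rfl, rfl, rfl⟩ | ⟨rfl, rfl, rfl⟩ | ⟨rfl, rfl, rfl⟩ | ⟨rfl, rfl, rfl⟩
  · show (- p C (e i + e j) j).toNat = 0
    rw [p_add, p_e, p_e, C.diag, h10]; rfl
  · show (- p C (e j) j).toNat = 0
    rw [p_e, C.diag]; rfl
  · show (- p C (e i) j).toNat = 1
    rw [p_e, h10]; rfl
  · show (if i = j then 1 else 0) = 0
    rw [if_neg hij]
  · show (- p C (- e i) j).toNat = 0
    rw [p_neg, p_e, h10]; rfl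
  · show (if j = j then 1 else 0) = 1
    rw [if_pos rfl]
  · show (- p C (- e j) j).toNat = 2
    rw [p_neg, p_e, C.diag]; rfl
  · show (- p C (- (e i + e j)) j).toNat = 1
    rw [p_neg, p_add, p_e, p_e, C.diag, h10]; rfl

end eight

lemma Adc_good : Good (G C hs) (Adc C hs hQ) := by
  refine good_of C hs (fun i j hij h0 => Adc_orth C hs hQ hij h0) 4 ?_ ?_
  · rintro i j (x | k) _
    · rw [Adc_wt_inl, Adc_wt_inl]
      have h1 := p_le C hs hQ x.2 i
      have h2 := p_le C hs hQ x.2 j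
      omega
    · rw [Adc_wt_inr, Adc_wt_inr]
      norm_num
  · rintro i j h h01 h10 (x | k) e1 e2
    · have e1' : (- p C x.1 i).toNat = 0 := e1
      have e2' : (- p C x.1 j).toNat = 0 := e2
      have r1 := p_le C hs hQ x.2 i
      have r2 := p_le C hs hQ x.2 j
      have hi : IsHigh ((Adc C hs hQ).res (pr i j) (pr_inj h)) (Sum.inl x) := by
        intro b; cases b; exacts [e1, e2]
      have n1 : p C x.1 i ≠ 2 := by
        intro hc
        have hx := eq_e C hs hQ x.2 hc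
        rw [hx, p_e, h10] at e2'
        omega
      have n2 : p C x.1 j ≠ 2 := by
        intro hc
        have hx := eq_e C hs hQ x.2 hc
        rw [hx, p_e, h01] at e1'
        omega
      have hc : (p C x.1 i = 0 ∧ p C x.1 j = 0) ∨ (p C x.1 i = 1 ∧ p C x.1 j = 0) ∨
          (p C x.1 i = 0 ∧ p C x.1 j = 1) ∨ (p C x.1 i = 1 ∧ p C x.1 j = 1) := by omega
      rcases hc with ⟨c1, c2⟩ | ⟨c1, c2⟩ | ⟨c1, c2⟩ | ⟨c1, c2⟩
      · refine A2.comp00 (D := C.res (pr i j) (pr_inj h)) h01 h10 hi ?_ ?_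
        · show (p C x.1 i).toNat = 0
          rw [c1]; rfl
        · show (p C x.1 j).toNat = 0
          rw [c2]; rfl
      · have a1 : p C (x.1 - e i) j = 1 := by rw [p_sub, p_e, h10, c2]; norm_num
        refine A2.comp10 (D := C.res (pr i j) (pr_inj h)) h01 h10
          (X := (Adc C hs hQ).res (pr i j) (pr_inj h))
          (x₁ := Sum.inl ⟨_, root_sub C hs x.2 c1⟩)
          (x₂ := Sum.inl ⟨_, root_sub C hs (root_sub C hs x.2 c1) a1⟩) hi ?_ ?_ ?_ ?_ ?_ ?_
        · show (p C x.1 i).toNat = 1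
          rw [c1]; rfl
        · show (p C x.1 j).toNat = 0
          rw [c2]; rfl
        · exact ⟨c1, rfl⟩
        · exact ⟨a1, rfl⟩
        · show (- p C (x.1 - e i) j).toNat = 0
          rw [a1]; rfl
        · show (- p C (x.1 - e i - e j) i).toNat = 0
          rw [p_sub, p_sub, p_e, p_e, c1, C.diag, h01]; rfl
      · have a1 : p C (x.1 - e j) i = 1 := by rw [p_sub, p_e, h01, c1]; norm_num
        refine A2.comp01 (D := C.res (pr i j) (pr_inj h)) h01 h10
          (X := (Adc C hs hQ).res (pr i j) (pr_inj h))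
          (x₁ := Sum.inl ⟨_, root_sub C hs x.2 c2⟩)
          (x₂ := Sum.inl ⟨_, root_sub C hs (root_sub C hs x.2 c2) a1⟩) hi ?_ ?_ ?_ ?_ ?_ ?_
        · show (p C x.1 i).toNat = 0
          rw [c1]; rfl
        · show (p C x.1 j).toNat = 1
          rw [c2]; rfl
        · exact ⟨c2, rfl⟩
        · exact ⟨a1, rfl⟩
        · show (- p C (x.1 - e j) i).toNat = 0
          rw [a1]; rfl
        · show (- p C (x.1 - e j - e i) j).toNat = 0
          rw [p_sub, p_sub, p_e, p_e, c2, C.diag, h10]; rfl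
      · have a1 : p C (x.1 - e i) j = 2 := by rw [p_sub, p_e, h10, c2]; norm_num
        have a2 := eq_e C hs hQ (root_sub C hs x.2 c1) a1
        have r : Q C (e i + e j) = 2 := root_sum C hs h01
        have a3 : x.1 = e i + e j := by rw [← a2]; abel
        have a4 : (Sum.inl x : AdC C) = g8 C r 0 0 0 := congrArg _ (Subtype.ext a3)
        rw [a4]
        refine A2.comp11 (D := C.res (pr i j) (pr_inj h)) h01 h10
          (X := (Adc C hs hQ).res (pr i j) (pr_inj h)) (g8 C r) (g8_f C h01 h10 r)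
          (g8_t C h01 h10 r) (g8_e0 C h h01 r) (g8_e1 C h h10 r) ?_ ?_
        · show (p C (e i + e j) i).toNat = 1
          rw [p_add, p_e, p_e, C.diag, h01]; rfl
        · show (p C (e i + e j) j).toNat = 1
          rw [p_add, p_e, p_e, C.diag, h10]; rfl
    · have e1' : (if k = i then 1 else 0) = 0 := e1
      have e2' : (if k = j then 1 else 0) = 0 := e2
      exact A2.comp00 (D := C.res (pr i j) (pr_inj h)) h01 h10
        (X := (Adc C hs hQ).res (pr i j) (pr_inj h)) (by intro b; cases b; exacts [e1, e2])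
        e1' e2'

end Laced

end Pool.Agent.H78R2.Crys
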