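import Pool.Agent.H78R2.Crys.KeyThm
import Pool.Agent.Helper741.Exchange

/-!
Products of subwords of reduced words (Bruhat order).
-/

set_option autoImplicit false
set_option linter.unusedSectionVars false

namespace Pool.Agent.H78R2.Crys

open Pool.Agent.Helper741

section general

variable {B : Type*} {M : CoxeterMatrix B} {W : Type*} [Group W] (cs : CoxeterSystem M W)

/-- Bruhat order -/
def BLe (z y : W) : Prop :=
  Relation.ReflTransGen
    (fun a b => ∃ t, cs.IsReflection t ∧ b = t * a ∧ cs.length a < cs.length b) z y

variable {cs}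

lemma invc_refl {t : W} (ht : cs.IsReflection t) : (invc cs t).v t = 1 := by
  classical
  obtain ⟨u, i, htt⟩ := ht
  have h1 : (invc cs (u * u⁻¹)).v t = 0 := by
    rw [mul_inv_cancel, map_one]; rfl
  rw [map_mul (invc cs) u u⁻¹, TExt.mul_v, Finsupp.add_apply, TExt.act_apply, invc_w] at h1
  have e1 : u⁻¹ * t * u = cs.simple i := by rw [htt]; group
  rw [e1] at h1
  have h2 : (invc cs (u * cs.simple i * u⁻¹)).v t
      = (invc cs u).v t + (1 + (invc cs u⁻¹).v (cs.simple i)) := by
    rw [map_mul (invc cs) (u * cs.simple i) u⁻¹, map_mul (invc cs) u (cs.simple i), TExt.mul_v,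
      TExt.mul_v, TExt.mul_w, invc_w, invc_w, Finsupp.add_apply,
      Finsupp.add_apply, TExt.act_apply, TExt.act_apply, invc_simple, TExt.el_v]
    have e2 : (u * cs.simple i)⁻¹ * t * (u * cs.simple i) = cs.simple i := by
      rw [htt]
      group
    rw [e1, e2, Finsupp.single_eq_same, add_assoc]
  rw [← htt] at h2
  rw [h2]
  linear_combination h1

lemma invc_iff {t : W} (ht : cs.IsReflection t) (w : W) :
    (invc cs w).v t ≠ 0 ↔ cs.length (t * w) < cs.length w := by
  classical
  have key : ∀ w : W, (invc cs w).v t ≠ 0 → cs.length (t * w) < cs.length w := by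
    intro w h
    obtain ⟨ω, hω, rfl⟩ := cs.exists_isReduced w
    exact (cs.isLeftInversion_of_mem_leftInvSeq hω (mem_leftInvSeq_of_invc cs ω t h)).2
  refine ⟨key w, ?_⟩
  intro h h0
  have h1 : (invc cs (t * w)).v t ≠ 0 := by
    rw [map_mul (invc cs) t w, TExt.mul_v, Finsupp.add_apply, TExt.act_apply, invc_w,
      invc_refl ht]
    have : t⁻¹ * t * t = t := by group
    rw [this, h0, add_zero]
    exact one_ne_zero
  have h2 := key _ h1
  rw [← mul_assoc, ht.mul_self, one_mul] at h2
  omega

lemma refl_shift {t : W} (ht : cs.IsReflection t) (i : B) (hne : t ≠ cs.simple i) (w : W)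
    (h : cs.length (cs.simple i * t * cs.simple i * (cs.simple i * w))
      < cs.length (cs.simple i * w)) :
    cs.length (t * w) < cs.length w := by
  classical
  have ht' : cs.IsReflection (cs.simple i * t * cs.simple i) := by
    have := ht.conj (cs.simple i)
    rwa [cs.inv_simple] at this
  rw [← invc_iff ht]
  rw [← invc_iff ht', map_mul (invc cs) (cs.simple i) w, TExt.mul_v, Finsupp.add_apply, TExt.act_apply, invc_w, invc_simple,
    TExt.el_v, Finsupp.single_apply, if_neg, zero_add] at h
  · have : (cs.simple i)⁻¹ * (cs.simple i * t * cs.simple i) * cs.simple i = t := by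
      rw [cs.inv_simple]
      simp only [mul_assoc, cs.simple_mul_simple_self, mul_one]
      rw [← mul_assoc, cs.simple_mul_simple_self, one_mul]
    rwa [this] at h
  · intro h2
    apply hne
    have h3 : cs.simple i * (cs.simple i * t * cs.simple i) * cs.simple i
        = cs.simple i * cs.simple i * cs.simple i := by rw [← h2]
    simp only [mul_assoc, cs.simple_mul_simple_self, mul_one] at h3
    rw [← mul_assoc, cs.simple_mul_simple_self, one_mul] at h3
    simpa using h3

lemma BLe.simple_step (i : B) {w : W} (h : cs.length w < cs.length (cs.simple i * w)) :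
    BLe cs w (cs.simple i * w) :=
  Relation.ReflTransGen.single ⟨cs.simple i, cs.isReflection_simple i, rfl, h⟩

lemma simple_simple (i : B) (w : W) : cs.simple i * (cs.simple i * w) = w :=
  cs.simple_mul_simple_cancel_left i

/-- lifting property for one step -/
lemma BLe.lift_step (i : B) {z z1 : W} {t : W} (ht : cs.IsReflection t) (h1 : z1 = t * z)
    (h2 : cs.length z < cs.length z1) :
    BLe cs (cs.simple i * z) z1 ∨ BLe cs (cs.simple i * z) (cs.simple i * z1) := by
  rcases lt_or_gt_of_ne (cs.length_simple_mul_ne z i) with h3 | h3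
  · left
    have h4 : BLe cs (cs.simple i * z) z := by
      have := BLe.simple_step (cs := cs) i (w := cs.simple i * z) (by rwa [simple_simple])
      rwa [simple_simple] at this
    exact h4.trans (Relation.ReflTransGen.single ⟨t, ht, h1, h2⟩)
  · by_cases hti : t = cs.simple i
    · left
      rw [h1, hti]
      exact Relation.ReflTransGen.refl
    · right
      have ht' : cs.IsReflection (cs.simple i * t * cs.simple i) := by
        have := ht.conj (cs.simple i)
        rwa [cs.inv_simple] at this
      have e : cs.simple i * z1 = cs.simple i * t * cs.simple i * (cs.simple i * z) := by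
        rw [h1]
        simp only [mul_assoc]
        rw [simple_simple]
      have h5 : cs.length (cs.simple i * z) < cs.length (cs.simple i * z1) := by
        by_contra hcon
        have h6 : cs.length (cs.simple i * z1) ≠ cs.length (cs.simple i * z) := by
          rw [e]
          exact ht'.length_mul_right_ne _
        have h7 := refl_shift ht i hti z (by rw [← e]; omega)
        rw [← h1] at h7
        omega
      exact Relation.ReflTransGen.single ⟨_, ht', e, h5⟩

lemma BLe.lift (i : B) {z y : W} (h : BLe cs z y)
    (hy : cs.length y < cs.length (cs.simple i * y)) :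
    BLe cs (cs.simple i * z) (cs.simple i * y) := by
  induction h using Relation.ReflTransGen.head_induction_on with
  | refl => exact Relation.ReflTransGen.refl
  | head h1 h2 ih =>
    obtain ⟨t, ht, e, hlt⟩ := h1
    rcases BLe.lift_step i ht e hlt with h3 | h3
    · exact h3.trans (Relation.ReflTransGen.trans h2 (BLe.simple_step i hy))
    · exact h3.trans ih

end general

section subwords

open WFam

variable {I : Type} [Fintype I] [DecidableEq I] {C : CartanDatum I}

lemma length_le_of_subW {L : List I} {v : C.W} (h : v ∈ SubW C L) :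
    v = C.cs.wordProd L ∨ C.cs.length v < L.length := by
  induction L generalizing v with
  | nil => rw [mem_subW_nil] at h; left; rw [h, C.cs.wordProd_nil]
  | cons i L ih =>
    rw [mem_subW_cons] at h
    rcases h with h | ⟨v', h, rfl⟩
    · right
      rw [List.length_cons]
      rcases ih h with rfl | h1
      · have := C.cs.length_wordProd_le L
        omega
      · omega
    · rcases ih h with rfl | h1
      · left; rw [C.cs.wordProd_cons]
      · right
        rw [List.length_cons]
        rcases C.cs.length_simple_mul v' i with h2 | h2 <;> omega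

lemma length_le_of_subW' {L : List I} {v : C.W} (h : v ∈ SubW C L) :
    C.cs.length v ≤ L.length := by
  rcases length_le_of_subW h with rfl | h1
  · exact C.cs.length_wordProd_le L
  · omega

lemma subW_of_sublist {L₁ L : List I} (h : L₁.Sublist L) : C.cs.wordProd L₁ ∈ SubW C L := by
  induction h with
  | slnil => rw [C.cs.wordProd_nil]; rfl
  | cons i _ ih => exact Or.inl ih
  | cons_cons i _ ih => exact Or.inr ⟨_, ih, by rw [C.cs.wordProd_cons]⟩

lemma wordProd_mem_subW (L : List I) : C.cs.wordProd L ∈ SubW C L :=
  subW_of_sublist (List.Sublist.refl L)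

/-- Bruhat smaller elements are products of subwords of any word -/
lemma exists_sublist_of_BLe {v : C.W} {L : List I} (h : BLe C.cs v (C.cs.wordProd L)) :
    ∃ L₁ : List I, L₁.Sublist L ∧ C.cs.wordProd L₁ = v := by
  induction h using Relation.ReflTransGen.head_induction_on with
  | refl => exact ⟨L, List.Sublist.refl L, rfl⟩
  | head h1 h2 ih =>
    obtain ⟨t, ht, e, hlt⟩ := h1
    obtain ⟨L₁, hL₁, e₁⟩ := ih
    rename_i a c
    have h3 : C.cs.length (t * c) < C.cs.length c := by
      rw [e, ← mul_assoc, ht.mul_self, one_mul, ← e]; exact hlt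
    rw [← invc_iff ht, ← e₁] at h3
    have h4 := mem_leftInvSeq_of_invc C.cs L₁ t h3
    obtain ⟨j, hj, hji⟩ := List.mem_iff_getElem.mp h4
    refine ⟨L₁.eraseIdx j, (List.eraseIdx_sublist L₁ j).trans hL₁, ?_⟩
    rw [← C.cs.getD_leftInvSeq_mul_wordProd, List.getD_eq_getElem _ 1 hj, hji, e₁, e, ← mul_assoc,
      ht.mul_self, one_mul]

lemma subW_of_BLe {v : C.W} {L : List I} (h : BLe C.cs v (C.cs.wordProd L)) : v ∈ SubW C L := by
  obtain ⟨L₁, h1, rfl⟩ := exists_sublist_of_BLe h
  exact subW_of_sublist h1

lemma reduced_tail {i : I} {L : List I} (h : C.cs.IsReduced (i :: L)) : C.cs.IsReduced L :=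
  h.drop 1

lemma reduced_cons_lt {i : I} {L : List I} (h : C.cs.IsReduced (i :: L)) :
    C.cs.length (C.cs.wordProd L) < C.cs.length (C.cs.simple i * C.cs.wordProd L) := by
  have h1 : C.cs.length (C.cs.wordProd (i :: L)) = (i :: L).length := h
  have h2 : C.cs.length (C.cs.wordProd L) = L.length := reduced_tail h
  rw [C.cs.wordProd_cons, List.length_cons] at h1
  omega

lemma BLe_of_subW {v : C.W} {L : List I} (hL : C.cs.IsReduced L) (h : v ∈ SubW C L) :
    BLe C.cs v (C.cs.wordProd L) := by
  induction L generalizing v with
  | nil => rw [mem_subW_nil] at h; rw [h, C.cs.wordProd_nil]; exact Relation.ReflTransGen.refl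
  | cons i L ih =>
    have h1 := reduced_cons_lt hL
    rw [C.cs.wordProd_cons]
    rcases mem_subW_cons.1 h with h2 | ⟨v', h2, rfl⟩
    · exact (ih (reduced_tail hL) h2).trans (BLe.simple_step i h1)
    · exact (ih (reduced_tail hL) h2).lift i h1

/-- Subwords of a reduced word: independence. -/
theorem subW_subset {L L' : List I} (hL : C.cs.IsReduced L)
    (h : C.cs.wordProd L = C.cs.wordProd L') : SubW C L ⊆ SubW C L' := by
  intro v hv
  apply subW_of_BLe
  rw [← h]
  exact BLe_of_subW hL hv

theorem subW_eq {L L' : List I} (hL : C.cs.IsReduced L) (hL' : C.cs.IsReduced L')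
    (h : C.cs.wordProd L = C.cs.wordProd L') : SubW C L = SubW C L' :=
  Set.Subset.antisymm (subW_subset hL h) (subW_subset hL' h.symm)

end subwords

end Pool.Agent.H78R2.Crys
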