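import Pool.Agent.H78R2.Crys.Rank2

/-!
A method to build closed families from one small crystal.
-/

set_option autoImplicit false
set_option linter.unusedSectionVars false

namespace Pool.Agent.H78R2.Crys

variable {K : Type} [Fintype K] [DecidableEq K] {D : CartanDatum K}

open Crystal

/-- generation from the highest weight element -/
lemma gen_of {X : Crystal.{0} D} {x₀ : X.carrier} (rk : X.carrier → ℕ)
    (h1 : ∀ i x y, X.arrow i x y → rk x < rk y) (h2 : ∀ x, X.IsHigh x → x = x₀)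
    (x : X.carrier) : ∃ L, X.Path L x₀ x := by
  induction hn : rk x using Nat.strong_induction_on generalizing x with
  | _ n ih =>
    by_cases hx : X.IsHigh x
    · exact ⟨[], (h2 x hx).symm⟩
    · unfold IsHigh at hx
      push Not at hx
      obtain ⟨i, hi⟩ := hx
      obtain ⟨y, hy⟩ := X.exists_of_eps (i := i) (y := x) (by omega)
      obtain ⟨L, hL⟩ := ih (rk y) (by have := h1 i y x hy; omega) y rfl
      exact ⟨i :: L, y, hL, hy⟩

/-- factoring an embedding -/
lemma exists_factor {X Y Z : Crystal.{0} D} {x₀ : X.carrier} (hg : ∀ x, ∃ L, X.Path L x₀ x)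
    (k : Emb X Z) (j : Emb Y Z) {y₀ : Y.carrier} (h : k x₀ = j y₀) :
    ∃ e : Emb X Y, e x₀ = y₀ := by
  have key : ∀ x, ∃ y, j y = k x := by
    intro x
    obtain ⟨L, hL⟩ := hg x
    have h1 := hL.map k
    rw [h] at h1
    obtain ⟨y, _, hy⟩ := h1.of_map
    exact ⟨y, hy⟩
  choose e he using key
  refine ⟨⟨e, ?_, ?_, ?_, ?_⟩, ?_⟩
  · intro x x' hxx
    apply k.inj
    rw [← he, ← he, hxx]
  · intro i x x' hxx
    rw [← j.arrow_iff, he, he]
    exact k.map_arrow hxx
  · intro i x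
    rw [← j.map_eps, he, k.map_eps]
  · intro i x
    rw [← j.map_phi, he, k.map_phi]
  · apply j.inj
    rw [he, h]

lemma triv_tensor {X Y : Crystal.{0} D} (h0 : ∀ x y : X.carrier, x = y)
    (he : ∀ i x, X.eps i x = 0) (hp : ∀ i x, X.phi i x = 0) :
    Nonempty (Emb (tensor X Y) Y) := by
  refine ⟨⟨fun p => p.2, ?_, ?_, ?_, ?_⟩⟩
  · rintro ⟨a, b⟩ ⟨c, d⟩ h
    exact Prod.ext (h0 _ _) h
  · intro i x y h
    rcases h with ⟨_, _, h3⟩ | ⟨_, h2, _⟩
    · exact h3
    · have := X.eps_arrow h2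
      rw [he] at this
      omega
  · intro i x
    rw [tensor_eps, he]; omega
  · intro i x
    rw [tensor_phi, he, hp]; omega

/-- a family without closure -/
structure Pre (D : CartanDatum K) where
  B : (K → ℕ) → Crystal.{0} D
  hw : ∀ la, (B la).carrier
  high : ∀ la, (B la).IsHigh (hw la)
  phi_hw : ∀ la i, (B la).phi i (hw la) = la i
  gen : ∀ la x, ∃ L, (B la).Path L (hw la) x

namespace Pre

variable (P : Pre D) (S : Crystal.{0} D)

lemma eq_hw {P : Pre D} {la : K → ℕ} {x : (P.B la).carrier} (h : (P.B la).IsHigh x) :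
    x = P.hw la := by
  obtain ⟨L, hL⟩ := P.gen la x
  exact (hL.high_nil h).2.symm

/-- iterated tensor products with `S` -/
def T (μ : K → ℕ) : ℕ → Crystal.{0} D
  | 0 => P.B μ
  | n + 1 => tensor S (T μ n)

variable {P S}

/-- the hypothesis on `S` -/
def Step (P : Pre D) (S : Crystal.{0} D) : Prop :=
  ∀ (μ : K → ℕ) (s : S.carrier), (tensor S (P.B μ)).IsHigh (s, P.hw μ) →
    ∃ (ν : K → ℕ) (j : Emb (P.B ν) (tensor S (P.B μ))), j (P.hw ν) = (s, P.hw μ)

lemma T_high (hS : Step P S) (μ : K → ℕ) : ∀ (n : ℕ) (z : (P.T S μ n).carrier),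
    (P.T S μ n).IsHigh z → ∃ (ν : K → ℕ) (j : Emb (P.B ν) (P.T S μ n)), j (P.hw ν) = z := by
  intro n
  induction n with
  | zero =>
    intro z hz
    exact ⟨μ, Emb.id _, (eq_hw hz).symm⟩
  | succ n ih =>
    rintro ⟨s, t⟩ hz
    obtain ⟨ν', j, hj⟩ := ih t (fun i => by
      have : (P.T S μ n).eps i t + (S.eps i s - (P.T S μ n).phi i t) = 0 := hz i
      omega)
    subst hj
    obtain ⟨ν, k, hk⟩ := hS ν' s (fun i => by
      have h1 : (P.T S μ n).eps i (j (P.hw ν')) +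
        (S.eps i s - (P.T S μ n).phi i (j (P.hw ν'))) = 0 := hz i
      rw [j.map_eps, j.map_phi] at h1
      exact h1)
    refine ⟨ν, ((Emb.id S).prod j).comp k, ?_⟩
    rw [Emb.comp_apply, hk]
    rfl

/-- reassociation -/
lemma T_tensor (h0 : ∀ x y : (P.B 0).carrier, x = y) (μ : K → ℕ) : ∀ n : ℕ,
    Nonempty (Emb (tensor (P.T S 0 n) (P.B μ)) (P.T S μ n)) := by
  intro n
  induction n with
  | zero =>
    exact triv_tensor h0 (fun i x => by rw [h0 x (P.hw 0)]; exact P.high 0 i)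
      (fun i x => by rw [h0 x (P.hw 0)]; exact P.phi_hw 0 i)
  | succ n ih =>
    obtain ⟨e⟩ := ih
    exact ⟨((Emb.id S).prod e).comp (Emb.assoc S (P.T S 0 n) (P.B μ))⟩

/-- **closure** -/
theorem closed (hS : Step P S) (h0 : ∀ x y : (P.B 0).carrier, x = y)
    (hT : ∀ la, ∃ n, Nonempty (Emb (P.B la) (P.T S 0 n)))
    (la μ : K → ℕ) (z : (tensor (P.B la) (P.B μ)).carrier)
    (hz : (tensor (P.B la) (P.B μ)).IsHigh z) :
    ∃ (ν : K → ℕ) (j : Emb (P.B ν) (tensor (P.B la) (P.B μ))), j (P.hw ν) = z := by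
  obtain ⟨n, ⟨e⟩⟩ := hT la
  obtain ⟨f⟩ := T_tensor (S := S) h0 μ n
  set J := f.comp (e.prod (Emb.id (P.B μ))) with hJ
  obtain ⟨ν, k, hk⟩ := T_high hS μ n (J z) (fun i => by rw [J.map_eps]; exact hz i)
  obtain ⟨j, hj⟩ := exists_factor (P.gen ν) k J hk
  exact ⟨ν, j, hj⟩

/-- the resulting family -/
def toFamily (hS : Step P S) (h0 : ∀ x y : (P.B 0).carrier, x = y)
    (hT : ∀ la, ∃ n, Nonempty (Emb (P.B la) (P.T S 0 n))) : Family.{0} D where
  B := P.B
  hw := P.hw
  high := P.high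
  phi_hw := P.phi_hw
  gen := P.gen
  closed := closed hS h0 hT

end Pre

end Pool.Agent.H78R2.Crys
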