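import Pool.Agent.H78R2.Crys.Defs

/-!
Cartan matrices of finite type, weights, simple roots, the Weyl group as a Coxeter group and its
action on the weight lattice.
-/

set_option autoImplicit false

namespace Pool.Agent.H78R2.Crys

open scoped BigOperators

variable {I : Type} [Fintype I] [DecidableEq I]

namespace CartanDatum

variable (C : CartanDatum I)

lemma alpha_self (i : I) : C.alpha i i = 2 := C.diag i

lemma alpha_nonpos {i j : I} (h : i ≠ j) : C.alpha i j ≤ 0 := C.nonpos j i (Ne.symm h)

/-- The simple roots are linearly independent. -/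
lemma sum_alpha_eq_zero {n : I → ℤ} (h : ∀ j, ∑ i, n i * C.alpha i j = 0) : n = 0 := by
  obtain ⟨d, hd, hs, hp⟩ := C.posdef
  by_contra hn
  have h1 := hp n hn
  have h2 : ∑ i, ∑ j, d i * C.A i j * n i * n j = 0 := by
    apply Finset.sum_eq_zero
    intro i _
    have h3 := h i
    have h4 : ∑ j, d i * C.A i j * n i * n j = d i * n i * ∑ j, n j * C.alpha j i := by
      rw [Finset.mul_sum]
      apply Finset.sum_congr rfl
      intro j _
      rw [alpha_apply]; ring
    rw [h4, h3, mul_zero]
  omega

@[simp] lemma act_simple (i : I) : C.act (C.cs.simple i) = C.refl i :=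
  C.cs.lift_apply_simple C.liftable i

lemma act_simple_mul (i : I) (w : C.W) (x : I → ℤ) :
    C.act (C.cs.simple i * w) x = C.refl i (C.act w x) := by
  rw [map_mul, Module.End.mul_apply, act_simple]

lemma act_inv_act (w : C.W) (x : I → ℤ) : C.act w⁻¹ (C.act w x) = x := by
  rw [← Module.End.mul_apply, ← map_mul, inv_mul_cancel, map_one, Module.End.one_apply]

lemma act_act_inv (w : C.W) (x : I → ℤ) : C.act w (C.act w⁻¹ x) = x := by
  rw [← Module.End.mul_apply, ← map_mul, mul_inv_cancel, map_one, Module.End.one_apply]

/-- sum of the simple roots of a word -/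
def wsum (L : List I) : I → ℤ := (L.map C.alpha).sum

@[simp] lemma wsum_nil : C.wsum [] = 0 := rfl

@[simp] lemma wsum_cons (i : I) (L : List I) : C.wsum (i :: L) = C.alpha i + C.wsum L := by
  simp [wsum]

lemma wsum_append (L L' : List I) : C.wsum (L ++ L') = C.wsum L + C.wsum L' := by
  simp [wsum]

lemma wsum_apply (L : List I) (j : I) : C.wsum L j = ∑ i, (L.count i : ℤ) * C.alpha i j := by
  induction L with
  | nil => simp
  | cons k L ih =>
    rw [wsum_cons, Pi.add_apply, ih]
    have h : ∀ i, (((k :: L).count i : ℕ) : ℤ) * C.alpha i j =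
        (if i = k then C.alpha i j else 0) + (L.count i : ℤ) * C.alpha i j := by
      intro i
      rw [List.count_cons]
      by_cases hik : i = k
      · subst hik; simp; ring
      · rw [if_neg (by simpa using Ne.symm hik), if_neg hik]; simp
    simp only [h]
    rw [Finset.sum_add_distrib]
    simp

lemma count_eq_of_wsum {L L' : List I} (h : C.wsum L = C.wsum L') (i : I) :
    L.count i = L'.count i := by
  have h1 : (fun i => (L.count i : ℤ) - L'.count i) = 0 := by
    apply C.sum_alpha_eq_zero
    intro j
    have h2 := congrFun h j
    rw [wsum_apply, wsum_apply] at h2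
    simp only [sub_mul, Finset.sum_sub_distrib]
    omega
  have h3 := congrFun h1 i
  simp only [Pi.zero_apply] at h3
  omega

lemma length_eq_of_wsum {L L' : List I} (h : C.wsum L = C.wsum L') : L.length = L'.length := by
  have h1 : ∀ M : List I, M.length = ∑ i, M.count i := by
    intro M
    rw [← Multiset.coe_card, ← Multiset.toFinset_sum_count_eq]
    apply Finset.sum_subset_zero_on_sdiff (Finset.subset_univ _)
    · intro x hx
      simp only [Finset.mem_sdiff, Finset.mem_univ, true_and, Multiset.mem_toFinset,
        Multiset.mem_coe] at hx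
      exact List.count_eq_zero.2 hx
    · intro x _
      simp
  rw [h1, h1]
  exact Finset.sum_congr rfl fun i _ => C.count_eq_of_wsum h i

lemma wsum_le_two (L : List I) (j : I) : C.wsum L j ≤ 2 * L.length := by
  induction L with
  | nil => simp
  | cons i L ih =>
    rw [wsum_cons, Pi.add_apply, List.length_cons]
    have : C.alpha i j ≤ 2 := by
      by_cases h : i = j
      · subst h; rw [C.alpha_self]
      · have := C.alpha_nonpos h; omega
    push_cast
    omega

end CartanDatum

end Pool.Agent.H78R2.Crys
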