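import Pool.Agent.H78R2.Crys.Build

/-!
The closed family for the Cartan matrix `A_2`, in string coordinates
`F_1^a F_2^b F_1^c b_λ`.
-/

set_option autoImplicit false
set_option linter.unusedSectionVars false

namespace Pool.Agent.H78R2.Crys

open Crystal

namespace A2

variable (D : CartanDatum Bool) (h01 : D.A false true = -1) (h10 : D.A true false = -1)

/-- string coordinates -/
def Str3 (nu : Bool → ℕ) (p : ℕ × ℕ × ℕ) : Prop :=
  p.2.2 ≤ p.2.1 ∧ p.2.2 ≤ nu false ∧ p.2.1 ≤ nu true + p.2.2 ∧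
    p.1 + 2 * p.2.2 ≤ nu false + p.2.1

/-- the crystal `B_ν` -/
@[reducible] def Bn (nu : Bool → ℕ) : Crystal.{0} D where
  carrier := {p : ℕ × ℕ × ℕ // Str3 nu p}
  arrow i p q := match i with
    | false => q.1.1 = p.1.1 + 1 ∧ q.1.2.1 = p.1.2.1 ∧ q.1.2.2 = p.1.2.2
    | true => (p.1.2.1 < p.1.1 + p.1.2.2 ∧ q.1.1 + 1 = p.1.1 ∧ q.1.2.1 = p.1.2.1 + 1 ∧
        q.1.2.2 = p.1.2.2 + 1) ∨
      (p.1.1 + p.1.2.2 ≤ p.1.2.1 ∧ q.1.1 = p.1.1 ∧ q.1.2.1 = p.1.2.1 + 1 ∧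
        q.1.2.2 = p.1.2.2)
  eps i p := match i with
    | false => p.1.1
    | true => max p.1.2.2 (p.1.2.1 - p.1.1)
  phi i p := match i with
    | false => nu false + p.1.2.1 - p.1.1 - 2 * p.1.2.2
    | true => nu true + p.1.1 + p.1.2.2 + max p.1.2.2 (p.1.2.1 - p.1.1) - 2 * p.1.2.1
  arrow_fun := by
    rintro i ⟨⟨a, b, c⟩, hp⟩ ⟨⟨a', b', c'⟩, hq⟩ ⟨⟨a'', b'', c''⟩, hq'⟩ h h'
    cases i <;>
    · simp only at h h'
      simp only [Subtype.mk.injEq, Prod.mk.injEq]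
      omega
  arrow_inj := by
    rintro i ⟨⟨a, b, c⟩, hp⟩ ⟨⟨a', b', c'⟩, hq⟩ ⟨⟨a'', b'', c''⟩, hq'⟩ h h'
    cases i <;>
    · simp only at h h'
      simp only [Subtype.mk.injEq, Prod.mk.injEq]
      omega
  exists_of_phi := by
    rintro i ⟨⟨a, b, c⟩, hp⟩ h
    unfold Str3 at hp
    simp only at hp
    cases i
    · simp only at h
      exact ⟨⟨(a + 1, b, c), by unfold Str3; simp only; omega⟩, rfl, rfl, rfl⟩
    · simp only at h
      by_cases hc : b < a + c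
      · exact ⟨⟨(a - 1, b + 1, c + 1), by unfold Str3; simp only; omega⟩,
          Or.inl ⟨hc, by simp only; omega, rfl, rfl⟩⟩
      · exact ⟨⟨(a, b + 1, c), by unfold Str3; simp only; omega⟩,
          Or.inr ⟨by simp only; omega, rfl, rfl, rfl⟩⟩
  exists_of_eps := by
    rintro i ⟨⟨a, b, c⟩, hp⟩ h
    unfold Str3 at hp
    simp only at hp
    cases i
    · simp only at h
      exact ⟨⟨(a - 1, b, c), by unfold Str3; simp only; omega⟩, by simp only; omega, rfl, rfl⟩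
    · simp only at h
      by_cases hc : b ≤ a + c
      · exact ⟨⟨(a + 1, b - 1, c - 1), by unfold Str3; simp only; omega⟩,
          Or.inl ⟨by simp only; omega, rfl, by simp only; omega, by simp only; omega⟩⟩
      · exact ⟨⟨(a, b - 1, c), by unfold Str3; simp only; omega⟩,
          Or.inr ⟨by simp only; omega, rfl, by simp only; omega, rfl⟩⟩
  eps_arrow := by
    rintro i ⟨⟨a, b, c⟩, hp⟩ ⟨⟨a', b', c'⟩, hq⟩ h
    unfold Str3 at hp hq
    simp only at hp hq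
    cases i <;>
    · simp only at h ⊢
      omega
  phi_arrow := by
    rintro i ⟨⟨a, b, c⟩, hp⟩ ⟨⟨a', b', c'⟩, hq⟩ h
    unfold Str3 at hp hq
    simp only at hp hq
    cases i <;>
    · simp only at h ⊢
      omega
  weight_arrow := by
    rintro i ⟨⟨a, b, c⟩, hp⟩ ⟨⟨a', b', c'⟩, hq⟩ h j
    have h00 := D.diag false
    have h11 := D.diag true
    unfold Str3 at hp hq
    simp only at hp hq
    cases i <;> cases j <;>
    · simp only at h ⊢
      first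
        | rw [h00]; omega
        | rw [h11]; omega
        | rw [h01]; omega
        | rw [h10]; omega

/-- the highest weight element -/
def hwn (nu : Bool → ℕ) : (Bn D h01 h10 nu).carrier :=
  ⟨(0, 0, 0), by unfold Str3; simp⟩

variable (nu : Bool → ℕ)

lemma eps_false (p : (Bn D h01 h10 nu).carrier) : (Bn D h01 h10 nu).eps false p = p.1.1 := rfl
lemma eps_true (p : (Bn D h01 h10 nu).carrier) :
    (Bn D h01 h10 nu).eps true p = max p.1.2.2 (p.1.2.1 - p.1.1) := rfl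
lemma phi_false (p : (Bn D h01 h10 nu).carrier) :
    (Bn D h01 h10 nu).phi false p = nu false + p.1.2.1 - p.1.1 - 2 * p.1.2.2 := rfl
lemma phi_true (p : (Bn D h01 h10 nu).carrier) :
    (Bn D h01 h10 nu).phi true p =
      nu true + p.1.1 + p.1.2.2 + max p.1.2.2 (p.1.2.1 - p.1.1) - 2 * p.1.2.1 := rfl
lemma arrow_false (p q : (Bn D h01 h10 nu).carrier) :
    (Bn D h01 h10 nu).arrow false p q ↔
      q.1.1 = p.1.1 + 1 ∧ q.1.2.1 = p.1.2.1 ∧ q.1.2.2 = p.1.2.2 := Iff.rfl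
lemma arrow_true (p q : (Bn D h01 h10 nu).carrier) :
    (Bn D h01 h10 nu).arrow true p q ↔
      (p.1.2.1 < p.1.1 + p.1.2.2 ∧ q.1.1 + 1 = p.1.1 ∧ q.1.2.1 = p.1.2.1 + 1 ∧
        q.1.2.2 = p.1.2.2 + 1) ∨
      (p.1.1 + p.1.2.2 ≤ p.1.2.1 ∧ q.1.1 = p.1.1 ∧ q.1.2.1 = p.1.2.1 + 1 ∧
        q.1.2.2 = p.1.2.2) := Iff.rfl

lemma eq_hwn (p : (Bn D h01 h10 nu).carrier) (h : (Bn D h01 h10 nu).IsHigh p) :
    p = hwn D h01 h10 nu := by
  have h1 := h false
  have h2 := h true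
  rw [eps_false] at h1
  rw [eps_true] at h2
  refine Subtype.ext (Prod.ext h1 (Prod.ext ?_ ?_))
  · simp only [hwn]; omega
  · simp only [hwn]; omega

/-- the family, without closure -/
def pre : Pre D where
  B := Bn D h01 h10
  hw := hwn D h01 h10
  high la i := by cases i <;> rfl
  phi_hw la i := by cases i <;> rfl
  gen la x := gen_of (X := Bn D h01 h10 la) (fun p => p.1.1 + p.1.2.1 + p.1.2.2) (by
    rintro i ⟨⟨a, b, c⟩, hp⟩ ⟨⟨a', b', c'⟩, hq⟩ h
    cases i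
    · rw [arrow_false] at h
      simp only at h ⊢
      omega
    · rw [arrow_true] at h
      simp only at h ⊢
      omega) (eq_hwn D h01 h10 la) x

/-- the three element crystal -/
@[reducible] def S3 : Crystal.{0} D where
  carrier := {k : ℕ // k ≤ 2}
  arrow i p q := match i with
    | false => p.1 = 0 ∧ q.1 = 1
    | true => p.1 = 1 ∧ q.1 = 2
  eps i p := match i with
    | false => min p.1 (2 - p.1)
    | true => p.1 - 1
  phi i p := match i with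
    | false => 1 - p.1
    | true => min p.1 (2 - p.1)
  arrow_fun := by
    rintro i ⟨a, hp⟩ ⟨a', hq⟩ ⟨a'', hq'⟩ h h'
    cases i <;>
    · simp only at h h'
      simp only [Subtype.mk.injEq]
      omega
  arrow_inj := by
    rintro i ⟨a, hp⟩ ⟨a', hq⟩ ⟨a'', hq'⟩ h h'
    cases i <;>
    · simp only at h h'
      simp only [Subtype.mk.injEq]
      omega
  exists_of_phi := by
    rintro i ⟨a, hp⟩ h
    cases i
    · simp only at h
      exact ⟨⟨1, by omega⟩, by simp only; omega, rfl⟩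
    · simp only at h
      exact ⟨⟨2, by omega⟩, by simp only; omega, rfl⟩
  exists_of_eps := by
    rintro i ⟨a, hp⟩ h
    cases i
    · simp only at h
      exact ⟨⟨0, by omega⟩, rfl, by simp only; omega⟩
    · simp only at h
      exact ⟨⟨1, by omega⟩, rfl, by simp only; omega⟩
  eps_arrow := by
    rintro i ⟨a, hp⟩ ⟨a', hq⟩ h
    cases i <;>
    · simp only at h ⊢
      omega
  phi_arrow := by
    rintro i ⟨a, hp⟩ ⟨a', hq⟩ h
    cases i <;>
    · simp only at h ⊢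
      omega
  weight_arrow := by
    rintro i ⟨a, hp⟩ ⟨a', hq⟩ h j
    have h00 := D.diag false
    have h11 := D.diag true
    cases i <;> cases j <;>
    · simp only at h ⊢
      first
        | rw [h00]; omega
        | rw [h11]; omega
        | rw [h01]; omega
        | rw [h10]; omega

lemma S_eps_false (p : (S3 D h01 h10).carrier) :
    (S3 D h01 h10).eps false p = min p.1 (2 - p.1) := rfl
lemma S_eps_true (p : (S3 D h01 h10).carrier) : (S3 D h01 h10).eps true p = p.1 - 1 := rfl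
lemma S_phi_false (p : (S3 D h01 h10).carrier) : (S3 D h01 h10).phi false p = 1 - p.1 := rfl
lemma S_phi_true (p : (S3 D h01 h10).carrier) :
    (S3 D h01 h10).phi true p = min p.1 (2 - p.1) := rfl
lemma S_arrow_false (p q : (S3 D h01 h10).carrier) :
    (S3 D h01 h10).arrow false p q ↔ p.1 = 0 ∧ q.1 = 1 := Iff.rfl
lemma S_arrow_true (p q : (S3 D h01 h10).carrier) :
    (S3 D h01 h10).arrow true p q ↔ p.1 = 1 ∧ q.1 = 2 := Iff.rfl

/-- the inequalities of string coordinates -/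
def Nz (n0 n1 a b c : ℕ) : Prop := c ≤ b ∧ c ≤ n0 ∧ b ≤ n1 + c ∧ a + 2 * c ≤ n0 + b

/-- the arrow with label `2`, in coordinates -/
def Ar (a b c d e f : ℕ) : Prop :=
  (b < a + c ∧ d + 1 = a ∧ e = b + 1 ∧ f = c + 1) ∨ (a + c ≤ b ∧ d = a ∧ e = b + 1 ∧ f = c)

/-- the function `phi` for the label `2` in coordinates -/
def Ph (n1 a b c : ℕ) : ℕ := n1 + a + c + max c (b - a) - 2 * b

/-- A criterion for embeddings into `S ⊗ B_μ`. -/
lemma exists_emb_rel (mu : Bool → ℕ) (R : ℕ → ℕ → ℕ → ℕ → ℕ → ℕ → ℕ → Prop)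
    (ex : ∀ a b c, Nz (nu false) (nu true) a b c → ∃ k a' b' c', k ≤ 2 ∧
      Nz (mu false) (mu true) a' b' c' ∧ R a b c k a' b' c')
    (inj : ∀ a b c d e f k a' b' c', Nz (nu false) (nu true) a b c →
      Nz (nu false) (nu true) d e f → R a b c k a' b' c' → R d e f k a' b' c' →
      a = d ∧ b = e ∧ c = f)
    (ar0 : ∀ a b c k a' b' c' l d' e' f', Nz (nu false) (nu true) a b c →
      Nz (nu false) (nu true) (a + 1) b c → Nz (mu false) (mu true) a' b' c' →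
      Nz (mu false) (mu true) d' e' f' → R a b c k a' b' c' → R (a + 1) b c l d' e' f' →
      (min k (2 - k) < mu false + b' - a' - 2 * c' ∧ l = k ∧ d' = a' + 1 ∧ e' = b' ∧ f' = c') ∨
      (mu false + b' - a' - 2 * c' ≤ min k (2 - k) ∧ (k = 0 ∧ l = 1) ∧ d' = a' ∧ e' = b' ∧
        f' = c'))
    (ar1 : ∀ a b c d e f k a' b' c' l d' e' f', Nz (nu false) (nu true) a b c →
      Nz (nu false) (nu true) d e f → Ar a b c d e f → Nz (mu false) (mu true) a' b' c' →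
      Nz (mu false) (mu true) d' e' f' → R a b c k a' b' c' → R d e f l d' e' f' →
      (k - 1 < Ph (mu true) a' b' c' ∧ l = k ∧ Ar a' b' c' d' e' f') ∨
      (Ph (mu true) a' b' c' ≤ k - 1 ∧ (k = 1 ∧ l = 2) ∧ d' = a' ∧ e' = b' ∧ f' = c'))
    (eps0 : ∀ a b c k a' b' c', Nz (nu false) (nu true) a b c →
      Nz (mu false) (mu true) a' b' c' → R a b c k a' b' c' →
      a' + (min k (2 - k) - (mu false + b' - a' - 2 * c')) = a)
    (eps1 : ∀ a b c k a' b' c', Nz (nu false) (nu true) a b c →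
      Nz (mu false) (mu true) a' b' c' → R a b c k a' b' c' →
      max c' (b' - a') + ((k - 1) - Ph (mu true) a' b' c') = max c (b - a))
    (phi0 : ∀ a b c k a' b' c', Nz (nu false) (nu true) a b c →
      Nz (mu false) (mu true) a' b' c' → R a b c k a' b' c' → k ≤ 2 →
      (1 - k) + ((mu false + b' - a' - 2 * c') - min k (2 - k)) = nu false + b - a - 2 * c)
    (phi1 : ∀ a b c k a' b' c', Nz (nu false) (nu true) a b c →
      Nz (mu false) (mu true) a' b' c' → R a b c k a' b' c' → k ≤ 2 →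
      min k (2 - k) + (Ph (mu true) a' b' c' - (k - 1)) = Ph (nu true) a b c)
    (k₀ : ℕ) (h₀ : ∀ k a' b' c', R 0 0 0 k a' b' c' → k = k₀ ∧ a' = 0 ∧ b' = 0 ∧ c' = 0)
    (hk₀ : k₀ ≤ 2) :
    ∃ j : Emb (Bn D h01 h10 nu) (tensor (S3 D h01 h10) (Bn D h01 h10 mu)),
      j (hwn D h01 h10 nu) = (⟨k₀, hk₀⟩, hwn D h01 h10 mu) := by
  choose! fk fa fb fc hk hN hR using ex
  have hk' : ∀ p : (Bn D h01 h10 nu).carrier, fk p.1.1 p.1.2.1 p.1.2.2 ≤ 2 :=
    fun p => hk _ _ _ p.2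
  have hN' : ∀ p : (Bn D h01 h10 nu).carrier,
      Str3 mu (fa p.1.1 p.1.2.1 p.1.2.2, fb p.1.1 p.1.2.1 p.1.2.2, fc p.1.1 p.1.2.1 p.1.2.2) :=
    fun p => hN _ _ _ p.2
  refine ⟨⟨fun p => (⟨fk p.1.1 p.1.2.1 p.1.2.2, hk' p⟩,
    ⟨(fa p.1.1 p.1.2.1 p.1.2.2, fb p.1.1 p.1.2.1 p.1.2.2, fc p.1.1 p.1.2.1 p.1.2.2), hN' p⟩),
    ?_, ?_, ?_, ?_⟩, ?_⟩
  · rintro ⟨⟨a, b, c⟩, hp⟩ ⟨⟨d, e, f⟩, hq⟩ h
    have hp' : Nz (nu false) (nu true) a b c := hp
    have hq' : Nz (nu false) (nu true) d e f := hq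
    simp only [Prod.mk.injEq, Subtype.mk.injEq] at h
    obtain ⟨h1, h2, h3, h4⟩ := h
    have r1 := hR a b c hp'
    have r2 := hR d e f hq'
    rw [h1, h2, h3, h4] at r1
    obtain ⟨rfl, rfl, rfl⟩ := inj _ _ _ _ _ _ _ _ _ _ hp' hq' r1 r2
    rfl
  · rintro i ⟨⟨a, b, c⟩, hp⟩ ⟨⟨d, e, f⟩, hq⟩ h
    have hp' : Nz (nu false) (nu true) a b c := hp
    have hq' : Nz (nu false) (nu true) d e f := hq
    cases i
    · rw [arrow_false] at h
      obtain ⟨h1, h2, h3⟩ := h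
      simp only at h1 h2 h3
      subst h1 h2 h3
      rcases ar0 a _ _ _ _ _ _ _ _ _ _ hp' hq' (hN _ _ _ hp') (hN _ _ _ hq') (hR _ _ _ hp')
        (hR _ _ _ hq') with ⟨g1, g2, g3, g4, g5⟩ | ⟨g1, g2, g3, g4, g5⟩
      · left
        exact ⟨g1, Subtype.ext g2, g3, g4, g5⟩
      · right
        exact ⟨g1, g2, Subtype.ext (Prod.ext g3 (Prod.ext g4 g5))⟩
    · have h' : Ar a b c d e f := h
      rcases ar1 a b c d e f _ _ _ _ _ _ _ _ hp' hq' h' (hN _ _ _ hp') (hN _ _ _ hq')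
        (hR _ _ _ hp') (hR _ _ _ hq') with ⟨g1, g2, g3⟩ | ⟨g1, g2, g3, g4, g5⟩
      · left
        exact ⟨g1, Subtype.ext g2, g3⟩
      · right
        exact ⟨g1, g2, Subtype.ext (Prod.ext g3 (Prod.ext g4 g5))⟩
  · rintro i ⟨⟨a, b, c⟩, hp⟩
    have hp' : Nz (nu false) (nu true) a b c := hp
    cases i
    · exact eps0 _ _ _ _ _ _ _ hp' (hN _ _ _ hp') (hR _ _ _ hp')
    · exact eps1 _ _ _ _ _ _ _ hp' (hN _ _ _ hp') (hR _ _ _ hp')
  · rintro i ⟨⟨a, b, c⟩, hp⟩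
    have hp' : Nz (nu false) (nu true) a b c := hp
    cases i
    · exact phi0 _ _ _ _ _ _ _ hp' (hN _ _ _ hp') (hR _ _ _ hp') (hk _ _ _ hp')
    · exact phi1 _ _ _ _ _ _ _ hp' (hN _ _ _ hp') (hR _ _ _ hp') (hk _ _ _ hp')
  · have h1 : Nz (nu false) (nu true) 0 0 0 := (hwn D h01 h10 nu).2
    obtain ⟨g1, g2, g3, g4⟩ := h₀ _ _ _ _ (hR _ _ _ h1)
    exact Prod.ext (Subtype.ext g1) (Subtype.ext (Prod.ext g2 (Prod.ext g3 g4)))

/-- `b_ν ↦ 2 ⊗ b_μ` with `ν = μ - ω_2` (elements of `S` are `0, 1, 2`) -/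
lemma emb2 (mu : Bool → ℕ) (h0 : nu false = mu false) (h1 : nu true + 1 = mu true) :
    ∃ j : Emb (Bn D h01 h10 nu) (tensor (S3 D h01 h10) (Bn D h01 h10 mu)),
      j (hwn D h01 h10 nu) = (⟨2, le_rfl⟩, hwn D h01 h10 mu) := by
  refine exists_emb_rel D h01 h10 nu mu
    (fun a b c k a' b' c' => k = 2 ∧ a' = a ∧ b' = b ∧ c' = c) ?_ ?_ ?_ ?_ ?_ ?_ ?_ ?_ 2 ?_ le_rfl
  all_goals
    try simp only [Nz, Ar, Ph, h0, ← h1]
  · intro a b c h
    exact ⟨2, a, b, c, le_rfl, by omega, rfl, rfl, rfl, rfl⟩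
  all_goals
    intros
    omega

/-- `b_ν ↦ 1 ⊗ b_μ` with `ν = μ - ω_1 + ω_2` -/
lemma emb1 (mu : Bool → ℕ) (h0 : nu false + 1 = mu false) (h1 : nu true = mu true + 1) :
    ∃ j : Emb (Bn D h01 h10 nu) (tensor (S3 D h01 h10) (Bn D h01 h10 mu)),
      j (hwn D h01 h10 nu) = (⟨1, by omega⟩, hwn D h01 h10 mu) := by
  refine exists_emb_rel D h01 h10 nu mu
    (fun a b c k a' b' c' => (b ≤ mu true + c ∧ k = 1 ∧ a' = a ∧ b' = b ∧ c' = c) ∨
      (mu true + c < b ∧ k = 2 ∧ a' = a ∧ b' + 1 = b ∧ c' = c))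
    ?_ ?_ ?_ ?_ ?_ ?_ ?_ ?_ 1 ?_ (by omega)
  all_goals
    try simp only [Nz, Ar, Ph, ← h0, h1]
  · intro a b c h
    by_cases hc : b ≤ mu true + c
    · exact ⟨1, a, b, c, by omega, by omega, Or.inl ⟨hc, rfl, rfl, rfl, rfl⟩⟩
    · exact ⟨2, a, b - 1, c, by omega, by omega,
        Or.inr ⟨by omega, rfl, rfl, by omega, rfl⟩⟩
  all_goals
    intros
    casesm* _ ∨ _, _ ∧ _
    all_goals omega

/-- `b_ν ↦ 0 ⊗ b_μ` with `ν = μ + ω_1` -/
lemma emb0 (mu : Bool → ℕ) (h0 : nu false = mu false + 1) (h1 : nu true = mu true) :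
    ∃ j : Emb (Bn D h01 h10 nu) (tensor (S3 D h01 h10) (Bn D h01 h10 mu)),
      j (hwn D h01 h10 nu) = (⟨0, by omega⟩, hwn D h01 h10 mu) := by
  refine exists_emb_rel D h01 h10 nu mu
    (fun a b c k a' b' c' =>
      (c ≤ mu false ∧ a + 2 * c ≤ mu false + b ∧ k = 0 ∧ a' = a ∧ b' = b ∧ c' = c) ∨
      (c ≤ mu false ∧ mu false + b < a + 2 * c ∧ k = 1 ∧ a' + 1 = a ∧ b' = b ∧ c' = c) ∨
      (mu false < c ∧ b ≤ mu false + mu true ∧ k = 1 ∧ a' = a ∧ b' = b ∧ c' + 1 = c) ∨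
      (mu false < c ∧ mu false + mu true < b ∧ k = 2 ∧ a' = a ∧ b' + 1 = b ∧ c' + 1 = c))
    ?_ ?_ ?_ ?_ ?_ ?_ ?_ ?_ 0 ?_ (by omega)
  all_goals
    try simp only [Nz, Ar, Ph, h0, h1]
  · intro a b c h
    by_cases hc : c ≤ mu false
    · by_cases hc' : a + 2 * c ≤ mu false + b
      · exact ⟨0, a, b, c, by omega, by omega, Or.inl ⟨hc, hc', rfl, rfl, rfl, rfl⟩⟩
      · exact ⟨1, a - 1, b, c, by omega, by omega,
          Or.inr (Or.inl ⟨hc, by omega, rfl, by omega, rfl, rfl⟩)⟩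
    · by_cases hc' : b ≤ mu false + mu true
      · exact ⟨1, a, b, c - 1, by omega, by omega,
          Or.inr (Or.inr (Or.inl ⟨by omega, hc', rfl, rfl, rfl, by omega⟩))⟩
      · exact ⟨2, a, b - 1, c - 1, by omega, by omega,
          Or.inr (Or.inr (Or.inr ⟨by omega, by omega, rfl, rfl, by omega, by omega⟩))⟩
  all_goals
    intros
    casesm* _ ∨ _, _ ∧ _
    all_goals omega

/-- the hypothesis of the construction -/
lemma step : Pre.Step (pre D h01 h10) (S3 D h01 h10) := by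
  rintro mu ⟨s, hs⟩ hz
  have z0 := hz false
  have z1 := hz true
  have e1 : (Bn D h01 h10 mu).eps false (hwn D h01 h10 mu) +
    (min s (2 - s) - (mu false + 0 - 0 - 2 * 0)) = 0 := z0
  have e2 : (Bn D h01 h10 mu).eps true (hwn D h01 h10 mu) +
    ((s - 1) - (mu true + 0 + 0 + max 0 (0 - 0) - 2 * 0)) = 0 := z1
  have hs' : s = 0 ∨ s = 1 ∨ s = 2 := by omega
  rcases hs' with rfl | rfl | rfl
  · obtain ⟨j, hj⟩ := emb0 D h01 h10 (fun t => cond t (mu true) (mu false + 1)) mu rfl rfl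
    exact ⟨_, j, hj⟩
  · obtain ⟨j, hj⟩ := emb1 D h01 h10 (fun t => cond t (mu true + 1) (mu false - 1)) mu
      (by simp only [cond_false]; omega) rfl
    exact ⟨_, j, hj⟩
  · obtain ⟨j, hj⟩ := emb2 D h01 h10 (fun t => cond t (mu true - 1) (mu false)) mu rfl
      (by simp only [cond_true]; omega)
    exact ⟨_, j, hj⟩

lemma next {mu nu : Bool → ℕ} (h : ∃ n, Nonempty (Emb (Bn D h01 h10 mu)
    ((pre D h01 h10).T (S3 D h01 h10) 0 n)))
    (j : Emb (Bn D h01 h10 nu) (tensor (S3 D h01 h10) (Bn D h01 h10 mu))) :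
    ∃ n, Nonempty (Emb (Bn D h01 h10 nu) ((pre D h01 h10).T (S3 D h01 h10) 0 n)) := by
  obtain ⟨n, ⟨e⟩⟩ := h
  exact ⟨n + 1, ⟨((Emb.id (S3 D h01 h10)).prod e).comp j⟩⟩

lemma all_T (b a : ℕ) : ∃ n, Nonempty (Emb (Bn D h01 h10 (fun t => cond t b a))
    ((pre D h01 h10).T (S3 D h01 h10) 0 n)) := by
  induction b generalizing a with
  | zero =>
    induction a with
    | zero =>
      have : (fun t => cond t 0 0 : Bool → ℕ) = 0 := by funext t; cases t <;> rfl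
      rw [this]
      exact ⟨0, ⟨Emb.id _⟩⟩
    | succ a iha =>
      obtain ⟨j, _⟩ := emb0 D h01 h10 (fun t => cond t 0 (a + 1)) (fun t => cond t 0 a) rfl rfl
      exact next D h01 h10 iha j
  | succ b ihb =>
    induction a with
    | zero =>
      obtain ⟨j, _⟩ := emb1 D h01 h10 (fun t => cond t (b + 1) 0) (fun t => cond t b 1) rfl rfl
      exact next D h01 h10 (ihb 1) j
    | succ a iha =>
      obtain ⟨j, _⟩ := emb0 D h01 h10 (fun t => cond t (b + 1) (a + 1))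
        (fun t => cond t (b + 1) a) rfl rfl
      exact next D h01 h10 iha j

lemma B_zero (x y : (Bn D h01 h10 0).carrier) : x = y := by
  obtain ⟨⟨a, b, c⟩, hp⟩ := x
  obtain ⟨⟨d, e, f⟩, hq⟩ := y
  have hp' : c ≤ b ∧ c ≤ 0 ∧ b ≤ 0 + c ∧ a + 2 * c ≤ 0 + b := hp
  have hq' : f ≤ e ∧ f ≤ 0 ∧ e ≤ 0 + f ∧ d + 2 * f ≤ 0 + e := hq
  refine Subtype.ext (Prod.ext ?_ (Prod.ext ?_ ?_)) <;> simp only <;> omega

/-- the closed family -/
def fam : Family.{0} D :=
  (pre D h01 h10).toFamily (S := S3 D h01 h10) (step D h01 h10) (B_zero D h01 h10) (by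
    intro la
    have h := all_T D h01 h10 (la true) (la false)
    have : (fun t => cond t (la true) (la false) : Bool → ℕ) = la := by
      funext t; cases t <;> rfl
    rw [this] at h
    exact h)

lemma fam_B (la : Bool → ℕ) : (fam D h01 h10).B la = Bn D h01 h10 la := rfl

lemma fam_hw (la : Bool → ℕ) : (fam D h01 h10).hw la = hwn D h01 h10 la := rfl

end A2

end Pool.Agent.H78R2.Crys
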