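import Pool.Agent.H78R2.Crys.TypeA1A1
import Pool.Agent.H78R2.Crys.TypeA2

/-!
Criteria for components of crystals of types `A_1 × A_1` and `A_2`.
-/

set_option autoImplicit false
set_option linter.unusedSectionVars false

namespace Pool.Agent.H78R2.Crys

open Crystal

section generic

variable {K : Type} [Fintype K] [DecidableEq K] {D : CartanDatum K}

/-- a map compatible with arrows and `eps` is an embedding -/
lemma exists_emb_of_map (F : Family.{0} D) {nu : K → ℕ} {X : Crystal.{0} D}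
    (g : (F.B nu).carrier → X.carrier)
    (harr : ∀ i x y, (F.B nu).arrow i x y → X.arrow i (g x) (g y))
    (heps : ∀ i x, X.eps i (g x) = (F.B nu).eps i x)
    (hphi : ∀ i, X.phi i (g (F.hw nu)) = nu i) :
    ∃ e : Emb (F.B nu) X, ∀ x, e x = g x := by
  have hpath : ∀ (L : List K) (x : (F.B nu).carrier), (F.B nu).Path L (F.hw nu) x →
      X.Path L (g (F.hw nu)) (g x) := by
    intro L
    induction L with
    | nil => intro x h; rw [path_nil] at *; rw [h]
    | cons i L ih => rintro x ⟨y, hy, hyx⟩; exact ⟨g y, ih y hy, harr i y x hyx⟩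
  have key : ∀ (L : List K) (x y : (F.B nu).carrier), (F.B nu).Path L (F.hw nu) x →
      g x = g y → x = y := by
    intro L
    induction L with
    | nil =>
      intro x y h hxy
      rw [path_nil] at h
      subst h
      symm
      apply F.toWFam.eq_hw
      intro i
      have h1 := heps i y
      rw [← hxy, heps] at h1
      exact h1.symm.trans (F.high nu i)
    | cons i L ih =>
      rintro x y ⟨x', hx', hxx⟩ hxy
      have h1 := (F.B nu).eps_arrow hxx
      have h2 : (F.B nu).eps i y = (F.B nu).eps i x := by rw [← heps, ← hxy, heps]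
      obtain ⟨y', hy'⟩ := (F.B nu).exists_of_eps (i := i) (y := y) (by omega)
      have h3 := harr _ _ _ hxx
      have h4 := harr _ _ _ hy'
      rw [← hxy] at h4
      have h5 := ih x' y' hx' (X.arrow_inj h3 h4)
      subst h5
      exact (F.B nu).arrow_fun hxx hy'
  refine ⟨⟨g, ?_, fun h => harr _ _ _ h, heps, ?_⟩, fun x => rfl⟩
  · intro x y hxy
    obtain ⟨L, hL⟩ := F.gen nu x
    exact key L x y hL hxy
  · intro i x
    obtain ⟨L, hL⟩ := F.gen nu x
    have h1 := congrFun hL.wt i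
    have h2 := congrFun (hpath L x hL).wt i
    rw [Pi.sub_apply, wt_apply, wt_apply] at h1 h2
    rw [hphi, heps, heps, F.high] at h2
    rw [F.phi_hw, F.high] at h1
    omega

/-- normality from highest weight elements -/
lemma norm_of_high (F : Family.{0} D) {X : Crystal.{0} D} (rk : X.carrier → ℕ)
    (hrk : ∀ i x y, X.arrow i x y → rk x < rk y)
    (hh : ∀ x₀, X.IsHigh x₀ → ∃ (nu : K → ℕ) (e : Emb (F.B nu) X), e (F.hw nu) = x₀) :
    F.toWFam.Norm X := by
  intro x
  induction hn : rk x using Nat.strong_induction_on generalizing x with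
  | _ n ih =>
    by_cases hx : X.IsHigh x
    · obtain ⟨nu, e, he⟩ := hh x hx
      exact ⟨nu, e, F.hw nu, he⟩
    · unfold IsHigh at hx
      push Not at hx
      obtain ⟨i, hi⟩ := hx
      obtain ⟨y, hy⟩ := X.exists_of_eps (i := i) (y := x) (by omega)
      obtain ⟨nu, e, p, hp⟩ := ih (rk y) (by have := hrk i y x hy; omega) y rfl
      subst hp
      obtain ⟨q, _, hq⟩ := e.arrow_of hy
      exact ⟨nu, e, q, hq⟩

open Classical in
/-- the operator `F_i` as a total function -/
noncomputable def fn (X : Crystal.{0} D) (i : K) (x : X.carrier) : X.carrier :=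
  if h : ∃ y, X.arrow i x y then h.choose else x

lemma fn_arrow {X : Crystal.{0} D} {i : K} {x : X.carrier} (h : 0 < X.phi i x) :
    X.arrow i x (fn X i x) := by
  have h1 := X.exists_of_phi h
  unfold fn
  rw [dif_pos h1]
  exact h1.choose_spec

end generic

namespace A1A1

variable {D : CartanDatum Bool} (h01 : D.A false true = 0)

/-- criterion for type `A_1 × A_1` -/
lemma norm_of {X : Crystal.{0} D}
    (h1 : ∀ x y, X.arrow false x y → X.eps true y = X.eps true x)
    (h2 : ∀ x y, X.arrow true x y → X.eps false y = X.eps false x)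
    (h3 : ∀ x y z, X.arrow false x y → X.arrow true x z →
      ∃ w, X.arrow true y w ∧ X.arrow false z w) :
    (fam D h01).toWFam.Norm X := by
  have h10 : D.A true false = 0 := D.zero_symm h01
  have h1' : ∀ x y, X.arrow false x y → X.phi true y = X.phi true x := by
    intro x y h
    have a1 := h1 x y h
    have a2 := X.weight_arrow h true
    rw [h10] at a2
    omega
  have h2' : ∀ x y, X.arrow true x y → X.phi false y = X.phi false x := by
    intro x y h
    have a1 := h2 x y h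
    have a2 := X.weight_arrow h false
    rw [h01] at a2
    omega
  refine norm_of_high _ (fun x => X.eps false x + X.eps true x) ?_ ?_
  · intro i x y h
    cases i
    · have a1 := h1 x y h
      have a2 := X.eps_arrow h
      omega
    · have a1 := h2 x y h
      have a2 := X.eps_arrow h
      omega
  · intro x₀ hx₀
    set z : ℕ → X.carrier := fun a => (fn X false)^[a] x₀ with hz
    set y : ℕ → ℕ → X.carrier := fun a b => (fn X true)^[b] (z a) with hy
    have hz0 : z 0 = x₀ := rfl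
    have hzs : ∀ a, z (a + 1) = fn X false (z a) := fun a => Function.iterate_succ_apply' _ _ _
    have hys : ∀ a b, y a (b + 1) = fn X true (y a b) := fun a b =>
      Function.iterate_succ_apply' _ _ _
    have zp : ∀ a, a ≤ X.phi false x₀ → X.eps false (z a) = a ∧
        X.phi false (z a) + a = X.phi false x₀ ∧ X.eps true (z a) = 0 ∧
        X.phi true (z a) = X.phi true x₀ := by
      intro a
      induction a with
      | zero =>
        intro _
        rw [hz0]
        exact ⟨hx₀ false, rfl, hx₀ true, rfl⟩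
      | succ a ih =>
        intro ha
        obtain ⟨a1, a2, a3, a4⟩ := ih (by omega)
        have a5 : X.arrow false (z a) (z (a + 1)) := by
          rw [hzs]; exact fn_arrow (by omega)
        have a6 := X.eps_arrow a5
        have a7 := X.phi_arrow a5
        have a8 := h1 _ _ a5
        have a9 := h1' _ _ a5
        refine ⟨by omega, by omega, by omega, by omega⟩
    have yp : ∀ a b, a ≤ X.phi false x₀ → b ≤ X.phi true x₀ → X.eps false (y a b) = a ∧
        X.phi false (y a b) + a = X.phi false x₀ ∧ X.eps true (y a b) = b ∧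
        X.phi true (y a b) + b = X.phi true x₀ := by
      intro a b ha
      induction b with
      | zero =>
        intro _
        obtain ⟨a1, a2, a3, a4⟩ := zp a ha
        exact ⟨a1, a2, a3, a4⟩
      | succ b ih =>
        intro hb
        obtain ⟨a1, a2, a3, a4⟩ := ih (by omega)
        have a5 : X.arrow true (y a b) (y a (b + 1)) := by
          rw [hys]; exact fn_arrow (by omega)
        have a6 := X.eps_arrow a5
        have a7 := X.phi_arrow a5
        have a8 := h2 _ _ a5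
        have a9 := h2' _ _ a5
        refine ⟨by omega, by omega, by omega, by omega⟩
    have yt : ∀ a b, a ≤ X.phi false x₀ → b < X.phi true x₀ →
        X.arrow true (y a b) (y a (b + 1)) := by
      intro a b ha hb
      obtain ⟨a1, a2, a3, a4⟩ := yp a b ha hb.le
      rw [hys]
      exact fn_arrow (by omega)
    have yf : ∀ a b, a < X.phi false x₀ → b ≤ X.phi true x₀ →
        X.arrow false (y a b) (y (a + 1) b) := by
      intro a b ha
      induction b with
      | zero =>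
        intro _
        have a1 := zp a ha.le
        show X.arrow false (z a) (z (a + 1))
        rw [hzs]
        exact fn_arrow (by omega)
      | succ b ih =>
        intro hb
        obtain ⟨w, hw1, hw2⟩ := h3 _ _ _ (ih (by omega)) (yt a b ha.le (by omega))
        rw [X.arrow_fun hw1 (yt (a + 1) b (by omega) (by omega))] at hw2
        exact hw2
    set nu : Bool → ℕ := fun t => X.phi t x₀ with hnu
    obtain ⟨e, he⟩ := exists_emb_of_map (fam D h01) (nu := nu) (X := X)
      (fun p => y p.1.1 p.1.2) (by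
        rintro i ⟨⟨a, b⟩, hp⟩ ⟨⟨c, d⟩, hq⟩ h
        cases i
        · have h' : c = a + 1 ∧ d = b := h
          obtain ⟨rfl, rfl⟩ := h'
          exact yf a _ (by have : a + 1 ≤ X.phi false x₀ := hq.1; omega) hp.2
        · have h' : c = a ∧ d = b + 1 := h
          obtain ⟨rfl, rfl⟩ := h'
          exact yt _ b hp.1 (by have : b + 1 ≤ X.phi true x₀ := hq.2; omega)) (by
        rintro i ⟨⟨a, b⟩, hp⟩
        obtain ⟨a1, a2, a3, a4⟩ := yp a b hp.1 hp.2
        cases i
        · exact a1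
        · exact a3) (fun i => rfl)
    exact ⟨nu, e, he _⟩

/-- the converse -/
lemma of_norm {X : Crystal.{0} D} (hX : (fam D h01).toWFam.Norm X) :
    (∀ x y, X.arrow false x y → X.eps true y = X.eps true x) ∧
    (∀ x y z, X.arrow false x y → X.arrow true x z →
      ∃ w, X.arrow true y w ∧ X.arrow false z w) := by
  constructor
  · intro x y h
    obtain ⟨nu, e, p, rfl⟩ := hX x
    obtain ⟨q, hq, rfl⟩ := e.arrow_of h
    rw [e.map_eps, e.map_eps]
    have h' : q.1.1 = p.1.1 + 1 ∧ q.1.2 = p.1.2 := hq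
    exact h'.2
  · intro x y z h h'
    obtain ⟨nu, e, p, rfl⟩ := hX x
    obtain ⟨q, hq, rfl⟩ := e.arrow_of h
    obtain ⟨r, hr, rfl⟩ := e.arrow_of h'
    have h1 : q.1.1 = p.1.1 + 1 ∧ q.1.2 = p.1.2 := hq
    have h2 : r.1.1 = p.1.1 ∧ r.1.2 = p.1.2 + 1 := hr
    have h3 : q.1.1 ≤ nu false := q.2.1
    have h4 : r.1.2 ≤ nu true := r.2.2
    refine ⟨e ⟨(q.1.1, r.1.2), h3, h4⟩, e.map_arrow ?_, e.map_arrow ?_⟩
    · show q.1.1 = q.1.1 ∧ r.1.2 = q.1.2 + 1
      omega
    · show q.1.1 = r.1.1 + 1 ∧ r.1.2 = r.1.2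
      omega

end A1A1

namespace A2

variable {D : CartanDatum Bool} (h01 : D.A false true = -1) (h10 : D.A true false = -1)

lemma comp00 {X : Crystal.{0} D} {x₀ : X.carrier} (h : X.IsHigh x₀)
    (p0 : X.phi false x₀ = 0) (p1 : X.phi true x₀ = 0) :
    ∃ (nu : Bool → ℕ) (e : Emb ((fam D h01 h10).B nu) X), e ((fam D h01 h10).hw nu) = x₀ := by
  obtain ⟨e, he⟩ := exists_emb_of_map (fam D h01 h10) (nu := 0) (X := X) (fun _ => x₀) (by
      intro i x y hxy
      have h1 := ((fam D h01 h10).B 0).eps_arrow hxy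
      rw [show x = y from B_zero D h01 h10 x y] at h1
      omega) (by
      intro i x
      rw [show x = (fam D h01 h10).hw 0 from B_zero D h01 h10 _ _, (fam D h01 h10).high 0 i]
      exact h i) (by intro i; cases i; exacts [p0, p1])
  exact ⟨0, e, he _⟩

lemma comp10 {X : Crystal.{0} D} {x₀ x₁ x₂ : X.carrier} (h : X.IsHigh x₀)
    (p0 : X.phi false x₀ = 1) (p1 : X.phi true x₀ = 0) (a1 : X.arrow false x₀ x₁)
    (a2 : X.arrow true x₁ x₂) (e1 : X.eps true x₁ = 0) (e2 : X.eps false x₂ = 0) :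
    ∃ (nu : Bool → ℕ) (e : Emb ((fam D h01 h10).B nu) X), e ((fam D h01 h10).hw nu) = x₀ := by
  set nu : Bool → ℕ := fun t => cond t 0 1 with hnu
  have hc : ∀ a b c, Nz (nu false) (nu true) a b c → (a = 0 ∧ b = 0 ∧ c = 0) ∨
      (a = 1 ∧ b = 0 ∧ c = 0) ∨ (a = 0 ∧ b = 1 ∧ c = 1) := by
    intro a b c hp
    have hp' : c ≤ b ∧ c ≤ 1 ∧ b ≤ 0 + c ∧ a + 2 * c ≤ 1 + b := hp
    omega
  have f1 := X.eps_arrow a1
  have f2 := X.eps_arrow a2
  have g0 := h false
  have g1 := h true
  obtain ⟨e, he⟩ := exists_emb_of_map (fam D h01 h10) (nu := nu) (X := X)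
    (fun p => if p.1.2.1 = 1 then x₂ else if p.1.1 = 1 then x₁ else x₀) (by
      rintro i ⟨⟨a, b, c⟩, hp⟩ ⟨⟨d, e, f⟩, hq⟩ h
      cases i
      · have h' : d = a + 1 ∧ e = b ∧ f = c := h
        rcases hc a b c hp with ⟨rfl, rfl, rfl⟩ | ⟨rfl, rfl, rfl⟩ | ⟨rfl, rfl, rfl⟩ <;>
        rcases hc d e f hq with ⟨rfl, rfl, rfl⟩ | ⟨rfl, rfl, rfl⟩ | ⟨rfl, rfl, rfl⟩ <;>
        first
          | (exfalso; omega)
          | exact a1
      · have h' : Ar a b c d e f := h
        unfold Ar at h'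
        rcases hc a b c hp with ⟨rfl, rfl, rfl⟩ | ⟨rfl, rfl, rfl⟩ | ⟨rfl, rfl, rfl⟩ <;>
        rcases hc d e f hq with ⟨rfl, rfl, rfl⟩ | ⟨rfl, rfl, rfl⟩ | ⟨rfl, rfl, rfl⟩ <;>
        first
          | (exfalso; omega)
          | exact a2) (by
      rintro i ⟨⟨a, b, c⟩, hp⟩
      have hp' := hc a b c hp
      cases i
      · show X.eps false _ = a
        rcases hp' with ⟨rfl, rfl, rfl⟩ | ⟨rfl, rfl, rfl⟩ | ⟨rfl, rfl, rfl⟩ <;> simp <;> omega
      · show X.eps true _ = max c (b - a)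
        rcases hp' with ⟨rfl, rfl, rfl⟩ | ⟨rfl, rfl, rfl⟩ | ⟨rfl, rfl, rfl⟩ <;> simp <;> omega)
      (by intro i; cases i; exacts [p0, p1])
  exact ⟨nu, e, he _⟩

lemma comp01 {X : Crystal.{0} D} {x₀ x₁ x₂ : X.carrier} (h : X.IsHigh x₀)
    (p0 : X.phi false x₀ = 0) (p1 : X.phi true x₀ = 1) (a1 : X.arrow true x₀ x₁)
    (a2 : X.arrow false x₁ x₂) (e1 : X.eps false x₁ = 0) (e2 : X.eps true x₂ = 0) :
    ∃ (nu : Bool → ℕ) (e : Emb ((fam D h01 h10).B nu) X), e ((fam D h01 h10).hw nu) = x₀ := by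
  set nu : Bool → ℕ := fun t => cond t 1 0 with hnu
  have hc : ∀ a b c, Nz (nu false) (nu true) a b c → (a = 0 ∧ b = 0 ∧ c = 0) ∨
      (a = 0 ∧ b = 1 ∧ c = 0) ∨ (a = 1 ∧ b = 1 ∧ c = 0) := by
    intro a b c hp
    have hp' : c ≤ b ∧ c ≤ 0 ∧ b ≤ 1 + c ∧ a + 2 * c ≤ 0 + b := hp
    omega
  have f1 := X.eps_arrow a1
  have f2 := X.eps_arrow a2
  have g0 := h false
  have g1 := h true
  obtain ⟨e, he⟩ := exists_emb_of_map (fam D h01 h10) (nu := nu) (X := X)
    (fun p => if p.1.1 = 1 then x₂ else if p.1.2.1 = 1 then x₁ else x₀) (by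
      rintro i ⟨⟨a, b, c⟩, hp⟩ ⟨⟨d, e, f⟩, hq⟩ h
      cases i
      · have h' : d = a + 1 ∧ e = b ∧ f = c := h
        rcases hc a b c hp with ⟨rfl, rfl, rfl⟩ | ⟨rfl, rfl, rfl⟩ | ⟨rfl, rfl, rfl⟩ <;>
        rcases hc d e f hq with ⟨rfl, rfl, rfl⟩ | ⟨rfl, rfl, rfl⟩ | ⟨rfl, rfl, rfl⟩ <;>
        first
          | (exfalso; omega)
          | exact a2
      · have h' : Ar a b c d e f := h
        unfold Ar at h'
        rcases hc a b c hp with ⟨rfl, rfl, rfl⟩ | ⟨rfl, rfl, rfl⟩ | ⟨rfl, rfl, rfl⟩ <;>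
        rcases hc d e f hq with ⟨rfl, rfl, rfl⟩ | ⟨rfl, rfl, rfl⟩ | ⟨rfl, rfl, rfl⟩ <;>
        first
          | (exfalso; omega)
          | exact a1) (by
      rintro i ⟨⟨a, b, c⟩, hp⟩
      have hp' := hc a b c hp
      cases i
      · show X.eps false _ = a
        rcases hp' with ⟨rfl, rfl, rfl⟩ | ⟨rfl, rfl, rfl⟩ | ⟨rfl, rfl, rfl⟩ <;> simp <;> omega
      · show X.eps true _ = max c (b - a)
        rcases hp' with ⟨rfl, rfl, rfl⟩ | ⟨rfl, rfl, rfl⟩ | ⟨rfl, rfl, rfl⟩ <;> simp <;> omega)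
      (by intro i; cases i; exacts [p0, p1])
  exact ⟨nu, e, he _⟩

/-- the eight elements -/
lemma eight {a b c : ℕ} (h : Nz 1 1 a b c) :
    (a = 0 ∧ b = 0 ∧ c = 0) ∨ (a = 1 ∧ b = 0 ∧ c = 0) ∨ (a = 0 ∧ b = 1 ∧ c = 0) ∨
    (a = 1 ∧ b = 1 ∧ c = 0) ∨ (a = 2 ∧ b = 1 ∧ c = 0) ∨ (a = 0 ∧ b = 1 ∧ c = 1) ∨
    (a = 0 ∧ b = 2 ∧ c = 1) ∨ (a = 1 ∧ b = 2 ∧ c = 1) := by
  unfold Nz at h
  omega

lemma comp11 {X : Crystal.{0} D} (g : ℕ → ℕ → ℕ → X.carrier)
    (hf : ∀ a b c, Nz 1 1 a b c → Nz 1 1 (a + 1) b c →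
      X.arrow false (g a b c) (g (a + 1) b c))
    (ht : ∀ a b c d e f, Nz 1 1 a b c → Nz 1 1 d e f → Ar a b c d e f →
      X.arrow true (g a b c) (g d e f))
    (h0 : ∀ a b c, Nz 1 1 a b c → X.eps false (g a b c) = a)
    (h1 : ∀ a b c, Nz 1 1 a b c → X.eps true (g a b c) = max c (b - a))
    (p0 : X.phi false (g 0 0 0) = 1) (p1 : X.phi true (g 0 0 0) = 1) :
    ∃ (nu : Bool → ℕ) (e : Emb ((fam D h01 h10).B nu) X),
      e ((fam D h01 h10).hw nu) = g 0 0 0 := by
  obtain ⟨e, he⟩ := exists_emb_of_map (fam D h01 h10) (nu := fun _ => 1) (X := X)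
    (fun p => g p.1.1 p.1.2.1 p.1.2.2) (by
      rintro i ⟨⟨a, b, c⟩, hp⟩ ⟨⟨d, e, f⟩, hq⟩ h
      cases i
      · have h' : d = a + 1 ∧ e = b ∧ f = c := h
        obtain ⟨rfl, rfl, rfl⟩ := h'
        exact hf _ _ _ hp hq
      · exact ht _ _ _ _ _ _ hp hq h) (by
      rintro i ⟨⟨a, b, c⟩, hp⟩
      cases i
      · exact h0 _ _ _ hp
      · exact h1 _ _ _ hp)
      (by intro i; cases i; exacts [p0, p1])
  exact ⟨_, e, he _⟩

end A2

end Pool.Agent.H78R2.Crys
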