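import Pool.Agent.H78R2.Crys.Cartan

/-!
Crystals (given by their crystal graphs), tensor products, embeddings, paths.
-/

set_option autoImplicit false

namespace Pool.Agent.H78R2.Crys

universe u

variable {I : Type} [Fintype I] [DecidableEq I] {C : CartanDatum I}

namespace Crystal

lemma wt_apply (X : Crystal.{u} C) (x : X.carrier) (j : I) :
    X.wt x j = (X.phi j x : ℤ) - X.eps j x := rfl

lemma wt_arrow (X : Crystal.{u} C) {i : I} {x y : X.carrier} (h : X.arrow i x y) :
    X.wt y = X.wt x - C.alpha i := by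
  funext j
  rw [Pi.sub_apply, wt_apply, wt_apply, C.alpha_apply]
  exact X.weight_arrow h j

lemma tensor_eps (X Y : Crystal.{u} C) (i : I) (p : (tensor X Y).carrier) :
    (tensor X Y).eps i p = Y.eps i p.2 + (X.eps i p.1 - Y.phi i p.2) := rfl

lemma tensor_phi (X Y : Crystal.{u} C) (i : I) (p : (tensor X Y).carrier) :
    (tensor X Y).phi i p = X.phi i p.1 + (Y.phi i p.2 - X.eps i p.1) := rfl

lemma tensor_wt (X Y : Crystal.{u} C) (p : (tensor X Y).carrier) :
    (tensor X Y).wt p = X.wt p.1 + Y.wt p.2 := by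
  funext j
  rw [Pi.add_apply, wt_apply, wt_apply, wt_apply, tensor_eps, tensor_phi]
  omega

lemma tensor_arrow_right {X Y : Crystal.{u} C} {i : I} {a : X.carrier} {b b' : Y.carrier}
    (h : X.eps i a < Y.phi i b) (hb : Y.arrow i b b') : (tensor X Y).arrow i (a, b) (a, b') :=
  Or.inl ⟨h, rfl, hb⟩

lemma tensor_arrow_left {X Y : Crystal.{u} C} {i : I} {a a' : X.carrier} {b : Y.carrier}
    (h : Y.phi i b ≤ X.eps i a) (ha : X.arrow i a a') : (tensor X Y).arrow i (a, b) (a', b) :=
  Or.inr ⟨h, ha, rfl⟩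

lemma tensor_arrow_cases {X Y : Crystal.{u} C} {i : I} {p q : (tensor X Y).carrier}
    (h : (tensor X Y).arrow i p q) :
    (X.eps i p.1 < Y.phi i p.2 ∧ q.1 = p.1 ∧ Y.arrow i p.2 q.2) ∨
    (Y.phi i p.2 ≤ X.eps i p.1 ∧ X.arrow i p.1 q.1 ∧ q.2 = p.2) := h

/-! ### Embeddings -/

namespace Emb

variable {X Y Z : Crystal.{u} C}

lemma map_wt (j : Emb X Y) (x : X.carrier) : Y.wt (j x) = X.wt x := by
  funext i
  rw [wt_apply, wt_apply, j.map_eps, j.map_phi]

lemma arrow_of (j : Emb X Y) {i : I} {x : X.carrier} {y : Y.carrier} (h : Y.arrow i (j x) y) :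
    ∃ x', X.arrow i x x' ∧ j x' = y := by
  have h1 := Y.phi_arrow h
  rw [j.map_phi] at h1
  obtain ⟨x', hx'⟩ := X.exists_of_phi (i := i) (x := x) (by omega)
  exact ⟨x', hx', Y.arrow_fun (j.map_arrow hx') h⟩

lemma arrow_of' (j : Emb X Y) {i : I} {x : X.carrier} {y : Y.carrier} (h : Y.arrow i y (j x)) :
    ∃ x', X.arrow i x' x ∧ j x' = y := by
  have h1 := Y.eps_arrow h
  rw [j.map_eps] at h1
  obtain ⟨x', hx'⟩ := X.exists_of_eps (i := i) (y := x) (by omega)
  exact ⟨x', hx', Y.arrow_inj (j.map_arrow hx') h⟩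

lemma arrow_iff (j : Emb X Y) {i : I} {x x' : X.carrier} :
    Y.arrow i (j x) (j x') ↔ X.arrow i x x' := by
  constructor
  · intro h
    obtain ⟨y, hy, e⟩ := j.arrow_of h
    rw [← j.inj e]; exact hy
  · exact fun h => j.map_arrow h

/-- composition -/
def comp (k : Emb Y Z) (j : Emb X Y) : Emb X Z where
  toFun x := k (j x)
  inj := k.inj.comp j.inj
  map_arrow h := k.map_arrow (j.map_arrow h)
  map_eps i x := by rw [k.map_eps, j.map_eps]
  map_phi i x := by rw [k.map_phi, j.map_phi]

@[simp] lemma comp_apply (k : Emb Y Z) (j : Emb X Y) (x : X.carrier) : (k.comp j) x = k (j x) :=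
  rfl

/-- identity -/
def id (X : Crystal.{u} C) : Emb X X where
  toFun x := x
  inj := Function.injective_id
  map_arrow h := h
  map_eps _ _ := rfl
  map_phi _ _ := rfl

@[simp] lemma id_apply (x : X.carrier) : (Emb.id X) x = x := rfl

/-- tensor product of embeddings -/
def prod {X' Y' : Crystal.{u} C} (j : Emb X X') (k : Emb Y Y') :
    Emb (tensor X Y) (tensor X' Y') where
  toFun p := (j p.1, k p.2)
  inj := by
    rintro ⟨a, b⟩ ⟨c, d⟩ h
    simp only [Prod.mk.injEq] at h
    rw [j.inj h.1, k.inj h.2]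
  map_arrow := by
    rintro i ⟨a, b⟩ ⟨c, d⟩ (⟨h1, h2, h3⟩ | ⟨h1, h2, h3⟩)
    · simp only at *
      subst h2
      exact tensor_arrow_right (by rw [j.map_eps, k.map_phi]; exact h1) (k.map_arrow h3)
    · simp only at *
      subst h3
      exact tensor_arrow_left (by rw [j.map_eps, k.map_phi]; exact h1) (j.map_arrow h2)
  map_eps i p := by
    rw [tensor_eps, tensor_eps, j.map_eps, k.map_phi, k.map_eps]
  map_phi i p := by
    rw [tensor_phi, tensor_phi, j.map_eps, k.map_phi, j.map_phi]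

@[simp] lemma prod_apply {X' Y' : Crystal.{u} C} (j : Emb X X') (k : Emb Y Y')
    (p : (tensor X Y).carrier) : (j.prod k) p = (j p.1, k p.2) := rfl

/-- associativity of the tensor product -/
def assoc (X Y Z : Crystal.{u} C) :
    Emb (tensor (tensor X Y) Z) (tensor X (tensor Y Z)) where
  toFun p := (p.1.1, (p.1.2, p.2))
  inj := by
    rintro ⟨⟨a, b⟩, c⟩ ⟨⟨a', b'⟩, c'⟩ h
    simp only [Prod.mk.injEq] at h
    obtain ⟨rfl, rfl, rfl⟩ := h
    rfl
  map_arrow := by
    rintro i ⟨⟨a, b⟩, c⟩ ⟨⟨a', b'⟩, c'⟩ h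
    rcases tensor_arrow_cases h with ⟨h1, h2, h3⟩ | ⟨h1, h2, h3⟩
    · dsimp only [tensor] at h1 h2 h3
      obtain ⟨rfl, rfl⟩ := Prod.mk.inj h2
      apply tensor_arrow_right
      · dsimp only; omega
      · apply tensor_arrow_right _ h3
        dsimp only; omega
    · dsimp only [tensor] at h1 h2 h3
      subst h3
      rcases h2 with ⟨g1, g2, g3⟩ | ⟨g1, g2, g3⟩
      · subst g2
        apply tensor_arrow_right
        · dsimp only; omega
        · apply tensor_arrow_left _ g3
          dsimp only; omega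
      · subst g3
        apply tensor_arrow_left _ g2
        dsimp only; omega
  map_eps i p := by
    dsimp only [tensor]; omega
  map_phi i p := by
    dsimp only [tensor]; omega

/-- associativity of the tensor product, other direction -/
def assoc' (X Y Z : Crystal.{u} C) :
    Emb (tensor X (tensor Y Z)) (tensor (tensor X Y) Z) where
  toFun p := ((p.1, p.2.1), p.2.2)
  inj := by
    rintro ⟨a, b, c⟩ ⟨a', b', c'⟩ h
    simp only [Prod.mk.injEq] at h
    obtain ⟨⟨rfl, rfl⟩, rfl⟩ := h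
    rfl
  map_arrow := by
    rintro i p q h
    obtain ⟨q', h1, h2⟩ := (assoc X Y Z).arrow_of (x := ((p.1, p.2.1), p.2.2)) (y := q) h
    have : q' = ((q.1, q.2.1), q.2.2) := by rw [← h2]; rfl
    rw [← this]; exact h1
  map_eps i p := by
    dsimp only [tensor]; omega
  map_phi i p := by
    dsimp only [tensor]; omega

@[simp] lemma assoc_apply (X Y Z : Crystal.{u} C) (p : (tensor (tensor X Y) Z).carrier) :
    (assoc X Y Z) p = (p.1.1, (p.1.2, p.2)) := rfl

@[simp] lemma assoc'_apply (X Y Z : Crystal.{u} C) (p : (tensor X (tensor Y Z)).carrier) :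
    (assoc' X Y Z) p = ((p.1, p.2.1), p.2.2) := rfl

end Emb

/-! ### Paths -/

variable {X Y : Crystal.{u} C}

@[simp] lemma path_nil {x z : X.carrier} : X.Path [] x z ↔ x = z := Iff.rfl

lemma path_cons {i : I} {L : List I} {x z : X.carrier} :
    X.Path (i :: L) x z ↔ ∃ y, X.Path L x y ∧ X.arrow i y z := Iff.rfl

lemma path_append {L M : List I} {x z : X.carrier} :
    X.Path (L ++ M) x z ↔ ∃ y, X.Path M x y ∧ X.Path L y z := by
  induction L generalizing z with
  | nil => simp
  | cons i L ih =>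
    rw [List.cons_append, path_cons]
    constructor
    · rintro ⟨y, h1, h2⟩
      obtain ⟨t, ht1, ht2⟩ := ih.1 h1
      exact ⟨t, ht1, y, ht2, h2⟩
    · rintro ⟨t, ht1, y, ht2, h2⟩
      exact ⟨y, ih.2 ⟨t, ht1, ht2⟩, h2⟩

lemma Path.det {L : List I} {x y y' : X.carrier} (h : X.Path L x y) (h' : X.Path L x y') :
    y = y' := by
  induction L generalizing y y' with
  | nil => rw [path_nil] at h h'; rw [← h, ← h']
  | cons i L ih =>
    obtain ⟨z, h1, h2⟩ := h
    obtain ⟨z', h1', h2'⟩ := h'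
    have := ih h1 h1'
    subst this
    exact X.arrow_fun h2 h2'

lemma Path.det' {L : List I} {x x' y : X.carrier} (h : X.Path L x y) (h' : X.Path L x' y) :
    x = x' := by
  induction L generalizing y with
  | nil => rw [path_nil] at h h'; rw [h, h']
  | cons i L ih =>
    obtain ⟨z, h1, h2⟩ := h
    obtain ⟨z', h1', h2'⟩ := h'
    have := X.arrow_inj h2 h2'
    subst this
    exact ih h1 h1'

lemma Path.wt {L : List I} {x y : X.carrier} (h : X.Path L x y) :
    X.wt y = X.wt x - C.wsum L := by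
  induction L generalizing y with
  | nil => rw [path_nil] at h; subst h; simp
  | cons i L ih =>
    obtain ⟨z, h1, h2⟩ := h
    rw [X.wt_arrow h2, ih h1, C.wsum_cons]
    abel

lemma Path.map (j : Emb X Y) {L : List I} {x y : X.carrier} (h : X.Path L x y) :
    Y.Path L (j x) (j y) := by
  induction L generalizing y with
  | nil => rw [path_nil] at h; subst h; rfl
  | cons i L ih =>
    obtain ⟨z, h1, h2⟩ := h
    exact ⟨j z, ih h1, j.map_arrow h2⟩

lemma Path.of_map (j : Emb X Y) {L : List I} {x : X.carrier} {y : Y.carrier}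
    (h : Y.Path L (j x) y) : ∃ x', X.Path L x x' ∧ j x' = y := by
  induction L generalizing y with
  | nil => rw [path_nil] at h; subst h; exact ⟨x, rfl, rfl⟩
  | cons i L ih =>
    obtain ⟨z, h1, h2⟩ := h
    obtain ⟨x', h3, rfl⟩ := ih h1
    obtain ⟨x'', h4, rfl⟩ := j.arrow_of h2
    exact ⟨x'', ⟨x', h3, h4⟩, rfl⟩

lemma Path.high_nil {L : List I} {x y : X.carrier} (h : X.Path L x y) (hy : X.IsHigh y) :
    L = [] ∧ x = y := by
  cases L with
  | nil => exact ⟨rfl, h⟩
  | cons i L =>
    obtain ⟨z, h1, h2⟩ := h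
    have := X.eps_arrow h2
    rw [hy i] at this
    omega

end Crystal

end Pool.Agent.H78R2.Crys
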