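import Mathlib

/-!
# Definitions

Cartan matrices of finite type, the Weyl group and its action on weights, normal crystals, tensor
products, closed families of highest weight crystals, Demazure crystals, keys and the
Schützenberger involution.
-/

set_option autoImplicit false
set_option linter.unusedSectionVars false

namespace Pool.Agent.H78R2.Crys

universe u

open scoped BigOperators

/-! ### Cartan matrices and Weyl groups -/

/-- A Cartan matrix of finite type with index set `I` (these matrices are the Cartan matrices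
`a_{ij} = ⟨α_j, α_i^∨⟩` of the complex semisimple Lie algebras). -/
structure CartanDatum (I : Type) [Fintype I] [DecidableEq I] where
  /-- the matrix -/
  A : Matrix I I ℤ
  diag : ∀ i, A i i = 2
  nonpos : ∀ i j, i ≠ j → A i j ≤ 0
  posdef : ∃ d : I → ℤ, (∀ i, 0 < d i) ∧ (∀ i j, d i * A i j = d j * A j i) ∧
    ∀ x : I → ℤ, x ≠ 0 → 0 < ∑ i, ∑ j, d i * A i j * x i * x j

variable {I : Type} [Fintype I] [DecidableEq I]

namespace CartanDatum

variable (C : CartanDatum I)

/-- The simple root `α_i`, as an element of the weight lattice `I → ℤ` (coordinates with respect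
to the fundamental weights, i.e. `x ↦ ⟨x, α_j^∨⟩`). -/
def alpha (i : I) : I → ℤ := fun j => C.A j i

lemma alpha_apply (i j : I) : C.alpha i j = C.A j i := rfl

/-- Symmetry of the zero pattern. -/
lemma zero_symm {i j : I} (h : C.A i j = 0) : C.A j i = 0 := by
  obtain ⟨d, hd, hs, _⟩ := C.posdef
  have h1 := hs i j
  rw [h, mul_zero] at h1
  rcases mul_eq_zero.1 h1.symm with h2 | h2
  · exact absurd h2 (ne_of_gt (hd j))
  · exact h2

/-- `a_{ij} a_{ji} ≤ 3` for `i ≠ j`. -/
lemma mul_lt_four {i j : I} (h : i ≠ j) : C.A i j * C.A j i < 4 := by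
  obtain ⟨d, hd, hs, hp⟩ := C.posdef
  by_contra hc
  push Not at hc
  -- test vector  x_i = - a_{ij}, x_j = 2
  set a := C.A i j with ha
  set b := C.A j i with hb
  have h1 := hp (fun t => if t = i then -a else if t = j then 2 else 0) (by
    intro h0
    have := congrFun h0 j
    simp [Ne.symm h] at this)
  have h2 : ∀ s, ∑ t, d s * C.A s t * (if s = i then -a else if s = j then 2 else 0) *
      (if t = i then -a else if t = j then 2 else 0) =
      d s * (if s = i then -a else if s = j then 2 else 0) *
        (C.A s i * (-a) + C.A s j * 2) := by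
    intro s
    rw [← Finset.sum_subset (Finset.subset_univ {i, j})]
    · rw [Finset.sum_pair h]
      simp only [if_true, if_neg (Ne.symm h)]
      ring
    · intro t _ ht
      simp only [Finset.mem_insert, Finset.mem_singleton, not_or] at ht
      simp [ht.1, ht.2]
  simp only [h2] at h1
  rw [← Finset.sum_subset (Finset.subset_univ {i, j})] at h1
  · rw [Finset.sum_pair h] at h1
    simp only [if_true, if_neg (Ne.symm h), C.diag, ← ha, ← hb] at h1
    have h3 : d i * a = d j * b := hs i j
    have h4 : d i * -a * (2 * -a + a * 2) + d j * 2 * (b * -a + 2 * 2) = d j * 2 * (4 - a * b) := by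
      ring
    rw [h4] at h1
    have h5 : d j * 2 * (4 - a * b) ≤ 0 := by
      apply mul_nonpos_of_nonneg_of_nonpos
      · have := hd j; positivity
      · omega
    omega
  · intro t _ ht
    simp only [Finset.mem_insert, Finset.mem_singleton, not_or] at ht
    simp [ht.1, ht.2]

/-- The possible pairs `(a_{ij}, a_{ji})`. -/
lemma cases_pair {i j : I} (h : i ≠ j) :
    (C.A i j = 0 ∧ C.A j i = 0) ∨ (C.A i j = -1 ∧ C.A j i = -1) ∨
    (C.A i j = -1 ∧ C.A j i = -2) ∨ (C.A i j = -2 ∧ C.A j i = -1) ∨
    (C.A i j = -1 ∧ C.A j i = -3) ∨ (C.A i j = -3 ∧ C.A j i = -1) := by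
  have h1 := C.nonpos i j h
  have h2 := C.nonpos j i (Ne.symm h)
  have h3 := C.mul_lt_four h
  have h4 : C.A i j = 0 → C.A j i = 0 := C.zero_symm
  have h5 : C.A j i = 0 → C.A i j = 0 := C.zero_symm
  generalize C.A i j = a at *
  generalize C.A j i = b at *
  by_cases ha : a = 0
  · left; exact ⟨ha, h4 ha⟩
  · have hb : b ≠ 0 := fun hb => ha (h5 hb)
    have ha1 : a ≤ -1 := by omega
    have hb1 : b ≤ -1 := by omega
    have ha4 : -4 < a := by nlinarith
    have hb4 : -4 < b := by nlinarith
    interval_cases a <;> interval_cases b <;> simp_all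

/-- The Coxeter matrix of a Cartan matrix. -/
def coxM : CoxeterMatrix I where
  M := Matrix.of fun i j => if i = j then 1 else
    if C.A i j * C.A j i = 0 then 2 else if C.A i j * C.A j i = 1 then 3 else
    if C.A i j * C.A j i = 2 then 4 else if C.A i j * C.A j i = 3 then 6 else 0
  isSymm := by
    ext i j
    simp only [Matrix.transpose_apply, Matrix.of_apply]
    rw [mul_comm (C.A j i)]
    by_cases h : i = j
    · rw [if_pos h, if_pos h.symm]
    · rw [if_neg h, if_neg (Ne.symm h)]
  diagonal := by intro i; simp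
  off_diagonal := by
    intro i j h
    simp only [Matrix.of_apply, if_neg h]
    split_ifs <;> omega

lemma coxM_apply {i j : I} (h : i ≠ j) : C.coxM i j =
    if C.A i j * C.A j i = 0 then 2 else if C.A i j * C.A j i = 1 then 3 else
    if C.A i j * C.A j i = 2 then 4 else if C.A i j * C.A j i = 3 then 6 else 0 := by
  have : C.coxM i j = (if i = j then 1 else
    if C.A i j * C.A j i = 0 then 2 else if C.A i j * C.A j i = 1 then 3 else
    if C.A i j * C.A j i = 2 then 4 else if C.A i j * C.A j i = 3 then 6 else 0) := rfl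
  rw [this, if_neg h]

/-- The Weyl group. -/
abbrev W : Type := C.coxM.Group

/-- The Coxeter system of the Weyl group. -/
abbrev cs : CoxeterSystem C.coxM C.W := C.coxM.toCoxeterSystem

/-- The simple reflection `s_i`, acting on weights. -/
def refl (i : I) : Module.End ℤ (I → ℤ) where
  toFun x := x - x i • C.alpha i
  map_add' x y := by
    funext j; simp only [Pi.add_apply, Pi.sub_apply, Pi.smul_apply, smul_eq_mul]; ring
  map_smul' c x := by
    funext j; simp only [Pi.smul_apply, Pi.sub_apply, smul_eq_mul, RingHom.id_apply]; ring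

lemma refl_apply (i : I) (x : I → ℤ) : C.refl i x = x - x i • C.alpha i := rfl

lemma refl_apply_apply (i j : I) (x : I → ℤ) : C.refl i x j = x j - x i * C.A j i := by
  simp [refl_apply, alpha_apply]

lemma refl_refl (i : I) (x : I → ℤ) : C.refl i (C.refl i x) = x := by
  funext j
  simp only [refl_apply_apply, C.diag]; ring

lemma liftable : C.coxM.IsLiftable C.refl := by
  intro i j
  by_cases hij : i = j
  · subst hij
    rw [CoxeterMatrix.diagonal, pow_one]
    apply LinearMap.ext
    intro x
    rw [Module.End.mul_apply, refl_refl, Module.End.one_apply]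
  · rw [C.coxM_apply hij]
    apply LinearMap.ext
    intro x
    rcases C.cases_pair hij with ⟨h1, h2⟩ | ⟨h1, h2⟩ | ⟨h1, h2⟩ | ⟨h1, h2⟩ | ⟨h1, h2⟩ | ⟨h1, h2⟩ <;>
    · simp only [h1, h2]
      norm_num
      simp only [pow_succ, pow_zero, one_mul, Module.End.mul_apply]
      funext t
      simp only [refl_apply_apply, C.diag, h1, h2]
      ring

/-- The action of the Weyl group on the weight lattice. -/
noncomputable def act : C.W →* Module.End ℤ (I → ℤ) := C.cs.lift ⟨C.refl, C.liftable⟩

end CartanDatum

/-- a dominant weight as an element of the weight lattice -/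
def wz (la : I → ℕ) : I → ℤ := fun j => (la j : ℤ)

/-- `w₀` is a longest element of the Weyl group and `w₀ α_i = - α_{θ(i)}`. -/
def IsLongest (C : CartanDatum I) (w0 : C.W) (th : I → I) : Prop :=
  (∀ w : C.W, C.cs.length w ≤ C.cs.length w0) ∧ ∀ i, C.act w0 (C.alpha i) = - C.alpha (th i)

/-! ### Crystals -/

variable {C : CartanDatum I}

/-- A (semi)normal crystal, given by its crystal graph: `arrow i x y` means `F_i x = y`,
equivalently `E_i y = x`. The numbers `eps i x`, `phi i x` are the largest `k` with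
`E_i^k x ≠ 0`, `F_i^k x ≠ 0`; the weight of `x` is `∑ (phi i x - eps i x) ω_i`, and `F_i` lowers
the weight by the simple root `α_i`. -/
structure Crystal (C : CartanDatum I) where
  carrier : Type u
  arrow : I → carrier → carrier → Prop
  eps : I → carrier → ℕ
  phi : I → carrier → ℕ
  arrow_fun : ∀ {i x y y'}, arrow i x y → arrow i x y' → y = y'
  arrow_inj : ∀ {i x x' y}, arrow i x y → arrow i x' y → x = x'
  exists_of_phi : ∀ {i x}, 0 < phi i x → ∃ y, arrow i x y
  exists_of_eps : ∀ {i y}, 0 < eps i y → ∃ x, arrow i x y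
  eps_arrow : ∀ {i x y}, arrow i x y → eps i y = eps i x + 1
  phi_arrow : ∀ {i x y}, arrow i x y → phi i x = phi i y + 1
  weight_arrow : ∀ {i x y}, arrow i x y → ∀ j,
    ((phi j y : ℤ) - eps j y) = ((phi j x : ℤ) - eps j x) - C.A j i

namespace Crystal

/-- the weight -/
def wt (X : Crystal.{u} C) (x : X.carrier) : I → ℤ := fun j => (X.phi j x : ℤ) - X.eps j x

/-- `x` is a highest weight element -/
def IsHigh (X : Crystal.{u} C) (x : X.carrier) : Prop := ∀ i, X.eps i x = 0

/-- `x` is a lowest weight element -/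
def IsLow (X : Crystal.{u} C) (x : X.carrier) : Prop := ∀ i, X.phi i x = 0

/-- The tensor product, in the convention in which the highest weight elements of
`B_λ ⊗ B_μ` have the form `b ⊗ b_μ`: `F_i (a ⊗ b) = a ⊗ F_i b` if `eps i a < phi i b` and
`F_i (a ⊗ b) = F_i a ⊗ b` otherwise. -/
@[reducible] def tensor (X Y : Crystal.{u} C) : Crystal.{u} C where
  carrier := X.carrier × Y.carrier
  arrow i p q := (X.eps i p.1 < Y.phi i p.2 ∧ q.1 = p.1 ∧ Y.arrow i p.2 q.2) ∨
    (Y.phi i p.2 ≤ X.eps i p.1 ∧ X.arrow i p.1 q.1 ∧ q.2 = p.2)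
  eps i p := Y.eps i p.2 + (X.eps i p.1 - Y.phi i p.2)
  phi i p := X.phi i p.1 + (Y.phi i p.2 - X.eps i p.1)
  arrow_fun := by
    rintro i ⟨a, b⟩ ⟨c, d⟩ ⟨c', d'⟩ (⟨h1, h2, h3⟩ | ⟨h1, h2, h3⟩) (⟨g1, g2, g3⟩ | ⟨g1, g2, g3⟩)
    · simp only at *
      rw [h2, g2, Y.arrow_fun h3 g3]
    · simp only at *; omega
    · simp only at *; omega
    · simp only at *
      rw [h3, g3, X.arrow_fun h2 g2]
  arrow_inj := by
    rintro i ⟨a, b⟩ ⟨a', b'⟩ ⟨c, d⟩ (⟨h1, h2, h3⟩ | ⟨h1, h2, h3⟩) (⟨g1, g2, g3⟩ | ⟨g1, g2, g3⟩)
    · simp only at *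
      rw [← h2, ← g2, Y.arrow_inj h3 g3]
    · simp only at *
      subst h2; subst g3
      have e1 := Y.phi_arrow h3
      have e2 := X.eps_arrow g2
      omega
    · simp only at *
      subst g2; subst h3
      have e1 := Y.phi_arrow g3
      have e2 := X.eps_arrow h2
      omega
    · simp only at *
      rw [← h3, ← g3, X.arrow_inj h2 g2]
  exists_of_phi := by
    rintro i ⟨a, b⟩ h
    simp only at h
    by_cases h1 : X.eps i a < Y.phi i b
    · obtain ⟨d, hd⟩ := Y.exists_of_phi (i := i) (x := b) (by omega)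
      exact ⟨(a, d), Or.inl ⟨h1, rfl, hd⟩⟩
    · obtain ⟨c, hc⟩ := X.exists_of_phi (i := i) (x := a) (by omega)
      exact ⟨(c, b), Or.inr ⟨by simpa using h1, hc, rfl⟩⟩
  exists_of_eps := by
    rintro i ⟨a, b⟩ h
    simp only at h
    by_cases h1 : X.eps i a ≤ Y.phi i b
    · obtain ⟨d, hd⟩ := Y.exists_of_eps (i := i) (y := b) (by omega)
      refine ⟨(a, d), Or.inl ⟨?_, rfl, hd⟩⟩
      have := Y.phi_arrow hd
      simp only; omega
    · obtain ⟨c, hc⟩ := X.exists_of_eps (i := i) (y := a) (by omega)
      refine ⟨(c, b), Or.inr ⟨?_, hc, rfl⟩⟩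
      have := X.eps_arrow hc
      simp only; omega
  eps_arrow := by
    rintro i ⟨a, b⟩ ⟨c, d⟩ (⟨h1, h2, h3⟩ | ⟨h1, h2, h3⟩)
    · simp only at *
      subst h2
      have e1 := Y.eps_arrow h3
      have e2 := Y.phi_arrow h3
      omega
    · simp only at *
      subst h3
      have e1 := X.eps_arrow h2
      omega
  phi_arrow := by
    rintro i ⟨a, b⟩ ⟨c, d⟩ (⟨h1, h2, h3⟩ | ⟨h1, h2, h3⟩)
    · simp only at *
      subst h2
      have e1 := Y.eps_arrow h3
      have e2 := Y.phi_arrow h3
      omega
    · simp only at *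
      subst h3
      have e1 := X.eps_arrow h2
      have e2 := X.phi_arrow h2
      omega
  weight_arrow := by
    rintro i ⟨a, b⟩ ⟨c, d⟩ (⟨h1, h2, h3⟩ | ⟨h1, h2, h3⟩) j
    · simp only at *
      subst h2
      have e1 := Y.weight_arrow h3 j
      omega
    · simp only at *
      subst h3
      have e1 := X.weight_arrow h2 j
      omega

/-- An embedding of crystals: an isomorphism onto a union of connected components. -/
structure Emb (X Y : Crystal.{u} C) where
  toFun : X.carrier → Y.carrier
  inj : Function.Injective toFun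
  map_arrow : ∀ {i x y}, X.arrow i x y → Y.arrow i (toFun x) (toFun y)
  map_eps : ∀ i x, Y.eps i (toFun x) = X.eps i x
  map_phi : ∀ i x, Y.phi i (toFun x) = X.phi i x

instance {X Y : Crystal.{u} C} : CoeFun (Emb X Y) (fun _ => X.carrier → Y.carrier) :=
  ⟨Emb.toFun⟩

/-- `X.Path L x y` : `y = F_{i_1} ⋯ F_{i_k} x` for the word `L = [i_1, …, i_k]`. -/
def Path (X : Crystal.{u} C) : List I → X.carrier → X.carrier → Prop
  | [], x, z => x = z
  | i :: L, x, z => ∃ y, Path X L x y ∧ X.arrow i y z

end Crystal

open Crystal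

/-! ### Demazure subsets, closed families, keys -/

/-- `InD X x₀ [i_1, …, i_k] x` : `x = F_{i_1}^{a_1} ⋯ F_{i_k}^{a_k} x₀` for some exponents. -/
def InD (X : Crystal.{u} C) (x₀ : X.carrier) : List I → X.carrier → Prop
  | [], x => x = x₀
  | i :: L, x => ∃ y n, InD X x₀ L y ∧ X.Path (List.replicate n i) y x

/-- A family of normal highest weight crystals `B_λ` (`λ` dominant), closed under tensor products:
`B_λ` is generated by its highest weight element `b_λ` of weight `λ`, and every highest weight
element of `B_λ ⊗ B_μ` generates a subcrystal isomorphic to some `B_ν`. -/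
structure Family (C : CartanDatum I) where
  B : (I → ℕ) → Crystal.{u} C
  hw : ∀ la, (B la).carrier
  high : ∀ la, (B la).IsHigh (hw la)
  phi_hw : ∀ la i, (B la).phi i (hw la) = la i
  gen : ∀ la x, ∃ L, (B la).Path L (hw la) x
  closed : ∀ la mu (z : (tensor (B la) (B mu)).carrier), (tensor (B la) (B mu)).IsHigh z →
    ∃ (nu : I → ℕ) (j : Emb (B nu) (tensor (B la) (B mu))), j (hw nu) = z

namespace Family

variable (F : Family.{u} C)

/-- The Demazure crystal `B_w(λ)`: the elements `F_{i_1}^{a_1} ⋯ F_{i_k}^{a_k} b_λ` for a reduced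
word `s_{i_1} ⋯ s_{i_k}` of `w`. -/
def Dem (la : I → ℕ) (w : C.W) (b : (F.B la).carrier) : Prop :=
  ∃ L : List I, C.cs.IsReduced L ∧ C.cs.wordProd L = w ∧ InD (F.B la) (F.hw la) L b

/-- `w` is the key of `b`: `w` is the shortest element of its coset `w W_λ`
(`W_λ` the stabiliser of `λ`), `b ∈ B_w(λ)`, and `B_w(λ)` is contained in all Demazure crystals
which contain `b`. -/
def IsKey (la : I → ℕ) (b : (F.B la).carrier) (w : C.W) : Prop :=
  (∀ v : C.W, C.act v (wz la) = C.act w (wz la) → C.cs.length w ≤ C.cs.length v) ∧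
  F.Dem la w b ∧ ∀ w', F.Dem la w' b → ∀ x, F.Dem la w x → F.Dem la w' x

end Family

/-! ### The Schützenberger involution -/

/-- two elements of a crystal lie in the same connected component -/
def Conn (X : Crystal.{u} C) (x y : X.carrier) : Prop :=
  Relation.EqvGen (fun x y => ∃ i, X.arrow i x y) x y

/-- `ξ` is the Schützenberger (Lusztig) involution applied on each connected component: it maps
each connected component to itself, reverses the arrows, and changes their labels by `θ`. -/
structure IsSchutz (th : I → I) (X : Crystal.{u} C) (ξ : X.carrier → X.carrier) : Prop where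
  conn : ∀ x, Conn X x (ξ x)
  rev : ∀ i x y, X.arrow i x y → X.arrow (th i) (ξ y) (ξ x)
  eps : ∀ i x, X.eps (th i) (ξ x) = X.phi i x
  phi : ∀ i x, X.phi (th i) (ξ x) = X.eps i x


end Pool.Agent.H78R2.Crys
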