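import Pool.Agent.H78R2.Crys.Family

/-!
Demazure subsets `D_L = { F_{i_1}^{a_1} ⋯ F_{i_k}^{a_k} b_λ }` for arbitrary words, and their
stability properties.
-/

set_option autoImplicit false
set_option linter.unusedSectionVars false

namespace Pool.Agent.H78R2.Crys

universe u

variable {I : Type} [Fintype I] [DecidableEq I] {C : CartanDatum I}

open Crystal

namespace InD

variable {X : Crystal.{u} C} {x₀ : X.carrier}

@[simp] lemma nil_iff {x : X.carrier} : InD X x₀ [] x ↔ x = x₀ := Iff.rfl

lemma skip {i : I} {L : List I} {x : X.carrier} (h : InD X x₀ L x) : InD X x₀ (i :: L) x :=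
  ⟨x, 0, h, rfl⟩

lemma step {i : I} {L : List I} {x y : X.carrier} (h : InD X x₀ (i :: L) x)
    (ha : X.arrow i x y) : InD X x₀ (i :: L) y := by
  obtain ⟨z, n, h1, h2⟩ := h
  exact ⟨z, n + 1, h1, x, h2, ha⟩

lemma ind {i : I} {L : List I} {p : X.carrier → Prop} (base : ∀ x, InD X x₀ L x → p x)
    (stp : ∀ x y, InD X x₀ (i :: L) x → p x → X.arrow i x y → p y) {x : X.carrier}
    (h : InD X x₀ (i :: L) x) : p x := by
  obtain ⟨z, n, h1, h2⟩ := h
  induction n generalizing x with
  | zero => rw [List.replicate_zero, path_nil] at h2; subst h2; exact base _ h1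
  | succ n ih =>
    obtain ⟨y, h3, h4⟩ := h2
    exact stp y x ⟨z, n, h1, h3⟩ (ih h3) h4

lemma map {Y : Crystal.{u} C} (j : Emb X Y) {L : List I} {x : X.carrier} (h : InD X x₀ L x) :
    InD Y (j x₀) L (j x) := by
  induction L generalizing x with
  | nil => rw [nil_iff] at h ⊢; rw [h]
  | cons i L ih =>
    obtain ⟨z, n, h1, h2⟩ := h
    exact ⟨j z, n, ih h1, h2.map j⟩

lemma of_map {Y : Crystal.{u} C} (j : Emb X Y) {L : List I} {y : Y.carrier}
    (h : InD Y (j x₀) L y) : ∃ x, InD X x₀ L x ∧ j x = y := by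
  induction L generalizing y with
  | nil => rw [nil_iff] at h; exact ⟨x₀, rfl, h.symm⟩
  | cons i L ih =>
    obtain ⟨z, n, h1, h2⟩ := h
    obtain ⟨x, h3, rfl⟩ := ih h1
    obtain ⟨x', h4, h5⟩ := h2.of_map j
    exact ⟨x', ⟨x, n, h3, h4⟩, h5⟩

lemma map_iff {Y : Crystal.{u} C} (j : Emb X Y) {L : List I} {x : X.carrier} :
    InD Y (j x₀) L (j x) ↔ InD X x₀ L x := by
  constructor
  · intro h
    obtain ⟨x', h1, h2⟩ := of_map j h
    rw [← j.inj h2]; exact h1
  · exact fun h => h.map j

/-- elements of `D_L` are reachable -/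
lemma path {L : List I} {x : X.carrier} (h : InD X x₀ L x) : ∃ M, X.Path M x₀ x := by
  induction L generalizing x with
  | nil => rw [nil_iff] at h; exact ⟨[], h.symm⟩
  | cons i L ih =>
    obtain ⟨z, n, h1, h2⟩ := h
    obtain ⟨M, hM⟩ := ih h1
    exact ⟨List.replicate n i ++ M, path_append.2 ⟨z, hM, h2⟩⟩

end InD

namespace WFam

variable (F : WFam.{u} C)

/-- Demazure subset of `B_λ` -/
abbrev D (la : I → ℕ) (L : List I) (x : (F.B la).carrier) : Prop := InD (F.B la) (F.hw la) L x

variable {F} in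
lemma D_nil {la : I → ℕ} {x : (F.B la).carrier} : F.D la [] x ↔ x = F.hw la := Iff.rfl

/-- `x` has depth at most `n` -/
def Dep (la : I → ℕ) (n : ℕ) (x : (F.B la).carrier) : Prop :=
  ∃ M, (F.B la).Path M (F.hw la) x ∧ M.length ≤ n

variable {F}

lemma Dep.arrow {la : I → ℕ} {n : ℕ} {x y : (F.B la).carrier} {i : I} (h : F.Dep la n y)
    (ha : (F.B la).arrow i x y) : F.Dep la n x := by
  obtain ⟨M, hM, hn⟩ := h
  obtain ⟨M', hM'⟩ := F.gen la x
  have h1 : (F.B la).Path (i :: M') (F.hw la) y := ⟨x, hM', ha⟩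
  have h2 := F.length_eq hM h1
  rw [List.length_cons] at h2
  exact ⟨M', hM', by omega⟩

/-! ### moving between `λ` and `κ + λ` -/

lemma tr_path {ka la : I → ℕ} {L : List I} {x : (F.B la).carrier}
    (h : (F.B la).Path L (F.hw la) x) :
    ∃ x', (F.B (ka + la)).Path L (F.hw _) x' ∧ F.emb ka la x' = (F.hw ka, x) := by
  induction L generalizing x with
  | nil => rw [path_nil] at h; subst h; exact ⟨F.hw _, rfl, F.emb_hw _ _⟩
  | cons i L ih =>
    obtain ⟨z, hz, hzx⟩ := h
    obtain ⟨z', h1, h2⟩ := ih hz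
    have h3 : (tensor (F.B ka) (F.B la)).arrow i (F.hw ka, z) (F.hw ka, x) := by
      apply tensor_arrow_right _ hzx
      have := (F.B la).phi_arrow hzx
      rw [F.high ka i]; omega
    obtain ⟨x', h4, h5⟩ := emb_lift h2 h3
    exact ⟨x', ⟨z', h1, h4⟩, h5⟩

lemma tr_exists (ka : I → ℕ) {la : I → ℕ} (x : (F.B la).carrier) :
    ∃ x', F.emb ka la x' = (F.hw ka, x) := by
  obtain ⟨L, hL⟩ := F.gen la x
  obtain ⟨x', _, h⟩ := tr_path (ka := ka) hL
  exact ⟨x', h⟩

lemma tr_arrow {ka la : I → ℕ} {x y : (F.B la).carrier} {x' y' : (F.B (ka + la)).carrier}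
    (hx : F.emb ka la x' = (F.hw ka, x)) (hy : F.emb ka la y' = (F.hw ka, y)) {i : I}
    (h : (F.B la).arrow i x y) : (F.B (ka + la)).arrow i x' y' := by
  have h3 : (tensor (F.B ka) (F.B la)).arrow i (F.hw ka, x) (F.hw ka, y) := by
    apply tensor_arrow_right _ h
    have := (F.B la).phi_arrow h
    rw [F.high ka i]; omega
  obtain ⟨z', h4, h5⟩ := emb_lift hx h3
  rw [← hy] at h5
  rw [← (F.emb ka la).inj h5]; exact h4

lemma tr_path_iff {ka la : I → ℕ} {L : List I} {x : (F.B la).carrier}
    {x' : (F.B (ka + la)).carrier} (hx : F.emb ka la x' = (F.hw ka, x)) :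
    (F.B (ka + la)).Path L (F.hw _) x' ↔ (F.B la).Path L (F.hw la) x := by
  constructor
  · intro h
    induction L generalizing x x' with
    | nil =>
      rw [path_nil] at h ⊢
      subst h
      rw [F.emb_hw] at hx
      exact (Prod.mk.inj hx).2
    | cons i L ih =>
      obtain ⟨z', hz', h1⟩ := h
      have h2 := (F.emb ka la).map_arrow h1
      rw [hx] at h2
      rcases tensor_arrow_cases h2 with ⟨_, g2, g3⟩ | ⟨_, g2, _⟩
      · exact ⟨(F.emb ka la z').2, ih (x := (F.emb ka la z').2) (Prod.ext g2.symm rfl) hz', g3⟩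
      · have := (F.B ka).eps_arrow g2
        rw [F.high ka i] at this
        omega
  · intro h
    obtain ⟨x'', h1, h2⟩ := tr_path (ka := ka) h
    rw [← hx] at h2
    rw [← (F.emb ka la).inj h2]; exact h1

lemma tr_D {ka la : I → ℕ} {L : List I} {x : (F.B la).carrier}
    {x' : (F.B (ka + la)).carrier} (hx : F.emb ka la x' = (F.hw ka, x)) :
    F.D (ka + la) L x' ↔ F.D la L x := by
  induction L generalizing x x' with
  | nil =>
    rw [D_nil, D_nil]
    constructor
    · rintro rfl
      rw [F.emb_hw] at hx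
      exact (Prod.mk.inj hx).2.symm
    · rintro rfl
      apply (F.emb ka la).inj
      rw [hx, F.emb_hw]
  | cons i L ih =>
    constructor
    · rintro ⟨z', n, h1, h2⟩
      induction n generalizing x x' with
      | zero =>
        rw [List.replicate_zero, path_nil] at h2
        subst h2
        exact ((ih hx).1 h1).skip
      | succ n ihn =>
        obtain ⟨y', h3, h4⟩ := h2
        have h5 := (F.emb ka la).map_arrow h4
        rw [hx] at h5
        rcases tensor_arrow_cases h5 with ⟨_, g2, g3⟩ | ⟨_, g2, _⟩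
        · exact (ihn (x := (F.emb ka la y').2) (Prod.ext g2.symm rfl) h3).step g3
        · have := (F.B ka).eps_arrow g2
          rw [F.high ka i] at this
          omega
    · rintro ⟨z, n, h1, h2⟩
      induction n generalizing x x' with
      | zero =>
        rw [List.replicate_zero, path_nil] at h2
        subst h2
        exact ((ih hx).2 h1).skip
      | succ n ihn =>
        obtain ⟨y, h3, h4⟩ := h2
        obtain ⟨y', hy'⟩ := tr_exists (F := F) ka y
        exact (ihn hy' h3).step (tr_arrow hy' hx h4)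

/-! ### the embedding and Demazure subsets -/

/-- upwards -/
lemma emb_up {k : I} {R : ℕ} {κ : I → ℕ} (hκ : κ k = 0) {L : List I} {y : (F.B κ).carrier}
    (h : F.D κ L y) : ∀ (s : ℕ) (a : (F.B (Pi.single k R)).carrier), F.Pow _ k s a →
      ∃ x, F.D (Pi.single k R + κ) (L ++ [k]) x ∧ F.emb (Pi.single k R) κ x = (a, y) := by
  induction L generalizing y with
  | nil =>
    rw [D_nil] at h
    subst h
    intro s
    induction s with
    | zero =>
      intro a ha
      have : F.hw _ = a := ha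
      subst this
      refine ⟨F.hw _, ?_, F.emb_hw _ _⟩
      rw [List.nil_append]
      exact InD.skip (by rw [InD.nil_iff])
    | succ s ih =>
      intro a ha
      obtain ⟨b, hb, hba⟩ := ha.pred
      obtain ⟨x, h1, h2⟩ := ih b hb
      have h3 : (tensor (F.B (Pi.single k R)) (F.B κ)).arrow k (b, F.hw κ) (a, F.hw κ) := by
        apply tensor_arrow_left _ hba
        rw [F.phi_hw, hκ]; omega
      obtain ⟨x', h4, h5⟩ := emb_lift h2 h3
      exact ⟨x', h1.step h4, h5⟩
  | cons l L ih =>
    rw [List.cons_append]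
    refine InD.ind (p := fun y => ∀ (s : ℕ) (a : (F.B (Pi.single k R)).carrier), F.Pow _ k s a →
      ∃ x, F.D (Pi.single k R + κ) (l :: (L ++ [k])) x ∧ F.emb (Pi.single k R) κ x = (a, y))
      ?_ ?_ h
    · intro y hy s a ha
      obtain ⟨x, h1, h2⟩ := ih hy s a ha
      exact ⟨x, h1.skip, h2⟩
    · intro y y' _ ihy hyy' s a ha
      have hphi := (F.B κ).phi_arrow hyy'
      by_cases hlk : l = k
      · subst hlk
        -- elements `(a_t, y')` for `t ≥ phi y'`
        have key : ∀ t, ∀ a, F.Pow (Pi.single l R) l ((F.B κ).phi l y' + t) a →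
            ∃ x, F.D (Pi.single l R + κ) (l :: (L ++ [l])) x ∧
              F.emb (Pi.single l R) κ x = (a, y') := by
          intro t
          induction t with
          | zero =>
            intro a ha
            obtain ⟨x, h1, h2⟩ := ihy _ a ha
            have h3 : (tensor (F.B (Pi.single l R)) (F.B κ)).arrow l (a, y) (a, y') := by
              apply tensor_arrow_right _ hyy'
              rw [ha.eps]; omega
            obtain ⟨x', h4, h5⟩ := emb_lift h2 h3
            exact ⟨x', h1.step h4, h5⟩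
          | succ t iht =>
            intro a ha
            obtain ⟨b, hb, hba⟩ := Pow.pred (s := (F.B κ).phi l y' + t) ha
            obtain ⟨x, h1, h2⟩ := iht b hb
            have h3 : (tensor (F.B (Pi.single l R)) (F.B κ)).arrow l (b, y') (a, y') := by
              apply tensor_arrow_left _ hba
              rw [hb.eps]; omega
            obtain ⟨x', h4, h5⟩ := emb_lift h2 h3
            exact ⟨x', h1.step h4, h5⟩
        by_cases hs : (F.B κ).phi l y' ≤ s
        · apply key (s - (F.B κ).phi l y')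
          rwa [Nat.add_sub_cancel' hs]
        · obtain ⟨x, h1, h2⟩ := ihy _ a ha
          have h3 : (tensor (F.B (Pi.single l R)) (F.B κ)).arrow l (a, y) (a, y') := by
            apply tensor_arrow_right _ hyy'
            rw [ha.eps]; omega
          obtain ⟨x', h4, h5⟩ := emb_lift h2 h3
          exact ⟨x', h1.step h4, h5⟩
      · obtain ⟨x, h1, h2⟩ := ihy s a ha
        have h3 : (tensor (F.B (Pi.single k R)) (F.B κ)).arrow l (a, y) (a, y') := by
          apply tensor_arrow_right _ hyy'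
          rw [ha.eps_of_ne hlk]; omega
        obtain ⟨x', h4, h5⟩ := emb_lift h2 h3
        exact ⟨x', h1.step h4, h5⟩

/-- downwards -/
lemma emb_down {k : I} {R n : ℕ} {κ : I → ℕ} (hκ : Large k n κ) {L : List I}
    {x : (F.B (Pi.single k R + κ)).carrier} (h : F.D (Pi.single k R + κ) (L ++ [k]) x)
    (hn : F.Dep _ n x) :
    ∃ s a y, F.emb (Pi.single k R) κ x = (a, y) ∧ F.Pow (Pi.single k R) k s a ∧ F.D κ L y := by
  induction L generalizing x with
  | nil =>
    rw [List.nil_append] at h
    refine InD.ind (p := fun x => ∃ s a y, F.emb (Pi.single k R) κ x = (a, y) ∧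
      F.Pow (Pi.single k R) k s a ∧ F.D κ [] y) ?_ ?_ h
    · intro x hx
      rw [InD.nil_iff] at hx
      subst hx
      exact ⟨0, F.hw _, F.hw _, F.emb_hw _ _, rfl, rfl⟩
    · rintro x x' _ ⟨s, a, y, h1, h2, h3⟩ hxx'
      obtain ⟨a', y', h5, ⟨h6, h7, h8⟩ | ⟨h6, h7, h8⟩⟩ := emb_step hxx' h1
      · rw [D_nil] at h3
        subst h3
        rw [F.phi_hw, hκ.1] at h6
        omega
      · exact ⟨s + 1, a', y', h5, h2.succ h7, h8 ▸ h3⟩
  | cons l L ih =>
    rw [List.cons_append] at h
    refine InD.ind (p := fun x => F.Dep _ n x → ∃ s a y, F.emb (Pi.single k R) κ x = (a, y) ∧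
      F.Pow (Pi.single k R) k s a ∧ F.D κ (l :: L) y) ?_ ?_ h hn
    · intro x hx hd
      obtain ⟨s, a, y, h1, h2, h3⟩ := ih hx hd
      exact ⟨s, a, y, h1, h2, h3.skip⟩
    · intro x x' _ ihx hxx' hd
      have hd' := hd.arrow hxx'
      obtain ⟨s, a, y, h1, h2, h3⟩ := ihx hd'
      obtain ⟨a', y', h5, ⟨h6, h7, h8⟩ | ⟨h6, h7, h8⟩⟩ := emb_step hxx' h1
      · exact ⟨s, a', y', h5, h7 ▸ h2, h3.step h8⟩
      · have hlk : l = k := by
          by_contra hlk
          obtain ⟨M, hM, hMn⟩ := hd'
          obtain ⟨s', a₁, L₁, y₁, g1, g2, g3, g4⟩ := emb_large hκ hM hMn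
          rw [h1] at g1
          obtain ⟨rfl, rfl⟩ := Prod.mk.inj g1
          have h9 := phi_pos hκ g3 (by omega) hlk
          rw [h2.eps_of_ne hlk] at h6
          omega
        subst hlk
        exact ⟨s + 1, a', y', h5, h2.succ h7, h8 ▸ h3⟩

/-- The two stability properties of a Demazure subset. -/
def SP (F : WFam.{u} C) (L : List I) : Prop := ∀ (la : I → ℕ) (x : (F.B la).carrier),
  F.D la L x → (∀ i y, (F.B la).arrow i y x → F.D la L y) ∧
    (∀ i y z, (F.B la).arrow i y x → (F.B la).arrow i x z → F.D la L z)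

lemma sp_large {L : List I} (ih : SP F L) {k : I} {n : ℕ} {mu : I → ℕ} {R : ℕ} {κ : I → ℕ}
    (hmu : mu = Pi.single k R + κ) (hκ : Large k n κ) {x : (F.B mu).carrier}
    (h : F.D mu (L ++ [k]) x) (hn : F.Dep mu n x) :
    (∀ i y, (F.B mu).arrow i y x → F.D mu (L ++ [k]) y) ∧
    (∀ i y z, (F.B mu).arrow i y x → (F.B mu).arrow i x z → F.D mu (L ++ [k]) z) := by
  subst hmu
  obtain ⟨s, a, w, h1, h2, h3⟩ := emb_down hκ h hn
  constructor
  · intro i y hyx
    have h4 := (F.emb _ κ).map_arrow hyx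
    rw [h1] at h4
    rcases tensor_arrow_cases h4 with ⟨_, g2, g3⟩ | ⟨_, g2, g3⟩
    · have h5 := (ih κ w h3).1 i _ g3
      obtain ⟨x₁, h6, h7⟩ := emb_up hκ.1 h5 s a h2
      have h8 : F.emb (Pi.single k R) κ y = (a, (F.emb (Pi.single k R) κ y).2) :=
        Prod.ext g2.symm rfl
      rw [← h8] at h7
      rw [← (F.emb _ _).inj h7]; exact h6
    · have hik : i = k := by
        by_contra hik
        have h5 := (F.B _).eps_arrow g2
        rw [h2.eps_of_ne hik] at h5
        omega
      subst hik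
      have h5 := (F.B _).eps_arrow g2
      rw [h2.eps] at h5
      subst h5
      obtain ⟨b, hb, hba⟩ := h2.pred
      obtain ⟨x₁, h6, h7⟩ := emb_up hκ.1 h3 _ b hb
      have h8 : F.emb (Pi.single i R) κ y = (b, w) :=
        Prod.ext ((F.B _).arrow_inj g2 hba) g3.symm
      rw [← h8] at h7
      rw [← (F.emb _ _).inj h7]; exact h6
  · intro i y z hyx hxz
    obtain ⟨a'', w'', h5, ⟨h6, h7, h8⟩ | ⟨h6, h7, h8⟩⟩ := emb_step hxz h1
    · have h9 : F.D κ L w'' := by
        have h10 := (F.B _).eps_arrow hyx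
        rw [← (F.emb (Pi.single k R) κ).map_eps i x, h1] at h10
        dsimp only at h10
        obtain ⟨w₀, hw₀⟩ := (F.B κ).exists_of_eps (i := i) (y := w) (by omega)
        exact (ih κ w h3).2 i w₀ w'' hw₀ h8
      obtain ⟨x₁, h11, h12⟩ := emb_up hκ.1 h9 s a h2
      rw [← h7, ← h5] at h12
      rw [← (F.emb _ _).inj h12]; exact h11
    · have hik : i = k := by
        by_contra hik
        obtain ⟨M, hM, hMn⟩ := hn
        obtain ⟨s', a₁, L₁, y₁, g1, g2, g3, g4⟩ := emb_large hκ hM hMn
        rw [h1] at g1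
        obtain ⟨rfl, rfl⟩ := Prod.mk.inj g1
        have h9 := phi_pos hκ g3 (by omega) hik
        rw [h2.eps_of_ne hik] at h6
        omega
      subst hik
      obtain ⟨x₁, h11, h12⟩ := emb_up hκ.1 h3 (s + 1) a'' (h2.succ h7)
      rw [← h8, ← h5] at h12
      rw [← (F.emb _ _).inj h12]; exact h11

/-- a weight `κ'` that makes `κ' + λ` large -/
lemma exists_large (k : I) (n : ℕ) (la : I → ℕ) : ∃ (ka : I → ℕ) (κ : I → ℕ),
    ka k = 0 ∧ Large k n κ ∧ ka + la = Pi.single k (la k) + κ := by
  refine ⟨fun j => if j = k then 0 else 2 * n + 1,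
    fun j => if j = k then 0 else 2 * n + 1 + la j, by simp, ⟨by simp, ?_⟩, ?_⟩
  · intro j hj; simp [hj]
  · funext j
    by_cases hj : j = k
    · subst hj; simp
    · simp [hj]

theorem sp (F : WFam.{u} C) (L : List I) : SP F L := by
  induction L using List.reverseRecOn with
  | nil =>
    intro la x hx
    rw [D_nil] at hx
    subst hx
    refine ⟨fun i y h => ?_, fun i y z h _ => ?_⟩ <;>
    · have := (F.B la).eps_arrow h
      rw [F.high la i] at this
      omega
  | append_singleton L k ih =>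
    intro la x hx
    obtain ⟨M, hM⟩ := F.gen la x
    obtain ⟨ka, κ, _, hκ, heq⟩ := exists_large k M.length la
    obtain ⟨x', hx'1, hx'2⟩ := tr_path (ka := ka) hM
    have hx' : F.D (ka + la) (L ++ [k]) x' := (tr_D hx'2).2 hx
    obtain ⟨h1, h2⟩ := sp_large ih heq hκ hx' ⟨M, hx'1, le_rfl⟩
    constructor
    · intro i y hyx
      obtain ⟨y', hy'⟩ := tr_exists (F := F) ka y
      exact (tr_D hy').1 (h1 i y' (tr_arrow hy' hx'2 hyx))
    · intro i y z hyx hxz
      obtain ⟨y', hy'⟩ := tr_exists (F := F) ka y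
      obtain ⟨z', hz'⟩ := tr_exists (F := F) ka z
      exact (tr_D hz').1 (h2 i y' z' (tr_arrow hy' hx'2 hyx) (tr_arrow hx'2 hz' hxz))

/-- Demazure subsets are stable under the operators `E_i`. -/
lemma D_up {la : I → ℕ} {L : List I} {x y : (F.B la).carrier} {i : I} (h : F.D la L x)
    (ha : (F.B la).arrow i y x) : F.D la L y := (sp F L la x h).1 i y ha

/-- The string property. -/
lemma D_string {la : I → ℕ} {L : List I} {x y z : (F.B la).carrier} {i : I} (h : F.D la L x)
    (ha : (F.B la).arrow i y x) (hb : (F.B la).arrow i x z) : F.D la L z :=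
  (sp F L la x h).2 i y z ha hb

end WFam

end Pool.Agent.H78R2.Crys
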