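import Pool.Agent.H78R2.Crys.Low

/-!
Dual crystals and the Schützenberger involution.
-/

set_option autoImplicit false
set_option linter.unusedSectionVars false

namespace Pool.Agent.H78R2.Crys

universe u

variable {I : Type} [Fintype I] [DecidableEq I] {C : CartanDatum I}

open Crystal

namespace Crystal

/-- The dual crystal (arrows reversed, labels changed by `θ`). -/
@[reducible] def dual (T : LongData C) (X : Crystal.{u} C) : Crystal.{u} C where
  carrier := X.carrier
  arrow i x y := X.arrow (T.th i) y x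
  eps i x := X.phi (T.th i) x
  phi i x := X.eps (T.th i) x
  arrow_fun h h' := X.arrow_inj h h'
  arrow_inj h h' := X.arrow_fun h h'
  exists_of_phi h := X.exists_of_eps h
  exists_of_eps h := X.exists_of_phi h
  eps_arrow h := X.phi_arrow h
  phi_arrow h := X.eps_arrow h
  weight_arrow := by
    intro i x y h j
    have h1 := X.weight_arrow h (T.th j)
    rw [T.A_th] at h1
    omega

variable {X Y : Crystal.{u} C} (T : LongData C)

lemma path_single {k : I} {x y : X.carrier} : X.Path [k] x y ↔ X.arrow k x y := by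
  constructor
  · rintro ⟨z, hz, h⟩
    have : x = z := hz
    rw [this]; exact h
  · intro h; exact ⟨x, rfl, h⟩

lemma dual_path {L : List I} {x y : X.carrier} :
    (dual T X).Path L x y ↔ X.Path (L.map T.th).reverse y x := by
  induction L generalizing y with
  | nil =>
    constructor
    · intro h; exact (show x = y from h).symm
    · intro h; exact (show y = x from h).symm
  | cons i L ih =>
    rw [List.map_cons, List.reverse_cons, path_append]
    constructor
    · rintro ⟨z, h1, h2⟩
      exact ⟨z, path_single.2 h2, ih.1 h1⟩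
    · rintro ⟨z, h1, h2⟩
      exact ⟨z, ih.2 h2, (path_single (X := X)).1 h1⟩

lemma dual_path' {L : List I} {x y : X.carrier} :
    X.Path L x y ↔ (dual T X).Path (L.map T.th).reverse y x := by
  rw [dual_path, List.map_reverse, List.reverse_reverse, List.map_map]
  have : L.map (T.th ∘ T.th) = L := by
    conv_rhs => rw [← List.map_id L]
    apply List.map_congr_left
    intro i _
    exact T.th_th i
  rw [this]

/-- dual of an embedding -/
def Emb.dual (j : Emb X Y) : Emb (X.dual T) (Y.dual T) where
  toFun x := j x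
  inj := j.inj
  map_arrow h := j.map_arrow h
  map_eps i x := j.map_phi (T.th i) x
  map_phi i x := j.map_eps (T.th i) x

@[simp] lemma Emb.dual_apply (j : Emb X Y) (x : X.carrier) : (j.dual T) x = j x := rfl

/-- the flip -/
def flipD (X Y : Crystal.{u} C) : Emb (tensor (X.dual T) (Y.dual T)) ((tensor Y X).dual T) where
  toFun p := (p.2, p.1)
  inj := by
    rintro ⟨a, b⟩ ⟨c, d⟩ h
    simp only [Prod.mk.injEq] at h
    rw [h.1, h.2]
  map_arrow := by
    rintro i ⟨a, b⟩ ⟨a', b'⟩ h
    rcases tensor_arrow_cases h with ⟨h1, h2, h3⟩ | ⟨h1, h2, h3⟩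
    · have h1' : X.phi (T.th i) a < Y.eps (T.th i) b := h1
      have h2' : a' = a := h2
      have h3' : Y.arrow (T.th i) b' b := h3
      subst h2'
      have := Y.eps_arrow h3'
      exact tensor_arrow_left (X := Y) (Y := X) (i := T.th i) (a := b') (a' := b) (b := a')
        (by omega) h3'
    · have h1' : Y.eps (T.th i) b ≤ X.phi (T.th i) a := h1
      have h2' : X.arrow (T.th i) a' a := h2
      have h3' : b' = b := h3
      subst h3'
      have := X.phi_arrow h2'
      exact tensor_arrow_right (X := Y) (Y := X) (i := T.th i) (a := b') (b := a') (b' := a)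
        (by omega) h2'
  map_eps i p := rfl
  map_phi i p := rfl

@[simp] lemma flipD_apply (X Y : Crystal.{u} C) (p : X.carrier × Y.carrier) :
    (flipD T X Y) p = (p.2, p.1) := rfl

/-- the flip, other direction -/
def flipD' (X Y : Crystal.{u} C) : Emb ((tensor Y X).dual T) (tensor (X.dual T) (Y.dual T)) where
  toFun p := (p.2, p.1)
  inj := by
    rintro ⟨a, b⟩ ⟨c, d⟩ h
    simp only [Prod.mk.injEq] at h
    rw [h.1, h.2]
  map_arrow := by
    rintro i p q h
    obtain ⟨q', h1, h2⟩ := (flipD T X Y).arrow_of (x := (p.2, p.1)) (y := q) h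
    have : q' = (q.2, q.1) := by rw [← h2]; rfl
    rw [← this]; exact h1
  map_eps i p := rfl
  map_phi i p := rfl

@[simp] lemma flipD'_apply (X Y : Crystal.{u} C) (p : Y.carrier × X.carrier) :
    (flipD' T X Y) p = (p.2, p.1) := rfl

end Crystal

namespace WFam

variable {F : WFam.{u} C} (T : LongData C)

lemma castE_lw {la mu : I → ℕ} (h : la = mu) : F.castE h (F.lw T la) = F.lw T mu := by
  subst h; rfl

lemma emb_lw (la mu : I → ℕ) : F.emb la mu (F.lw T (la + mu)) = (F.lw T la, F.lw T mu) := by
  obtain ⟨h1, h2⟩ := ext_split (F.lw_wt T (la + mu)) (h := rfl)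
  exact Prod.ext (eq_lw_of_wt T h1) (eq_lw_of_wt T h2)

lemma lw_eps (la : I → ℕ) (i : I) : (F.B la).eps (T.th i) (F.lw T la) = la i := by
  have h1 := congrFun (F.lw_wt T la) (T.th i)
  rw [T.act_wz, wt_apply, F.lw_isLow T la] at h1
  omega

variable (F) in
/-- the dual family -/
noncomputable def dualFam : WFam.{u} C where
  B la := (F.B la).dual T
  hw la := F.lw T la
  high la i := F.lw_isLow T la (T.th i)
  phi_hw la i := lw_eps T la i
  gen la x := by
    obtain ⟨L, hL⟩ := exists_path_lw T x
    exact ⟨_, (dual_path' T).1 hL⟩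
  emb la mu := (flipD' T (F.B la) (F.B mu)).comp
    (((F.emb mu la).dual T).comp ((F.castE (add_comm la mu)).dual T))
  emb_hw la mu := by
    rw [Emb.comp_apply, Emb.comp_apply, Emb.dual_apply, Emb.dual_apply, castE_lw, emb_lw]
    rfl

variable (F) in
/-- the Schützenberger involution of `B_λ` -/
noncomputable def xi (la : I → ℕ) : Emb (F.B la) ((F.B la).dual T) :=
  Classical.choose (exists_iso F (F.dualFam T) la)

lemma xi_hw (la : I → ℕ) : F.xi T la (F.hw la) = F.lw T la :=
  (Classical.choose_spec (exists_iso F (F.dualFam T) la)).2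

lemma xi_eps (la : I → ℕ) (x : (F.B la).carrier) (i : I) :
    (F.B la).eps i (F.xi T la x) = (F.B la).phi (T.th i) x := by
  have h := (F.xi T la).map_phi (T.th i) x
  change (F.B la).eps (T.th (T.th i)) (F.xi T la x) = _ at h
  rw [T.th_th] at h
  exact h

lemma xi_phi (la : I → ℕ) (x : (F.B la).carrier) (i : I) :
    (F.B la).phi i (F.xi T la x) = (F.B la).eps (T.th i) x := by
  have h := (F.xi T la).map_eps (T.th i) x
  change (F.B la).phi (T.th (T.th i)) (F.xi T la x) = _ at h
  rw [T.th_th] at h
  exact h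

lemma xi_arrow {la : I → ℕ} {x y : (F.B la).carrier} {i : I} (h : (F.B la).arrow i x y) :
    (F.B la).arrow (T.th i) (F.xi T la y) (F.xi T la x) := (F.xi T la).map_arrow h

lemma xi_wt (la : I → ℕ) (x : (F.B la).carrier) :
    (F.B la).wt (F.xi T la x) = C.act T.w0 ((F.B la).wt x) := by
  funext i
  rw [wt_apply, xi_eps, xi_phi, T.act_apply, wt_apply]
  ring

lemma xi_lw (la : I → ℕ) : F.xi T la (F.lw T la) = F.hw la := by
  apply F.eq_hw
  intro i
  rw [xi_eps]
  exact F.lw_isLow T la _

lemma xi_path {la : I → ℕ} {L : List I} {x y : (F.B la).carrier} (h : (F.B la).Path L x y) :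
    (F.B la).Path (L.map T.th).reverse (F.xi T la y) (F.xi T la x) :=
  (dual_path T).1 (h.map (F.xi T la))

lemma map_th_map_th (L : List I) : (((L.map T.th).reverse).map T.th).reverse = L := by
  rw [List.map_reverse, List.reverse_reverse, List.map_map]
  conv_rhs => rw [← List.map_id L]
  apply List.map_congr_left
  intro i _
  exact T.th_th i

lemma xi_xi {la : I → ℕ} (x : (F.B la).carrier) : F.xi T la (F.xi T la x) = x := by
  obtain ⟨L, hL⟩ := F.gen la x
  have h1 := xi_path T (xi_path T hL)
  rw [xi_hw, xi_lw, map_th_map_th] at h1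
  exact h1.det hL

lemma emb_ext {la : I → ℕ} {Y : Crystal.{u} C} {j k : Emb (F.B la) Y}
    (h : j (F.hw la) = k (F.hw la)) (x : (F.B la).carrier) : j x = k x := by
  obtain ⟨L, hL⟩ := F.gen la x
  have h1 := hL.map j
  have h2 := hL.map k
  rw [← h] at h2
  exact h1.det h2

variable (F) in
/-- the embedding `B_{κ+λ} → B_λ ⊗ B_κ` -/
def emb' (ka la : I → ℕ) : Emb (F.B (ka + la)) (tensor (F.B la) (F.B ka)) :=
  (F.emb la ka).comp (F.castE (add_comm ka la))

lemma emb'_hw (ka la : I → ℕ) : F.emb' ka la (F.hw (ka + la)) = (F.hw la, F.hw ka) := by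
  rw [emb', Emb.comp_apply, castE_hw, F.emb_hw]

/-- compatibility of the involution with the embeddings -/
lemma xi_emb {ka la : I → ℕ} {x : (F.B (ka + la)).carrier} {a : (F.B ka).carrier}
    {y : (F.B la).carrier} (h : F.emb ka la x = (a, y)) :
    F.emb' ka la (F.xi T _ x) = (F.xi T la y, F.xi T ka a) := by
  have key := emb_ext (F := F) (la := ka + la) (Y := (tensor (F.B la) (F.B ka)).dual T)
    (j := ((F.emb' ka la).dual T).comp (F.xi T (ka + la)))
    (k := (flipD T (F.B ka) (F.B la)).comp (((F.xi T ka).prod (F.xi T la)).comp (F.emb ka la)))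
    (by
      rw [Emb.comp_apply, Emb.comp_apply, Emb.comp_apply, Emb.dual_apply, xi_hw, F.emb_hw,
        emb', Emb.comp_apply, castE_lw, emb_lw, Emb.prod_apply, flipD_apply]
      dsimp only
      rw [xi_hw, xi_hw]) x
  rw [Emb.comp_apply, Emb.comp_apply, Emb.comp_apply, Emb.dual_apply, h, Emb.prod_apply,
    flipD_apply] at key
  exact key

end WFam

end Pool.Agent.H78R2.Crys
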