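import Pool.Agent.H78R2.Crys.Adj

/-!
Existence of closed families for symmetric Cartan matrices.
-/

set_option autoImplicit false
set_option linter.unusedSectionVars false

namespace Pool.Agent.H78R2.Crys

open Crystal

/-- a positive vector with positive image -/
lemma CartanDatum.exists_pos {I : Type} [Fintype I] [DecidableEq I] (C : CartanDatum I) :
    ∃ n : I → ℤ, (∀ i, 0 < n i) ∧ ∀ i, 0 < ∑ j, C.A i j * n j := by
  obtain ⟨la, n, hla, hn⟩ := C.exists_regular_root
  obtain ⟨d, hd, _, hp⟩ := C.posdef
  set m : I → ℤ := fun i => max (- n i) 0 with hm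
  set q : I → ℤ := fun i => max (n i) 0 with hq
  have hm0 : ∀ i, 0 ≤ m i := fun i => le_max_right _ _
  have hq0 : ∀ i, 0 ≤ q i := fun i => le_max_right _ _
  have hn' : ∀ i, n i = q i - m i := by
    intro i
    simp only [hm, hq]
    omega
  have hqm : ∀ i, m i * q i = 0 := by
    intro i
    rcases le_total (n i) 0 with h | h
    · have : q i = 0 := by simp only [hq]; omega
      rw [this, mul_zero]
    · have : m i = 0 := by simp only [hm]; omega
      rw [this, zero_mul]
  have hm' : m = 0 := by
    by_contra hne
    have h1 := hp m hne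
    have h2 : ∑ i, ∑ j, d i * C.A i j * m i * m j =
        ∑ i, ∑ j, d i * C.A i j * m i * q j - ∑ i, ∑ j, d i * C.A i j * m i * n j := by
      rw [← Finset.sum_sub_distrib]
      refine Finset.sum_congr rfl fun i _ => ?_
      rw [← Finset.sum_sub_distrib]
      refine Finset.sum_congr rfl fun j _ => ?_
      rw [hn' j]; ring
    have h3 : ∑ i, ∑ j, d i * C.A i j * m i * q j ≤ 0 := by
      refine Finset.sum_nonpos fun i _ => Finset.sum_nonpos fun j _ => ?_
      by_cases hij : i = j
      · subst hij
        rw [mul_assoc, hqm, mul_zero]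
      · have a1 := C.nonpos i j hij
        have a2 : 0 ≤ m i * q j := mul_nonneg (hm0 i) (hq0 j)
        have a3 := hd i
        have a4 : d i * C.A i j ≤ 0 := mul_nonpos_of_nonneg_of_nonpos a3.le a1
        rw [mul_assoc (d i * C.A i j)]
        exact mul_nonpos_of_nonpos_of_nonneg a4 a2
    have h4 : ∑ i, ∑ j, d i * C.A i j * m i * n j = ∑ i, d i * m i * (la i : ℤ) := by
      refine Finset.sum_congr rfl fun i _ => ?_
      rw [hn i, Finset.mul_sum]
      exact Finset.sum_congr rfl fun j _ => by ring
    have h5 : 0 ≤ ∑ i, d i * m i * (la i : ℤ) := by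
      refine Finset.sum_nonneg fun i _ => ?_
      have a1 := hd i
      have a2 := hm0 i
      positivity
    omega
  have hn0 : ∀ i, 0 ≤ n i := by
    intro i
    rw [hn' i, hm']
    simpa using hq0 i
  have hA : ∀ i, 0 < ∑ j, C.A i j * n j := by
    intro i
    rw [← hn i]
    exact_mod_cast hla i
  refine ⟨n, fun i => ?_, hA⟩
  have h1 := hA i
  rw [← Finset.add_sum_erase _ _ (Finset.mem_univ i), C.diag] at h1
  have h2 : ∑ j ∈ Finset.univ.erase i, C.A i j * n j ≤ 0 := by
    refine Finset.sum_nonpos fun j hj => ?_
    exact mul_nonpos_of_nonpos_of_nonneg (C.nonpos i j (Finset.ne_of_mem_erase hj).symm) (hn0 j)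
  omega

namespace Laced

variable {I : Type} [Fintype I] [DecidableEq I] (C : CartanDatum I)
  (hs : ∀ i j, C.A i j = C.A j i) (hQ : ∀ x : I → ℤ, x ≠ 0 → 0 < Q C x)

lemma pair_nonneg {x la : I → ℤ} (hx : ∀ i, 0 ≤ x i) (hla : ∀ i, 0 ≤ la i) : 0 ≤ pair x la :=
  Finset.sum_nonneg fun i _ => mul_nonneg (hx i) (hla i)

include hs hQ in
/-- a root pairing positively with a dominant weight is positive -/
lemma root_nonneg {x la : I → ℤ} (hla : ∀ i, 0 ≤ la i) (hx : Q C x = 2) (h : 0 < pair x la) :
    ∀ i, 0 ≤ x i := by
  set m : I → ℤ := fun i => max (- x i) 0 with hm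
  set q : I → ℤ := fun i => max (x i) 0 with hq
  have hm0 : ∀ i, 0 ≤ m i := fun i => le_max_right _ _
  have hq0 : ∀ i, 0 ≤ q i := fun i => le_max_right _ _
  have hx' : x = q + (-1 : ℤ) • m := by
    funext i
    rw [Pi.add_apply, Pi.smul_apply, smul_eq_mul]
    simp only [hm, hq]
    omega
  have hqm : ∀ i, q i * m i = 0 := by
    intro i
    rcases le_total (x i) 0 with h | h
    · have : q i = 0 := by simp only [hq]; omega
      rw [this, zero_mul]
    · have : m i = 0 := by simp only [hm]; omega
      rw [this, mul_zero]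
  have hB : B C q m ≤ 0 := by
    unfold B p
    refine Finset.sum_nonpos fun i _ => ?_
    rw [Finset.mul_sum]
    refine Finset.sum_nonpos fun j _ => ?_
    by_cases hij : i = j
    · subst hij
      rw [mul_left_comm, hqm, mul_zero]
    · rw [mul_left_comm]
      exact mul_nonpos_of_nonpos_of_nonneg (C.nonpos i j hij) (mul_nonneg (hq0 i) (hm0 j))
  have h1 : Q C x = Q C q - 2 * B C q m + Q C m := by
    conv_lhs => rw [hx']
    rw [Q_add C hs, B_smul_right, neg_one_smul, Q_neg]; ring
  obtain ⟨k, hk⟩ := Q_even C hs q
  obtain ⟨l, hl⟩ := Q_even C hs m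
  have hqne : q ≠ 0 := by
    intro h0
    have h2 : pair x la = - pair m la := by
      rw [hx', h0, pair_add_left, pair_smul_left]
      unfold pair; simp
    have h3 := pair_nonneg hm0 hla
    omega
  have h4 := hQ q hqne
  have h5 : m = 0 := eq_zero_of_Q C hQ (by omega)
  intro i
  have h6 : m i = 0 := by rw [h5]; rfl
  simp only [hm] at h6
  omega

include hs hQ in
lemma exists_root {la : I → ℤ} (hla : ∀ i, 0 ≤ la i) (h : ¬ IsSmall C la) :
    ∃ x, Q C x = 2 ∧ (∀ i, 0 ≤ x i) ∧ 2 ≤ pair x la := by
  unfold IsSmall at h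
  push Not at h
  obtain ⟨x, hx, h⟩ := h
  by_cases hc : -1 ≤ pair x la
  · have h1 := h hc
    exact ⟨x, hx, root_nonneg C hs hQ hla hx (by omega), by omega⟩
  · have h2 : pair ((-1 : ℤ) • x) la = - pair x la := by rw [pair_smul_left]; ring
    have h3 : Q C ((-1 : ℤ) • x) = 2 := by rw [neg_one_smul, Q_neg, hx]
    exact ⟨_, h3, root_nonneg C hs hQ hla h3 (by omega), by omega⟩

lemma pos_of_p {x : I → ℤ} (hx : ∀ i, 0 ≤ x i) {i : I} (h : 0 < p C x i) : 0 < x i := by
  unfold p at h
  rw [← Finset.add_sum_erase _ _ (Finset.mem_univ i), C.diag] at h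
  have h2 : ∑ j ∈ Finset.univ.erase i, C.A i j * x j ≤ 0 := by
    refine Finset.sum_nonpos fun j hj => ?_
    exact mul_nonpos_of_nonpos_of_nonneg (C.nonpos i j (Finset.ne_of_mem_erase hj).symm) (hx j)
  omega

include hs hQ in
lemma exists_min_root {la : I → ℤ} (hla : ∀ i, 0 ≤ la i) (n : ℕ) :
    ∀ x, (∑ i, x i).toNat = n → Q C x = 2 → (∀ i, 0 ≤ x i) → 2 ≤ pair x la →
    ∃ y, Q C y = 2 ∧ (∀ i, 0 ≤ y i) ∧ 2 ≤ pair y la ∧ ∀ i, p C y i ≤ la i := by
  induction n using Nat.strong_induction_on with
  | _ n ih =>
    intro x hn hx hx0 h2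
    by_cases hc : ∀ i, p C x i ≤ la i
    · exact ⟨x, hx, hx0, h2, hc⟩
    · push Not at hc
      obtain ⟨i, hi⟩ := hc
      have h3 := p_le C hs hQ hx i
      have h4 := hla i
      have h5 : p C x i ≠ 2 := by
        intro h5
        have h6 := eq_e C hs hQ hx h5
        rw [h6, pair_e] at h2
        omega
      have h6 : p C x i = 1 := by omega
      have h7 : la i = 0 := by omega
      have h8 := pos_of_p C hx0 (i := i) (by omega)
      have h9 : ∑ j, (x - e i) j = ∑ j, x j - 1 := by
        simp only [Pi.sub_apply]
        rw [Finset.sum_sub_distrib]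
        congr 1
        rw [Finset.sum_eq_single i]
        · rw [e_apply, if_pos rfl]
        · intro k _ hk
          rw [e_apply, if_neg hk]
        · intro h; exact absurd (Finset.mem_univ i) h
      have h10 : x i ≤ ∑ j, x j := Finset.single_le_sum (fun j _ => hx0 j) (Finset.mem_univ i)
      refine ih (∑ j, (x - e i) j).toNat (by omega) (x - e i) rfl (root_sub C hs hx h6) ?_ ?_
      · intro j
        rw [Pi.sub_apply, e_apply]
        have := hx0 j
        split_ifs with hji
        · subst hji; omega
        · omega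
      · have : pair (x - e i) la = pair x la - la i := by
          have h11 : x - e i = x + (-1 : ℤ) • e i := by rw [neg_one_smul, sub_eq_add_neg]
          rw [h11, pair_add_left, pair_smul_left, pair_e]; ring
        rw [this]
        omega

include hQ in
/-- good crystals with highest weight elements of all dominant weights -/
theorem exists_pc (la : I → ℕ) : ∃ P : PC (G C hs), ∀ i, P.X.phi i P.x₀ = la i := by
  obtain ⟨n, hn, hn'⟩ := C.exists_pos
  have key : ∀ (k : ℕ) (la : I → ℕ), (pair n (fun i => (la i : ℤ))).toNat = k →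
      ∃ P : PC (G C hs), ∀ i, P.X.phi i P.x₀ = la i := by
    intro k
    induction k using Nat.strong_induction_on with
    | _ k ih =>
      intro la hk
      by_cases hsm : IsSmall C (fun i => (la i : ℤ))
      · refine ⟨⟨Mc C hs, ⟨_, hsm⟩, Mc_good C hs, ?_⟩, ?_⟩
        · intro i
          show (- (la i : ℤ)).toNat = 0
          omega
        · intro i
          show ((la i : ℤ)).toNat = la i
          omega
      · obtain ⟨x₁, a1, a2, a3⟩ := exists_root C hs hQ (fun i => Int.natCast_nonneg (la i)) hsm
        obtain ⟨x, b1, b2, b3, b4⟩ := exists_min_root C hs hQ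
          (fun i => Int.natCast_nonneg (la i)) _ x₁ rfl a1 a2 a3
        set mu : I → ℕ := fun i => ((la i : ℤ) - p C x i).toNat with hmu
        have hmu' : ∀ i, (mu i : ℤ) = (la i : ℤ) - p C x i := by
          intro i
          have := b4 i
          simp only [hmu]
          omega
        have hxne : x ≠ 0 := by
          intro h0
          rw [h0] at b1
          unfold Q B at b1
          simp at b1
        have hdec : pair n (fun i => (mu i : ℤ)) < pair n (fun i => (la i : ℤ)) := by
          have c1 : pair n (fun i => (mu i : ℤ)) = pair n (fun i => (la i : ℤ)) - B C n x := by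
            unfold pair B
            rw [← Finset.sum_sub_distrib]
            exact Finset.sum_congr rfl fun i _ => by beta_reduce; rw [hmu' i]; ring
          have c2 : 0 < B C x n := by
            unfold B
            obtain ⟨i, hi⟩ : ∃ i, x i ≠ 0 := by
              by_contra hc
              push Not at hc
              exact hxne (funext hc)
            refine Finset.sum_pos' (fun j _ => mul_nonneg (b2 j) (hn' j).le)
              ⟨i, Finset.mem_univ i, mul_pos ?_ (hn' i)⟩
            have := b2 i
            omega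
          rw [c1, B_symm C hs n x]
          omega
        have hnn : 0 ≤ pair n (fun i => (mu i : ℤ)) :=
          pair_nonneg (fun i => (hn i).le) (fun i => Int.natCast_nonneg (mu i))
        obtain ⟨P, hP⟩ := ih (pair n (fun i => (mu i : ℤ))).toNat (by omega) mu rfl
        refine ⟨⟨tensor (Adc C hs hQ) P.X, (Sum.inl ⟨x, b1⟩, P.x₀),
          (Adc_good C hs hQ).tensor P.good, ?_⟩, ?_⟩
        · intro i
          show P.X.eps i P.x₀ + ((- p C x i).toNat - P.X.phi i P.x₀) = 0
          have d1 := P.high i
          have d2 := hP i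
          have d3 := hmu' i
          omega
        · intro i
          show (p C x i).toNat + (P.X.phi i P.x₀ - (- p C x i).toNat) = la i
          have d2 := hP i
          have d3 := hmu' i
          omega
  exact key _ la rfl

end Laced

end Pool.Agent.H78R2.Crys
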