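import Pool.Agent.H78R2.Crys.Unique

/-!
Weights, extremal elements, and extremal elements of Demazure subsets.
-/

set_option autoImplicit false
set_option linter.unusedSectionVars false

namespace Pool.Agent.H78R2.Crys

universe u

variable {I : Type} [Fintype I] [DecidableEq I] {C : CartanDatum I}

open Crystal

namespace Crystal

variable {X Y : Crystal.{u} C}

lemma exists_down {i : I} {n : ℕ} {x : X.carrier} (h : n ≤ X.phi i x) :
    ∃ y, X.Path (List.replicate n i) x y := by
  induction n with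
  | zero => exact ⟨x, rfl⟩
  | succ n ih =>
    obtain ⟨y, hy⟩ := ih (by omega)
    have h1 : X.phi i x = X.phi i y + n := by
      clear ih h
      induction n generalizing y with
      | zero => rw [List.replicate_zero, path_nil] at hy; rw [hy]; rfl
      | succ n ihn =>
        obtain ⟨z, h1, h2⟩ := hy
        rw [ihn z h1, X.phi_arrow h2]; omega
    obtain ⟨z, hz⟩ := X.exists_of_phi (i := i) (x := y) (by omega)
    exact ⟨z, y, hy, hz⟩

lemma pathrep_phi {i : I} {n : ℕ} {x y : X.carrier} (hy : X.Path (List.replicate n i) x y) :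
    X.phi i x = X.phi i y + n := by
  induction n generalizing y with
  | zero => rw [List.replicate_zero, path_nil] at hy; rw [hy]; rfl
  | succ n ihn =>
    obtain ⟨z, h1, h2⟩ := hy
    rw [ihn h1, X.phi_arrow h2]; omega

lemma pathrep_eps {i : I} {n : ℕ} {x y : X.carrier} (hy : X.Path (List.replicate n i) x y) :
    X.eps i y = X.eps i x + n := by
  induction n generalizing y with
  | zero => rw [List.replicate_zero, path_nil] at hy; rw [hy]; rfl
  | succ n ihn =>
    obtain ⟨z, h1, h2⟩ := hy
    rw [X.eps_arrow h2, ihn h1]; omega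

lemma path_replicate_add {i : I} {n m : ℕ} {x z : X.carrier} :
    X.Path (List.replicate (n + m) i) x z ↔
      ∃ y, X.Path (List.replicate m i) x y ∧ X.Path (List.replicate n i) y z := by
  rw [List.replicate_add, path_append]

lemma exists_up {i : I} {n : ℕ} {x : X.carrier} (h : n ≤ X.eps i x) :
    ∃ y, X.Path (List.replicate n i) y x := by
  induction n generalizing x with
  | zero => exact ⟨x, rfl⟩
  | succ n ih =>
    obtain ⟨y, hy⟩ := X.exists_of_eps (i := i) (y := x) (by omega)
    have h1 := X.eps_arrow hy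
    obtain ⟨z, hz⟩ := ih (x := y) (by omega)
    exact ⟨z, y, hz, hy⟩

lemma wt_pathrep {i : I} {n : ℕ} {x y : X.carrier} (hy : X.Path (List.replicate n i) x y) :
    X.wt y = X.wt x - (n : ℤ) • C.alpha i := by
  have h : C.wsum (List.replicate n i) = (n : ℤ) • C.alpha i := by
    simp [CartanDatum.wsum]
  rw [hy.wt, h]

/-- the top of the `i`-string of `x` -/
lemma exists_top (i : I) (x : X.carrier) :
    ∃ t, X.Path (List.replicate (X.eps i x) i) t x ∧ X.eps i t = 0 := by
  obtain ⟨t, ht⟩ := exists_up (le_refl (X.eps i x))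
  have := pathrep_eps ht
  exact ⟨t, ht, by omega⟩

lemma top_unique {i : I} {n m : ℕ} {t t' x : X.carrier} (h : X.Path (List.replicate n i) t x)
    (h' : X.Path (List.replicate m i) t' x) (e : X.eps i t = 0) (e' : X.eps i t' = 0) :
    t = t' := by
  have h1 := pathrep_eps h
  have h2 := pathrep_eps h'
  have : n = m := by omega
  subst this
  exact h.det' h'

/-- arrows on a tensor product, all on the right -/
lemma tensor_path_right {i : I} {n : ℕ} {a : X.carrier} {b b' : Y.carrier}
    (h : X.eps i a + n ≤ Y.phi i b) (hb : Y.Path (List.replicate n i) b b') :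
    (tensor X Y).Path (List.replicate n i) (a, b) (a, b') := by
  induction n generalizing b' with
  | zero => rw [List.replicate_zero, path_nil] at hb; subst hb; rfl
  | succ n ih =>
    obtain ⟨c, h1, h2⟩ := hb
    have h3 : Y.Path (List.replicate n i) b c := h1
    refine ⟨(a, c), ih (by omega) h1, tensor_arrow_right ?_ h2⟩
    have := pathrep_phi h3
    omega

/-- arrows on a tensor product, all on the left -/
lemma tensor_path_left {i : I} {n : ℕ} {a a' : X.carrier} {b : Y.carrier}
    (h : Y.phi i b ≤ X.eps i a) (ha : X.Path (List.replicate n i) a a') :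
    (tensor X Y).Path (List.replicate n i) (a, b) (a', b) := by
  induction n generalizing a' with
  | zero => rw [List.replicate_zero, path_nil] at ha; subst ha; rfl
  | succ n ih =>
    obtain ⟨c, h1, h2⟩ := ha
    have h3 : X.Path (List.replicate n i) a c := h1
    refine ⟨(c, b), ih h1, tensor_arrow_left ?_ h2⟩
    have := pathrep_eps h3
    omega

/-- the components of a power of `F_i` on a tensor product -/
lemma tensor_path_split {i : I} {n : ℕ} {p q : (tensor X Y).carrier}
    (h : (tensor X Y).Path (List.replicate n i) p q) :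
    ∃ m l, m + l = n ∧ X.Path (List.replicate m i) p.1 q.1 ∧
      Y.Path (List.replicate l i) p.2 q.2 := by
  induction n generalizing q with
  | zero => rw [List.replicate_zero, path_nil] at h; subst h; exact ⟨0, 0, rfl, rfl, rfl⟩
  | succ n ih =>
    obtain ⟨r, h1, h2⟩ := h
    obtain ⟨m, l, h3, h4, h5⟩ := ih h1
    rcases tensor_arrow_cases h2 with ⟨_, g2, g3⟩ | ⟨_, g2, g3⟩
    · refine ⟨m, l + 1, by omega, ?_, r.2, h5, g3⟩
      rw [g2]; exact h4
    · refine ⟨m + 1, l, by omega, ⟨r.1, h4, g2⟩, ?_⟩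
      rw [g3]; exact h5

/-- uniqueness of an element of a given weight is invariant under simple reflections -/
lemma unique_wt_refl (i : I) {η : I → ℤ} (h : ∃! x, X.wt x = η) :
    ∃! x, X.wt x = C.refl i η := by
  obtain ⟨x, hx, hu⟩ := h
  have hxi : (X.phi i x : ℤ) - X.eps i x = η i := by rw [← hx]; rfl
  by_cases hn : 0 ≤ η i
  · obtain ⟨n, hn⟩ := Int.eq_ofNat_of_zero_le hn
    obtain ⟨y, hy⟩ := exists_down (X := X) (i := i) (n := n) (x := x) (by omega)
    refine ⟨y, ?_, ?_⟩
    · simp only
      rw [wt_pathrep hy, hx, C.refl_apply, hn]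
    · intro z hz
      have hzi : (X.phi i z : ℤ) - X.eps i z = C.refl i η i := by rw [← hz]; rfl
      rw [C.refl_apply_apply, C.diag] at hzi
      obtain ⟨t, ht⟩ := exists_up (X := X) (i := i) (n := n) (x := z) (by omega)
      have h1 := wt_pathrep ht
      have h2 : X.wt t = η := by
        have : X.wt t = X.wt z + (n : ℤ) • C.alpha i := by rw [h1]; abel
        rw [this, hz, C.refl_apply, hn]; abel
      rw [hu t h2] at ht
      exact ht.det hy
  · obtain ⟨n, hn⟩ := Int.eq_ofNat_of_zero_le (a := - η i) (by omega)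
    obtain ⟨y, hy⟩ := exists_up (X := X) (i := i) (n := n) (x := x) (by omega)
    have hwy := wt_pathrep hy
    refine ⟨y, ?_, ?_⟩
    · simp only
      have h1 : X.wt y = X.wt x + (n : ℤ) • C.alpha i := by rw [hwy]; abel
      rw [h1, hx, C.refl_apply, ← hn, neg_smul, sub_eq_add_neg]
    · intro z hz
      have hzi : (X.phi i z : ℤ) - X.eps i z = C.refl i η i := by rw [← hz]; rfl
      rw [C.refl_apply_apply, C.diag] at hzi
      obtain ⟨t, ht⟩ := exists_down (X := X) (i := i) (n := n) (x := z) (by omega)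
      have h1 := wt_pathrep ht
      have h2 : X.wt t = η := by
        rw [h1, hz, C.refl_apply, ← hn, neg_smul]; abel
      rw [hu t h2] at ht
      exact ht.det' hy

lemma unique_wt_act {η : I → ℤ} (h : ∃! x, X.wt x = η) (w : C.W) :
    ∃! x, X.wt x = C.act w η := by
  refine C.cs.simple_induction_left (p := fun w => ∃! x, X.wt x = C.act w η) w ?_ ?_
  · rw [map_one, Module.End.one_apply]; exact h
  · intro w i ih
    rw [C.act_simple_mul]
    exact unique_wt_refl i ih

lemma exists_wt_act (w : C.W) (x : X.carrier) : ∃ y, X.wt y = C.act w (X.wt x) := by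
  refine C.cs.simple_induction_left (p := fun w => ∃ y, X.wt y = C.act w (X.wt x)) w ?_ ?_
  · exact ⟨x, by rw [map_one, Module.End.one_apply]⟩
  · rintro w i ⟨y, hy⟩
    rw [C.act_simple_mul, ← hy]
    by_cases hn : 0 ≤ X.wt y i
    · obtain ⟨n, hn⟩ := Int.eq_ofNat_of_zero_le hn
      have hyi : (X.phi i y : ℤ) - X.eps i y = X.wt y i := rfl
      obtain ⟨z, hz⟩ := exists_down (X := X) (i := i) (n := n) (x := y) (by omega)
      exact ⟨z, by rw [wt_pathrep hz, C.refl_apply, hn]⟩
    · obtain ⟨n, hn⟩ := Int.eq_ofNat_of_zero_le (a := - X.wt y i) (by omega)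
      have hyi : (X.phi i y : ℤ) - X.eps i y = X.wt y i := rfl
      obtain ⟨z, hz⟩ := exists_up (X := X) (i := i) (n := n) (x := y) (by omega)
      refine ⟨z, ?_⟩
      have h1 : X.wt z = X.wt y + (n : ℤ) • C.alpha i := by rw [wt_pathrep hz]; abel
      rw [h1, C.refl_apply, ← hn, neg_smul, sub_eq_add_neg]

end Crystal

lemma wz_add (la mu : I → ℕ) : wz (la + mu) = wz la + wz mu := by
  funext j; simp [wz]

lemma wz_smul (n : ℕ) (la : I → ℕ) : wz (n • la) = (n : ℤ) • wz la := by
  funext j; simp [wz]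

lemma wz_inj {la mu : I → ℕ} (h : wz la = wz mu) : la = mu := by
  funext j
  have := congrFun h j
  simp only [wz] at this
  omega

namespace WFam

variable {F : WFam.{u} C}

lemma wt_hw' (F : WFam.{u} C) (la : I → ℕ) : (F.B la).wt (F.hw la) = wz la := by
  funext j; exact F.wt_hw la j

lemma wt_path' {la : I → ℕ} {L : List I} {x : (F.B la).carrier}
    (h : (F.B la).Path L (F.hw la) x) : (F.B la).wt x = wz la - C.wsum L := by
  rw [h.wt, F.wt_hw']

lemma unique_hw (F : WFam.{u} C) (la : I → ℕ) : ∃! x, (F.B la).wt x = wz la := by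
  refine ⟨F.hw la, F.wt_hw' la, ?_⟩
  intro y hy
  obtain ⟨L, hL⟩ := F.gen la y
  have h1 := wt_path' hL
  rw [hy] at h1
  have h2 : C.wsum L = C.wsum [] := by
    rw [C.wsum_nil]
    have : wz la - C.wsum L = wz la := h1.symm
    simpa using this
  have h3 := C.length_eq_of_wsum h2
  have h4 : L = [] := List.length_eq_zero_iff.1 (by simpa using h3)
  subst h4
  exact hL.symm

/-- the weight space of weight `w λ` has exactly one element -/
lemma unique_ext (F : WFam.{u} C) (la : I → ℕ) (w : C.W) :
    ∃! x, (F.B la).wt x = C.act w (wz la) := unique_wt_act (F.unique_hw la) w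

/-- for each element `x` and `w ∈ W` the weight `w (wt x)` is `λ - (sum of simple roots)` -/
lemma act_wt (F : WFam.{u} C) (la : I → ℕ) (x : (F.B la).carrier) (w : C.W) :
    ∃ L, C.act w ((F.B la).wt x) = wz la - C.wsum L := by
  obtain ⟨y, hy⟩ := exists_wt_act w x
  obtain ⟨L, hL⟩ := F.gen la y
  exact ⟨L, by rw [← hy]; exact wt_path' hL⟩

lemma nil_of_wsum_add {n : ℕ} {L M : List I} (h : (n : ℤ) • C.wsum L + C.wsum M = 0) :
    M = [] ∧ (n ≠ 0 → L = []) := by
  have h1 : (fun i => (n : ℤ) * (L.count i : ℤ) + M.count i) = 0 := by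
    apply C.sum_alpha_eq_zero
    intro j
    have h2 := congrFun h j
    rw [Pi.add_apply, Pi.smul_apply, C.wsum_apply, C.wsum_apply, smul_eq_mul, Finset.mul_sum,
      ← Finset.sum_add_distrib, Pi.zero_apply] at h2
    rw [← h2]
    apply Finset.sum_congr rfl
    intro i _
    ring
  have h2 : ∀ i, n * L.count i + M.count i = 0 := by
    intro i
    have := congrFun h1 i
    simp only [Pi.zero_apply] at this
    exact_mod_cast this
  constructor
  · rw [List.eq_nil_iff_forall_not_mem]
    intro i hi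
    have := List.count_pos_iff.2 hi
    have := h2 i
    omega
  · intro hn
    rw [List.eq_nil_iff_forall_not_mem]
    intro i hi
    have h3 := List.count_pos_iff.2 hi
    have h4 := h2 i
    have h5 : 0 < n * L.count i := Nat.mul_pos (Nat.pos_of_ne_zero hn) h3
    omega

/-- extremal elements are killed by `E_i` or by `F_i` -/
lemma ext_eps {la : I → ℕ} {x : (F.B la).carrier} {w : C.W}
    (hx : (F.B la).wt x = C.act w (wz la)) {i : I} (hi : 0 ≤ (F.B la).wt x i) :
    (F.B la).eps i x = 0 := by
  by_contra hc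
  obtain ⟨n, hn⟩ := Int.eq_ofNat_of_zero_le hi
  have hxi : ((F.B la).phi i x : ℤ) - (F.B la).eps i x = (F.B la).wt x i := rfl
  obtain ⟨x₁, hx₁⟩ := (F.B la).exists_of_eps (i := i) (y := x) (by omega)
  obtain ⟨x₂, hx₂⟩ := exists_down (X := F.B la) (i := i) (n := n + 1) (x := x) (by omega)
  obtain ⟨L₁, h₁⟩ := F.act_wt la x₁ w⁻¹
  obtain ⟨L₂, h₂⟩ := F.act_wt la x₂ w⁻¹
  have e₁ : (F.B la).wt x₁ = C.act w (wz la) + C.alpha i := by
    rw [← hx, (F.B la).wt_arrow hx₁]; abel
  have e₂ : (F.B la).wt x₂ = C.act w (wz la) - ((n + 1 : ℕ) : ℤ) • C.alpha i := by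
    rw [← hx, wt_pathrep hx₂]
  rw [e₁, map_add, C.act_inv_act] at h₁
  rw [e₂, map_sub, C.act_inv_act, map_smul] at h₂
  set β := C.act w⁻¹ (C.alpha i) with hβ
  have h3 : β = - C.wsum L₁ := by
    have : wz la + β = wz la + - C.wsum L₁ := by rw [h₁]; abel
    exact add_left_cancel this
  have h4 : ((n + 1 : ℕ) : ℤ) • β = C.wsum L₂ := by
    have : wz la - ((n + 1 : ℕ) : ℤ) • β = wz la - C.wsum L₂ := h₂
    exact sub_right_injective this
  have h5 : ((n + 1 : ℕ) : ℤ) • C.wsum L₁ + C.wsum L₂ = 0 := by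
    rw [← h4, h3, smul_neg]; abel
  have h6 := (nil_of_wsum_add h5).2 (by omega)
  rw [h6, C.wsum_nil, neg_zero] at h3
  have h7 : C.alpha i = 0 := by
    rw [← C.act_act_inv w (C.alpha i), ← hβ, h3, map_zero]
  have h8 := congrFun h7 i
  rw [C.alpha_self] at h8
  simp at h8

lemma ext_phi {la : I → ℕ} {x : (F.B la).carrier} {w : C.W}
    (hx : (F.B la).wt x = C.act w (wz la)) {i : I} (hi : (F.B la).wt x i ≤ 0) :
    (F.B la).phi i x = 0 := by
  by_contra hc
  obtain ⟨n, hn⟩ := Int.eq_ofNat_of_zero_le (a := - (F.B la).wt x i) (by omega)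
  have hxi : ((F.B la).phi i x : ℤ) - (F.B la).eps i x = (F.B la).wt x i := rfl
  obtain ⟨x₁, hx₁⟩ := (F.B la).exists_of_phi (i := i) (x := x) (by omega)
  obtain ⟨x₂, hx₂⟩ := exists_up (X := F.B la) (i := i) (n := n + 1) (x := x) (by omega)
  obtain ⟨L₁, h₁⟩ := F.act_wt la x₁ w⁻¹
  obtain ⟨L₂, h₂⟩ := F.act_wt la x₂ w⁻¹
  have e₁ : (F.B la).wt x₁ = C.act w (wz la) - C.alpha i := by
    rw [← hx, (F.B la).wt_arrow hx₁]
  have e₂ : (F.B la).wt x₂ = C.act w (wz la) + ((n + 1 : ℕ) : ℤ) • C.alpha i := by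
    rw [← hx, wt_pathrep hx₂]; abel
  rw [e₁, map_sub, C.act_inv_act] at h₁
  rw [e₂, map_add, C.act_inv_act, map_smul] at h₂
  set β := C.act w⁻¹ (C.alpha i) with hβ
  have h3 : β = C.wsum L₁ := sub_right_injective h₁
  have h4 : ((n + 1 : ℕ) : ℤ) • β = - C.wsum L₂ := by
    have : wz la + ((n + 1 : ℕ) : ℤ) • β = wz la + - C.wsum L₂ := by rw [h₂]; abel
    exact add_left_cancel this
  have h5 : ((n + 1 : ℕ) : ℤ) • C.wsum L₁ + C.wsum L₂ = 0 := by
    rw [← h3, h4]; abel
  have h6 := (nil_of_wsum_add h5).2 (by omega)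
  rw [h6, C.wsum_nil] at h3
  have h7 : C.alpha i = 0 := by
    rw [← C.act_act_inv w (C.alpha i), ← hβ, h3, map_zero]
  have h8 := congrFun h7 i
  rw [C.alpha_self] at h8
  simp at h8

/-- splitting of extremal elements under `B_{μ+λ} → B_μ ⊗ B_λ` -/
lemma ext_split {mu la : I → ℕ} {z : (F.B (mu + la)).carrier} {w : C.W}
    (hz : (F.B _).wt z = C.act w (wz (mu + la))) {v : (F.B mu).carrier} {u : (F.B la).carrier}
    (h : F.emb mu la z = (v, u)) :
    (F.B mu).wt v = C.act w (wz mu) ∧ (F.B la).wt u = C.act w (wz la) := by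
  obtain ⟨L₁, h₁⟩ := F.act_wt mu v w⁻¹
  obtain ⟨L₂, h₂⟩ := F.act_wt la u w⁻¹
  have h3 := (F.emb mu la).map_wt z
  rw [h, tensor_wt, hz] at h3
  simp only at h3
  have h4 := congrArg (C.act w⁻¹) h3
  rw [map_add, h₁, h₂, C.act_inv_act, wz_add] at h4
  have h5 : ((1 : ℕ) : ℤ) • C.wsum L₁ + C.wsum L₂ = 0 := by
    rw [Nat.cast_one, one_smul]
    have : (wz mu + wz la) - (C.wsum L₁ + C.wsum L₂) = (wz mu + wz la) - 0 := by
      rw [sub_zero]
      calc (wz mu + wz la) - (C.wsum L₁ + C.wsum L₂)
          = wz mu - C.wsum L₁ + (wz la - C.wsum L₂) := by abel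
        _ = _ := h4
    exact sub_right_injective this
  obtain ⟨h6, h7⟩ := nil_of_wsum_add h5
  rw [h7 one_ne_zero, C.wsum_nil, sub_zero] at h₁
  rw [h6, C.wsum_nil, sub_zero] at h₂
  constructor
  · rw [← h₁, C.act_act_inv]
  · rw [← h₂, C.act_act_inv]

/-! ### Extremal elements of Demazure subsets -/

/-- the set of products of subwords of a word -/
def SubW (C : CartanDatum I) : List I → Set C.W
  | [] => {1}
  | i :: L => SubW C L ∪ (fun v => C.cs.simple i * v) '' SubW C L

@[simp] lemma mem_subW_nil {v : C.W} : v ∈ SubW C [] ↔ v = 1 := Iff.rfl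

lemma mem_subW_cons {i : I} {L : List I} {v : C.W} :
    v ∈ SubW C (i :: L) ↔ v ∈ SubW C L ∨ ∃ v' ∈ SubW C L, C.cs.simple i * v' = v := Iff.rfl

/-- the top of a string meeting `D_{i L}` is in `D_L` -/
lemma D_top {la : I → ℕ} {i : I} {L : List I} {x t : (F.B la).carrier}
    (h : F.D la (i :: L) x) {n : ℕ} (ht : (F.B la).Path (List.replicate n i) t x)
    (he : (F.B la).eps i t = 0) : F.D la L t := by
  obtain ⟨y, m, hy, hyx⟩ := h
  obtain ⟨t', ht', he'⟩ := exists_top i y
  have h1 : t' = t := top_unique (path_replicate_add.2 ⟨y, ht', hyx⟩) ht he' he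
  subst h1
  have key : ∀ (k : ℕ) (s y : (F.B la).carrier), F.D la L y →
      (F.B la).Path (List.replicate k i) s y → F.D la L s := by
    intro k
    induction k with
    | zero =>
      intro s y hy hsy
      rw [List.replicate_zero, path_nil] at hsy
      subst hsy; exact hy
    | succ k ih =>
      rintro s y hy ⟨z, h1, h2⟩
      exact ih s z (D_up hy h2) h1
  exact key _ _ _ hy ht'

/-- elements killed by `E_i` -/
lemma D_of_eps {la : I → ℕ} {i : I} {L : List I} {x : (F.B la).carrier}
    (h : F.D la (i :: L) x) (he : (F.B la).eps i x = 0) : F.D la L x :=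
  D_top h (n := 0) rfl he

/-- Extremal elements of a Demazure subset. -/
theorem D_ext_iff {la : I → ℕ} {L : List I} {x : (F.B la).carrier} {w : C.W}
    (hx : (F.B la).wt x = C.act w (wz la)) :
    F.D la L x ↔ ∃ v ∈ SubW C L, C.act v (wz la) = C.act w (wz la) := by
  induction L generalizing x w with
  | nil =>
    constructor
    · intro h
      rw [D_nil] at h
      subst h
      refine ⟨1, rfl, ?_⟩
      rw [map_one, Module.End.one_apply, ← hx, F.wt_hw']
    · rintro ⟨v, hv, h⟩
      rw [mem_subW_nil] at hv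
      subst hv
      rw [map_one, Module.End.one_apply] at h
      rw [D_nil]
      apply (F.unique_hw la).unique
      · rw [hx, ← h]
      · exact F.wt_hw' la
  | cons i L ih =>
    constructor
    · intro h
      by_cases hi : 0 ≤ (F.B la).wt x i
      · obtain ⟨v, hv, hvx⟩ := (ih hx).1 (D_of_eps h (ext_eps hx hi))
        exact ⟨v, Or.inl hv, hvx⟩
      · have h0 := ext_phi hx (i := i) (by omega)
        have hxi : ((F.B la).phi i x : ℤ) - (F.B la).eps i x = (F.B la).wt x i := rfl
        obtain ⟨t, ht, he⟩ := exists_top i x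
        have h1 : (F.B la).wt t = C.act (C.cs.simple i * w) (wz la) := by
          have h2 : (F.B la).wt t = (F.B la).wt x + ((F.B la).eps i x : ℤ) • C.alpha i := by
            rw [wt_pathrep ht]; abel
          have h3 : ((F.B la).eps i x : ℤ) = - (F.B la).wt x i := by omega
          rw [h2, h3, C.act_simple_mul, ← hx, C.refl_apply, neg_smul, sub_eq_add_neg]
        obtain ⟨v, hv, hvx⟩ := (ih h1).1 (D_top h ht he)
        refine ⟨C.cs.simple i * v, Or.inr ⟨v, hv, rfl⟩, ?_⟩
        rw [C.act_simple_mul, hvx, C.act_simple_mul, C.refl_refl]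
    · rintro ⟨v, hv | ⟨v', hv', rfl⟩, hvx⟩
      · exact ((ih hx).2 ⟨v, hv, hvx⟩).skip
      · obtain ⟨y, hy, _⟩ := F.unique_ext la v'
        have h1 : F.D la L y := (ih hy).2 ⟨v', hv', rfl⟩
        have hyi : ((F.B la).phi i y : ℤ) - (F.B la).eps i y = (F.B la).wt y i := rfl
        rw [C.act_simple_mul, ← hy] at hvx
        by_cases hi : 0 ≤ (F.B la).wt y i
        · obtain ⟨n, hn⟩ := Int.eq_ofNat_of_zero_le hi
          obtain ⟨z, hz⟩ := exists_down (X := F.B la) (i := i) (n := n) (x := y) (by omega)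
          have h2 : (F.B la).wt z = C.act w (wz la) := by
            rw [wt_pathrep hz, ← hvx, C.refl_apply, hn]
          have h3 : z = x := (F.unique_ext la w).unique h2 hx
          subst h3
          exact ⟨y, n, h1, hz⟩
        · have h0 := ext_phi hy (i := i) (by omega)
          obtain ⟨t, ht, he⟩ := exists_top i y
          have h2 : (F.B la).wt t = C.act w (wz la) := by
            have h2 : (F.B la).wt t = (F.B la).wt y + ((F.B la).eps i y : ℤ) • C.alpha i := by
              rw [wt_pathrep ht]; abel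
            have h3 : ((F.B la).eps i y : ℤ) = - (F.B la).wt y i := by omega
            rw [h2, h3, ← hvx, C.refl_apply, neg_smul, sub_eq_add_neg]
          have h3 : t = x := (F.unique_ext la w).unique h2 hx
          subst h3
          exact (D_top h1.skip ht he).skip

end WFam

end Pool.Agent.H78R2.Crys
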