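import Pool.Agent.H78R2.Crys.Crystal

/-!
Families of highest weight crystals, and the embedding `B_{R ω_k + κ} → B_{R ω_k} ⊗ B_κ`.
-/

set_option autoImplicit false
set_option linter.unusedSectionVars false

namespace Pool.Agent.H78R2.Crys

universe u

variable {I : Type} [Fintype I] [DecidableEq I] {C : CartanDatum I}

open Crystal

/-- A family of normal highest weight crystals `B_λ` with embeddings
`B_{λ+μ} → B_λ ⊗ B_μ` sending `b_{λ+μ}` to `b_λ ⊗ b_μ`. -/
structure WFam (C : CartanDatum I) where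
  B : (I → ℕ) → Crystal.{u} C
  hw : ∀ la, (B la).carrier
  high : ∀ la, (B la).IsHigh (hw la)
  phi_hw : ∀ la i, (B la).phi i (hw la) = la i
  gen : ∀ la x, ∃ L, (B la).Path L (hw la) x
  emb : ∀ la mu, Emb (B (la + mu)) (tensor (B la) (B mu))
  emb_hw : ∀ la mu, emb la mu (hw (la + mu)) = (hw la, hw mu)

namespace WFam

variable (F : WFam.{u} C)

lemma wt_hw (la : I → ℕ) (j : I) : (F.B la).wt (F.hw la) j = la j := by
  rw [wt_apply, F.phi_hw, F.high la j]; simp

lemma wt_path {la : I → ℕ} {L : List I} {x : (F.B la).carrier}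
    (h : (F.B la).Path L (F.hw la) x) (j : I) : (F.B la).wt x j = la j - C.wsum L j := by
  rw [h.wt, Pi.sub_apply, F.wt_hw]

lemma wsum_eq {la : I → ℕ} {L L' : List I} {x : (F.B la).carrier}
    (h : (F.B la).Path L (F.hw la) x) (h' : (F.B la).Path L' (F.hw la) x) :
    C.wsum L = C.wsum L' := by
  funext j
  have h1 := F.wt_path h j
  have h2 := F.wt_path h' j
  omega

lemma length_eq {la : I → ℕ} {L L' : List I} {x : (F.B la).carrier}
    (h : (F.B la).Path L (F.hw la) x) (h' : (F.B la).Path L' (F.hw la) x) :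
    L.length = L'.length := C.length_eq_of_wsum (F.wsum_eq h h')

lemma eq_hw {la : I → ℕ} {x : (F.B la).carrier} (h : (F.B la).IsHigh x) : x = F.hw la := by
  obtain ⟨L, hL⟩ := F.gen la x
  exact (hL.high_nil h).2.symm

/-- two families agree on weights -/
lemma wt_eq_wt (F' : WFam.{u} C) {la : I → ℕ} {L : List I} {x : (F.B la).carrier}
    {x' : (F'.B la).carrier} (h : (F.B la).Path L (F.hw la) x)
    (h' : (F'.B la).Path L (F'.hw la) x') : (F.B la).wt x = (F'.B la).wt x' := by
  funext j; rw [F.wt_path h, F'.wt_path h']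

/-! ### powers of one operator -/

/-- `a = F_k^s b_λ` -/
def Pow (la : I → ℕ) (k : I) (s : ℕ) (a : (F.B la).carrier) : Prop :=
  (F.B la).Path (List.replicate s k) (F.hw la) a

variable {F}

lemma Pow.eps_of_ne {la : I → ℕ} {k : I} {s : ℕ} {a : (F.B la).carrier} (h : F.Pow la k s a)
    {i : I} (hi : i ≠ k) : (F.B la).eps i a = 0 := by
  by_contra hc
  obtain ⟨a', ha'⟩ := (F.B la).exists_of_eps (i := i) (y := a) (by omega)
  obtain ⟨L, hL⟩ := F.gen la a'
  have h1 : (F.B la).Path (i :: L) (F.hw la) a := ⟨a', hL, ha'⟩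
  have h2 := C.count_eq_of_wsum (F.wsum_eq h h1) i
  rw [List.count_cons_self, List.count_replicate] at h2
  have : (k == i) = false := by simpa using Ne.symm hi
  rw [this] at h2
  simp at h2

lemma Pow.succ {la : I → ℕ} {k : I} {s : ℕ} {a a' : (F.B la).carrier} (h : F.Pow la k s a)
    (h' : (F.B la).arrow k a a') : F.Pow la k (s + 1) a' := ⟨a, h, h'⟩

lemma Pow.pred {la : I → ℕ} {k : I} {s : ℕ} {a' : (F.B la).carrier} (h : F.Pow la k (s + 1) a') :
    ∃ a, F.Pow la k s a ∧ (F.B la).arrow k a a' := h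

lemma Pow.eps {la : I → ℕ} {k : I} {s : ℕ} {a : (F.B la).carrier} (h : F.Pow la k s a) :
    (F.B la).eps k a = s := by
  induction s generalizing a with
  | zero =>
    have : F.hw la = a := h
    rw [← this]; exact F.high la k
  | succ s ih =>
    obtain ⟨b, hb, hba⟩ := h.pred
    rw [(F.B la).eps_arrow hba, ih hb]

lemma Pow.phi {la : I → ℕ} {k : I} {s : ℕ} {a : (F.B la).carrier} (h : F.Pow la k s a) :
    (F.B la).phi k a + s = la k := by
  induction s generalizing a with
  | zero =>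
    have : F.hw la = a := h
    rw [← this, F.phi_hw]; rfl
  | succ s ih =>
    obtain ⟨b, hb, hba⟩ := h.pred
    have := (F.B la).phi_arrow hba
    have := ih hb
    omega

lemma Pow.exists {la : I → ℕ} {k : I} {s : ℕ} (hs : s ≤ la k) : ∃ a, F.Pow la k s a := by
  induction s with
  | zero => exact ⟨F.hw la, rfl⟩
  | succ s ih =>
    obtain ⟨a, ha⟩ := ih (by omega)
    have := ha.phi
    obtain ⟨b, hb⟩ := (F.B la).exists_of_phi (i := k) (x := a) (by omega)
    exact ⟨b, ha.succ hb⟩

lemma Pow.unique {la : I → ℕ} {k : I} {s : ℕ} {a a' : (F.B la).carrier} (h : F.Pow la k s a)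
    (h' : F.Pow la k s a') : a = a' := h.det h'

/-- An element whose weight is `λ - s α_k` is `F_k^s b_λ`. -/
lemma pow_of_wt {la : I → ℕ} {k : I} {s : ℕ} {a : (F.B la).carrier}
    (h : (F.B la).wt a = (fun j => (la j : ℤ)) - C.wsum (List.replicate s k)) :
    F.Pow la k s a := by
  obtain ⟨L, hL⟩ := F.gen la a
  have h1 : C.wsum L = C.wsum (List.replicate s k) := by
    funext j
    have h2 := F.wt_path hL j
    rw [h] at h2
    simp only [Pi.sub_apply] at h2
    omega
  have h2 : L = List.replicate s k := by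
    rw [List.eq_replicate_iff]
    refine ⟨by simpa using C.length_eq_of_wsum h1, ?_⟩
    intro b hb
    by_contra hbk
    have h3 := C.count_eq_of_wsum h1 b
    rw [List.count_replicate] at h3
    have h4 : (k == b) = false := by simpa using Ne.symm hbk
    rw [h4] at h3
    have h5 := List.count_pos_iff.2 hb
    simp only [Bool.false_eq_true, if_false] at h3
    omega
  unfold Pow
  rw [← h2]; exact hL

/-! ### large weights -/

/-- `κ` vanishes at `k` and is large elsewhere -/
def Large (k : I) (n : ℕ) (κ : I → ℕ) : Prop := κ k = 0 ∧ ∀ j, j ≠ k → 2 * n + 1 ≤ κ j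

lemma Large.mono {k : I} {n m : ℕ} {κ : I → ℕ} (h : Large k n κ) (hm : m ≤ n) : Large k m κ :=
  ⟨h.1, fun j hj => by have := h.2 j hj; omega⟩

lemma phi_pos {k : I} {n : ℕ} {κ : I → ℕ} (hκ : Large k n κ) {L : List I}
    {y : (F.B κ).carrier} (hL : (F.B κ).Path L (F.hw κ) y) (hn : L.length ≤ n) {j : I}
    (hj : j ≠ k) : 0 < (F.B κ).phi j y := by
  have h1 := F.wt_path hL j
  rw [wt_apply] at h1
  have h2 := C.wsum_le_two L j
  have h3 := hκ.2 j hj
  omega

/-- one step in the embedding `B_{R ω_k + κ} → B_{R ω_k} ⊗ B_κ` -/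
lemma emb_step {la mu : I → ℕ} {x x' : (F.B (la + mu)).carrier} {i : I}
    (h : (F.B (la + mu)).arrow i x x') {a : (F.B la).carrier} {y : (F.B mu).carrier}
    (hx : F.emb la mu x = (a, y)) :
    ∃ a' y', F.emb la mu x' = (a', y') ∧
      (((F.B la).eps i a < (F.B mu).phi i y ∧ a' = a ∧ (F.B mu).arrow i y y') ∨
       ((F.B mu).phi i y ≤ (F.B la).eps i a ∧ (F.B la).arrow i a a' ∧ y' = y)) := by
  have h1 := (F.emb la mu).map_arrow h
  rw [hx] at h1
  refine ⟨(F.emb la mu x').1, (F.emb la mu x').2, rfl, ?_⟩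
  exact tensor_arrow_cases h1

/-- arrows in the image of the embedding can be lifted -/
lemma emb_lift {la mu : I → ℕ} {x : (F.B (la + mu)).carrier} {i : I}
    {a a' : (F.B la).carrier} {y y' : (F.B mu).carrier}
    (hx : F.emb la mu x = (a, y)) (h : (tensor (F.B la) (F.B mu)).arrow i (a, y) (a', y')) :
    ∃ x', (F.B (la + mu)).arrow i x x' ∧ F.emb la mu x' = (a', y') := by
  rw [← hx] at h
  exact (F.emb la mu).arrow_of h

/-- arrows into the image of the embedding can be lifted -/
lemma emb_lift' {la mu : I → ℕ} {x : (F.B (la + mu)).carrier} {i : I}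
    {a a' : (F.B la).carrier} {y y' : (F.B mu).carrier}
    (hx : F.emb la mu x = (a, y)) (h : (tensor (F.B la) (F.B mu)).arrow i (a', y') (a, y)) :
    ∃ x', (F.B (la + mu)).arrow i x' x ∧ F.emb la mu x' = (a', y') := by
  rw [← hx] at h
  exact (F.emb la mu).arrow_of' h

/-- The embedding `B_{R ω_k + κ} → B_{R ω_k} ⊗ B_κ` for large `κ`. -/
lemma emb_large {k : I} {R n : ℕ} {κ : I → ℕ} (hκ : Large k n κ) {L : List I}
    {x : (F.B (Pi.single k R + κ)).carrier} (hL : (F.B _).Path L (F.hw _) x)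
    (hn : L.length ≤ n) :
    ∃ s a L₁ y, F.emb (Pi.single k R) κ x = (a, y) ∧ F.Pow (Pi.single k R) k s a ∧
      (F.B κ).Path L₁ (F.hw κ) y ∧ s + L₁.length = L.length := by
  induction L generalizing x with
  | nil =>
    rw [path_nil] at hL
    subst hL
    exact ⟨0, F.hw _, [], F.hw _, F.emb_hw _ _, rfl, rfl, rfl⟩
  | cons i L ih =>
    obtain ⟨z, hz, hzx⟩ := hL
    rw [List.length_cons] at hn
    obtain ⟨s, a, L₁, y, h1, h2, h3, h4⟩ := ih hz (by omega)
    obtain ⟨a', y', h5, ⟨h6, h7, h8⟩ | ⟨h6, h7, h8⟩⟩ := emb_step hzx h1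
    · refine ⟨s, a', i :: L₁, y', h5, h7 ▸ h2, ⟨y, h3, h8⟩, ?_⟩
      simp only [List.length_cons]; omega
    · have hik : i = k := by
        by_contra hik
        have h9 := phi_pos hκ h3 (by omega) hik
        rw [h2.eps_of_ne hik] at h6
        omega
      subst hik
      refine ⟨s + 1, a', L₁, y', h5, h2.succ h7, h8 ▸ h3, ?_⟩
      simp only [List.length_cons]; omega

end WFam

end Pool.Agent.H78R2.Crys
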