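import Pool.Agent.H78R2.Crys.Exist

/-!
Folding: fixed points of a diagram automorphism acting on a crystal.
-/

set_option autoImplicit false
set_option linter.unusedSectionVars false

namespace Pool.Agent.H78R2.Crys

open Crystal

/-- closed families of good crystals -/
theorem family_of_good' {J : Type} [Fintype J] [DecidableEq J] {E : CartanDatum J} (G : Fam2 E)
    (h : ∀ la : J → ℕ, ∃ P : PC G, ∀ i, P.X.phi i P.x₀ = la i) :
    ∃ F : Family.{0} E, ∀ la, Good G (F.B la) := by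
  choose P hP using h
  refine ⟨{ B := fun la => Gen (P la).good (P la).high
            hw := fun la => ⟨(P la).x₀, [], rfl⟩
            high := fun la i => (P la).high i
            phi_hw := fun la i => hP la i
            gen := ?_
            closed := ?_ }, fun la => Gen.good (P la).good (P la).high⟩
  · rintro la ⟨x, L, hL⟩
    refine ⟨L, ?_⟩
    obtain ⟨⟨y, hy⟩, h1, h2⟩ := Path.of_map (Gen.incl (P la).good (P la).high)
      (x := ⟨(P la).x₀, [], rfl⟩) hL
    have : y = x := h2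
    subst this
    exact h1
  · intro la mu z hz
    set nu : J → ℕ := fun i => (tensor (Gen (P la).good (P la).high)
      (Gen (P mu).good (P mu).high)).phi i z with hnu
    obtain ⟨j, hj⟩ := PC.exists_emb (P nu) ⟨_, z, (Gen.good (P la).good (P la).high).tensor
      (Gen.good (P mu).good (P mu).high), hz⟩ (fun i => hP nu i)
    exact ⟨nu, j, hj⟩

variable {I J : Type} [Fintype I] [DecidableEq I] [Fintype J] [DecidableEq J]

/-- folding data: a symmetric Cartan matrix with an automorphism -/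
structure FoldData (C : CartanDatum I) (E : CartanDatum J) where
  symm : ∀ a b, E.A a b = E.A b a
  pos : ∀ x : J → ℤ, x ≠ 0 → 0 < Laced.Q E x
  π : J → I
  s : I → J
  σ : Equiv.Perm J
  π_s : ∀ i, π (s i) = i
  π_σ : ∀ a, π (σ a) = π a
  A_σ : ∀ a b, E.A (σ a) (σ b) = E.A a b
  trans : ∀ a, ∃ n : ℕ, σ^[n] (s (π a)) = a
  orth : ∀ a b, π a = π b → a ≠ b → E.A a b = 0
  sum : ∀ i j, ∑ a with π a = i, E.A (s j) a = C.A j i

variable {C : CartanDatum I} {E : CartanDatum J}

namespace FoldData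

variable (D : FoldData C E)

/-- the list of the labels over a given label -/
noncomputable def fl (i : I) : List J := (Finset.univ.filter (fun a => D.π a = i)).toList

lemma mem_fl {i : I} {a : J} : a ∈ D.fl i ↔ D.π a = i := by
  unfold fl
  rw [Finset.mem_toList, Finset.mem_filter]
  simp

lemma nodup_fl (i : I) : (D.fl i).Nodup := Finset.nodup_toList _

lemma π_σ_symm (a : J) : D.π (D.σ.symm a) = D.π a := by
  have := D.π_σ (D.σ.symm a)
  rw [Equiv.apply_symm_apply] at this
  exact this.symm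

lemma perm_fl (i : I) : ((D.fl i).map D.σ).Perm (D.fl i) := by
  rw [List.perm_ext_iff_of_nodup ((D.nodup_fl i).map D.σ.injective) (D.nodup_fl i)]
  intro a
  rw [List.mem_map]
  constructor
  · rintro ⟨b, hb, rfl⟩
    rw [mem_fl, D.π_σ]
    exact D.mem_fl.1 hb
  · intro ha
    refine ⟨D.σ.symm a, ?_, Equiv.apply_symm_apply _ _⟩
    rw [mem_fl, D.π_σ_symm]
    exact D.mem_fl.1 ha

/-- good crystals -/
abbrev GoodE (X : Crystal.{0} E) : Prop := Good (Laced.G E D.symm) X

variable {D} {X Y : Crystal.{0} E}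

lemma eps_of_ne (hX : D.GoodE X) {a b : J} (hab : a ≠ b) (hπ : D.π a = D.π b) {x y : X.carrier}
    (h : X.arrow a x y) : X.eps b y = X.eps b x :=
  (Laced.orth_of_good E D.symm hX hab (D.orth a b hπ hab)).1 x y h

lemma phi_of_ne (hX : D.GoodE X) {a b : J} (hab : a ≠ b) (hπ : D.π a = D.π b) {x y : X.carrier}
    (h : X.arrow a x y) : X.phi b y = X.phi b x := by
  have h1 := eps_of_ne hX hab hπ h
  have h2 := X.weight_arrow h b
  rw [D.orth b a hπ.symm hab.symm] at h2
  omega

lemma commute (hX : D.GoodE X) {a b : J} (hab : a ≠ b) (hπ : D.π a = D.π b) {x y z : X.carrier}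
    (h : X.arrow a x y) (h' : X.arrow b x z) : ∃ w, X.arrow b y w ∧ X.arrow a z w :=
  (Laced.orth_of_good E D.symm hX hab (D.orth a b hπ hab)).2 x y z h h'

lemma path_perm (hX : D.GoodE X) {i : I} {L L' : List J} (h : L.Perm L')
    (hL : ∀ a ∈ L, D.π a = i) {x z : X.carrier} (hp : X.Path L x z) : X.Path L' x z := by
  induction h generalizing z with
  | nil => exact hp
  | cons a _ ih =>
    obtain ⟨y, h1, h2⟩ := hp
    exact ⟨y, ih (fun b hb => hL b (List.mem_cons_of_mem _ hb)) h1, h2⟩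
  | swap a b l =>
    obtain ⟨y, ⟨w, h1, h2⟩, h3⟩ := hp
    by_cases hab : a = b
    · subst hab; exact ⟨y, ⟨w, h1, h2⟩, h3⟩
    · have hπ : D.π a = D.π b := by
        rw [hL a (by simp), hL b (by simp)]
      have h4 := phi_of_ne hX hab hπ h2
      have h5 := X.phi_arrow h3
      obtain ⟨y', hy'⟩ := X.exists_of_phi (i := b) (x := w) (by omega)
      obtain ⟨z', hz', hz''⟩ := commute hX hab hπ h2 hy'
      rw [X.arrow_fun hz' h3] at hz''
      exact ⟨y', ⟨w, h1, hy'⟩, hz''⟩
  | trans h1 _ ih1 ih2 =>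
    exact ih2 (fun a ha => hL a (h1.mem_iff.2 ha)) (ih1 hL hp)

lemma path_ne (hX : D.GoodE X) {i : I} {L : List J} (hL : ∀ a ∈ L, D.π a = i) {b : J}
    (hb : D.π b = i) (hbL : b ∉ L) {x z : X.carrier} (hp : X.Path L x z) :
    X.eps b z = X.eps b x ∧ X.phi b z = X.phi b x := by
  induction L generalizing z with
  | nil => rw [path_nil] at hp; rw [hp]; exact ⟨rfl, rfl⟩
  | cons a L ih =>
    obtain ⟨y, h1, h2⟩ := hp
    rw [List.mem_cons, not_or] at hbL
    obtain ⟨h3, h4⟩ := ih (fun c hc => hL c (List.mem_cons_of_mem _ hc)) hbL.2 h1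
    have hπ : D.π a = D.π b := by rw [hL a (by simp), hb]
    rw [eps_of_ne hX (Ne.symm hbL.1) hπ h2, phi_of_ne hX (Ne.symm hbL.1) hπ h2]
    exact ⟨h3, h4⟩

lemma path_mem (hX : D.GoodE X) {i : I} {L : List J} (hL : ∀ a ∈ L, D.π a = i) (hn : L.Nodup)
    {b : J} (hb : D.π b = i) (hbL : b ∈ L) {x z : X.carrier} (hp : X.Path L x z) :
    X.eps b z = X.eps b x + 1 ∧ X.phi b x = X.phi b z + 1 := by
  induction L generalizing z with
  | nil => simp at hbL
  | cons a L ih =>
    obtain ⟨y, h1, h2⟩ := hp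
    rw [List.nodup_cons] at hn
    by_cases hab : b = a
    · subst hab
      obtain ⟨h3, h4⟩ := path_ne hX (fun c hc => hL c (List.mem_cons_of_mem _ hc)) hb hn.1 h1
      rw [X.eps_arrow h2, h3, ← h4, X.phi_arrow h2]
      exact ⟨rfl, rfl⟩
    · have hbL' : b ∈ L := by
        rcases List.mem_cons.1 hbL with h | h
        · exact absurd h hab
        · exact h
      obtain ⟨h3, h4⟩ := ih (fun c hc => hL c (List.mem_cons_of_mem _ hc)) hn.2 hbL' h1
      have hπ : D.π a = D.π b := by rw [hL a (by simp), hb]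
      rw [eps_of_ne hX (Ne.symm hab) hπ h2, phi_of_ne hX (Ne.symm hab) hπ h2]
      exact ⟨h3, h4⟩

lemma exists_path (hX : D.GoodE X) {i : I} {L : List J} (hL : ∀ a ∈ L, D.π a = i) (hn : L.Nodup)
    {x : X.carrier} (hx : ∀ a ∈ L, 0 < X.phi a x) : ∃ z, X.Path L x z := by
  induction L with
  | nil => exact ⟨x, rfl⟩
  | cons a L ih =>
    rw [List.nodup_cons] at hn
    obtain ⟨y, hy⟩ := ih (fun c hc => hL c (List.mem_cons_of_mem _ hc)) hn.2
      (fun c hc => hx c (List.mem_cons_of_mem _ hc))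
    have h1 := (path_ne hX (fun c hc => hL c (List.mem_cons_of_mem _ hc)) (hL a (by simp))
      hn.1 hy).2
    obtain ⟨z, hz⟩ := X.exists_of_phi (i := a) (x := y) (by rw [h1]; exact hx a (by simp))
    exact ⟨z, y, hy, hz⟩

lemma exists_path_up (hX : D.GoodE X) {i : I} {L : List J} (hL : ∀ a ∈ L, D.π a = i)
    (hn : L.Nodup) {z : X.carrier} (hz : ∀ a ∈ L, 0 < X.eps a z) : ∃ x, X.Path L x z := by
  induction L generalizing z with
  | nil => exact ⟨z, rfl⟩
  | cons a L ih =>
    rw [List.nodup_cons] at hn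
    obtain ⟨y, hy⟩ := X.exists_of_eps (i := a) (y := z) (hz a (by simp))
    obtain ⟨x, hx⟩ := ih (fun c hc => hL c (List.mem_cons_of_mem _ hc)) hn.2 (z := y) (by
      intro c hc
      have hac : a ≠ c := fun h => hn.1 (h ▸ hc)
      have hπ : D.π a = D.π c := by
        rw [hL a (by simp), hL c (List.mem_cons_of_mem _ hc)]
      rw [← eps_of_ne hX hac hπ hy]
      exact hz c (List.mem_cons_of_mem _ hc))
    exact ⟨x, y, hx, hy⟩

variable (D) in
/-- crystals with an automorphism -/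
structure Tw where
  X : Crystal.{0} E
  good : D.GoodE X
  τ : X.carrier → X.carrier
  arr : ∀ {a x y}, X.arrow a x y → X.arrow (D.σ a) (τ x) (τ y)
  eps : ∀ a x, X.eps (D.σ a) (τ x) = X.eps a x
  phi : ∀ a x, X.phi (D.σ a) (τ x) = X.phi a x

namespace Tw

variable (T : Tw D)

lemma path {L : List J} {x y : T.X.carrier} (h : T.X.Path L x y) :
    T.X.Path (L.map D.σ) (T.τ x) (T.τ y) := by
  induction L generalizing y with
  | nil => rw [path_nil] at h; rw [h]; rfl
  | cons a L ih =>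
    obtain ⟨z, h1, h2⟩ := h
    exact ⟨T.τ z, ih h1, T.arr h2⟩

variable {T}

lemma eps_fix {x : T.X.carrier} (hx : T.τ x = x) (a : J) :
    T.X.eps a x = T.X.eps (D.s (D.π a)) x := by
  obtain ⟨n, hn⟩ := D.trans a
  have key : ∀ n : ℕ, T.X.eps (D.σ^[n] (D.s (D.π a))) x = T.X.eps (D.s (D.π a)) x := by
    intro n
    induction n with
    | zero => rfl
    | succ n ih =>
      rw [Function.iterate_succ_apply', ← ih]
      have := T.eps (D.σ^[n] (D.s (D.π a))) x
      rw [hx] at this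
      exact this
  rw [← key n, hn]

lemma phi_fix {x : T.X.carrier} (hx : T.τ x = x) (a : J) :
    T.X.phi a x = T.X.phi (D.s (D.π a)) x := by
  obtain ⟨n, hn⟩ := D.trans a
  have key : ∀ n : ℕ, T.X.phi (D.σ^[n] (D.s (D.π a))) x = T.X.phi (D.s (D.π a)) x := by
    intro n
    induction n with
    | zero => rfl
    | succ n ih =>
      rw [Function.iterate_succ_apply', ← ih]
      have := T.phi (D.σ^[n] (D.s (D.π a))) x
      rw [hx] at this
      exact this
  rw [← key n, hn]

variable (T)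

/-- the crystal of the fixed points -/
@[reducible] def fold : Crystal.{0} C where
  carrier := {x : T.X.carrier // T.τ x = x}
  arrow i x y := T.X.Path (D.fl i) x.1 y.1
  eps i x := T.X.eps (D.s i) x.1
  phi i x := T.X.phi (D.s i) x.1
  arrow_fun h h' := Subtype.ext (h.det h')
  arrow_inj h h' := Subtype.ext (h.det' h')
  exists_of_phi := by
    rintro i ⟨x, hx⟩ h
    have hL : ∀ a ∈ D.fl i, D.π a = i := fun a ha => D.mem_fl.1 ha
    obtain ⟨z, hz⟩ := exists_path T.good hL (D.nodup_fl i) (x := x) (by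
      intro a ha
      rw [phi_fix hx, hL a ha]
      exact h)
    have h1 := T.path hz
    rw [hx] at h1
    have h2 := path_perm T.good (D.perm_fl i) (by
      intro a ha
      rw [(D.perm_fl i).mem_iff] at ha
      exact hL a ha) h1
    exact ⟨⟨z, h2.det hz⟩, hz⟩
  exists_of_eps := by
    rintro i ⟨z, hz⟩ h
    have hL : ∀ a ∈ D.fl i, D.π a = i := fun a ha => D.mem_fl.1 ha
    obtain ⟨x, hx⟩ := exists_path_up T.good hL (D.nodup_fl i) (z := z) (by
      intro a ha
      rw [eps_fix hz, hL a ha]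
      exact h)
    have h1 := T.path hx
    rw [hz] at h1
    have h2 := path_perm T.good (D.perm_fl i) (by
      intro a ha
      rw [(D.perm_fl i).mem_iff] at ha
      exact hL a ha) h1
    exact ⟨⟨x, h2.det' hx⟩, hx⟩
  eps_arrow := by
    intro i x y h
    exact (path_mem T.good (fun a ha => D.mem_fl.1 ha) (D.nodup_fl i) (D.π_s i)
      (D.mem_fl.2 (D.π_s i)) h).1
  phi_arrow := by
    intro i x y h
    exact (path_mem T.good (fun a ha => D.mem_fl.1 ha) (D.nodup_fl i) (D.π_s i)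
      (D.mem_fl.2 (D.π_s i)) h).2
  weight_arrow := by
    intro i x y h j
    have h1 := congrFun h.wt (D.s j)
    rw [Pi.sub_apply, wt_apply, wt_apply] at h1
    rw [h1]
    congr 1
    rw [← D.sum i j]
    unfold CartanDatum.wsum fl
    rw [Finset.sum_map_toList, Finset.sum_apply]
    rfl

variable {T}

lemma fold_high {x : T.fold.carrier} (h : T.fold.IsHigh x) : T.X.IsHigh x.1 := by
  intro a
  rw [eps_fix x.2]
  exact h _

end Tw

/-! ### tensor products -/

lemma right_path {i : I} (hY : D.GoodE Y) {L : List J} (hL : ∀ a ∈ L, D.π a = i)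
    (hn : L.Nodup) {p q : (tensor X Y).carrier} (hp : ∀ a ∈ L, X.eps a p.1 < Y.phi a p.2)
    (h : (tensor X Y).Path L p q) : q.1 = p.1 ∧ Y.Path L p.2 q.2 := by
  induction L generalizing q with
  | nil => rw [path_nil] at h; subst h; exact ⟨rfl, rfl⟩
  | cons a L ih =>
    obtain ⟨r, h1, h2⟩ := h
    rw [List.nodup_cons] at hn
    obtain ⟨h3, h4⟩ := ih (fun c hc => hL c (List.mem_cons_of_mem _ hc)) hn.2
      (fun c hc => hp c (List.mem_cons_of_mem _ hc)) h1
    have h5 := (path_ne hY (fun c hc => hL c (List.mem_cons_of_mem _ hc)) (hL a (by simp))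
      hn.1 h4).2
    have h6 := hp a (by simp)
    rcases h2 with ⟨_, g2, g3⟩ | ⟨g1, _, _⟩
    · exact ⟨g2.trans h3, r.2, h4, g3⟩
    · rw [h3, h5] at g1
      omega

lemma left_path {i : I} (hX : D.GoodE X) {L : List J} (hL : ∀ a ∈ L, D.π a = i)
    (hn : L.Nodup) {p q : (tensor X Y).carrier} (hp : ∀ a ∈ L, Y.phi a p.2 ≤ X.eps a p.1)
    (h : (tensor X Y).Path L p q) : X.Path L p.1 q.1 ∧ q.2 = p.2 := by
  induction L generalizing q with
  | nil => rw [path_nil] at h; subst h; exact ⟨rfl, rfl⟩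
  | cons a L ih =>
    obtain ⟨r, h1, h2⟩ := h
    rw [List.nodup_cons] at hn
    obtain ⟨h3, h4⟩ := ih (fun c hc => hL c (List.mem_cons_of_mem _ hc)) hn.2
      (fun c hc => hp c (List.mem_cons_of_mem _ hc)) h1
    have h5 := (path_ne hX (fun c hc => hL c (List.mem_cons_of_mem _ hc)) (hL a (by simp))
      hn.1 h3).1
    have h6 := hp a (by simp)
    rcases h2 with ⟨g1, _, _⟩ | ⟨_, g2, g3⟩
    · rw [h4, h5] at g1
      omega
    · exact ⟨⟨r.1, h3, g2⟩, g3.trans h4⟩

lemma fold_tensor {T T' : Tw D} {i : I} {p q : (tensor T.X T'.X).carrier}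
    (h1 : T.τ p.1 = p.1) (h2 : T'.τ p.2 = p.2) (h : (tensor T.X T'.X).Path (D.fl i) p q) :
    (T.X.eps (D.s i) p.1 < T'.X.phi (D.s i) p.2 ∧ q.1 = p.1 ∧ T'.X.Path (D.fl i) p.2 q.2) ∨
    (T'.X.phi (D.s i) p.2 ≤ T.X.eps (D.s i) p.1 ∧ T.X.Path (D.fl i) p.1 q.1 ∧ q.2 = p.2) := by
  have hL : ∀ a ∈ D.fl i, D.π a = i := fun a ha => D.mem_fl.1 ha
  by_cases hc : T.X.eps (D.s i) p.1 < T'.X.phi (D.s i) p.2
  · left
    obtain ⟨h3, h4⟩ := right_path T'.good hL (D.nodup_fl i) (by
      intro a ha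
      rw [Tw.eps_fix h1, Tw.phi_fix h2, hL a ha]
      exact hc) h
    exact ⟨hc, h3, h4⟩
  · right
    obtain ⟨h3, h4⟩ := left_path T.good hL (D.nodup_fl i) (by
      intro a ha
      rw [Tw.eps_fix h1, Tw.phi_fix h2, hL a ha]
      omega) h
    exact ⟨by omega, h3, h4⟩

/-! ### the automorphisms -/

variable (D)

/-- relabelling -/
@[reducible] def tw (X : Crystal.{0} E) : Crystal.{0} E where
  carrier := X.carrier
  arrow a := X.arrow (D.σ a)
  eps a := X.eps (D.σ a)
  phi a := X.phi (D.σ a)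
  arrow_fun h h' := X.arrow_fun h h'
  arrow_inj h h' := X.arrow_inj h h'
  exists_of_phi h := X.exists_of_phi h
  exists_of_eps h := X.exists_of_eps h
  eps_arrow h := X.eps_arrow h
  phi_arrow h := X.phi_arrow h
  weight_arrow := by
    intro i x y h j
    rw [← D.A_σ j i]
    exact X.weight_arrow h (D.σ j)

lemma tw_path {X : Crystal.{0} E} {L : List J} {x y : X.carrier} :
    (D.tw X).Path L x y ↔ X.Path (L.map D.σ) x y := by
  induction L generalizing y with
  | nil => exact Iff.rfl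
  | cons a L ih =>
    constructor
    · rintro ⟨z, h1, h2⟩; exact ⟨z, ih.1 h1, h2⟩
    · rintro ⟨z, h1, h2⟩; exact ⟨z, ih.2 h1, h2⟩

variable {D} in
/-- relabelling of embeddings -/
def twEmb {X Y : Crystal.{0} E} (j : Emb X Y) : Emb (D.tw X) (D.tw Y) where
  toFun x := j x
  inj := j.inj
  map_arrow h := j.map_arrow h
  map_eps a x := j.map_eps (D.σ a) x
  map_phi a x := j.map_phi (D.σ a) x

/-- relabelling of families -/
def twFam (F : Family.{0} E) : Family.{0} E where
  B la := D.tw (F.B (fun a => la (D.σ.symm a)))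
  hw la := F.hw (fun a => la (D.σ.symm a))
  high la a := F.high _ (D.σ a)
  phi_hw la a := by
    have h := F.phi_hw (fun a => la (D.σ.symm a)) (D.σ a)
    rw [Equiv.symm_apply_apply] at h
    exact h
  gen la x := by
    obtain ⟨L, hL⟩ := F.gen (fun a => la (D.σ.symm a)) x
    refine ⟨L.map D.σ.symm, ?_⟩
    rw [tw_path, List.map_map]
    have : (D.σ ∘ D.σ.symm : J → J) = id := by funext a; simp
    rw [this, List.map_id]
    exact hL
  closed la mu z hz := by
    obtain ⟨nu, j, hj⟩ := F.closed (fun a => la (D.σ.symm a)) (fun a => mu (D.σ.symm a)) z (by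
      intro a
      have h := hz (D.σ.symm a)
      have h' : (tensor (F.B fun a => la (D.σ.symm a)) (F.B fun a => mu (D.σ.symm a))).eps
        (D.σ (D.σ.symm a)) z = 0 := h
      rw [Equiv.apply_symm_apply] at h'
      exact h')
    obtain ⟨nu', rfl⟩ : ∃ nu' : J → ℕ, nu = fun a => nu' (D.σ.symm a) :=
      ⟨fun a => nu (D.σ a), by funext a; simp⟩
    exact ⟨nu', twEmb j, hj⟩

lemma exists_tau (F : Family.{0} E) {κ : J → ℕ} (hκ : (fun a => κ (D.σ.symm a)) = κ) :
    ∃ τ : (F.B κ).carrier → (F.B κ).carrier,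
      (∀ a x y, (F.B κ).arrow a x y → (F.B κ).arrow (D.σ a) (τ x) (τ y)) ∧
      (∀ a x, (F.B κ).eps (D.σ a) (τ x) = (F.B κ).eps a x) ∧
      (∀ a x, (F.B κ).phi (D.σ a) (τ x) = (F.B κ).phi a x) ∧ τ (F.hw κ) = F.hw κ := by
  have key : ∀ κ' : J → ℕ, κ' = κ → (∃ j : Emb (F.B κ) (D.tw (F.B κ')), j (F.hw κ) = F.hw κ') →
      ∃ τ : (F.B κ).carrier → (F.B κ).carrier,
      (∀ a x y, (F.B κ).arrow a x y → (F.B κ).arrow (D.σ a) (τ x) (τ y)) ∧
      (∀ a x, (F.B κ).eps (D.σ a) (τ x) = (F.B κ).eps a x) ∧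
      (∀ a x, (F.B κ).phi (D.σ a) (τ x) = (F.B κ).phi a x) ∧ τ (F.hw κ) = F.hw κ := by
    rintro κ' rfl ⟨j, hj⟩
    exact ⟨j, fun a x y h => j.map_arrow h, fun a x => j.map_eps a x,
      fun a x => j.map_phi a x, hj⟩
  obtain ⟨j, _, hj⟩ := Family.unique F (D.twFam F) κ
  exact key _ hκ ⟨j, hj⟩

end FoldData

end Pool.Agent.H78R2.Crys
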