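import Pool.Agent.H78R2.Crys.Fold

/-!
The folded family.
-/

set_option autoImplicit false
set_option linter.unusedSectionVars false

namespace Pool.Agent.H78R2.Crys

open Crystal

variable {I J : Type} [Fintype I] [DecidableEq I] [Fintype J] [DecidableEq J]
variable {C : CartanDatum I} {E : CartanDatum J}

namespace FoldData

variable (D : FoldData C E)

/-- pull back of weights -/
def up (la : I → ℕ) : J → ℕ := fun a => la (D.π a)

lemma up_symm (la : I → ℕ) : (fun a => D.up la (D.σ.symm a)) = D.up la := by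
  funext a
  unfold up
  rw [D.π_σ_symm]

/-- the closed families of good crystals exist -/
lemma exists_fam : ∃ F : Family.{0} E, ∀ la, D.GoodE (F.B la) :=
  family_of_good' (Laced.G E D.symm) (Laced.exists_pc E D.symm D.pos)

variable (F : Family.{0} E) (hF : ∀ la, D.GoodE (F.B la))

/-- the crystals with automorphisms -/
noncomputable def T (la : I → ℕ) : D.Tw where
  X := F.B (D.up la)
  good := hF _
  τ := Classical.choose (D.exists_tau F (D.up_symm la))
  arr := fun {a x y} h => (Classical.choose_spec (D.exists_tau F (D.up_symm la))).1 a x y h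
  eps := (Classical.choose_spec (D.exists_tau F (D.up_symm la))).2.1
  phi := (Classical.choose_spec (D.exists_tau F (D.up_symm la))).2.2.1

lemma T_hw (la : I → ℕ) : (D.T F hF la).τ (F.hw (D.up la)) = F.hw (D.up la) :=
  (Classical.choose_spec (D.exists_tau F (D.up_symm la))).2.2.2

/-- the highest weight element -/
noncomputable def fhw (la : I → ℕ) : (D.T F hF la).fold.carrier :=
  ⟨F.hw (D.up la), D.T_hw F hF la⟩

lemma fhigh (la : I → ℕ) : (D.T F hF la).fold.IsHigh (D.fhw F hF la) := fun i =>
  F.high (D.up la) (D.s i)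

lemma fphi (la : I → ℕ) (i : I) :
    (D.T F hF la).fold.phi i (D.fhw F hF la) = la i := by
  have h := F.phi_hw (D.up la) (D.s i)
  have h1 : D.up la (D.s i) = la i := congrArg la (D.π_s i)
  exact h.trans h1

lemma fgen (la : I → ℕ) (x : (D.T F hF la).fold.carrier) :
    ∃ L, (D.T F hF la).fold.Path L (D.fhw F hF la) x := by
  refine gen_of (X := (D.T F hF la).fold)
    (fun x => (Classical.choose (F.gen (D.up la) x.1)).length) ?_ ?_ x
  · intro i x y h
    have h1 := Classical.choose_spec (F.gen (D.up la) x.1)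
    have h2 := Classical.choose_spec (F.gen (D.up la) y.1)
    have h3 : (F.B (D.up la)).Path (D.fl i ++ Classical.choose (F.gen (D.up la) x.1))
        (F.hw (D.up la)) y.1 := path_append.2 ⟨x.1, h1, h⟩
    have h4 := F.toWFam.length_eq h2 h3
    rw [List.length_append] at h4
    have h5 : 0 < (D.fl i).length := List.length_pos_of_mem (D.mem_fl.2 (D.π_s i))
    show (Classical.choose (F.gen (D.up la) x.1)).length <
      (Classical.choose (F.gen (D.up la) y.1)).length
    omega
  · intro x hx
    exact Subtype.ext (F.toWFam.eq_hw (Tw.fold_high hx))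

lemma fclosed (la mu : I → ℕ)
    (z : (tensor (D.T F hF la).fold (D.T F hF mu).fold).carrier)
    (hz : (tensor (D.T F hF la).fold (D.T F hF mu).fold).IsHigh z) :
    ∃ (nu : I → ℕ) (j : Emb (D.T F hF nu).fold (tensor (D.T F hF la).fold (D.T F hF mu).fold)),
      j (D.fhw F hF nu) = z := by
  obtain ⟨⟨x, hx⟩, ⟨y, hy⟩⟩ := z
  have hxy : (tensor (F.B (D.up la)) (F.B (D.up mu))).IsHigh (x, y) := by
    intro a
    show (F.B (D.up mu)).eps a y + ((F.B (D.up la)).eps a x - (F.B (D.up mu)).phi a y) = 0
    have h1 := Tw.eps_fix (T := D.T F hF la) hx a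
    have h2 := Tw.eps_fix (T := D.T F hF mu) hy a
    have h3 := Tw.phi_fix (T := D.T F hF mu) hy a
    have h4 := hz (D.π a)
    have h4' : (F.B (D.up mu)).eps (D.s (D.π a)) y +
      ((F.B (D.up la)).eps (D.s (D.π a)) x - (F.B (D.up mu)).phi (D.s (D.π a)) y) = 0 := h4
    have h1' : (F.B (D.up la)).eps a x = (F.B (D.up la)).eps (D.s (D.π a)) x := h1
    have h2' : (F.B (D.up mu)).eps a y = (F.B (D.up mu)).eps (D.s (D.π a)) y := h2
    have h3' : (F.B (D.up mu)).phi a y = (F.B (D.up mu)).phi (D.s (D.π a)) y := h3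
    rw [h1', h2', h3']
    exact h4'
  obtain ⟨nu', j, hj⟩ := F.closed _ _ _ hxy
  have hnu : ∀ a, nu' a = nu' (D.s (D.π a)) := by
    intro a
    have key : ∀ b, nu' b = (F.B (D.up la)).phi b x +
        ((F.B (D.up mu)).phi b y - (F.B (D.up la)).eps b x) := by
      intro b
      rw [← F.phi_hw nu' b, ← j.map_phi b, hj]
    rw [key a, key (D.s (D.π a))]
    have h1 : (F.B (D.up la)).eps a x = (F.B (D.up la)).eps (D.s (D.π a)) x :=
      Tw.eps_fix (T := D.T F hF la) hx a
    have h2 : (F.B (D.up la)).phi a x = (F.B (D.up la)).phi (D.s (D.π a)) x :=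
      Tw.phi_fix (T := D.T F hF la) hx a
    have h3 : (F.B (D.up mu)).phi a y = (F.B (D.up mu)).phi (D.s (D.π a)) y :=
      Tw.phi_fix (T := D.T F hF mu) hy a
    rw [h1, h2, h3]
  obtain ⟨nu, rfl⟩ : ∃ nu : I → ℕ, nu' = D.up nu := ⟨fun i => nu' (D.s i), funext hnu⟩
  -- equivariance
  have hequi : ∀ t : (F.B (D.up nu)).carrier, j ((D.T F hF nu).τ t) =
      ((D.T F hF la).τ (j t).1, (D.T F hF mu).τ (j t).2) := by
    intro t
    obtain ⟨L, hL⟩ := F.gen (D.up nu) t
    have h1 := (D.T F hF nu).path hL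
    rw [D.T_hw F hF nu] at h1
    have h2 := Crystal.Path.map j h1
    have h3 := hL.map j
    rw [hj] at h2 h3
    have key : ∀ (M : List J) (q : (tensor (F.B (D.up la)) (F.B (D.up mu))).carrier),
        (tensor (F.B (D.up la)) (F.B (D.up mu))).Path M (x, y) q →
        (tensor (F.B (D.up la)) (F.B (D.up mu))).Path (M.map D.σ) (x, y)
          ((D.T F hF la).τ q.1, (D.T F hF mu).τ q.2) := by
      intro M
      induction M with
      | nil =>
        intro q hq
        rw [path_nil] at hq
        subst hq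
        exact Prod.ext hx.symm hy.symm
      | cons a M ih =>
        rintro q ⟨r, h5, h6⟩
        refine ⟨_, ih r h5, ?_⟩
        have e1 : (F.B (D.up la)).eps (D.σ a) ((D.T F hF la).τ r.1) =
          (F.B (D.up la)).eps a r.1 := (D.T F hF la).eps a r.1
        have e2 : (F.B (D.up mu)).phi (D.σ a) ((D.T F hF mu).τ r.2) =
          (F.B (D.up mu)).phi a r.2 := (D.T F hF mu).phi a r.2
        rcases h6 with ⟨g1, g2, g3⟩ | ⟨g1, g2, g3⟩
        · left
          refine ⟨?_, ?_, (D.T F hF mu).arr g3⟩
          · show (F.B (D.up la)).eps (D.σ a) ((D.T F hF la).τ r.1) <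
              (F.B (D.up mu)).phi (D.σ a) ((D.T F hF mu).τ r.2)
            rw [e1, e2]; exact g1
          · exact congrArg (D.T F hF la).τ g2
        · right
          refine ⟨?_, (D.T F hF la).arr g2, ?_⟩
          · show (F.B (D.up mu)).phi (D.σ a) ((D.T F hF mu).τ r.2) ≤
              (F.B (D.up la)).eps (D.σ a) ((D.T F hF la).τ r.1)
            rw [e1, e2]; exact g1
          · exact congrArg (D.T F hF mu).τ g3
    exact h2.det (key L _ h3)
  have hfix : ∀ t : (D.T F hF nu).fold.carrier,
      (D.T F hF la).τ (j t.1).1 = (j t.1).1 ∧ (D.T F hF mu).τ (j t.1).2 = (j t.1).2 := by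
    intro t
    have h1 := hequi t.1
    have h2 : (D.T F hF nu).τ t.1 = t.1 := t.2
    rw [h2] at h1
    exact ⟨(congrArg Prod.fst h1).symm, (congrArg Prod.snd h1).symm⟩
  refine ⟨nu, ⟨fun t => (⟨(j t.1).1, (hfix t).1⟩, ⟨(j t.1).2, (hfix t).2⟩), ?_, ?_, ?_, ?_⟩, ?_⟩
  · intro t t' h
    apply Subtype.ext
    apply j.inj
    have h1 := congrArg Prod.fst h
    have h2 := congrArg Prod.snd h
    exact Prod.ext (congrArg Subtype.val h1) (congrArg Subtype.val h2)
  · intro i t t' h
    have h1 : (tensor (F.B (D.up la)) (F.B (D.up mu))).Path (D.fl i) (j t.1) (j t'.1) :=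
      Crystal.Path.map j h
    rcases fold_tensor (T := D.T F hF la) (T' := D.T F hF mu) (hfix t).1 (hfix t).2 h1 with
      ⟨g1, g2, g3⟩ | ⟨g1, g2, g3⟩
    · exact Or.inl ⟨g1, Subtype.ext g2, g3⟩
    · exact Or.inr ⟨g1, g2, Subtype.ext g3⟩
  · intro i t
    exact j.map_eps (D.s i) t.1
  · intro i t
    exact j.map_phi (D.s i) t.1
  · have h1 : j (F.hw (D.up nu)) = (x, y) := hj
    exact Prod.ext (Subtype.ext (congrArg Prod.fst h1)) (Subtype.ext (congrArg Prod.snd h1))

include D in
/-- **the folded family** -/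
theorem exists_family : Nonempty (Family.{0} C) := by
  obtain ⟨F, hF⟩ := D.exists_fam
  exact ⟨{ B := fun la => (D.T F hF la).fold
           hw := D.fhw F hF
           high := D.fhigh F hF
           phi_hw := D.fphi F hF
           gen := D.fgen F hF
           closed := D.fclosed F hF }⟩

end FoldData

end Pool.Agent.H78R2.Crys
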