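import Pool.Agent.H78R2.Crys.Stretch

/-!
Every element `b` of `B_λ` has an extremal weight `w λ` such that `b` lies in a Demazure subset
if and only if the extremal element of weight `w λ` does.
-/

set_option autoImplicit false
set_option linter.unusedSectionVars false

namespace Pool.Agent.H78R2.Crys

universe u

variable {I : Type} [Fintype I] [DecidableEq I] {C : CartanDatum I}

open Crystal

namespace Crystal

variable {X Y : Crystal.{u} C}

lemma tensor_path_left' {i : I} {n : ℕ} {a : X.carrier} {b : Y.carrier}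
    {q : (tensor X Y).carrier} (h : Y.phi i b ≤ X.eps i a)
    (hq : (tensor X Y).Path (List.replicate n i) (a, b) q) :
    q.2 = b ∧ X.Path (List.replicate n i) a q.1 := by
  induction n generalizing q with
  | zero => rw [List.replicate_zero, path_nil] at hq; subst hq; exact ⟨rfl, rfl⟩
  | succ n ih =>
    obtain ⟨r, h1, h2⟩ := hq
    obtain ⟨h3, h4⟩ := ih h1
    have h5 := pathrep_eps h4
    rcases tensor_arrow_cases h2 with ⟨g1, g2, g3⟩ | ⟨g1, g2, g3⟩
    · rw [h3] at g1; omega
    · exact ⟨g3.trans h3, r.1, h4, g2⟩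

end Crystal

namespace WFam

variable {F : WFam.{u} C}

lemma str_hw {N : ℕ} (hN : 1 ≤ N) {la mu : I → ℕ} {b : (F.B la).carrier}
    (h : F.Str N la mu b (F.hw mu)) : b = F.hw la := by
  obtain ⟨L, hL⟩ := F.gen la b
  obtain ⟨h1, _⟩ := (h.1 L hL).high_nil (F.high mu)
  match L, hL, h1 with
  | [], hL, _ => exact hL.symm
  | i :: L, _, h1 =>
    rw [pw_cons, List.append_eq_nil_iff, List.replicate_eq_nil_iff] at h1
    omega

/-- Demazure subsets and stretching -/
lemma str_D {N : ℕ} (hN : 1 ≤ N) {la mu : I → ℕ} (hmu : mu = N • la) {L : List I}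
    {b : (F.B la).carrier} {X : (F.B mu).carrier} (h : F.Str N la mu b X) (hb : F.D la L b) :
    F.D mu L X := by
  induction L generalizing b X with
  | nil =>
    rw [D_nil] at hb ⊢
    subst hb
    exact (h.1 [] rfl).symm
  | cons i L ih =>
    obtain ⟨y, n, hy, hyb⟩ := hb
    obtain ⟨Y, hY⟩ := exists_str F hN hmu y
    exact ⟨Y, N * n, ih hY hy, hY.down h hyb⟩

/-- factors of elements of Demazure subsets -/
lemma D_factors {mu la : I → ℕ} {L : List I} {X : (F.B (mu + la)).carrier}
    (h : F.D (mu + la) L X) : F.D mu L (F.emb mu la X).1 ∧ F.D la L (F.emb mu la X).2 := by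
  induction L generalizing X with
  | nil =>
    rw [D_nil] at h
    subst h
    rw [F.emb_hw]
    exact ⟨rfl, rfl⟩
  | cons i L ih =>
    obtain ⟨Y, n, hY, hYX⟩ := h
    obtain ⟨h1, h2⟩ := ih hY
    obtain ⟨m, l, _, h3, h4⟩ := tensor_path_split (hYX.map (F.emb mu la))
    exact ⟨⟨_, m, h1, h3⟩, ⟨_, l, h2, h4⟩⟩

/-- if the right factor is the highest weight element then so is the element -/
lemma right_hw {nu la : I → ℕ} (hs : ∀ i, la i = 0 → nu i = 0) {X : (F.B (nu + la)).carrier}
    (h : (F.emb nu la X).2 = F.hw la) : X = F.hw (nu + la) := by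
  obtain ⟨L, hL⟩ := F.gen _ X
  induction L generalizing X with
  | nil => exact hL.symm
  | cons i L ih =>
    exfalso
    obtain ⟨Z, hZ, hZX⟩ := hL
    have h1 := (F.emb nu la).map_arrow hZX
    rcases tensor_arrow_cases h1 with ⟨g1, g2, g3⟩ | ⟨g1, g2, g3⟩
    · rw [h] at g3
      have := (F.B la).eps_arrow g3
      rw [F.high la i] at this
      omega
    · rw [h] at g3
      have h2 := ih g3.symm hZ
      subst h2
      rw [F.emb_hw] at g1 g2
      dsimp only at g1 g2
      rw [F.high nu i, F.phi_hw] at g1
      have h3 := hs i (by omega)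
      have h4 := (F.B nu).phi_arrow g2
      rw [F.phi_hw, h3] at h4
      omega

/-- Membership in Demazure subsets can be tested on the right factor of a stretched element. -/
lemma D_iff_right {N : ℕ} (hN : 1 ≤ N) {nu la : I → ℕ} (hnu : nu + la = N • la)
    {b : (F.B la).carrier} {X : (F.B (nu + la)).carrier} (h : F.Str N la (nu + la) b X)
    (L : List I) : F.D la L b ↔ F.D la L (F.emb nu la X).2 := by
  constructor
  · intro hb
    exact (D_factors (str_D hN hnu h hb)).2
  · intro hu
    induction L generalizing b X with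
    | nil =>
      rw [D_nil] at hu ⊢
      have hs : ∀ i, la i = 0 → nu i = 0 := by
        intro i hi
        have := congrFun hnu i
        simp only [Pi.add_apply, Pi.smul_apply, smul_eq_mul, hi] at this
        omega
      have h1 := right_hw hs hu
      subst h1
      exact str_hw hN h
    | cons i L ih =>
      obtain ⟨t, ht, hte⟩ := exists_top i b
      obtain ⟨T, hT⟩ := exists_str F hN hnu t
      have h1 := hT.down h ht
      have h2 : (tensor (F.B nu) (F.B la)).eps i (F.emb nu la T) = 0 := by
        rw [(F.emb nu la).map_eps, hT.2 i, hte, mul_zero]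
      rw [tensor_eps] at h2
      obtain ⟨m, l, _, _, h4⟩ := tensor_path_split (h1.map (F.emb nu la))
      have h5 : F.D la L (F.emb nu la T).2 := D_top hu h4 (by omega)
      exact ⟨t, _, ih hT h5, ht⟩

/-- transport along an equality of weights -/
def castE (F : WFam.{u} C) {la mu : I → ℕ} (h : la = mu) : Emb (F.B la) (F.B mu) :=
  h ▸ Emb.id _

lemma castE_hw (F : WFam.{u} C) {la mu : I → ℕ} (h : la = mu) :
    F.castE h (F.hw la) = F.hw mu := by
  subst h; rfl

/-- Existence of a stretching with extremal right factor. -/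
theorem exists_extremal_right (la : I → ℕ) : ∀ (n : ℕ) (b : (F.B la).carrier), F.Dep la n b →
    ∃ (N : ℕ) (nu : I → ℕ) (X : (F.B (nu + la)).carrier) (w : C.W), 1 ≤ N ∧
      nu + la = N • la ∧ F.Str N la (nu + la) b X ∧
      (F.B la).wt (F.emb nu la X).2 = C.act w (wz la) := by
  intro n
  induction n with
  | zero =>
    rintro b ⟨L, hL, hn⟩
    have : L = [] := List.length_eq_zero_iff.1 (by omega)
    subst this
    rw [path_nil] at hL
    subst hL
    have h1 : (0 : I → ℕ) + la = 1 • la := by simp
    obtain ⟨X, hX⟩ := exists_str F (le_refl 1) h1 (F.hw la)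
    refine ⟨1, 0, X, 1, le_rfl, h1, hX, ?_⟩
    have h2 : F.hw _ = X := hX.1 [] rfl
    rw [← h2, F.emb_hw, map_one, Module.End.one_apply]
    exact F.wt_hw' la
  | succ n ih =>
    rintro b ⟨L, hL, hn⟩
    match L, hL, hn with
    | [], hL, _ => exact ih b ⟨[], hL, by simp⟩
    | i :: L', ⟨y, hy, hyb⟩, hn =>
      have hpos : 0 < (F.B la).eps i b := by rw [(F.B la).eps_arrow hyb]; omega
      obtain ⟨t, ht, hte⟩ := exists_top i b
      set p := (F.B la).eps i b with hp
      -- depth of `t`
      obtain ⟨K₀, hK₀⟩ := F.gen la t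
      have hlen : p + K₀.length = L'.length + 1 := by
        have h1 : (F.B la).Path (List.replicate p i ++ K₀) (F.hw la) b :=
          path_append.2 ⟨t, hK₀, ht⟩
        have h2 : (F.B la).Path (i :: L') (F.hw la) b := ⟨y, hy, hyb⟩
        have h3 := F.length_eq h1 h2
        rw [List.length_append, List.length_replicate, List.length_cons] at h3
        exact h3
      rw [List.length_cons] at hn
      obtain ⟨N, nu, X, w, hN, hnu, hX, hw⟩ := ih t ⟨K₀, hK₀, by omega⟩
      set a := (F.emb nu la X).1 with ha
      set u := (F.emb nu la X).2 with hu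
      have hau : F.emb nu la X = (a, u) := rfl
      set m := (F.B la).phi i u with hm
      have heps : (F.B la).eps i u + ((F.B nu).eps i a - m) = 0 := by
        have h1 := (F.emb nu la).map_eps i X
        rw [hX.2 i, hte, mul_zero, tensor_eps] at h1
        exact h1
      have hum : (F.B la).wt u i = m := by
        rw [wt_apply]; omega
      -- the new weights
      have hM : 1 ≤ m + 1 := by omega
      have hnu' : ((m + 1) • nu + m • la) + la = ((m + 1) * N) • la := by
        have h1 : ((m + 1) • nu + m • la) + la = (m + 1) • (nu + la) := by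
          rw [smul_add, add_assoc, ← succ_nsmul]
        rw [h1, hnu, ← mul_smul]
      obtain ⟨aM, haM⟩ := exists_str F hM (la := nu) rfl a
      obtain ⟨uM, huM⟩ := exists_str F hM (la := la) rfl u
      have hcast : (m + 1) • la = m • la + la := succ_nsmul la m
      set E₁ : Emb (F.B ((m + 1) • la)) (tensor (F.B (m • la)) (F.B la)) :=
        (F.emb (m • la) la).comp (F.castE hcast) with hE₁
      have hE₁hw : E₁ (F.hw _) = (F.hw _, F.hw _) := by
        rw [hE₁, Emb.comp_apply, castE_hw, F.emb_hw]
      set v := (E₁ uM).1 with hv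
      have hsplit : (F.B (m • la)).wt v = C.act w (wz (m • la)) ∧
          (F.B la).wt (E₁ uM).2 = C.act w (wz la) := by
        apply ext_split (z := F.castE hcast uM) _ rfl
        rw [Emb.map_wt]
        obtain ⟨Ku, hKu⟩ := F.gen la u
        rw [str_wt rfl hKu (huM.1 Ku hKu), hw, ← hcast, wz_smul, map_smul]
      have hu2 : (E₁ uM).2 = u := (F.unique_ext la w).unique hsplit.2 hw
      have hE₁u : E₁ uM = (v, u) := by rw [← hu2]
      -- the triple product
      have hKt : (F.B la).Path K₀ (F.hw la) t := hK₀
      have hXp := hX.1 K₀ hKt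
      have h1 : (tensor (F.B nu) (F.B la)).Path (pw N K₀) (F.hw nu, F.hw la) (a, u) := by
        have := hXp.map (F.emb nu la)
        rwa [F.emb_hw] at this
      have h2 := str_tensor hM h1 rfl rfl haM huM
      have h3 := h2.map ((Emb.id (F.B ((m + 1) • nu))).prod E₁)
      rw [Emb.prod_apply, Emb.prod_apply] at h3
      dsimp only at h3
      rw [hE₁hw, hE₁u, Emb.id_apply, Emb.id_apply] at h3
      have h4 := h3.map (Emb.assoc' _ _ _)
      rw [Emb.assoc'_apply, Emb.assoc'_apply] at h4
      dsimp only at h4
      set E₂ : Emb (F.B (((m + 1) • nu + m • la) + la))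
          (tensor (tensor (F.B ((m + 1) • nu)) (F.B (m • la))) (F.B la)) :=
        ((F.emb ((m + 1) • nu) (m • la)).prod (Emb.id (F.B la))).comp
          (F.emb ((m + 1) • nu + m • la) la) with hE₂
      have hE₂hw : E₂ (F.hw _) = ((F.hw _, F.hw _), F.hw _) := by
        rw [hE₂, Emb.comp_apply, F.emb_hw, Emb.prod_apply, F.emb_hw, Emb.id_apply]
      rw [← hE₂hw] at h4
      obtain ⟨X', hX', hE₂X'⟩ := h4.of_map E₂
      rw [pw_pw] at hX'
      obtain ⟨X₁, hX₁⟩ := exists_str F (N := (m + 1) * N) (by nlinarith) hnu' t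
      have hXX : X₁ = X' := (hX₁.1 K₀ hKt).det hX'
      rw [hXX] at hX₁
      obtain ⟨Xb, hXb⟩ := exists_str F (N := (m + 1) * N) (by nlinarith) hnu' b
      have h5 := (hX₁.down hXb ht).map (F.emb ((m + 1) • nu + m • la) la)
      set A := (F.emb ((m + 1) • nu + m • la) la X').1 with hA
      have hE₂X2 : (F.emb ((m + 1) • nu) (m • la) A, (F.emb ((m + 1) • nu + m • la) la X').2) =
          ((aM, v), u) := by
        rw [← hE₂X', hE₂, Emb.comp_apply, Emb.prod_apply, Emb.id_apply]
      obtain ⟨hA1, hA2⟩ := Prod.mk.inj hE₂X2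
      have hX'' : F.emb ((m + 1) • nu + m • la) la X' = (A, u) := by rw [← hA2]
      rw [hX''] at h5
      -- numbers
      have hvi : (F.B (m • la)).wt v i = (m : ℤ) * m := by
        rw [hsplit.1, wz_smul, map_smul, Pi.smul_apply, ← hw, hum, smul_eq_mul]
      have hve : (F.B (m • la)).eps i v = 0 := ext_eps hsplit.1 (by rw [hvi]; positivity)
      have hvp : (F.B (m • la)).phi i v = m * m := by
        rw [wt_apply, hve] at hvi
        push_cast at hvi
        have : ((F.B (m • la)).phi i v : ℤ) = ((m * m : ℕ) : ℤ) := by push_cast; omega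
        exact_mod_cast this
      have hAe : (F.B ((m + 1) • nu + m • la)).eps i A = (m + 1) * (F.B nu).eps i a - m * m := by
        rw [← (F.emb ((m + 1) • nu) (m • la)).map_eps, hA1, tensor_eps]
        dsimp only
        rw [hve, hvp, haM.2 i, zero_add]
      have hue : (F.B la).eps i u = 0 := by omega
      have hem : (F.B nu).eps i a ≤ m := by omega
      refine ⟨(m + 1) * N, (m + 1) • nu + m • la, Xb, ?_⟩
      by_cases hcase : (F.B nu).eps i a = m
      · refine ⟨w, by nlinarith, hnu', hXb, ?_⟩
        have h6 := tensor_path_left' (Y := F.B la) (by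
          rw [hAe, hcase]
          have : (m + 1) * m = m * m + m := by ring
          omega) h5
        rw [h6.1]
        exact hw
      · refine ⟨C.cs.simple i * w, by nlinarith, hnu', hXb, ?_⟩
        have hAe0 : (F.B ((m + 1) • nu + m • la)).eps i A = 0 := by
          rw [hAe]
          have h7 : (F.B nu).eps i a + 1 ≤ m := by omega
          have h8 : (m + 1) * ((F.B nu).eps i a + 1) ≤ (m + 1) * m := Nat.mul_le_mul_left _ h7
          have h9 : (m + 1) * ((F.B nu).eps i a + 1) = (m + 1) * (F.B nu).eps i a + (m + 1) := by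
            ring
          have h10 : (m + 1) * m = m * m + m := by ring
          omega
        obtain ⟨r, hr⟩ : ∃ r, (m + 1) * N * p = r + m := by
          refine ⟨(m + 1) * N * p - m, ?_⟩
          have h7 : m + 1 ≤ (m + 1) * N := Nat.le_mul_of_pos_right _ (by omega)
          have h8 : (m + 1) * N ≤ (m + 1) * N * p := Nat.le_mul_of_pos_right _ (by omega)
          omega
        rw [hr] at h5
        obtain ⟨q, hq1, hq2⟩ := path_replicate_add.1 h5
        obtain ⟨u₁, hu₁⟩ := exists_down (X := F.B la) (i := i) (n := m) (x := u) le_rfl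
        have hq : q = (A, u₁) := by
          apply hq1.det
          apply tensor_path_right _ hu₁
          omega
        subst hq
        have hu₁p := pathrep_phi hu₁
        have h6 := tensor_path_left' (Y := F.B la) (by omega) hq2
        rw [h6.1, wt_pathrep hu₁, C.act_simple_mul, ← hw, C.refl_apply, hum]

/-- **Key theorem.** -/
theorem exists_key (la : I → ℕ) (b : (F.B la).carrier) : ∃ w : C.W, ∀ L,
    F.D la L b ↔ ∃ v ∈ SubW C L, C.act v (wz la) = C.act w (wz la) := by
  obtain ⟨L, hL⟩ := F.gen la b
  obtain ⟨N, nu, X, w, hN, hnu, hX, hw⟩ := exists_extremal_right la L.length b ⟨L, hL, le_rfl⟩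
  refine ⟨w, fun L => ?_⟩
  rw [D_iff_right hN hnu hX L]
  exact D_ext_iff hw

end WFam

end Pool.Agent.H78R2.Crys
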