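import Pool.Agent.H78R2.Crys.Comp

/-!
The quadratic form of a symmetric Cartan matrix, and the crystals of small weights.
-/

set_option autoImplicit false
set_option linter.unusedSectionVars false

namespace Pool.Agent.H78R2.Crys

open Crystal

namespace Laced

variable {I : Type} [Fintype I] [DecidableEq I] (C : CartanDatum I)

/-- the linear forms -/
def p (x : I → ℤ) (i : I) : ℤ := ∑ j, C.A i j * x j

/-- the bilinear form -/
def B (x y : I → ℤ) : ℤ := ∑ i, x i * p C y i

/-- the quadratic form -/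
def Q (x : I → ℤ) : ℤ := B C x x

/-- the coordinate vectors -/
def e (i : I) : I → ℤ := Pi.single i 1

lemma e_apply (i j : I) : e i j = if j = i then 1 else 0 := by
  unfold e; rw [Pi.single_apply]

lemma p_add (x y : I → ℤ) (i : I) : p C (x + y) i = p C x i + p C y i := by
  unfold p
  rw [← Finset.sum_add_distrib]
  exact Finset.sum_congr rfl fun j _ => by rw [Pi.add_apply]; ring

lemma p_smul (c : ℤ) (x : I → ℤ) (i : I) : p C (c • x) i = c * p C x i := by
  unfold p
  rw [Finset.mul_sum]
  exact Finset.sum_congr rfl fun j _ => by rw [Pi.smul_apply, smul_eq_mul]; ring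

lemma p_neg (x : I → ℤ) (i : I) : p C (-x) i = - p C x i := by
  have h := p_smul C (-1) x i
  rw [neg_one_smul] at h
  rw [h]; ring

lemma p_sub (x y : I → ℤ) (i : I) : p C (x - y) i = p C x i - p C y i := by
  rw [sub_eq_add_neg, p_add, p_neg]; ring

lemma p_e (i j : I) : p C (e i) j = C.A j i := by
  unfold p
  rw [Finset.sum_eq_single i]
  · rw [e_apply, if_pos rfl, mul_one]
  · intro k _ hk
    rw [e_apply, if_neg hk, mul_zero]
  · intro h; exact absurd (Finset.mem_univ i) h

lemma B_add_left (x y z : I → ℤ) : B C (x + y) z = B C x z + B C y z := by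
  unfold B
  rw [← Finset.sum_add_distrib]
  exact Finset.sum_congr rfl fun j _ => by rw [Pi.add_apply]; ring

lemma B_add_right (x y z : I → ℤ) : B C x (y + z) = B C x y + B C x z := by
  unfold B
  rw [← Finset.sum_add_distrib]
  exact Finset.sum_congr rfl fun j _ => by rw [p_add]; ring

lemma B_smul_left (c : ℤ) (x y : I → ℤ) : B C (c • x) y = c * B C x y := by
  unfold B
  rw [Finset.mul_sum]
  exact Finset.sum_congr rfl fun j _ => by rw [Pi.smul_apply, smul_eq_mul]; ring

lemma B_smul_right (c : ℤ) (x y : I → ℤ) : B C x (c • y) = c * B C x y := by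
  unfold B
  rw [Finset.mul_sum]
  exact Finset.sum_congr rfl fun j _ => by rw [p_smul]; ring

lemma B_e_left (i : I) (y : I → ℤ) : B C (e i) y = p C y i := by
  unfold B
  rw [Finset.sum_eq_single i]
  · rw [e_apply, if_pos rfl, one_mul]
  · intro k _ hk
    rw [e_apply, if_neg hk, zero_mul]
  · intro h; exact absurd (Finset.mem_univ i) h

variable (hs : ∀ i j, C.A i j = C.A j i)

include hs in
lemma B_symm (x y : I → ℤ) : B C x y = B C y x := by
  unfold B p
  simp only [Finset.mul_sum]
  rw [Finset.sum_comm]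
  exact Finset.sum_congr rfl fun i _ => Finset.sum_congr rfl fun j _ => by rw [hs j i]; ring

include hs in
lemma Q_add (x y : I → ℤ) : Q C (x + y) = Q C x + 2 * B C x y + Q C y := by
  unfold Q
  rw [B_add_left, B_add_right, B_add_right, B_symm C hs y x]; ring

include hs in
lemma Q_add_smul (x : I → ℤ) (c : ℤ) (i : I) :
    Q C (x + c • e i) = Q C x + 2 * c * p C x i + 2 * c ^ 2 := by
  rw [Q_add C hs, B_smul_right, B_symm C hs, B_e_left]
  have : Q C (c • e i) = 2 * c ^ 2 := by
    unfold Q
    rw [B_smul_right, B_smul_left, B_e_left, p_e, C.diag]; ring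
  rw [this]; ring

include hs in
lemma Q_add_e (x : I → ℤ) (i : I) : Q C (x + e i) = Q C x + 2 * p C x i + 2 := by
  have h := Q_add_smul C hs x 1 i
  rw [one_smul] at h
  rw [h]; ring

include hs in
lemma Q_sub_e (x : I → ℤ) (i : I) : Q C (x - e i) = Q C x - 2 * p C x i + 2 := by
  have h := Q_add_smul C hs x (-1) i
  rw [neg_one_smul, ← sub_eq_add_neg] at h
  rw [h]; ring

lemma Q_neg (x : I → ℤ) : Q C (-x) = Q C x := by
  unfold Q
  have h : B C ((-1 : ℤ) • x) ((-1 : ℤ) • x) = B C x x := by
    rw [B_smul_right, B_smul_left]; ring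
  rw [neg_one_smul] at h
  exact h

lemma Q_e (i : I) : Q C (e i) = 2 := by
  unfold Q
  rw [B_e_left, p_e, C.diag]

/-! ### evenness -/

include hs in
lemma Q_even (x : I → ℤ) : ∃ k, Q C x = 2 * k := by
  have key : ∀ s : Finset I, ∃ k, Q C (∑ i ∈ s, x i • e i) = 2 * k := by
    intro s
    induction s using Finset.induction_on with
    | empty =>
      refine ⟨0, ?_⟩
      rw [Finset.sum_empty]
      unfold Q B
      simp
    | insert a s ha ih =>
      obtain ⟨k, hk⟩ := ih
      rw [Finset.sum_insert ha, add_comm, Q_add_smul C hs, hk]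
      exact ⟨k + x a * p C (∑ i ∈ s, x i • e i) a + x a ^ 2, by ring⟩
  obtain ⟨k, hk⟩ := key Finset.univ
  refine ⟨k, ?_⟩
  rw [← hk]
  congr 1
  funext j
  rw [Finset.sum_apply, Finset.sum_eq_single j]
  · rw [Pi.smul_apply, e_apply, if_pos rfl, smul_eq_mul, mul_one]
  · intro i _ hi
    rw [Pi.smul_apply, e_apply, if_neg (Ne.symm hi), smul_zero]
  · intro h; exact absurd (Finset.mem_univ j) h

/-! ### roots -/

variable (hQ : ∀ x : I → ℤ, x ≠ 0 → 0 < Q C x)

include hQ in
lemma Q_nonneg (x : I → ℤ) : 0 ≤ Q C x := by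
  by_cases h : x = 0
  · rw [h]; unfold Q B; simp
  · exact (hQ x h).le

include hQ in
lemma eq_zero_of_Q {x : I → ℤ} (h : Q C x ≤ 0) : x = 0 := by
  by_contra hc
  have := hQ x hc
  omega

include hs hQ in
lemma p_le {x : I → ℤ} (hx : Q C x = 2) (i : I) : p C x i ≤ 2 := by
  have h1 := Q_nonneg C hQ (x - e i)
  rw [Q_sub_e C hs, hx] at h1
  omega

include hs hQ in
lemma le_p {x : I → ℤ} (hx : Q C x = 2) (i : I) : -2 ≤ p C x i := by
  have h1 := Q_nonneg C hQ (x + e i)
  rw [Q_add_e C hs, hx] at h1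
  omega

include hs hQ in
lemma eq_e {x : I → ℤ} (hx : Q C x = 2) {i : I} (h : p C x i = 2) : x = e i := by
  have h1 := eq_zero_of_Q C hQ (x := x - e i) (by rw [Q_sub_e C hs, hx, h]; norm_num)
  exact sub_eq_zero.1 h1

include hs hQ in
lemma eq_neg_e {x : I → ℤ} (hx : Q C x = 2) {i : I} (h : p C x i = -2) : x = - e i := by
  have h1 := eq_zero_of_Q C hQ (x := x + e i) (by rw [Q_add_e C hs, hx, h]; norm_num)
  exact eq_neg_of_add_eq_zero_left h1

/-! ### the rank two families -/

include hs in
lemma neg_one {i j : I} (h : i ≠ j) (h0 : C.A i j ≠ 0) : C.A i j = -1 := by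
  have h1 := C.cases_pair h
  have h2 := hs i j
  omega

/-- the rank two families of a symmetric Cartan matrix -/
noncomputable def G : Fam2 C := fun i j h =>
  if h0 : C.A i j = 0 then A1A1.fam (C.res (pr i j) (pr_inj h)) h0 else
    A2.fam (C.res (pr i j) (pr_inj h)) (neg_one C hs h h0)
      (neg_one C hs h.symm (fun h' => h0 (C.zero_symm h')))

lemma good_of {X : Crystal.{0} C}
    (h1 : ∀ i j, i ≠ j → C.A i j = 0 →
      (∀ x y, X.arrow i x y → X.eps j y = X.eps j x) ∧
      (∀ x y z, X.arrow i x y → X.arrow j x z → ∃ w, X.arrow j y w ∧ X.arrow i z w))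
    (N : ℤ) (hN : ∀ i j x, i ≠ j → X.wt x i + X.wt x j ≤ N)
    (h2 : ∀ i j (h : i ≠ j) (h01 : C.A i j = -1) (h10 : C.A j i = -1) (x₀ : X.carrier),
      X.eps i x₀ = 0 → X.eps j x₀ = 0 →
      ∃ (nu : Bool → ℕ) (e : Emb ((A2.fam (C.res (pr i j) (pr_inj h)) h01 h10).B nu)
        (X.res (pr i j) (pr_inj h))),
        e ((A2.fam (C.res (pr i j) (pr_inj h)) h01 h10).hw nu) = x₀) :
    Good (G C hs) X := by
  intro i j h
  by_cases h0 : C.A i j = 0
  · have : G C hs i j h = A1A1.fam (C.res (pr i j) (pr_inj h)) h0 := dif_pos h0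
    rw [this]
    have h0' := C.zero_symm h0
    exact A1A1.norm_of (D := C.res (pr i j) (pr_inj h)) h0 (h1 i j h h0).1
      (h1 j i h.symm h0').1 (h1 i j h h0).2
  · have : G C hs i j h = A2.fam (C.res (pr i j) (pr_inj h)) (neg_one C hs h h0)
      (neg_one C hs h.symm (fun h' => h0 (C.zero_symm h'))) := dif_neg h0
    rw [this]
    have hA := neg_one C hs h h0
    have hA' := neg_one C hs h.symm (fun h' => h0 (C.zero_symm h'))
    refine norm_of_high _ (X := X.res (pr i j) (pr_inj h))
      (fun x => (N - (X.wt x i + X.wt x j)).toNat) ?_ ?_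
    · intro b x y hxy
      have a1 := hN i j x h
      have a2 := hN i j y h
      cases b
      · have hxy' : X.arrow i x y := hxy
        have a3 : X.wt y i = X.wt x i - C.A i i := X.weight_arrow hxy' i
        have a4 : X.wt y j = X.wt x j - C.A j i := X.weight_arrow hxy' j
        rw [C.diag] at a3
        omega
      · have hxy' : X.arrow j x y := hxy
        have a3 : X.wt y i = X.wt x i - C.A i j := X.weight_arrow hxy' i
        have a4 : X.wt y j = X.wt x j - C.A j j := X.weight_arrow hxy' j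
        rw [C.diag] at a4
        omega
    · intro x₀ hx₀
      exact h2 i j h hA hA' x₀ (hx₀ false) (hx₀ true)

/-- orthogonal labels commute in good crystals -/
lemma orth_of_good {X : Crystal.{0} C} (hX : Good (G C hs) X) {i j : I} (h : i ≠ j)
    (h0 : C.A i j = 0) : (∀ x y, X.arrow i x y → X.eps j y = X.eps j x) ∧
      (∀ x y z, X.arrow i x y → X.arrow j x z → ∃ w, X.arrow j y w ∧ X.arrow i z w) := by
  have h1 := hX i j h
  have : G C hs i j h = A1A1.fam (C.res (pr i j) (pr_inj h)) h0 := dif_pos h0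
  rw [this] at h1
  exact A1A1.of_norm (D := C.res (pr i j) (pr_inj h)) h0 h1

end Laced

end Pool.Agent.H78R2.Crys
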