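import Pool.Agent.H78R2.Crys.Weyl

/-!
Uniqueness of the lowest weight element of `B_λ`.
-/

set_option autoImplicit false
set_option linter.unusedSectionVars false

namespace Pool.Agent.H78R2.Crys

universe u

variable {I : Type} [Fintype I] [DecidableEq I] {C : CartanDatum I}

open Crystal

namespace Crystal

lemma Path.of_map' {X Y : Crystal.{u} C} (j : Emb X Y) {L : List I} {x : X.carrier}
    {y : Y.carrier} (h : Y.Path L y (j x)) : ∃ x', X.Path L x' x ∧ j x' = y := by
  induction L generalizing x with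
  | nil => rw [path_nil] at h; exact ⟨x, rfl, h.symm⟩
  | cons i L ih =>
    obtain ⟨z, h1, h2⟩ := h
    obtain ⟨x', h3, rfl⟩ := j.arrow_of' h2
    obtain ⟨x'', h4, rfl⟩ := ih h1
    exact ⟨x'', ⟨x', h4, h3⟩, rfl⟩

end Crystal

namespace WFam

variable {F : WFam.{u} C}

lemma D_string_all {la : I → ℕ} {L : List I} {i : I} {m : ℕ} {x' x : (F.B la).carrier}
    (h : F.D la L x') (he : 0 < (F.B la).eps i x')
    (hp : (F.B la).Path (List.replicate m i) x' x) : F.D la L x := by
  induction m generalizing x with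
  | zero => rw [List.replicate_zero, path_nil] at hp; subst hp; exact h
  | succ m ih =>
    obtain ⟨z, hz, hzx⟩ := hp
    have h1 := ih hz
    have hz' : (F.B la).Path (List.replicate m i) x' z := hz
    have h2 := pathrep_eps hz'
    obtain ⟨y, hy⟩ := (F.B la).exists_of_eps (i := i) (y := z) (by omega)
    exact D_string h1 hy hzx

lemma rho_lemma {rho mu : I → ℕ} (hrho : ∀ j, 0 < rho j) {L : List I} (hL : C.cs.IsReduced L)
    {X : (F.B (rho + mu)).carrier} (hX : F.D (rho + mu) L X)
    (hwt : (F.B rho).wt (F.emb rho mu X).1 = C.act (C.cs.wordProd L) (wz rho)) :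
    (F.B mu).wt (F.emb rho mu X).2 = C.act (C.cs.wordProd L) (wz mu) := by
  induction L generalizing X with
  | nil =>
    rw [D_nil] at hX
    subst hX
    rw [F.emb_hw, C.cs.wordProd_nil, map_one, Module.End.one_apply]
    exact F.wt_hw' mu
  | cons i L ih =>
    have hlt := reduced_cons_lt hL
    have hL' := reduced_tail hL
    rw [C.cs.wordProd_cons] at hwt ⊢
    set w := C.cs.wordProd L with hw
    obtain ⟨T, hT, hTe⟩ := exists_top i X
    have hDT := D_top hX hT hTe
    set n := (F.B (rho + mu)).eps i X with hn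
    have hpath := hT.map (F.emb rho mu)
    obtain ⟨m, l, hml, hx, hy⟩ := tensor_path_split hpath
    obtain ⟨hD1, hD2⟩ := D_factors hDT
    set x := (F.emb rho mu X).1 with hxdef
    set x' := (F.emb rho mu T).1 with hx'def
    set y' := (F.emb rho mu T).2 with hy'def
    have hTp : F.emb rho mu T = (x', y') := rfl
    -- the extremal element above `x`
    obtain ⟨x₀, hx₀, _⟩ := F.unique_ext rho w
    have hk := C.act_pos hlt hrho
    obtain ⟨k, hk'⟩ := Int.eq_ofNat_of_zero_le hk.le
    have hx₀e : (F.B rho).eps i x₀ = 0 := ext_eps hx₀ (by rw [hx₀]; exact hk.le)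
    have hx₀i : ((F.B rho).phi i x₀ : ℤ) - (F.B rho).eps i x₀ = (F.B rho).wt x₀ i := rfl
    rw [hx₀] at hx₀i
    obtain ⟨z, hz⟩ := exists_down (X := F.B rho) (i := i) (n := k) (x := x₀) (by omega)
    have hzx : z = x := by
      apply (F.unique_ext rho (C.cs.simple i * w)).unique _ hwt
      rw [wt_pathrep hz, hx₀, C.act_simple_mul, C.refl_apply, hk']
    rw [hzx] at hz
    have hx'e : (F.B rho).eps i x' = 0 := by
      by_contra hc
      have h1 := D_string_all hD1 (i := i) (by omega) hx
      obtain ⟨v, hv, hv'⟩ := (D_ext_iff hwt).1 h1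
      have h2 := C.inj_of_regular hrho hv'
      have h3 := length_le_of_subW' hv
      rw [h2] at h3
      have h4 : C.cs.length w = L.length := hL'
      omega
    have hx'x₀ : x' = x₀ := top_unique hx hz hx'e hx₀e
    have hwt' : (F.B rho).wt x' = C.act w (wz rho) := by rw [hx'x₀, hx₀]
    have hwy' : (F.B mu).wt y' = C.act w (wz mu) := ih hL' hDT hwt'
    have hq0 := C.act_nonneg hlt mu
    obtain ⟨q, hq⟩ := Int.eq_ofNat_of_zero_le hq0
    have hy'e : (F.B mu).eps i y' = 0 := ext_eps hwy' (by rw [hwy']; exact hq0)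
    have hy'i : ((F.B mu).phi i y' : ℤ) - (F.B mu).eps i y' = (F.B mu).wt y' i := rfl
    rw [hwy'] at hy'i
    have hy'p : (F.B mu).phi i y' = q := by omega
    have hxe := pathrep_eps hz
    rw [hTp] at hpath
    have hnq : q ≤ n := by
      by_contra hc
      obtain ⟨y'', hy''⟩ := exists_down (X := F.B mu) (i := i) (n := n) (x := y') (by omega)
      have h1 := tensor_path_right (X := F.B rho) (a := x') (by omega) hy''
      have h2 := hpath.det h1
      have h3 : x = x' := by rw [hxdef, h2]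
      rw [h3] at hxe
      omega
    obtain ⟨r, hr⟩ : ∃ r, n = r + q := ⟨n - q, by omega⟩
    rw [hr] at hpath
    obtain ⟨mid, hmid1, hmid2⟩ := path_replicate_add.1 hpath
    obtain ⟨y₁, hy₁⟩ := exists_down (X := F.B mu) (i := i) (n := q) (x := y') (by omega)
    have h1 := tensor_path_right (X := F.B rho) (a := x') (by omega) hy₁
    have h2 := hmid1.det h1
    subst h2
    have h3 := pathrep_phi hy₁
    have h4 := tensor_path_left' (Y := F.B mu) (by omega) hmid2
    rw [h4.1, wt_pathrep hy₁, hwy', C.act_simple_mul, C.refl_apply, hq]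

lemma low_lift (rho : I → ℕ) {mu : I → ℕ} {z : (F.B mu).carrier} (hz : (F.B mu).IsLow z)
    (w : C.W) : ∃ X, (F.B rho).wt (F.emb rho mu X).1 = C.act w (wz rho) ∧
      (F.emb rho mu X).2 = z := by
  refine C.cs.simple_induction_left (p := fun w => ∃ X,
    (F.B rho).wt (F.emb rho mu X).1 = C.act w (wz rho) ∧ (F.emb rho mu X).2 = z) w ?_ ?_
  · obtain ⟨X, hX⟩ := tr_exists (F := F) rho z
    refine ⟨X, ?_, ?_⟩
    · rw [hX, map_one, Module.End.one_apply]; exact F.wt_hw' rho
    · rw [hX]
  · rintro w i ⟨X, hX1, hX2⟩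
    set x := (F.emb rho mu X).1 with hx
    have hX : F.emb rho mu X = (x, z) := by rw [← hX2]
    have hxi : ((F.B rho).phi i x : ℤ) - (F.B rho).eps i x = (F.B rho).wt x i := rfl
    by_cases hn : 0 ≤ (F.B rho).wt x i
    · obtain ⟨n, hn⟩ := Int.eq_ofNat_of_zero_le hn
      obtain ⟨x₂, hx₂⟩ := exists_down (X := F.B rho) (i := i) (n := n) (x := x) (by omega)
      have h1 := tensor_path_left (Y := F.B mu) (b := z) (by rw [hz i]; omega) hx₂
      rw [← hX] at h1
      obtain ⟨X₂, _, h2⟩ := h1.of_map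
      refine ⟨X₂, ?_, ?_⟩
      · rw [h2, wt_pathrep hx₂, C.act_simple_mul, ← hX1, C.refl_apply, hn]
      · rw [h2]
    · obtain ⟨n, hn⟩ := Int.eq_ofNat_of_zero_le (a := - (F.B rho).wt x i) (by omega)
      obtain ⟨x₂, hx₂⟩ := exists_up (X := F.B rho) (i := i) (n := n) (x := x) (by omega)
      have h1 := tensor_path_left (Y := F.B mu) (b := z) (by rw [hz i]; omega) hx₂
      rw [← hX] at h1
      obtain ⟨X₂, _, h2⟩ := Path.of_map' _ h1
      refine ⟨X₂, ?_, ?_⟩
      · have h3 : (F.B rho).wt x₂ = (F.B rho).wt x + (n : ℤ) • C.alpha i := by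
          rw [wt_pathrep hx₂]; abel
        rw [h2]
        dsimp only
        rw [h3, C.act_simple_mul, ← hX1, C.refl_apply, ← hn, neg_smul, sub_eq_add_neg]
      · rw [h2]

/-- The lowest weight elements of `B_μ` have weight `w₀ μ`. -/
theorem low_wt (T : LongData C) {mu : I → ℕ} {z : (F.B mu).carrier} (hz : (F.B mu).IsLow z) :
    (F.B mu).wt z = C.act T.w0 (wz mu) := by
  obtain ⟨X, hX1, hX2⟩ := low_lift (F := F) (fun _ => 1) hz T.w0
  obtain ⟨L, hL, hL'⟩ := C.cs.exists_isReduced T.w0
  obtain ⟨w, hw⟩ := exists_key (F := F) _ X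
  have h1 : F.D _ L X := (hw L).2 ⟨w, T.subW_univ hL hL'.symm w, rfl⟩
  have h2 := rho_lemma (by simp) hL h1 (by rw [← hL']; exact hX1)
  rw [hX2, ← hL'] at h2
  exact h2

lemma isLow_of_wt (T : LongData C) {mu : I → ℕ} {z : (F.B mu).carrier}
    (hz : (F.B mu).wt z = C.act T.w0 (wz mu)) : (F.B mu).IsLow z := by
  intro i
  exact ext_phi hz (by rw [hz]; exact T.long.nonpos mu i)

/-- the lowest weight element -/
noncomputable def lw (F : WFam.{u} C) (T : LongData C) (mu : I → ℕ) : (F.B mu).carrier :=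
  Classical.choose (F.unique_ext mu T.w0).exists

lemma lw_wt (F : WFam.{u} C) (T : LongData C) (mu : I → ℕ) :
    (F.B mu).wt (F.lw T mu) = C.act T.w0 (wz mu) :=
  Classical.choose_spec (F.unique_ext mu T.w0).exists

lemma lw_isLow (F : WFam.{u} C) (T : LongData C) (mu : I → ℕ) : (F.B mu).IsLow (F.lw T mu) :=
  isLow_of_wt T (F.lw_wt T mu)

lemma eq_lw (T : LongData C) {mu : I → ℕ} {z : (F.B mu).carrier} (hz : (F.B mu).IsLow z) :
    z = F.lw T mu :=
  (F.unique_ext mu T.w0).unique (low_wt T hz) (F.lw_wt T mu)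

lemma eq_lw_of_wt (T : LongData C) {mu : I → ℕ} {z : (F.B mu).carrier}
    (hz : (F.B mu).wt z = C.act T.w0 (wz mu)) : z = F.lw T mu :=
  (F.unique_ext mu T.w0).unique hz (F.lw_wt T mu)

lemma act_wsum (T : LongData C) (L : List I) : C.act T.w0 (C.wsum L) = - C.wsum (L.map T.th) := by
  induction L with
  | nil => simp
  | cons i L ih =>
    rw [C.wsum_cons, map_add, ih, T.alpha_th, List.map_cons, C.wsum_cons]; abel

lemma exists_bound (T : LongData C) (mu : I → ℕ) : ∃ N, ∀ (L : List I) (x : (F.B mu).carrier),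
    (F.B mu).Path L (F.hw mu) x → L.length ≤ N := by
  obtain ⟨M₀, hM₀⟩ := F.act_wt mu (F.hw mu) T.w0
  refine ⟨M₀.length, fun L x hL => ?_⟩
  obtain ⟨M, hM⟩ := F.act_wt mu x T.w0
  rw [wt_path' hL, map_sub, act_wsum, sub_neg_eq_add] at hM
  rw [F.wt_hw'] at hM₀
  have h1 : C.wsum (L.map T.th ++ M) = C.wsum M₀ := by
    rw [C.wsum_append]
    have h2 : C.wsum (L.map T.th) + C.wsum M = wz mu - C.act T.w0 (wz mu) := by
      have h3 : C.wsum (L.map T.th) = wz mu - C.wsum M - C.act T.w0 (wz mu) := by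
        rw [← hM]; abel
      rw [h3]; abel
    rw [h2, hM₀]; abel
  have h2 := C.length_eq_of_wsum h1
  rw [List.length_append, List.length_map] at h2
  omega

/-- every element is connected to the lowest weight element -/
lemma exists_path_lw (T : LongData C) {mu : I → ℕ} (x : (F.B mu).carrier) :
    ∃ L, (F.B mu).Path L x (F.lw T mu) := by
  obtain ⟨N, hN⟩ := exists_bound (F := F) T mu
  have key : ∀ (n : ℕ) (x : (F.B mu).carrier) (L : List I), (F.B mu).Path L (F.hw mu) x →
      N ≤ L.length + n → ∃ L, (F.B mu).Path L x (F.lw T mu) := by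
    intro n
    induction n with
    | zero =>
      intro x L hL hn
      have hlow : (F.B mu).IsLow x := by
        intro i
        by_contra hc
        obtain ⟨y, hy⟩ := (F.B mu).exists_of_phi (i := i) (x := x) (by omega)
        have h1 := hN (i :: L) y ⟨x, hL, hy⟩
        rw [List.length_cons] at h1
        omega
      exact ⟨[], eq_lw T hlow⟩
    | succ n ih =>
      intro x L hL hn
      by_cases hlow : (F.B mu).IsLow x
      · exact ⟨[], eq_lw T hlow⟩
      · unfold IsLow at hlow
        push Not at hlow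
        obtain ⟨i, hi⟩ := hlow
        obtain ⟨y, hy⟩ := (F.B mu).exists_of_phi (i := i) (x := x) (by omega)
        obtain ⟨M, hM⟩ := ih y (i :: L) ⟨x, hL, hy⟩ (by rw [List.length_cons]; omega)
        exact ⟨M ++ [i], path_append.2 ⟨y, ⟨x, rfl, hy⟩, hM⟩⟩
  obtain ⟨L, hL⟩ := F.gen mu x
  exact key N x L hL (by omega)

end WFam

end Pool.Agent.H78R2.Crys
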