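import Pool.Agent.H78R2.Crys.Partner

/-!
Demazure crystals, keys, Schützenberger involutions on tensor products, and the main theorem.
-/

set_option autoImplicit false
set_option linter.unusedSectionVars false

namespace Pool.Agent.H78R2.Crys

universe u

variable {I : Type} [Fintype I] [DecidableEq I] {C : CartanDatum I}

open Crystal

/-! ### Bruhat order and minimal coset representatives -/

lemma IsMin_BLe {la : I → ℕ} {v u : C.W} (hv : C.IsMin la v)
    (h : C.act u (wz la) = C.act v (wz la)) : BLe C.cs v u := by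
  induction hn : C.cs.length u using Nat.strong_induction_on generalizing v u with
  | _ n ih =>
    by_cases h1 : u = 1
    · subst h1
      have h2 := hv 1 h
      rw [C.cs.length_one] at h2
      have h3 : v = 1 := C.cs.length_eq_zero_iff.1 (by omega)
      rw [h3]
      exact Relation.ReflTransGen.refl
    · obtain ⟨i, hi⟩ := C.exists_left_descent h1
      have hle := C.act_nonpos hi la
      have hstep : BLe C.cs (C.cs.simple i * u) u := by
        have := BLe.simple_step (cs := C.cs) i (w := C.cs.simple i * u)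
          (by rwa [simple_simple])
        rwa [simple_simple] at this
      by_cases h0 : C.act u (wz la) i = 0
      · have h2 : C.act (C.cs.simple i * u) (wz la) = C.act v (wz la) := by
          rw [C.act_simple_mul, C.refl_apply, h0, zero_smul, sub_zero, h]
        exact (ih (C.cs.length (C.cs.simple i * u)) (by omega) hv h2 rfl).trans hstep
      · have h3 : C.cs.length (C.cs.simple i * v) < C.cs.length v := by
          by_contra hc
          have h4 : C.cs.length v < C.cs.length (C.cs.simple i * v) := by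
            have := C.cs.length_simple_mul_ne v i
            omega
          have h5 := C.act_nonneg h4 la
          rw [← h] at h5
          omega
        have h4 := ih (C.cs.length (C.cs.simple i * u)) (by omega) (hv.simple_mul h3)
          (by rw [C.act_simple_mul, C.act_simple_mul, h]) rfl
        have h5 := h4.lift i (by rwa [simple_simple])
        rwa [simple_simple, simple_simple] at h5

namespace WFam

variable (F : WFam.{u} C)

/-- `b ∈ B_w(λ)` -/
def Dem (la : I → ℕ) (w : C.W) (b : (F.B la).carrier) : Prop :=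
  ∃ L : List I, C.cs.IsReduced L ∧ C.cs.wordProd L = w ∧ F.D la L b

/-- `w = κ(b)` -/
def IsKey (la : I → ℕ) (b : (F.B la).carrier) (w : C.W) : Prop :=
  C.IsMin la w ∧ F.Dem la w b ∧
    ∀ w', F.Dem la w' b → ∀ x, F.Dem la w x → F.Dem la w' x

variable {F}

/-- Demazure crystals do not depend on the reduced word -/
theorem D_indep {la : I → ℕ} {L L' : List I} (hL : C.cs.IsReduced L) (hL' : C.cs.IsReduced L')
    (h : C.cs.wordProd L = C.cs.wordProd L') (b : (F.B la).carrier) :
    F.D la L b ↔ F.D la L' b := by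
  obtain ⟨w, hw⟩ := exists_key (F := F) la b
  rw [hw, hw, subW_eq hL hL' h]

lemma dem_iff {la : I → ℕ} {L : List I} (hL : C.cs.IsReduced L) (b : (F.B la).carrier) :
    F.Dem la (C.cs.wordProd L) b ↔ F.D la L b := by
  constructor
  · rintro ⟨L', h1, h2, h3⟩
    exact (D_indep h1 hL h2 b).1 h3
  · intro h
    exact ⟨L, hL, rfl, h⟩

lemma dem_mono {la : I → ℕ} {v w : C.W} (h : BLe C.cs v w) {x : (F.B la).carrier}
    (hx : F.Dem la v x) : F.Dem la w x := by
  obtain ⟨L, hL, rfl, hx⟩ := hx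
  obtain ⟨L', hL', rfl⟩ := C.cs.exists_isReduced w
  rw [dem_iff hL']
  obtain ⟨k, hk⟩ := exists_key (F := F) la x
  rw [hk] at hx ⊢
  obtain ⟨t, ht, ht'⟩ := hx
  exact ⟨t, subW_of_BLe ((BLe_of_subW hL ht).trans h), ht'⟩

/-- membership of extremal elements -/
lemma dem_ext {la : I → ℕ} {w v : C.W} {x : (F.B la).carrier}
    (hx : (F.B la).wt x = C.act v (wz la)) (h : F.Dem la w x) :
    ∃ t, BLe C.cs t w ∧ C.act t (wz la) = C.act v (wz la) := by
  obtain ⟨L, hL, rfl, hD⟩ := h
  obtain ⟨t, ht, ht'⟩ := (D_ext_iff hx).1 hD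
  exact ⟨t, BLe_of_subW hL ht, ht'⟩

lemma dem_ext_self {la : I → ℕ} {w : C.W} {x : (F.B la).carrier}
    (hx : (F.B la).wt x = C.act w (wz la)) : F.Dem la w x := by
  obtain ⟨L, hL, rfl⟩ := C.cs.exists_isReduced w
  exact ⟨L, hL, rfl, (D_ext_iff hx).2 ⟨_, wordProd_mem_subW L, rfl⟩⟩

lemma BLe_length {z y : C.W} (h : BLe C.cs z y) :
    z = y ∨ C.cs.length z < C.cs.length y := by
  induction h with
  | refl => exact Or.inl rfl
  | tail _ h2 ih =>
    obtain ⟨t, _, _, h3⟩ := h2
    rcases ih with rfl | h4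
    · exact Or.inr h3
    · exact Or.inr (h4.trans h3)

/-- if `B_w ⊆ B_{w'}` and `w` is minimal then `ℓ w ≤ ℓ w'`, with equality only if the extremal
weights agree -/
lemma length_le_of_subset {la : I → ℕ} {w w' : C.W} (hw : C.IsMin la w)
    (h : ∀ x, F.Dem la w x → F.Dem la w' x) :
    C.cs.length w ≤ C.cs.length w' ∧
      (C.cs.length w' ≤ C.cs.length w → C.act w' (wz la) = C.act w (wz la)) := by
  obtain ⟨x, hx, _⟩ := F.unique_ext la w
  obtain ⟨t, ht, ht'⟩ := dem_ext hx (h x (dem_ext_self hx))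
  have h1 := hw t ht'
  rcases BLe_length ht with rfl | h2
  · exact ⟨h1, fun _ => ht'⟩
  · exact ⟨by omega, fun h3 => by omega⟩

/-- existence of keys -/
theorem exists_isKey (la : I → ℕ) (b : (F.B la).carrier) : ∃ w, F.IsKey la b w := by
  obtain ⟨k, hk⟩ := exists_key (F := F) la b
  obtain ⟨v, hv, hv'⟩ := CartanDatum.exists_isMin (C := C) la k
  refine ⟨v, hv, ?_, ?_⟩
  · obtain ⟨L, hL, rfl⟩ := C.cs.exists_isReduced v
    exact ⟨L, hL, rfl, (hk L).2 ⟨_, wordProd_mem_subW L, hv'⟩⟩
  · rintro w' ⟨L, hL, rfl, hb⟩ x hx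
    obtain ⟨u, hu, hu'⟩ := (hk L).1 hb
    exact dem_mono ((IsMin_BLe hv (hu'.trans hv'.symm)).trans (BLe_of_subW hL hu)) hx

/-- uniqueness of keys -/
theorem IsKey.unique {la : I → ℕ} {b : (F.B la).carrier} {w w' : C.W}
    (h : F.IsKey la b w) (h' : F.IsKey la b w') : w = w' := by
  have h1 := length_le_of_subset h.1 (h.2.2 w' h'.2.1)
  have h2 := length_le_of_subset h'.1 (h'.2.2 w h.2.1)
  exact h.1.unique h'.1 (h1.2 h2.1).symm

lemma reduced_reverse {L : List I} (h : C.cs.IsReduced L) : C.cs.IsReduced L.reverse :=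
  (C.cs.isReduced_reverse_iff L).2 h

lemma dem_inv (hF : F.Closed) {T : LongData C} {la mu : I → ℕ} {b : (F.B la).carrier}
    {c : (F.B mu).carrier} (h : F.Par T la mu b c) (w : C.W) (hb : F.Dem la w b) :
    F.Dem mu w⁻¹ c := by
  obtain ⟨L, hL, rfl, hb⟩ := hb
  exact ⟨L.reverse, reduced_reverse hL, by rw [C.cs.wordProd_reverse], (h.D_iff hF L).1 hb⟩

/-- **Keys of partners are inverse.** -/
theorem key_inv (hF : F.Closed) {T : LongData C} {la mu : I → ℕ} {b : (F.B la).carrier}
    {c : (F.B mu).carrier} (h : F.Par T la mu b c) {w : C.W} (hw : F.IsKey la b w) :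
    F.IsKey mu c w⁻¹ := by
  obtain ⟨w', hw'⟩ := exists_isKey (F := F) mu c
  have h1 := length_le_of_subset hw'.1 (hw'.2.2 w⁻¹ (dem_inv hF h w hw.2.1))
  have h2 := length_le_of_subset hw.1 (hw.2.2 w'⁻¹ (dem_inv hF h.symm w' hw'.2.1))
  rw [C.cs.length_inv] at h1 h2
  have h3 : C.act w⁻¹ (wz mu) = C.act w' (wz mu) := h1.2 h2.1
  have h4 : C.IsMin mu w⁻¹ := by
    intro v hv
    rw [C.cs.length_inv]
    have := hw'.1 v (hv.trans h3)
    omega
  rw [h4.unique hw'.1 h3]
  exact hw'

/-! ### Schützenberger involutions -/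

end WFam

lemma conn_of_path {X : Crystal.{u} C} {L : List I} {x y : X.carrier} (h : X.Path L x y) :
    Conn X x y := by
  induction L generalizing y with
  | nil => rw [path_nil] at h; subst h; exact Relation.EqvGen.refl _
  | cons i L ih =>
    obtain ⟨z, h1, h2⟩ := h
    exact (ih h1).trans _ _ _ (Relation.EqvGen.rel _ _ ⟨i, h2⟩)

lemma image_of_conn {X Y : Crystal.{u} C} (j : Emb X Y) {x y : Y.carrier} (h : Conn Y x y) :
    (∃ a, j a = x) ↔ ∃ a, j a = y := by
  induction h with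
  | rel x y h =>
    obtain ⟨i, h⟩ := h
    constructor
    · rintro ⟨a, rfl⟩
      obtain ⟨b, _, hb⟩ := j.arrow_of h
      exact ⟨b, hb⟩
    · rintro ⟨a, rfl⟩
      obtain ⟨b, _, hb⟩ := j.arrow_of' h
      exact ⟨b, hb⟩
  | refl x => exact Iff.rfl
  | symm x y _ ih => exact ih.symm
  | trans x y z _ _ ih1 ih2 => exact ih1.trans ih2

namespace WFam

variable (F : WFam.{u} C)

/-- every component of `X` is isomorphic to some `B_ν` -/
def Norm (X : Crystal.{u} C) : Prop :=
  ∀ x : X.carrier, ∃ (nu : I → ℕ) (j : Emb (F.B nu) X) (y : (F.B nu).carrier), j y = x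

variable {F} (T : LongData C)

lemma norm_indep {X : Crystal.{u} C} {nu nu' : I → ℕ} {j : Emb (F.B nu) X}
    {k : Emb (F.B nu') X} {y : (F.B nu).carrier} {z : (F.B nu').carrier} (h : j y = k z) :
    j (F.xi T nu y) = k (F.xi T nu' z) := by
  obtain ⟨L, hL⟩ := F.gen nu y
  have h1 := hL.map j
  rw [h] at h1
  obtain ⟨h', _, h3⟩ := Path.of_map' k h1
  have h4 : h' = F.hw nu' := by
    apply F.eq_hw
    intro i
    rw [← k.map_eps, h3, j.map_eps, F.high]
  subst h4
  have h5 : nu = nu' := by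
    funext i
    have e1 := j.map_phi i (F.hw nu)
    have e2 := k.map_phi i (F.hw nu')
    rw [h3, F.phi_hw] at e2
    rw [F.phi_hw] at e1
    omega
  subst h5
  have h6 := emb_ext (F := F) (j := j) (k := k) h3.symm
  rw [← h6 z] at h
  rw [j.inj h, h6]

theorem exists_schutz {X : Crystal.{u} C} (hX : F.Norm X) :
    ∃ ξ, IsSchutz T.th X ξ ∧ ∀ (nu : I → ℕ) (j : Emb (F.B nu) X) (y : (F.B nu).carrier),
      ξ (j y) = j (F.xi T nu y) := by
  choose nu j y hj using hX
  have key : ∀ (nu' : I → ℕ) (k : Emb (F.B nu') X) (z : (F.B nu').carrier),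
      j (k z) (F.xi T (nu (k z)) (y (k z))) = k (F.xi T nu' z) := fun nu' k z =>
    norm_indep T (hj (k z))
  refine ⟨fun x => j x (F.xi T (nu x) (y x)), ⟨?_, ?_, ?_, ?_⟩, key⟩
  · intro x
    obtain ⟨L, hL⟩ := F.gen (nu x) (y x)
    obtain ⟨M, hM⟩ := F.gen (nu x) (F.xi T (nu x) (y x))
    have h1 := conn_of_path (hL.map (j x))
    have h2 := conn_of_path (hM.map (j x))
    rw [hj] at h1
    exact (h1.symm _ _).trans _ _ _ h2
  · intro i x x' h
    obtain ⟨y', hy', hx'⟩ := (j x).arrow_of (x := y x) (by rw [hj]; exact h)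
    have h1 : j x' (F.xi T (nu x') (y x')) = j x (F.xi T (nu x) y') := by
      rw [← hx']
      exact key _ (j x) y'
    rw [h1]
    exact (j x).map_arrow (xi_arrow T hy')
  · intro i x
    rw [(j x).map_eps, xi_eps, T.th_th, ← (j x).map_phi, hj]
  · intro i x
    rw [(j x).map_phi, xi_phi, T.th_th, ← (j x).map_eps, hj]

theorem schutz_apply {X : Crystal.{u} C} {ξ : X.carrier → X.carrier} (hξ : IsSchutz T.th X ξ)
    {nu : I → ℕ} (j : Emb (F.B nu) X) (y : (F.B nu).carrier) : ξ (j y) = j (F.xi T nu y) := by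
  obtain ⟨L, hL⟩ := F.gen nu y
  induction L generalizing y with
  | nil =>
    have : F.hw nu = y := hL
    subst this
    obtain ⟨a, ha⟩ := (image_of_conn j (hξ.conn (j (F.hw nu)))).1 ⟨_, rfl⟩
    have h1 : a = F.lw T nu := by
      apply eq_lw T
      intro i
      have h2 := hξ.phi (T.th i) (j (F.hw nu))
      rw [T.th_th, ← ha, j.map_phi, j.map_eps, F.high] at h2
      exact h2
    rw [← ha, h1, xi_hw]
  | cons i L ih =>
    obtain ⟨z, hz, hzy⟩ := hL
    have h1 := hξ.rev i _ _ (j.map_arrow hzy)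
    have h2 := j.map_arrow (xi_arrow T hzy)
    rw [ih z hz] at h1
    exact X.arrow_inj h1 h2

theorem existsUnique_schutz {X : Crystal.{u} C} (hX : F.Norm X) : ∃! ξ, IsSchutz T.th X ξ := by
  obtain ⟨ξ, h1, h2⟩ := exists_schutz T hX
  refine ⟨ξ, h1, fun ξ' h3 => ?_⟩
  funext x
  obtain ⟨nu, j, y, rfl⟩ := hX x
  rw [schutz_apply T h3, h2]

lemma norm_self (la : I → ℕ) : F.Norm (F.B la) := fun x => ⟨la, Emb.id _, x, rfl⟩

lemma tensor_exists_high {mu la : I → ℕ} : ∀ (n : ℕ) (L M : List I)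
    (x : (tensor (F.B mu) (F.B la)).carrier), (F.B mu).Path L (F.hw mu) x.1 →
    (F.B la).Path M (F.hw la) x.2 → L.length + M.length ≤ n →
    ∃ K z, (tensor (F.B mu) (F.B la)).IsHigh z ∧ (tensor (F.B mu) (F.B la)).Path K z x := by
  intro n
  induction n with
  | zero =>
    intro L M x hL hM hn
    have e1 : L = [] := List.length_eq_zero_iff.1 (by omega)
    have e2 : M = [] := List.length_eq_zero_iff.1 (by omega)
    subst e1; subst e2
    rw [path_nil] at hL hM
    refine ⟨[], x, fun i => ?_, rfl⟩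
    rw [tensor_eps, ← hL, ← hM, F.high, F.high]; omega
  | succ n ih =>
    intro L M x hL hM hn
    by_cases hx : (tensor (F.B mu) (F.B la)).IsHigh x
    · exact ⟨[], x, hx, rfl⟩
    · unfold IsHigh at hx
      push Not at hx
      obtain ⟨i, hi⟩ := hx
      obtain ⟨y, hy⟩ := (tensor (F.B mu) (F.B la)).exists_of_eps (i := i) (y := x) (by omega)
      obtain ⟨L', hL'⟩ := F.gen mu y.1
      obtain ⟨M', hM'⟩ := F.gen la y.2
      have hlen : L'.length + M'.length ≤ n := by
        rcases tensor_arrow_cases hy with ⟨_, g2, g3⟩ | ⟨_, g2, g3⟩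
        · rw [← g2] at hL'
          have e1 := F.length_eq hL hL'
          have e2 := F.length_eq (L' := i :: M') hM ⟨_, hM', g3⟩
          rw [List.length_cons] at e2
          omega
        · rw [← g3] at hM'
          have e1 := F.length_eq hM hM'
          have e2 := F.length_eq (L' := i :: L') hL ⟨_, hL', g2⟩
          rw [List.length_cons] at e2
          omega
      obtain ⟨K, z, hz, hK⟩ := ih L' M' y hL' hM' hlen
      exact ⟨i :: K, z, hz, y, hK, hy⟩

lemma norm_tensor (hF : F.Closed) (mu la : I → ℕ) : F.Norm (tensor (F.B mu) (F.B la)) := by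
  intro x
  obtain ⟨L, hL⟩ := F.gen mu x.1
  obtain ⟨M, hM⟩ := F.gen la x.2
  obtain ⟨K, z, hz, hK⟩ := tensor_exists_high _ L M x hL hM le_rfl
  obtain ⟨nu, j, hj⟩ := hF mu la z hz
  rw [← hj] at hK
  obtain ⟨y, _, hy⟩ := hK.of_map
  exact ⟨nu, j, y, hy⟩

/-- **The main theorem.** -/
theorem main (hF : F.Closed) {la mu : I → ℕ} {ξla : (F.B la).carrier → (F.B la).carrier}
    {ξmu : (F.B mu).carrier → (F.B mu).carrier}
    {ξ : (tensor (F.B mu) (F.B la)).carrier → (tensor (F.B mu) (F.B la)).carrier}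
    (h1 : IsSchutz T.th (F.B la) ξla) (h2 : IsSchutz T.th (F.B mu) ξmu)
    (h3 : IsSchutz T.th (tensor (F.B mu) (F.B la)) ξ) {b : (F.B la).carrier}
    (hb : (tensor (F.B la) (F.B mu)).IsHigh (b, F.hw mu)) :
    ∃ c, ξ (ξmu (F.hw mu), ξla b) = (c, F.hw la) ∧
      ∀ w, F.IsKey la b w ↔ F.IsKey mu c w⁻¹ := by
  obtain ⟨c, hc⟩ := exists_par hF T hb
  have hP := hc.symm
  obtain ⟨g1, g2, g3⟩ := hP
  obtain ⟨nu, j, g4, _, _, g7⟩ := exists_comp hF T g1
  have g8 := g7 _ g2 g3
  refine ⟨c, ?_, fun w => ⟨key_inv hF hc.symm, fun h => ?_⟩⟩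
  · have e1 : ξla b = F.xi T la b := schutz_apply T h1 (Emb.id _) b
    have e2 : ξmu (F.hw mu) = F.lw T mu := by
      rw [← xi_hw T mu]
      exact schutz_apply T h2 (Emb.id _) (F.hw mu)
    rw [e1, e2, g8, schutz_apply T h3, xi_lw, g4]
  · have := key_inv hF hc h
    rwa [inv_inv] at this

end WFam

/-! ### Families with strong closure -/

namespace Family

variable (F : Family.{u} C)

lemma exists_emb (la mu : I → ℕ) : ∃ j : Emb (F.B (la + mu)) (tensor (F.B la) (F.B mu)),
    j (F.hw (la + mu)) = (F.hw la, F.hw mu) := by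
  obtain ⟨nu, j, hj⟩ := F.closed la mu (F.hw la, F.hw mu) (by
    intro i
    rw [tensor_eps]
    dsimp only
    rw [F.high la i, F.high mu i]; omega)
  have h : nu = la + mu := by
    funext i
    have h1 := j.map_phi i (F.hw nu)
    rw [hj, tensor_phi] at h1
    dsimp only at h1
    rw [F.phi_hw, F.phi_hw, F.phi_hw, F.high la i] at h1
    rw [Pi.add_apply]; omega
  subst h
  exact ⟨j, hj⟩

/-- the embeddings `B_{λ+μ} → B_λ ⊗ B_μ` -/
noncomputable def toWFam : WFam.{u} C where
  B := F.B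
  hw := F.hw
  high := F.high
  phi_hw := F.phi_hw
  gen := F.gen
  emb la mu := Classical.choose (F.exists_emb la mu)
  emb_hw la mu := Classical.choose_spec (F.exists_emb la mu)

lemma toWFam_closed : F.toWFam.Closed := F.closed

theorem D_indep {la : I → ℕ} {L L' : List I} (hL : C.cs.IsReduced L) (hL' : C.cs.IsReduced L')
    (h : C.cs.wordProd L = C.cs.wordProd L') (b : (F.B la).carrier) :
    InD (F.B la) (F.hw la) L b ↔ InD (F.B la) (F.hw la) L' b :=
  WFam.D_indep (F := F.toWFam) hL hL' h b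

theorem existsUnique_key (la : I → ℕ) (b : (F.B la).carrier) : ∃! w, F.IsKey la b w := by
  obtain ⟨w, hw⟩ := WFam.exists_isKey (F := F.toWFam) la b
  exact ⟨w, hw, fun w' hw' => WFam.IsKey.unique (F := F.toWFam) hw' hw⟩

theorem unique (F F' : Family.{u} C) (la : I → ℕ) :
    ∃ j : Emb (F.B la) (F'.B la), Function.Surjective j ∧ j (F.hw la) = F'.hw la :=
  WFam.exists_iso F.toWFam F'.toWFam la

theorem schutz_self (T : LongData C) (la : I → ℕ) : ∃! ξ, IsSchutz T.th (F.B la) ξ :=
  WFam.existsUnique_schutz (F := F.toWFam) T (WFam.norm_self (F := F.toWFam) la)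

theorem schutz_tensor (T : LongData C) (mu la : I → ℕ) :
    ∃! ξ, IsSchutz T.th (tensor (F.B mu) (F.B la)) ξ :=
  WFam.existsUnique_schutz (F := F.toWFam) T (WFam.norm_tensor (F := F.toWFam) F.closed mu la)

theorem main (T : LongData C) {la mu : I → ℕ} {ξla : (F.B la).carrier → (F.B la).carrier}
    {ξmu : (F.B mu).carrier → (F.B mu).carrier}
    {ξ : (tensor (F.B mu) (F.B la)).carrier → (tensor (F.B mu) (F.B la)).carrier}
    (h1 : IsSchutz T.th (F.B la) ξla) (h2 : IsSchutz T.th (F.B mu) ξmu)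
    (h3 : IsSchutz T.th (tensor (F.B mu) (F.B la)) ξ) {b : (F.B la).carrier}
    (hb : (tensor (F.B la) (F.B mu)).IsHigh (b, F.hw mu)) :
    ∃ c, ξ (ξmu (F.hw mu), ξla b) = (c, F.hw la) ∧
      ∀ w, F.IsKey la b w ↔ F.IsKey mu c w⁻¹ :=
  WFam.main (F := F.toWFam) T F.closed h1 h2 h3 hb

end Family

end Pool.Agent.H78R2.Crys
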