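import Pool.Agent.H78R2.Crys.Dual

/-!
Highest weight elements of `B_μ ⊗ B_λ` and the corresponding lowest weight elements.
-/

set_option autoImplicit false
set_option linter.unusedSectionVars false

namespace Pool.Agent.H78R2.Crys

universe u

variable {I : Type} [Fintype I] [DecidableEq I] {C : CartanDatum I}

open Crystal

lemma tensor_high_right {X Y : Crystal.{u} C} {p : (tensor X Y).carrier}
    (h : (tensor X Y).IsHigh p) : Y.IsHigh p.2 := by
  intro i
  have := h i
  rw [tensor_eps] at this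
  omega

lemma tensor_low_left {X Y : Crystal.{u} C} {p : (tensor X Y).carrier}
    (h : (tensor X Y).IsLow p) : X.IsLow p.1 := by
  intro i
  have := h i
  rw [tensor_phi] at this
  omega

namespace WFam

/-- strong closure: highest weight elements of `B_λ ⊗ B_μ` generate copies of the `B_ν` -/
def Closed (F : WFam.{u} C) : Prop :=
  ∀ la mu (z : (tensor (F.B la) (F.B mu)).carrier), (tensor (F.B la) (F.B mu)).IsHigh z →
    ∃ (nu : I → ℕ) (j : Emb (F.B nu) (tensor (F.B la) (F.B mu))), j (F.hw nu) = z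

variable {F : WFam.{u} C}

/-- highest weight elements of tensor products, their components and lowest weight elements -/
lemma exists_comp (hF : F.Closed) (T : LongData C) {mu la : I → ℕ}
    {z : (tensor (F.B mu) (F.B la)).carrier}
    (hz : (tensor (F.B mu) (F.B la)).IsHigh z) :
    ∃ (nu : I → ℕ) (j : Emb (F.B nu) (tensor (F.B mu) (F.B la))), j (F.hw nu) = z ∧
      (j (F.lw T nu)).1 = F.lw T mu ∧
      (tensor (F.B mu) (F.B la)).IsLow (j (F.lw T nu)) ∧
      ∀ z', (tensor (F.B mu) (F.B la)).IsLow z' →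
        (∃ L, (tensor (F.B mu) (F.B la)).Path L z z') → z' = j (F.lw T nu) := by
  obtain ⟨nu, j, hj⟩ := hF mu la z hz
  have hlow : (tensor (F.B mu) (F.B la)).IsLow (j (F.lw T nu)) := by
    intro i
    rw [j.map_phi]
    exact F.lw_isLow T nu i
  refine ⟨nu, j, hj, ?_, hlow, ?_⟩
  · exact eq_lw T (tensor_low_left hlow)
  · rintro z' hz' ⟨L, hL⟩
    rw [← hj] at hL
    obtain ⟨x', _, rfl⟩ := hL.of_map
    congr 1
    apply eq_lw T
    intro i
    have := hz' i
    rw [j.map_phi] at this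
    exact this

variable (F) in
/-- `(b, c)` are partners: the component of the highest weight element `c ⊗ b_λ` of
`B_μ ⊗ B_λ` has lowest weight element `c_μ ⊗ ξ(b)`. -/
def Par (T : LongData C) (la mu : I → ℕ) (b : (F.B la).carrier) (c : (F.B mu).carrier) : Prop :=
  (tensor (F.B mu) (F.B la)).IsHigh (c, F.hw la) ∧
  (tensor (F.B mu) (F.B la)).IsLow (F.lw T mu, F.xi T la b) ∧
  ∃ L, (tensor (F.B mu) (F.B la)).Path L (c, F.hw la) (F.lw T mu, F.xi T la b)

lemma exists_par (hF : F.Closed) (T : LongData C) {la mu : I → ℕ} {c : (F.B mu).carrier}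
    (hc : (tensor (F.B mu) (F.B la)).IsHigh (c, F.hw la)) : ∃ b, F.Par T la mu b c := by
  obtain ⟨nu, j, h1, h2, h3, _⟩ := exists_comp hF T hc
  obtain ⟨L, hL⟩ := exists_path_lw T (F.hw nu)
  have h4 := hL.map j
  rw [h1] at h4
  have h5 : j (F.lw T nu) = (F.lw T mu, F.xi T la (F.xi T la (j (F.lw T nu)).2)) :=
    Prod.ext h2 (xi_xi T _).symm
  rw [h5] at h3 h4
  exact ⟨F.xi T la (j (F.lw T nu)).2, hc, h3, L, h4⟩

lemma Par.unique (hF : F.Closed) {T : LongData C} {la mu : I → ℕ} {b b' : (F.B la).carrier}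
    {c : (F.B mu).carrier} (h : F.Par T la mu b c) (h' : F.Par T la mu b' c) : b = b' := by
  obtain ⟨h1, h2, h3⟩ := h
  obtain ⟨_, h5, h6⟩ := h'
  obtain ⟨nu, j, _, _, _, h7⟩ := exists_comp hF T h1
  have h8 := h7 _ h2 h3
  have h9 := h7 _ h5 h6
  rw [← h9] at h8
  exact (F.xi T la).inj (Prod.mk.inj h8).2

/-- moving a path from `(B_μ ⊗ B_λ) ⊗ B_κ` to `B_μ ⊗ B_{κ+λ}` -/
lemma glue {mu la ka nu : I → ℕ} {j : Emb (F.B nu) (tensor (F.B mu) (F.B la))} {K : List I}
    {x x' : (F.B nu).carrier} {y' : (F.B ka).carrier}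
    (h : (tensor (F.B nu) (F.B ka)).Path K (x, F.hw ka) (x', y'))
    {c d : (F.B mu).carrier} {e : (F.B la).carrier} (hx : j x = (c, F.hw la))
    (hx' : j x' = (d, e)) {Y : (F.B (ka + la)).carrier}
    (hY : F.emb' ka la Y = (e, y')) :
    (tensor (F.B mu) (F.B (ka + la))).Path K (c, F.hw (ka + la)) (d, Y) ∧
    (∀ i, (tensor (F.B mu) (F.B (ka + la))).eps i (c, F.hw (ka + la)) =
      (tensor (F.B nu) (F.B ka)).eps i (x, F.hw ka)) ∧
    (∀ i, (tensor (F.B mu) (F.B (ka + la))).phi i (d, Y) =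
      (tensor (F.B nu) (F.B ka)).phi i (x', y')) := by
  set E₁ := (Emb.assoc (F.B mu) (F.B la) (F.B ka)).comp (j.prod (Emb.id (F.B ka))) with hE₁
  set E₂ := (Emb.id (F.B mu)).prod (F.emb' ka la) with hE₂
  have e1 : E₁ (x, F.hw ka) = (c, (F.hw la, F.hw ka)) := by
    rw [hE₁, Emb.comp_apply, Emb.prod_apply, Emb.assoc_apply, hx, Emb.id_apply]
  have e2 : E₁ (x', y') = (d, (e, y')) := by
    rw [hE₁, Emb.comp_apply, Emb.prod_apply, Emb.assoc_apply, hx', Emb.id_apply]
  have e3 : E₂ (c, F.hw (ka + la)) = (c, (F.hw la, F.hw ka)) := by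
    rw [hE₂, Emb.prod_apply, Emb.id_apply]
    exact Prod.ext rfl (emb'_hw ka la)
  have e4 : E₂ (d, Y) = (d, (e, y')) := by
    rw [hE₂, Emb.prod_apply, Emb.id_apply, hY]
  refine ⟨?_, fun i => ?_, fun i => ?_⟩
  · have h1 := h.map E₁
    rw [e1, e2, ← e3] at h1
    obtain ⟨q, hq, hq'⟩ := h1.of_map
    rw [← e4] at hq'
    rw [← E₂.inj hq']
    exact hq
  · rw [← E₂.map_eps, e3, ← e1, E₁.map_eps]
  · rw [← E₂.map_phi, e4, ← e2, E₁.map_phi]

/-- Claim B -/
lemma Par.add (hF : F.Closed) {T : LongData C} {la mu ka : I → ℕ} {b : (F.B la).carrier}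
    {c : (F.B mu).carrier} (h : F.Par T la mu b c) {b' : (F.B (ka + la)).carrier}
    (hb' : F.emb ka la b' = (F.hw ka, b)) : F.Par T (ka + la) mu b' c := by
  obtain ⟨h1, h2, h3⟩ := h
  obtain ⟨nu, j, h4, _, _, h7⟩ := exists_comp hF T h1
  have h8 := h7 _ h2 h3
  obtain ⟨K, hK⟩ := exists_path_lw T (F.hw (nu + ka))
  have h9 := hK.map (F.emb nu ka)
  have hY := xi_emb T hb'
  rw [xi_hw] at hY
  rw [emb_lw, F.emb_hw] at h9
  obtain ⟨g1, g2, g3⟩ := glue h9 h4 h8.symm hY
  refine ⟨fun i => ?_, fun i => ?_, K, g1⟩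
  · rw [g2 i, tensor_eps]
    dsimp only
    rw [F.high nu i, F.high ka i]; omega
  · rw [g3 i, tensor_phi]
    dsimp only
    rw [F.lw_isLow T nu i, F.lw_isLow T ka i]; omega

/-- Claim A -/
lemma Par.pow (hF : F.Closed) {T : LongData C} {κ mu : I → ℕ} {b₁ : (F.B κ).carrier}
    {c₁ : (F.B mu).carrier} (h : F.Par T κ mu b₁ c₁) {i : I} (hκ : κ i = 0) {R s : ℕ}
    (hs : s ≤ R) {c : (F.B mu).carrier} (hc : (F.B mu).Path (List.replicate s i) c₁ c)
    {a : (F.B (Pi.single i R)).carrier} (ha : F.Pow (Pi.single i R) i s a)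
    {b : (F.B (Pi.single i R + κ)).carrier}
    (hb : F.emb (Pi.single i R) κ b = (a, b₁)) : F.Par T (Pi.single i R + κ) mu b c := by
  obtain ⟨h1, h2, h3⟩ := h
  obtain ⟨nu, j, h4, _, _, h7⟩ := exists_comp hF T h1
  have h8 := h7 _ h2 h3
  -- the element `F_i^s b_ν`
  have h9 : (tensor (F.B mu) (F.B κ)).Path (List.replicate s i) (c₁, F.hw κ) (c, F.hw κ) := by
    apply tensor_path_left _ hc
    rw [F.phi_hw, hκ]; omega
  rw [← h4] at h9
  obtain ⟨x, hx, hjx⟩ := h9.of_map
  have hxP : F.Pow nu i s x := hx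
  -- the highest weight element `F_i^s b_ν ⊗ b_{R ω_i}`
  have hhigh : (tensor (F.B nu) (F.B (Pi.single i R))).IsHigh (x, F.hw (Pi.single i R)) := by
    intro k
    rw [tensor_eps]
    dsimp only
    rw [F.high (Pi.single i R) k, F.phi_hw]
    by_cases hk : k = i
    · subst hk
      rw [hxP.eps, Pi.single_eq_same]; omega
    · rw [hxP.eps_of_ne hk]; omega
  obtain ⟨nu', k, k1, k2, k3, _⟩ := exists_comp hF T hhigh
  obtain ⟨K, hK⟩ := exists_path_lw T (F.hw nu')
  have k5 := hK.map k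
  set q := k (F.lw T nu') with hq
  have k6 : q = (F.lw T nu, q.2) := Prod.ext k2 rfl
  -- the weight of the lowest element
  have k7 : (tensor (F.B nu) (F.B (Pi.single i R))).wt q =
      C.act T.w0 ((tensor (F.B nu) (F.B (Pi.single i R))).wt (x, F.hw (Pi.single i R))) := by
    rw [hq, Emb.map_wt, F.lw_wt, ← k1, Emb.map_wt, F.wt_hw']
  have k8 : F.xi T (Pi.single i R) q.2 = a := by
    rw [k6, tensor_wt, tensor_wt] at k7
    dsimp only at k7
    rw [F.lw_wt, wt_path' hx, F.wt_hw', map_add, map_sub] at k7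
    have e4 : (F.B (Pi.single i R)).wt q.2 =
        C.act T.w0 (wz (Pi.single i R) - C.wsum (List.replicate s i)) := by
      rw [map_sub]
      have : C.act T.w0 (wz nu) + (F.B (Pi.single i R)).wt q.2 = C.act T.w0 (wz nu) +
          (C.act T.w0 (wz (Pi.single i R)) - C.act T.w0 (C.wsum (List.replicate s i))) := by
        rw [k7]; abel
      exact add_left_cancel this
    have e5 : F.Pow (Pi.single i R) i s (F.xi T (Pi.single i R) q.2) := by
      apply pow_of_wt
      rw [xi_wt, e4, T.sq]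
      rfl
    exact e5.unique ha
  have k9 : q.2 = F.xi T (Pi.single i R) a := by
    rw [← k8, xi_xi]
  have hY := xi_emb T hb
  rw [k1, k6, k9] at k5
  obtain ⟨g1, g2, g3⟩ := glue k5 hjx h8.symm hY
  refine ⟨fun t => ?_, fun t => ?_, K, g1⟩
  · rw [g2 t]; exact hhigh t
  · rw [g3 t, ← k9, ← k6]; exact k3 t

/-- symmetry -/
lemma Par.symm {T : LongData C} {la mu : I → ℕ} {b : (F.B la).carrier} {c : (F.B mu).carrier}
    (h : F.Par T la mu b c) : F.Par T mu la c b := by
  obtain ⟨h1, h2, L, h3⟩ := h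
  set Z := (flipD T (F.B mu) (F.B la)).comp ((F.xi T mu).prod (F.xi T la)) with hZ
  have z1 : Z (c, F.hw la) = (F.lw T la, F.xi T mu c) := by
    rw [hZ, Emb.comp_apply]
    exact Prod.ext (xi_hw T la) rfl
  have z2 : Z (F.lw T mu, F.xi T la b) = (b, F.hw mu) := by
    rw [hZ, Emb.comp_apply]
    exact Prod.ext (xi_xi T b) (xi_lw T mu)
  have h4 := h3.map Z
  rw [z1, z2] at h4
  have h5 := (dual_path T).1 h4
  refine ⟨fun i => ?_, fun i => ?_, _, h5⟩
  · have h6 := Z.map_phi (T.th i) (F.lw T mu, F.xi T la b)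
    rw [z2, h2 (T.th i)] at h6
    change (tensor (F.B la) (F.B mu)).eps (T.th (T.th i)) (b, F.hw mu) = 0 at h6
    rw [T.th_th] at h6
    exact h6
  · have h6 := Z.map_eps (T.th i) (c, F.hw la)
    rw [z1, h1 (T.th i)] at h6
    change (tensor (F.B la) (F.B mu)).phi (T.th (T.th i))
      (F.lw T la, F.xi T mu c) = 0 at h6
    rw [T.th_th] at h6
    exact h6

lemma Par.nil (hF : F.Closed) {T : LongData C} {la mu : I → ℕ} {b : (F.B la).carrier}
    (h : F.Par T la mu b (F.hw mu)) : b = F.hw la := by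
  apply h.unique hF
  obtain ⟨L, hL⟩ := exists_path_lw T (F.hw (mu + la))
  have h1 := hL.map (F.emb mu la)
  rw [emb_lw, F.emb_hw] at h1
  refine ⟨h.1, ?_, L, ?_⟩
  · intro i
    rw [tensor_phi, xi_hw]
    dsimp only
    rw [F.lw_isLow T mu i, F.lw_isLow T la i]; omega
  · rw [xi_hw]; exact h1

/-- one direction of the main theorem -/
theorem Par.D_rev (hF : F.Closed) {T : LongData C} {mu : I → ℕ} : ∀ (l : List I) {la : I → ℕ}
    {b : (F.B la).carrier} {c : (F.B mu).carrier}, F.Par T la mu b c → F.D mu l c →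
    F.D la l.reverse b := by
  intro l
  induction l with
  | nil =>
    intro la b c h hc
    rw [D_nil] at hc
    subst hc
    exact h.nil hF
  | cons i l ih =>
    intro la b c h hc
    obtain ⟨c₁, hc₁, he⟩ := exists_top i c
    have hD : F.D mu l c₁ := D_top hc hc₁ he
    set s := (F.B mu).eps i c with hs
    obtain ⟨ka, κ, hka, hκ, heq⟩ := exists_large i (∑ j, (F.B mu).eps j c₁) la
    -- the highest weight element `c₁ ⊗ b_κ`
    have hhigh : (tensor (F.B mu) (F.B κ)).IsHigh (c₁, F.hw κ) := by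
      intro k
      rw [tensor_eps]
      dsimp only
      rw [F.high κ k, F.phi_hw]
      by_cases hk : k = i
      · subst hk; rw [he]; omega
      · have h1 := hκ.2 k hk
        have h2 : (F.B mu).eps k c₁ ≤ ∑ j, (F.B mu).eps j c₁ :=
          Finset.single_le_sum (f := fun j => (F.B mu).eps j c₁) (fun _ _ => Nat.zero_le _)
            (Finset.mem_univ k)
        omega
    obtain ⟨b₁, hb₁⟩ := exists_par hF T hhigh
    have hD₁ : F.D κ l.reverse b₁ := ih hb₁ hD
    have hsR : s ≤ la i := by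
      have h1 := h.1 i
      rw [tensor_eps] at h1
      dsimp only at h1
      rw [F.high la i, F.phi_hw] at h1
      omega
    obtain ⟨a, ha⟩ := Pow.exists (F := F) (la := Pi.single i (la i)) (k := i) (s := s)
      (by rw [Pi.single_eq_same]; exact hsR)
    obtain ⟨x, hx1, hx2⟩ := emb_up hκ.1 hD₁ s a ha
    have hP1 := hb₁.pow hF hκ.1 hsR hc₁ ha hx2
    obtain ⟨b', hb'⟩ := tr_exists (F := F) ka b
    have hP2 := h.add hF hb'
    rw [List.reverse_cons, ← tr_D hb']
    -- transport along `ka + la = R ω_i + κ`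
    have key : ∀ (nu : I → ℕ) (_ : nu = Pi.single i (la i) + κ) (y : (F.B nu).carrier),
        F.Par T nu mu y c → F.D nu (l.reverse ++ [i]) y := by
      rintro nu rfl y hy
      rw [hy.unique hF hP1]
      exact hx1
    exact key _ heq b' hP2

/-- **Main theorem**, in terms of Demazure subsets of words. -/
theorem Par.D_iff (hF : F.Closed) {T : LongData C} {la mu : I → ℕ} {b : (F.B la).carrier}
    {c : (F.B mu).carrier} (h : F.Par T la mu b c) (l : List I) :
    F.D la l b ↔ F.D mu l.reverse c := by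
  constructor
  · intro hb
    exact h.symm.D_rev hF l hb
  · intro hc
    have := h.D_rev hF l.reverse hc
    rwa [List.reverse_reverse] at this

end WFam

end Pool.Agent.H78R2.Crys
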