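import Pool.Agent.H78R2.Crys.Main

/-!
Crystals whose restrictions to all pairs of labels are known, and their uniqueness.
-/

set_option autoImplicit false
set_option linter.unusedSectionVars false

namespace Pool.Agent.H78R2.Crys

variable {I : Type} [Fintype I] [DecidableEq I]

open Crystal

/-- restriction of a Cartan datum to a subset of the index set -/
def CartanDatum.res (C : CartanDatum I) {K : Type} [Fintype K] [DecidableEq K] (f : K → I)
    (hf : Function.Injective f) : CartanDatum K where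
  A := fun a b => C.A (f a) (f b)
  diag a := C.diag (f a)
  nonpos a b h := C.nonpos _ _ (fun e => h (hf e))
  posdef := by
    obtain ⟨d, hd, hs, hp⟩ := C.posdef
    refine ⟨fun a => d (f a), fun a => hd _, fun a b => hs _ _, fun x hx => ?_⟩
    have hy1 : ∀ a, Function.extend f x 0 (f a) = x a := fun a => hf.extend_apply x 0 a
    have hy2 : ∀ i, i ∉ Set.range f → Function.extend f x 0 i = 0 := fun i hi => by
      rw [Function.extend_apply' _ _ _ (fun ⟨a, ha⟩ => hi ⟨a, ha⟩)]; rfl
    have hy : Function.extend f x 0 ≠ 0 := by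
      intro h0
      apply hx
      funext a
      rw [← hy1 a, h0]; rfl
    have h1 := hp _ hy
    have h2 : ∑ a, ∑ b, d (f a) * C.A (f a) (f b) * x a * x b =
        ∑ i, ∑ j, d i * C.A i j * Function.extend f x 0 i * Function.extend f x 0 j := by
      refine Fintype.sum_of_injective f hf _ _ ?_ ?_
      · intro i hi
        rw [hy2 i hi]
        simp
      · intro a
        refine Fintype.sum_of_injective f hf _ _ ?_ ?_
        · intro j hj
          rw [hy2 j hj, mul_zero]
        · intro b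
          rw [hy1, hy1]
    rw [h2]
    exact h1

variable {C : CartanDatum I}

namespace Crystal

section res

variable {K : Type} [Fintype K] [DecidableEq K] (f : K → I) (hf : Function.Injective f)

/-- restriction of a crystal to some of the labels -/
@[reducible] def res (X : Crystal.{0} C) : Crystal.{0} (C.res f hf) where
  carrier := X.carrier
  arrow a := X.arrow (f a)
  eps a := X.eps (f a)
  phi a := X.phi (f a)
  arrow_fun h h' := X.arrow_fun h h'
  arrow_inj h h' := X.arrow_inj h h'
  exists_of_phi h := X.exists_of_phi h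
  exists_of_eps h := X.exists_of_eps h
  eps_arrow h := X.eps_arrow h
  phi_arrow h := X.phi_arrow h
  weight_arrow h j := X.weight_arrow h (f j)

lemma res_path {X : Crystal.{0} C} {L : List K} {x y : X.carrier} :
    (X.res f hf).Path L x y ↔ X.Path (L.map f) x y := by
  induction L generalizing y with
  | nil => exact Iff.rfl
  | cons a L ih =>
    constructor
    · rintro ⟨z, h1, h2⟩; exact ⟨z, ih.1 h1, h2⟩
    · rintro ⟨z, h1, h2⟩; exact ⟨z, ih.2 h1, h2⟩

/-- restriction of an embedding -/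
def Emb.res {X Y : Crystal.{0} C} (j : Emb X Y) : Emb (X.res f hf) (Y.res f hf) where
  toFun x := j x
  inj := j.inj
  map_arrow h := j.map_arrow h
  map_eps a x := j.map_eps (f a) x
  map_phi a x := j.map_phi (f a) x

lemma tensor_res (X Y : Crystal.{0} C) :
    (tensor X Y).res f hf = tensor (X.res f hf) (Y.res f hf) := rfl

end res

end Crystal

/-- the two labels `i`, `j` -/
def pr (i j : I) (b : Bool) : I := cond b j i

lemma pr_inj {i j : I} (h : i ≠ j) : Function.Injective (pr i j) := by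
  intro a b hab
  cases a <;> cases b <;> simp_all [pr]

@[simp] lemma pr_false (i j : I) : pr i j false = i := rfl
@[simp] lemma pr_true (i j : I) : pr i j true = j := rfl

/-- rank two families -/
abbrev Fam2 (C : CartanDatum I) : Type 1 :=
  ∀ (i j : I) (h : i ≠ j), Family.{0} (C.res (pr i j) (pr_inj h))

/-- all rank two restrictions are unions of crystals of the rank two families -/
def Good (G : Fam2 C) (X : Crystal.{0} C) : Prop :=
  ∀ (i j : I) (h : i ≠ j), (G i j h).toWFam.Norm (X.res (pr i j) (pr_inj h))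

variable {G : Fam2 C}

lemma Good.tensor {X Y : Crystal.{0} C} (hX : Good G X) (hY : Good G Y) :
    Good G (Crystal.tensor X Y) := by
  rintro i j h ⟨x, y⟩
  obtain ⟨nu, e, p, rfl⟩ := hX i j h x
  obtain ⟨nu', e', p', rfl⟩ := hY i j h y
  obtain ⟨nu'', k, q, hq⟩ := WFam.norm_tensor (F := (G i j h).toWFam) (G i j h).closed nu nu' (p, p')
  refine ⟨nu'', (e.prod e').comp k, q, ?_⟩
  rw [Emb.comp_apply, hq]
  rfl

lemma path_length_eq {X : Crystal.{0} C} {x₀ x : X.carrier} {L L' : List I}
    (h : X.Path L x₀ x) (h' : X.Path L' x₀ x) : L.length = L'.length := by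
  apply C.length_eq_of_wsum
  have h1 := h.wt
  rw [h'.wt] at h1
  exact (sub_right_injective h1).symm

/-- moving up along a path -/
lemma up_path {X : Crystal.{0} C} {x₀ : X.carrier} {n : ℕ}
    (ih : ∀ (L : List I) (x : X.carrier), L.length ≤ n → X.Path L x₀ x → ∀ k w, X.arrow k w x →
      ∃ L', X.Path L' x₀ w ∧ L'.length + 1 = L.length) :
    ∀ (K : List I) (L : List I) (u y : X.carrier), L.length ≤ n → X.Path L x₀ y → X.Path K u y →
      ∃ U, X.Path U x₀ u ∧ U.length + K.length = L.length := by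
  intro K
  induction K with
  | nil =>
    intro L u y _ hL hK
    rw [path_nil] at hK
    subst hK
    exact ⟨L, hL, by simp⟩
  | cons a K ihK =>
    rintro L u y hn hL ⟨y', hK, ha⟩
    obtain ⟨L₁, h1, h2⟩ := ih L y hn hL a y' ha
    obtain ⟨U, hU, hU'⟩ := ihK L₁ u y' (by omega) h1 hK
    exact ⟨U, hU, by rw [List.length_cons]; omega⟩

/-- the elements below a highest weight element are closed under the operators `E_i` -/
lemma reach_up {X : Crystal.{0} C} (hX : Good G X) {x₀ : X.carrier} (h₀ : X.IsHigh x₀) (n : ℕ) :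
    ∀ (L : List I) (x : X.carrier), L.length ≤ n → X.Path L x₀ x → ∀ k w, X.arrow k w x →
      ∃ L', X.Path L' x₀ w ∧ L'.length + 1 = L.length := by
  induction n with
  | zero =>
    intro L x hn hL k w hw
    have : L = [] := List.length_eq_zero_iff.1 (by omega)
    subst this
    rw [path_nil] at hL
    subst hL
    have := X.eps_arrow hw
    rw [h₀ k] at this
    omega
  | succ n ih =>
    intro L x hn hL k w hw
    match L, hL, hn with
    | [], hL, _ =>
      rw [path_nil] at hL
      subst hL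
      have := X.eps_arrow hw
      rw [h₀ k] at this
      omega
    | i :: L₀, ⟨y, hy, hyx⟩, hn =>
      rw [List.length_cons] at hn
      by_cases hki : i = k
      · subst hki
        rw [X.arrow_inj hw hyx]
        exact ⟨L₀, hy, by simp⟩
      · obtain ⟨nu, e, p, hp⟩ := hX i k hki x
        subst hp
        obtain ⟨py, hpy, hpy'⟩ := e.arrow_of' (i := false) (y := y) hyx
        obtain ⟨pw, hpw, hpw'⟩ := e.arrow_of' (i := true) (y := w) hw
        obtain ⟨K₁, hK₁⟩ := (G i k hki).gen nu py
        obtain ⟨K₂, hK₂⟩ := (G i k hki).gen nu pw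
        have hK₁' : ((G i k hki).toWFam.B nu).Path K₁ ((G i k hki).toWFam.hw nu) py := hK₁
        have hK₂' : ((G i k hki).toWFam.B nu).Path K₂ ((G i k hki).toWFam.hw nu) pw := hK₂
        have hlen := (G i k hki).toWFam.length_eq (L := false :: K₁) (L' := true :: K₂)
          ⟨py, hK₁', hpy⟩ ⟨pw, hK₂', hpw⟩
        rw [List.length_cons, List.length_cons] at hlen
        have h1 := (res_path _ _).1 (hK₁'.map e)
        have h2 := (res_path _ _).1 (hK₂'.map e)
        rw [hpy'] at h1
        rw [hpw'] at h2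
        obtain ⟨U, hU, hU'⟩ := up_path ih _ L₀ _ y (by omega) hy h1
        refine ⟨_, path_append.2 ⟨_, hU, h2⟩, ?_⟩
        rw [List.length_append, List.length_map, List.length_cons]
        rw [List.length_map] at hU'
        omega

lemma reach_up' {X : Crystal.{0} C} (hX : Good G X) {x₀ : X.carrier} (h₀ : X.IsHigh x₀)
    {L : List I} {x : X.carrier} (hL : X.Path L x₀ x) {k : I} {w : X.carrier}
    (hw : X.arrow k w x) : ∃ L', X.Path L' x₀ w ∧ L'.length + 1 = L.length :=
  reach_up hX h₀ L.length L x le_rfl hL k w hw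

/-- the component generated by a highest weight element -/
def Gen {X : Crystal.{0} C} (hX : Good G X) {x₀ : X.carrier} (h₀ : X.IsHigh x₀) :
    Crystal.{0} C where
  carrier := {x // ∃ L, X.Path L x₀ x}
  arrow i x y := X.arrow i x.1 y.1
  eps i x := X.eps i x.1
  phi i x := X.phi i x.1
  arrow_fun h h' := Subtype.ext (X.arrow_fun h h')
  arrow_inj h h' := Subtype.ext (X.arrow_inj h h')
  exists_of_phi := by
    rintro i ⟨x, L, hL⟩ h
    obtain ⟨y, hy⟩ := X.exists_of_phi h
    exact ⟨⟨y, i :: L, x, hL, hy⟩, hy⟩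
  exists_of_eps := by
    rintro i ⟨x, L, hL⟩ h
    obtain ⟨y, hy⟩ := X.exists_of_eps h
    obtain ⟨L', hL', _⟩ := reach_up' hX h₀ hL hy
    exact ⟨⟨y, L', hL'⟩, hy⟩
  eps_arrow h := X.eps_arrow h
  phi_arrow h := X.phi_arrow h
  weight_arrow h j := X.weight_arrow h j

/-- the inclusion -/
def Gen.incl {X : Crystal.{0} C} (hX : Good G X) {x₀ : X.carrier} (h₀ : X.IsHigh x₀) :
    Emb (Gen hX h₀) X where
  toFun x := x.1
  inj := Subtype.val_injective
  map_arrow h := h
  map_eps _ _ := rfl
  map_phi _ _ := rfl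

lemma Gen.good {X : Crystal.{0} C} (hX : Good G X) {x₀ : X.carrier} (h₀ : X.IsHigh x₀) :
    Good G (Gen hX h₀) := by
  intro i j h x
  obtain ⟨nu, e, p, hp⟩ := hX i j h x.1
  have hmem : ∀ q, ∃ L, X.Path L x₀ (e q) := by
    obtain ⟨K, hK⟩ := (G i j h).gen nu p
    have hK' : ((G i j h).toWFam.B nu).Path K ((G i j h).toWFam.hw nu) p := hK
    have h1 := (res_path _ _).1 (hK'.map e)
    rw [hp] at h1
    obtain ⟨L, hL⟩ := x.2
    obtain ⟨U, hU, _⟩ := up_path (fun L x _ hL k w hw => reach_up' hX h₀ hL hw) _ L _ x.1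
      le_rfl hL h1
    intro q
    obtain ⟨K', hK''⟩ := (G i j h).gen nu q
    have hK₂ : ((G i j h).toWFam.B nu).Path K' ((G i j h).toWFam.hw nu) q := hK''
    have h2 := (res_path _ _).1 (hK₂.map e)
    exact ⟨_, path_append.2 ⟨_, hU, h2⟩⟩
  refine ⟨nu, ⟨fun q => ⟨e q, hmem q⟩, fun a b hab => e.inj (Subtype.ext_iff.1 hab),
    fun h => e.map_arrow h, fun i x => e.map_eps i x, fun i x => e.map_phi i x⟩, p, ?_⟩
  exact Subtype.ext hp

/-! ### Uniqueness -/

/-- pointed crystals -/
structure PC (G : Fam2 C) where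
  X : Crystal.{0} C
  x₀ : X.carrier
  good : Good G X
  high : X.IsHigh x₀

namespace PC

variable {P P' : PC G}

/-- every word reaching `x` reaches `x'` -/
def Sub (P P' : PC G) (x : P.X.carrier) (x' : P'.X.carrier) : Prop :=
  ∀ L, P.X.Path L P.x₀ x → P'.X.Path L P'.x₀ x'

/-- the statement `One n` -/
def One (P P' : PC G) (n : ℕ) : Prop :=
  ∀ (x : P.X.carrier) (L : List I), P.X.Path L P.x₀ x → L.length ≤ n → ∃ x', Sub P P' x x'

lemma One.mono {n m : ℕ} (h : One P P' n) (hm : m ≤ n) : One P P' m :=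
  fun x L hL hn => h x L hL (hn.trans hm)

lemma sub_of_word {n : ℕ} (h : One P P' n) {L : List I}
    (hn : L.length ≤ n) {x : P.X.carrier} {x' : P'.X.carrier}
    (h1 : P.X.Path L P.x₀ x) (h2 : P'.X.Path L P'.x₀ x') : Sub P P' x x' := by
  obtain ⟨x'', hx''⟩ := h x L h1 hn
  have := hx'' L h1
  rw [this.det h2] at hx''
  exact hx''

lemma eps_eq {n : ℕ} (h : One P P' n) (h' : One P' P n) :
    ∀ {L : List I}, L.length ≤ n → ∀ {x : P.X.carrier} {x' : P'.X.carrier},
    P.X.Path L P.x₀ x → P'.X.Path L P'.x₀ x' → ∀ i, P.X.eps i x = P'.X.eps i x' := by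
  induction n with
  | zero =>
    intro L hn x x' h1 h2 i
    have : L = [] := List.length_eq_zero_iff.1 (by omega)
    subst this
    rw [path_nil] at h1 h2
    rw [← h1, ← h2, P.high i, P'.high i]
  | succ n ih =>
    intro L hn x x' h1 h2 i
    have ih' := @ih (h.mono (Nat.le_succ n)) (h'.mono (Nat.le_succ n))
    by_cases he : P.X.eps i x = 0
    · by_cases he' : P'.X.eps i x' = 0
      · rw [he, he']
      · obtain ⟨y', hy'⟩ := P'.X.exists_of_eps (i := i) (y := x') (by omega)
        obtain ⟨M, hM, _⟩ := reach_up' P'.good P'.high h2 hy'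
        obtain ⟨y, _, hyx⟩ := sub_of_word h' hn h2 h1 (i :: M) ⟨y', hM, hy'⟩
        have := P.X.eps_arrow hyx
        omega
    · obtain ⟨y, hy⟩ := P.X.exists_of_eps (i := i) (y := x) (by omega)
      obtain ⟨M, hM, hMl⟩ := reach_up' P.good P.high h1 hy
      obtain ⟨y', hM', hyx'⟩ := sub_of_word h hn h1 h2 (i :: M) ⟨y, hM, hy⟩
      have h5 := ih' (L := M) (by omega) hM hM' i
      rw [P.X.eps_arrow hy, P'.X.eps_arrow hyx', h5]

lemma phi_eq (h0 : ∀ i, P.X.phi i P.x₀ = P'.X.phi i P'.x₀) {n : ℕ} (h : One P P' n)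
    (h' : One P' P n) {L : List I} (hn : L.length ≤ n) {x : P.X.carrier} {x' : P'.X.carrier}
    (h1 : P.X.Path L P.x₀ x) (h2 : P'.X.Path L P'.x₀ x') (i : I) :
    P.X.phi i x = P'.X.phi i x' := by
  have h3 := eps_eq h h' hn h1 h2 i
  have h4 := congrFun h1.wt i
  have h5 := congrFun h2.wt i
  rw [Pi.sub_apply, wt_apply, wt_apply, P.high i] at h4
  rw [Pi.sub_apply, wt_apply, wt_apply, P'.high i] at h5
  have h6 := h0 i
  omega

lemma exists_succ (h0 : ∀ i, P.X.phi i P.x₀ = P'.X.phi i P'.x₀) {n : ℕ} (h : One P P' n)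
    (h' : One P' P n) {i : I} {L : List I} (hn : L.length ≤ n) {x : P.X.carrier}
    (h1 : P.X.Path (i :: L) P.x₀ x) : ∃ x', P'.X.Path (i :: L) P'.x₀ x' := by
  obtain ⟨y, hy, hyx⟩ := h1
  obtain ⟨y', hy'⟩ := h y L hy hn
  have h2 := hy' L hy
  have h3 := phi_eq h0 h h' hn hy h2 i
  have h4 := P.X.phi_arrow hyx
  obtain ⟨x', hx'⟩ := P'.X.exists_of_phi (i := i) (x := y') (by omega)
  exact ⟨x', y', h2, hx'⟩

/-- the rank two step -/
lemma step (h0 : ∀ i, P.X.phi i P.x₀ = P'.X.phi i P'.x₀) {n : ℕ} (h : One P P' n)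
    (h' : One P' P n) {i j : I} {L M : List I} (hL : L.length ≤ n) {x : P.X.carrier}
    (h1 : P.X.Path (i :: L) P.x₀ x) (h2 : P.X.Path (j :: M) P.x₀ x) {x' x'' : P'.X.carrier}
    (h3 : P'.X.Path (i :: L) P'.x₀ x') (h4 : P'.X.Path (j :: M) P'.x₀ x'') : x' = x'' := by
  have hlen := path_length_eq h1 h2
  rw [List.length_cons, List.length_cons] at hlen
  obtain ⟨y, hy, hyx⟩ := h1
  obtain ⟨w, hw, hwx⟩ := h2
  obtain ⟨y', hy', hyx'⟩ := h3
  obtain ⟨w', hw', hwx''⟩ := h4
  have sy := sub_of_word h hL hy hy'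
  have sw := sub_of_word h (by omega) hw hw'
  by_cases hij : i = j
  · subst hij
    have := P.X.arrow_inj hyx hwx
    subst this
    have h5 := sy M hw
    rw [h5.det hw'] at hyx'
    exact P'.X.arrow_fun hyx' hwx''
  · obtain ⟨nu, e, p, hp⟩ := P.good i j hij x
    subst hp
    obtain ⟨py, hpy, hpy'⟩ := e.arrow_of' (i := false) (y := y) hyx
    obtain ⟨pw, hpw, hpw'⟩ := e.arrow_of' (i := true) (y := w) hwx
    obtain ⟨K₁, hK₁⟩ := (G i j hij).gen nu py
    obtain ⟨K₂, hK₂⟩ := (G i j hij).gen nu pw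
    have hK₁' : ((G i j hij).toWFam.B nu).Path K₁ ((G i j hij).toWFam.hw nu) py := hK₁
    have hK₂' : ((G i j hij).toWFam.B nu).Path K₂ ((G i j hij).toWFam.hw nu) pw := hK₂
    have k1 := (res_path _ _).1 (hK₁'.map e)
    have k2 := (res_path _ _).1 (hK₂'.map e)
    rw [hpy'] at k1
    rw [hpw'] at k2
    obtain ⟨U, hU, hU'⟩ := up_path (reach_up P.good P.high n) _ L _ y hL hy k1
    set u := e ((G i j hij).toWFam.hw nu) with hu
    have hUn : U.length ≤ n := by omega
    obtain ⟨u', su⟩ := h u U hU hUn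
    have hU₂ := su U hU
    -- `u'` is highest for `i`, `j`
    obtain ⟨nu', e', q, hq⟩ := P'.good i j hij u'
    have hqe : ∀ b, P'.X.eps (pr i j b) u' = 0 := by
      intro b
      rw [← eps_eq h h' hUn hU hU₂ (pr i j b)]
      have := e.map_eps b ((G i j hij).toWFam.hw nu)
      rw [(G i j hij).toWFam.high nu b] at this
      exact this
    have hqhw : q = (G i j hij).toWFam.hw nu' := by
      apply (G i j hij).toWFam.eq_hw
      intro b
      rw [← e'.map_eps b q, hq]
      exact hqe b
    have hnu : nu = nu' := by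
      funext b
      have a1 := e.map_phi b ((G i j hij).toWFam.hw nu)
      have a2 := e'.map_phi b q
      rw [(G i j hij).toWFam.phi_hw] at a1
      rw [hqhw, (G i j hij).toWFam.phi_hw, ← hqhw, hq] at a2
      have a3 := phi_eq h0 h h' hUn hU hU₂ (pr i j b)
      have a1' : P.X.phi (pr i j b) u = nu b := a1
      have a2' : P'.X.phi (pr i j b) u' = nu' b := a2
      omega
    subst hnu
    subst hqhw
    have k1' := (res_path _ _).1 (hK₁'.map e')
    have k2' := (res_path _ _).1 (hK₂'.map e')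
    rw [hq] at k1' k2'
    -- identify `y'` and `w'`
    have ey : y' = e' py := by
      have a1 := sy _ (path_append.2 ⟨u, hU, k1⟩)
      obtain ⟨t, a2, a3⟩ := path_append.1 a1
      rw [a2.det hU₂] at a3
      exact a3.det k1'
    have ew : w' = e' pw := by
      have a1 := sw _ (path_append.2 ⟨u, hU, k2⟩)
      obtain ⟨t, a2, a3⟩ := path_append.1 a1
      rw [a2.det hU₂] at a3
      exact a3.det k2'
    have f1 : P'.X.arrow i (e' py) (e' p) := e'.map_arrow hpy
    have f2 : P'.X.arrow j (e' pw) (e' p) := e'.map_arrow hpw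
    rw [ey] at hyx'
    rw [ew] at hwx''
    rw [P'.X.arrow_fun hyx' f1, P'.X.arrow_fun hwx'' f2]

lemma one_succ (h0 : ∀ i, P.X.phi i P.x₀ = P'.X.phi i P'.x₀) {n : ℕ} (h : One P P' n)
    (h' : One P' P n) : One P P' (n + 1) := by
  intro x L hL hn
  match L, hL, hn with
  | [], hL, _ => exact h x [] hL (Nat.zero_le n)
  | i :: L, hL, hn =>
    rw [List.length_cons] at hn
    obtain ⟨x', hx'⟩ := exists_succ h0 h h' (by omega) hL
    refine ⟨x', fun M hM => ?_⟩
    have hlen := path_length_eq hL hM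
    match M, hM, hlen with
    | [], _, hlen => simp at hlen
    | j :: M, hM, hlen =>
      rw [List.length_cons, List.length_cons] at hlen
      obtain ⟨x'', hx''⟩ := exists_succ h0 h h' (by omega) hM
      rw [step h0 h h' (by omega) hL hM hx' hx'']
      exact hx''

lemma one_all (h0 : ∀ i, P.X.phi i P.x₀ = P'.X.phi i P'.x₀) (n : ℕ) :
    One P P' n ∧ One P' P n := by
  induction n with
  | zero =>
    have key : ∀ Q Q' : PC G, One Q Q' 0 := by
      intro Q Q' x L hL hn
      have : L = [] := List.length_eq_zero_iff.1 (by omega)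
      subst this
      rw [path_nil] at hL
      subst hL
      refine ⟨Q'.x₀, fun M hM => ?_⟩
      obtain ⟨rfl, _⟩ := hM.high_nil Q.high
      rfl
    exact ⟨key _ _, key _ _⟩
  | succ n ih =>
    exact ⟨one_succ h0 ih.1 ih.2, one_succ (fun i => (h0 i).symm) ih.2 ih.1⟩

/-- **Uniqueness**: the component of a highest weight element is determined by its weight. -/
theorem exists_emb (P P' : PC G) (h0 : ∀ i, P.X.phi i P.x₀ = P'.X.phi i P'.x₀) :
    ∃ j : Emb (Gen P.good P.high) P'.X, j ⟨P.x₀, [], rfl⟩ = P'.x₀ := by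
  have h1 : ∀ x : (Gen P.good P.high).carrier, ∃ x', Sub P P' x.1 x' := by
    intro x
    obtain ⟨L, hL⟩ := x.2
    exact (one_all h0 L.length).1 x.1 L hL le_rfl
  choose j hj using h1
  refine ⟨⟨j, ?_, ?_, ?_, ?_⟩, ?_⟩
  · intro x y hxy
    obtain ⟨L, hL⟩ := x.2
    have h2 := hj x L hL
    obtain ⟨z, hz⟩ := (one_all h0 L.length).2 (j x) L h2 le_rfl
    obtain ⟨M, hM⟩ := y.2
    have h3 := hj y M hM
    rw [← hxy] at h3
    have h4 := (hz L h2).det hL
    have h5 := (hz M h3).det hM
    exact Subtype.ext (h4.symm.trans h5)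
  · intro i x y hxy
    obtain ⟨L, hL⟩ := x.2
    obtain ⟨z, hz, hzy⟩ := hj y (i :: L) ⟨x.1, hL, hxy⟩
    rw [(hj x L hL).det hz]
    exact hzy
  · intro i x
    obtain ⟨L, hL⟩ := x.2
    have h3 := one_all h0 L.length
    exact (eps_eq h3.1 h3.2 le_rfl hL (hj x L hL) i).symm
  · intro i x
    obtain ⟨L, hL⟩ := x.2
    have h3 := one_all h0 L.length
    exact (phi_eq h0 h3.1 h3.2 le_rfl hL (hj x L hL) i).symm
  · have h2 := hj ⟨P.x₀, [], rfl⟩ [] rfl
    exact h2.symm

end PC

/-- **Existence of closed families**, from good crystals with highest weight elements of all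
dominant weights. -/
theorem family_of_good (G : Fam2 C) (h : ∀ la : I → ℕ, ∃ P : PC G, ∀ i, P.X.phi i P.x₀ = la i) :
    Nonempty (Family.{0} C) := by
  choose P hP using h
  refine ⟨{ B := fun la => Gen (P la).good (P la).high
            hw := fun la => ⟨(P la).x₀, [], rfl⟩
            high := fun la i => (P la).high i
            phi_hw := fun la i => hP la i
            gen := ?_
            closed := ?_ }⟩
  · rintro la ⟨x, L, hL⟩
    refine ⟨L, ?_⟩
    obtain ⟨⟨y, hy⟩, h1, h2⟩ := Path.of_map (Gen.incl (P la).good (P la).high)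
      (x := ⟨(P la).x₀, [], rfl⟩) hL
    have : y = x := h2
    subst this
    exact h1
  · intro la mu z hz
    set nu : I → ℕ := fun i => (tensor (Gen (P la).good (P la).high)
      (Gen (P mu).good (P mu).high)).phi i z with hnu
    obtain ⟨j, hj⟩ := PC.exists_emb (P nu) ⟨_, z, (Gen.good (P la).good (P la).high).tensor
      (Gen.good (P mu).good (P mu).high), hz⟩ (fun i => hP nu i)
    exact ⟨nu, j, hj⟩

end Pool.Agent.H78R2.Crys
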