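import Pool.Agent.H78R2.Crys.Laced

/-!
The crystal of all small weights.
-/

set_option autoImplicit false
set_option linter.unusedSectionVars false

namespace Pool.Agent.H78R2.Crys

open Crystal

namespace Laced

variable {I : Type} [Fintype I] [DecidableEq I] (C : CartanDatum I)
  (hs : ∀ i j, C.A i j = C.A j i)

/-- the pairing of roots and weights -/
def pair (x η : I → ℤ) : ℤ := ∑ i, x i * η i

lemma pair_add_right (x η η' : I → ℤ) : pair x (η + η') = pair x η + pair x η' := by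
  unfold pair
  rw [← Finset.sum_add_distrib]
  exact Finset.sum_congr rfl fun j _ => by rw [Pi.add_apply]; ring

lemma pair_sub_right (x η η' : I → ℤ) : pair x (η - η') = pair x η - pair x η' := by
  unfold pair
  rw [← Finset.sum_sub_distrib]
  exact Finset.sum_congr rfl fun j _ => by rw [Pi.sub_apply]; ring

lemma pair_add_left (x y η : I → ℤ) : pair (x + y) η = pair x η + pair y η := by
  unfold pair
  rw [← Finset.sum_add_distrib]
  exact Finset.sum_congr rfl fun j _ => by rw [Pi.add_apply]; ring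

lemma pair_smul_left (c : ℤ) (x η : I → ℤ) : pair (c • x) η = c * pair x η := by
  unfold pair
  rw [Finset.mul_sum]
  exact Finset.sum_congr rfl fun j _ => by rw [Pi.smul_apply, smul_eq_mul]; ring

lemma pair_e (i : I) (η : I → ℤ) : pair (e i) η = η i := by
  unfold pair
  rw [Finset.sum_eq_single i]
  · rw [e_apply, if_pos rfl, one_mul]
  · intro k _ hk
    rw [e_apply, if_neg hk, zero_mul]
  · intro h; exact absurd (Finset.mem_univ i) h

include hs in
lemma pair_alpha (x : I → ℤ) (i : I) : pair x (C.alpha i) = p C x i := by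
  unfold pair p
  exact Finset.sum_congr rfl fun j _ => by rw [CartanDatum.alpha_apply, hs j i]; ring

/-- small weights -/
def IsSmall (η : I → ℤ) : Prop := ∀ x, Q C x = 2 → -1 ≤ pair x η ∧ pair x η ≤ 1

variable {C}

lemma IsSmall.range {η : I → ℤ} (h : IsSmall C η) (i : I) : -1 ≤ η i ∧ η i ≤ 1 := by
  have h1 := h (e i) (Q_e C i)
  rw [pair_e] at h1
  exact h1

include hs in
lemma IsSmall.sub {η : I → ℤ} (h : IsSmall C η) {i : I} (hi : η i = 1) :
    IsSmall C (η - C.alpha i) := by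
  intro x hx
  have h1 := h (x + (- p C x i) • e i) (by rw [Q_add_smul C hs, hx]; ring)
  rw [pair_add_left, pair_smul_left, pair_e, hi] at h1
  rw [pair_sub_right, pair_alpha C hs]
  omega

include hs in
lemma IsSmall.add {η : I → ℤ} (h : IsSmall C η) {i : I} (hi : η i = -1) :
    IsSmall C (η + C.alpha i) := by
  intro x hx
  have h1 := h (x + (- p C x i) • e i) (by rw [Q_add_smul C hs, hx]; ring)
  rw [pair_add_left, pair_smul_left, pair_e, hi] at h1
  rw [pair_add_right, pair_alpha C hs]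
  omega

include hs in
lemma IsSmall.sum {η : I → ℤ} (h : IsSmall C η) {i j : I} (hij : C.A i j = -1) :
    η i + η j ≤ 1 := by
  have h1 := h (e i + e j) (by
    rw [Q_add_e C hs, Q_e, p_e, hs j i, hij]; norm_num)
  rw [pair_add_left, pair_e, pair_e] at h1
  exact h1.2

variable (C)

/-- the crystal of small weights -/
@[reducible] def Mc : Crystal.{0} C where
  carrier := {η : I → ℤ // IsSmall C η}
  arrow i x y := x.1 i = 1 ∧ y.1 = x.1 - C.alpha i
  eps i x := (- x.1 i).toNat
  phi i x := (x.1 i).toNat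
  arrow_fun := by
    rintro i x y y' ⟨_, h⟩ ⟨_, h'⟩
    exact Subtype.ext (h.trans h'.symm)
  arrow_inj := by
    rintro i x x' y ⟨_, h⟩ ⟨_, h'⟩
    exact Subtype.ext (sub_left_injective (h.symm.trans h'))
  exists_of_phi := by
    rintro i x h
    have h1 := x.2.range i
    have h2 : x.1 i = 1 := by omega
    exact ⟨⟨_, x.2.sub hs h2⟩, h2, rfl⟩
  exists_of_eps := by
    rintro i x h
    have h1 := x.2.range i
    have h2 : x.1 i = -1 := by omega
    refine ⟨⟨_, x.2.add hs h2⟩, ?_, ?_⟩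
    · show x.1 i + C.alpha i i = 1
      rw [h2, CartanDatum.alpha_apply, C.diag]; norm_num
    · show x.1 = x.1 + C.alpha i - C.alpha i
      rw [add_sub_cancel_right]
  eps_arrow := by
    rintro i x y ⟨h, h'⟩
    rw [h', Pi.sub_apply, CartanDatum.alpha_apply, C.diag, h]; rfl
  phi_arrow := by
    rintro i x y ⟨h, h'⟩
    rw [h', Pi.sub_apply, CartanDatum.alpha_apply, C.diag, h]; rfl
  weight_arrow := by
    rintro i x y ⟨h, h'⟩ j
    have h1 : y.1 j = x.1 j - C.A j i := by rw [h']; rfl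
    omega

lemma Mc_wt (x : (Mc C hs).carrier) (i : I) : (Mc C hs).wt x i = x.1 i := by
  rw [wt_apply]
  show ((x.1 i).toNat : ℤ) - ((- x.1 i).toNat : ℤ) = x.1 i
  omega

lemma Mc_good : Good (G C hs) (Mc C hs) := by
  refine good_of C hs ?_ 2 ?_ ?_
  · intro i j hij h0
    have h0' : C.A j i = 0 := C.zero_symm h0
    refine ⟨?_, ?_⟩
    · rintro x y ⟨_, h⟩
      show (- y.1 j).toNat = (- x.1 j).toNat
      rw [h, Pi.sub_apply, CartanDatum.alpha_apply, h0', sub_zero]
    · rintro x y z ⟨h1, h2⟩ ⟨h3, h4⟩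
      have a1 : y.1 j = 1 := by
        rw [h2, Pi.sub_apply, CartanDatum.alpha_apply, h0', sub_zero, h3]
      have a2 : z.1 i = 1 := by
        rw [h4, Pi.sub_apply, CartanDatum.alpha_apply, h0, sub_zero, h1]
      refine ⟨⟨_, y.2.sub hs a1⟩, ⟨a1, rfl⟩, a2, ?_⟩
      show y.1 - C.alpha j = z.1 - C.alpha i
      rw [h2, h4]; abel
  · intro i j x _
    rw [Mc_wt, Mc_wt]
    have h1 := x.2.range i
    have h2 := x.2.range j
    omega
  · intro i j h h01 h10 x₀ e1 e2
    have e1' : (- x₀.1 i).toNat = 0 := e1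
    have e2' : (- x₀.1 j).toNat = 0 := e2
    have hsum := x₀.2.sum hs h01
    have r1 := x₀.2.range i
    have r2 := x₀.2.range j
    have hi : IsHigh ((Mc C hs).res (pr i j) (pr_inj h)) x₀ := by
      intro b; cases b; exacts [e1, e2]
    have hc : (x₀.1 i = 0 ∧ x₀.1 j = 0) ∨ (x₀.1 i = 1 ∧ x₀.1 j = 0) ∨
        (x₀.1 i = 0 ∧ x₀.1 j = 1) := by omega
    rcases hc with ⟨c1, c2⟩ | ⟨c1, c2⟩ | ⟨c1, c2⟩
    · refine A2.comp00 (D := C.res (pr i j) (pr_inj h)) h01 h10 hi ?_ ?_
      · show (x₀.1 i).toNat = 0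
        rw [c1]; rfl
      · show (x₀.1 j).toNat = 0
        rw [c2]; rfl
    · have a1 : (x₀.1 - C.alpha i) j = 1 := by
        rw [Pi.sub_apply, CartanDatum.alpha_apply, h10, c2]; norm_num
      refine A2.comp10 (D := C.res (pr i j) (pr_inj h)) h01 h10
        (X := (Mc C hs).res (pr i j) (pr_inj h))
        (x₁ := ⟨_, x₀.2.sub hs c1⟩) (x₂ := ⟨_, (x₀.2.sub hs c1).sub hs a1⟩) hi ?_ ?_ ?_ ?_ ?_ ?_
      · show (x₀.1 i).toNat = 1
        rw [c1]; rfl
      · show (x₀.1 j).toNat = 0
        rw [c2]; rfl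
      · exact ⟨c1, rfl⟩
      · exact ⟨a1, rfl⟩
      · show (- (x₀.1 - C.alpha i) j).toNat = 0
        rw [a1]; rfl
      · show (- (x₀.1 - C.alpha i - C.alpha j) i).toNat = 0
        rw [Pi.sub_apply, Pi.sub_apply, CartanDatum.alpha_apply, CartanDatum.alpha_apply, c1,
          C.diag, h01]
        rfl
    · have a1 : (x₀.1 - C.alpha j) i = 1 := by
        rw [Pi.sub_apply, CartanDatum.alpha_apply, h01, c1]; norm_num
      refine A2.comp01 (D := C.res (pr i j) (pr_inj h)) h01 h10
        (X := (Mc C hs).res (pr i j) (pr_inj h))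
        (x₁ := ⟨_, x₀.2.sub hs c2⟩) (x₂ := ⟨_, (x₀.2.sub hs c2).sub hs a1⟩) hi ?_ ?_ ?_ ?_ ?_ ?_
      · show (x₀.1 i).toNat = 0
        rw [c1]; rfl
      · show (x₀.1 j).toNat = 1
        rw [c2]; rfl
      · exact ⟨c2, rfl⟩
      · exact ⟨a1, rfl⟩
      · show (- (x₀.1 - C.alpha j) i).toNat = 0
        rw [a1]; rfl
      · show (- (x₀.1 - C.alpha j - C.alpha i) j).toNat = 0
        rw [Pi.sub_apply, Pi.sub_apply, CartanDatum.alpha_apply, CartanDatum.alpha_apply, c2,
          C.diag, h10]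
        rfl

end Laced

end Pool.Agent.H78R2.Crys
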