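import Pool.Agent.H78R2.Crys.Extremal

/-!
The similarity maps `B_λ → B_{N λ}`, `F_i ↦ F_i^N`.
-/

set_option autoImplicit false
set_option linter.unusedSectionVars false

namespace Pool.Agent.H78R2.Crys

universe u

variable {I : Type} [Fintype I] [DecidableEq I] {C : CartanDatum I}

open Crystal

/-- replace each letter by its `N`-th power -/
def pw (N : ℕ) : List I → List I
  | [] => []
  | i :: L => List.replicate N i ++ pw N L

@[simp] lemma pw_nil (N : ℕ) : pw N ([] : List I) = [] := rfl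

lemma pw_cons (N : ℕ) (i : I) (L : List I) : pw N (i :: L) = List.replicate N i ++ pw N L := rfl

lemma pw_append (N : ℕ) (L M : List I) : pw N (L ++ M) = pw N L ++ pw N M := by
  induction L with
  | nil => rfl
  | cons i L ih => rw [List.cons_append, pw_cons, pw_cons, ih, List.append_assoc]

lemma pw_replicate (N n : ℕ) (i : I) : pw N (List.replicate n i) = List.replicate (N * n) i := by
  induction n with
  | zero => simp
  | succ n ih => rw [List.replicate_succ, pw_cons, ih, ← List.replicate_add]; congr 1; ring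

lemma wsum_pw (N : ℕ) (L : List I) : C.wsum (pw N L) = (N : ℤ) • C.wsum L := by
  induction L with
  | nil => simp
  | cons i L ih =>
    rw [pw_cons, C.wsum_append, ih, C.wsum_cons, smul_add]
    congr 1
    simp [CartanDatum.wsum]

lemma pw_pw (M N : ℕ) (L : List I) : pw M (pw N L) = pw (M * N) L := by
  induction L with
  | nil => rfl
  | cons i L ih => rw [pw_cons, pw_append, pw_replicate, ih, pw_cons]

namespace WFam

variable {F : WFam.{u} C}

lemma path_pw_cons {X : Crystal.{u} C} {N : ℕ} {i : I} {L : List I} {x z : X.carrier} :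
    X.Path (pw N (i :: L)) x z ↔
      ∃ y, X.Path (pw N L) x y ∧ X.Path (List.replicate N i) y z := by
  rw [pw_cons, path_append]

/-- `X` is the `N`-fold stretching of `x` -/
def Str (F : WFam.{u} C) (N : ℕ) (la mu : I → ℕ) (x : (F.B la).carrier)
    (X : (F.B mu).carrier) : Prop :=
  (∀ L, (F.B la).Path L (F.hw la) x → (F.B mu).Path (pw N L) (F.hw mu) X) ∧
    ∀ i, (F.B mu).eps i X = N * (F.B la).eps i x

def StrOK (F : WFam.{u} C) (N n : ℕ) : Prop :=
  ∀ (la mu : I → ℕ), mu = N • la → ∀ x, F.Dep la n x → ∃ X, F.Str N la mu x X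

lemma str_wt {N : ℕ} {la mu : I → ℕ} (h : mu = N • la) {L : List I}
    {x : (F.B la).carrier} {X : (F.B mu).carrier} (h1 : (F.B la).Path L (F.hw la) x)
    (h2 : (F.B mu).Path (pw N L) (F.hw mu) X) : (F.B mu).wt X = (N : ℤ) • (F.B la).wt x := by
  rw [wt_path' h1, wt_path' h2, wsum_pw, h, wz_smul, smul_sub]

lemma str_phi {N : ℕ} {la mu : I → ℕ} (h : mu = N • la)
    {x : (F.B la).carrier} {X : (F.B mu).carrier} (hs : F.Str N la mu x X) (i : I) :
    (F.B mu).phi i X = N * (F.B la).phi i x := by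
  obtain ⟨L, hL⟩ := F.gen la x
  have h1 := congrFun (str_wt h hL (hs.1 L hL)) i
  rw [Pi.smul_apply, wt_apply, wt_apply, hs.2 i, smul_eq_mul, mul_sub] at h1
  push_cast at h1
  have h2 : ((F.B mu).phi i X : ℤ) = (N : ℤ) * (F.B la).phi i x := by omega
  exact_mod_cast h2

lemma str_of_word {N n : ℕ} (h : StrOK F N n) {la mu : I → ℕ} (hmu : mu = N • la) {L : List I}
    (hn : L.length ≤ n) {x : (F.B la).carrier} {X : (F.B mu).carrier}
    (h1 : (F.B la).Path L (F.hw la) x) (h2 : (F.B mu).Path (pw N L) (F.hw mu) X) :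
    F.Str N la mu x X := by
  obtain ⟨X', hX'⟩ := h la mu hmu x ⟨L, h1, hn⟩
  have := hX'.1 L h1
  rw [this.det h2] at hX'
  exact hX'

lemma nsmul_single (N R : ℕ) (k : I) (κ : I → ℕ) :
    N • (Pi.single k R + κ) = Pi.single k (N * R) + N • κ := by
  rw [smul_add]
  congr 1
  funext j
  by_cases h : j = k
  · subst h; simp
  · simp [h]

lemma Large.smul {k : I} {n N : ℕ} {κ : I → ℕ} (h : Large k n κ) (hN : 1 ≤ N) :
    Large k n (N • κ) := by
  refine ⟨by simp [h.1], fun j hj => ?_⟩
  have := h.2 j hj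
  rw [Pi.smul_apply, smul_eq_mul]
  nlinarith

/-- tracking a word and its stretching -/
lemma track_str {N n : ℕ} (h : StrOK F N n) {k : I} {R : ℕ} {κ : I → ℕ}
    (hκ : Large k n κ) : ∀ {L : List I}, L.length ≤ n + 1 →
    ∀ {x : (F.B (Pi.single k R + κ)).carrier}
      {X : (F.B (Pi.single k (N * R) + N • κ)).carrier},
    (F.B _).Path L (F.hw _) x → (F.B _).Path (pw N L) (F.hw _) X →
    ∃ s a A L₁ y Y, F.emb (Pi.single k R) κ x = (a, y) ∧
      F.emb (Pi.single k (N * R)) (N • κ) X = (A, Y) ∧ F.Pow _ k s a ∧ F.Pow _ k (N * s) A ∧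
      (F.B κ).Path L₁ (F.hw κ) y ∧ (F.B (N • κ)).Path (pw N L₁) (F.hw _) Y ∧
      s + L₁.length = L.length := by
  intro L
  induction L with
  | nil =>
    intro _ x x' h1 h2
    rw [path_nil] at h1
    rw [pw_nil, path_nil] at h2
    subst h1; subst h2
    exact ⟨0, F.hw _, F.hw _, [], F.hw _, F.hw _, F.emb_hw _ _, F.emb_hw _ _, rfl, rfl, rfl,
      rfl, rfl⟩
  | cons i L ih =>
    intro hn x X hx hX
    obtain ⟨z, hz, hzx⟩ := hx
    obtain ⟨Z, hZ, hZX⟩ := path_pw_cons.1 hX
    rw [List.length_cons] at hn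
    obtain ⟨s, b, B, L₁, w, W, e1, e2, e3, e4, e5, e6, e7⟩ := ih (by omega) hz hZ
    have hL₁ : L₁.length ≤ n := by omega
    have hst := str_of_word h rfl hL₁ e5 e6
    have g1 := str_phi rfl hst i
    have g2 : (F.B (Pi.single k (N * R))).eps i B = N * (F.B (Pi.single k R)).eps i b := by
      by_cases hik : i = k
      · subst hik; rw [e3.eps, e4.eps]
      · rw [e3.eps_of_ne hik, e4.eps_of_ne hik, mul_zero]
    have g3 := hZX.map (F.emb (Pi.single k (N * R)) (N • κ))
    rw [e2] at g3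
    obtain ⟨a, y, f1, f2⟩ := emb_step hzx e1
    rcases f2 with ⟨p1, p2, p3⟩ | ⟨p1, p2, p3⟩
    · have q1 : (F.B (Pi.single k (N * R))).eps i B + N ≤ (F.B (N • κ)).phi i W := by
        rw [g1, g2]; nlinarith
      obtain ⟨Y, hY⟩ := exists_down (X := F.B (N • κ)) (i := i) (n := N) (x := W) (by omega)
      have q2 := tensor_path_right q1 hY
      refine ⟨s, a, B, i :: L₁, y, Y, f1, g3.det q2, p2 ▸ e3, e4, ⟨w, e5, p3⟩,
        path_pw_cons.2 ⟨W, e6, hY⟩, ?_⟩
      simp only [List.length_cons]; omega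
    · have hik : i = k := by
        by_contra hik
        have h9 := phi_pos hκ e5 hL₁ hik
        rw [e3.eps_of_ne hik] at p1
        omega
      subst hik
      have q1 : (F.B (N • κ)).phi i W ≤ (F.B (Pi.single i (N * R))).eps i B := by
        rw [g1, g2]; exact Nat.mul_le_mul_left _ p1
      have q3 : N ≤ (F.B (Pi.single i (N * R))).phi i B := by
        have r1 := e4.phi
        have r2 := (e3.succ p2).phi
        rw [Pi.single_eq_same] at r1 r2
        have r3 : N * (s + 1) ≤ N * R := Nat.mul_le_mul_left _ (by omega)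
        rw [Nat.mul_succ] at r3
        omega
      obtain ⟨A, hA⟩ := exists_down (X := F.B (Pi.single i (N * R))) (i := i) (n := N) (x := B) q3
      have q2 := tensor_path_left (Y := F.B (N • κ)) q1 hA
      refine ⟨s + 1, a, A, L₁, y, W, f1, g3.det q2, e3.succ p2, ?_, p3 ▸ e5, e6, ?_⟩
      · have : N * (s + 1) = N + N * s := by ring
        unfold Pow
        rw [this]
        exact path_replicate_add.2 ⟨B, e4, hA⟩
      · simp only [List.length_cons]; omega

/-- the inductive step, for large weights -/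
lemma str_large {N n : ℕ} (h : StrOK F N n) {k : I} {R : ℕ} {la mu κ : I → ℕ}
    (hla : la = Pi.single k R + κ) (hmu : mu = Pi.single k (N * R) + N • κ)
    (hκ : Large k (n + 1) κ)
    {L M : List I} (hL : L.length + 1 ≤ n + 1) (hM : M.length ≤ n + 1)
    {x : (F.B la).carrier} {X' X'' : (F.B mu).carrier}
    (h1 : (F.B la).Path (L ++ [k]) (F.hw la) x) (h2 : (F.B la).Path M (F.hw la) x)
    (h3 : (F.B mu).Path (pw N (L ++ [k])) (F.hw mu) X')
    (h4 : (F.B mu).Path (pw N M) (F.hw mu) X'') :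
    X' = X'' ∧ ∀ i, (F.B mu).eps i X' = N * (F.B la).eps i x := by
  subst hla; subst hmu
  have hκ' : Large k n κ := hκ.mono (Nat.le_succ n)
  obtain ⟨s, a, A, L₁, y, Y, e1, e2, e3, e4, e5, e6, e7⟩ :=
    track_str h hκ' (L := L ++ [k]) (by simpa using hL) h1 h3
  obtain ⟨t, b, B, L₂, w, W, f1, f2, f3, f4, f5, f6, f7⟩ := track_str h hκ' hM h2 h4
  rw [e1] at f1
  obtain ⟨rfl, rfl⟩ := Prod.mk.inj f1
  have hst : s = t := by rw [← e3.eps, ← f3.eps]
  subst hst
  have hab : A = B := e4.unique f4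
  obtain ⟨s', a₂, y₂, g1, g2⟩ := emb_large_pos hκ h1 hL
  rw [e1] at g1
  obtain ⟨rfl, rfl⟩ := Prod.mk.inj g1
  have hs : s = s' + 1 := by rw [← e3.eps, ← g2.eps]
  simp only [List.length_append, List.length_singleton] at e7
  have k1 := str_of_word h rfl (by omega) e5 e6
  have k2 := str_of_word h rfl (by omega) f5 f6
  have k3 : Y = W := (k1.1 L₁ e5).det (k2.1 L₁ e5)
  refine ⟨?_, ?_⟩
  · apply (F.emb _ _).inj
    rw [e2, f2, hab, k3]
  · intro i
    rw [← (F.emb (Pi.single k R) κ).map_eps i x,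
      ← (F.emb (Pi.single k (N * R)) (N • κ)).map_eps i X', e1, e2, tensor_eps, tensor_eps]
    dsimp only
    have g2 : (F.B (Pi.single k (N * R))).eps i A = N * (F.B (Pi.single k R)).eps i a := by
      by_cases hik : i = k
      · subst hik; rw [e3.eps, e4.eps]
      · rw [e3.eps_of_ne hik, e4.eps_of_ne hik, mul_zero]
    rw [g2, k1.2 i, str_phi rfl k1 i, mul_add, Nat.mul_sub]

lemma tr_eps {ka la : I → ℕ} {x : (F.B la).carrier} {x' : (F.B (ka + la)).carrier}
    (hx : F.emb ka la x' = (F.hw ka, x)) (i : I) : (F.B (ka + la)).eps i x' = (F.B la).eps i x := by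
  rw [← (F.emb ka la).map_eps, hx, tensor_eps]
  dsimp only
  rw [F.high ka i]; omega

lemma str_succ {N n : ℕ} (h : StrOK F N n) : StrOK F N (n + 1) := by
  rintro la mu rfl x ⟨L, hL, hn⟩
  by_cases hLn : L.length ≤ n
  · exact h la _ rfl x ⟨L, hL, hLn⟩
  · have hLl : L.length = n + 1 := by omega
    have hcons : ∀ M, (F.B la).Path M (F.hw la) x →
        ∃ z, (F.B (N • la)).Path (pw N M) (F.hw _) z := by
      intro M hM
      have h1 := F.length_eq hL hM
      match M, hM, h1 with
      | [], _, h1 => rw [hLl] at h1; simp at h1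
      | i :: M, hM, h1 =>
        rw [List.length_cons] at h1
        obtain ⟨y, hy, hyx⟩ := hM
        obtain ⟨Y, hY⟩ := h la _ rfl y ⟨M, hy, by omega⟩
        have h2 := str_phi rfl hY i
        have h3 := (F.B la).phi_arrow hyx
        have h4 : N ≤ (F.B (N • la)).phi i Y := by rw [h2]; nlinarith
        obtain ⟨z, hz⟩ := exists_down h4
        exact ⟨z, path_pw_cons.2 ⟨Y, hY.1 M hy, hz⟩⟩
    obtain ⟨X', hX'⟩ := hcons L hL
    -- last letter of `L`
    rcases List.eq_nil_or_concat L with rfl | ⟨L₀, k, rfl⟩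
    · simp at hLl
    rw [List.concat_eq_append] at hL hX' hLl
    have key : ∀ M, (F.B la).Path M (F.hw la) x → ∀ X'',
        (F.B (N • la)).Path (pw N M) (F.hw _) X'' →
        X' = X'' ∧ ∀ i, (F.B (N • la)).eps i X' = N * (F.B la).eps i x := by
      intro M hM X'' hX''
      have hMl : M.length = n + 1 := by rw [← F.length_eq hL hM, hLl]
      obtain ⟨ka, κ, _, hκ, heq⟩ := exists_large k (n + 1) la
      have heq' : N • ka + N • la = Pi.single k (N * la k) + N • κ := by
        rw [← smul_add, heq, nsmul_single]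
      obtain ⟨x₁, h1, h1'⟩ := tr_path (ka := ka) hL
      obtain ⟨x₂, h2, h2'⟩ := tr_path (ka := ka) hM
      obtain ⟨x₃, h3, h3'⟩ := tr_path (ka := N • ka) hX'
      obtain ⟨x₄, h4, h4'⟩ := tr_path (ka := N • ka) hX''
      have hxx : x₁ = x₂ := by apply (F.emb _ _).inj; rw [h1', h2']
      subst hxx
      simp only [List.length_append, List.length_singleton] at hLl
      obtain ⟨g1, g2⟩ := str_large h heq heq' hκ (by omega) (by omega) h1 h2 h3 h4
      subst g1
      rw [h3'] at h4'
      refine ⟨(Prod.mk.inj h4').2, fun i => ?_⟩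
      have := g2 i
      rw [tr_eps h3', tr_eps h1'] at this
      exact this
    refine ⟨X', fun M hM => ?_, (key _ hL X' hX').2⟩
    obtain ⟨X'', hX''⟩ := hcons M hM
    rw [(key M hM X'' hX'').1]
    exact hX''

theorem strOK (F : WFam.{u} C) {N : ℕ} (_ : 1 ≤ N) (n : ℕ) : StrOK F N n := by
  induction n with
  | zero =>
    rintro la mu _ x ⟨L, hL, hn⟩
    have : L = [] := List.length_eq_zero_iff.1 (by omega)
    subst this
    rw [path_nil] at hL
    subst hL
    refine ⟨F.hw mu, fun L hL => ?_, fun i => ?_⟩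
    · obtain ⟨rfl, _⟩ := hL.high_nil (F.high la)
      rfl
    · rw [F.high la i, F.high mu i, mul_zero]
  | succ n ih => exact str_succ ih

/-- **Similarity maps.** -/
theorem exists_str (F : WFam.{u} C) {N : ℕ} (hN : 1 ≤ N) {la mu : I → ℕ} (h : mu = N • la)
    (x : (F.B la).carrier) : ∃ X, F.Str N la mu x X := by
  obtain ⟨L, hL⟩ := F.gen la x
  exact strOK F hN L.length la mu h x ⟨L, hL, le_rfl⟩

lemma Str.unique {N : ℕ} {la mu : I → ℕ} {x : (F.B la).carrier} {X X' : (F.B mu).carrier}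
    (h : F.Str N la mu x X) (h' : F.Str N la mu x X') : X = X' := by
  obtain ⟨L, hL⟩ := F.gen la x
  exact (h.1 L hL).det (h'.1 L hL)

/-- stretching and powers of `F_i` -/
lemma Str.down {N : ℕ} {la mu : I → ℕ} {x y : (F.B la).carrier} {X Y : (F.B mu).carrier}
    (h : F.Str N la mu x X) (h' : F.Str N la mu y Y) {i : I} {n : ℕ}
    (hxy : (F.B la).Path (List.replicate n i) x y) :
    (F.B mu).Path (List.replicate (N * n) i) X Y := by
  obtain ⟨L, hL⟩ := F.gen la x
  have h1 := h'.1 (List.replicate n i ++ L) (path_append.2 ⟨x, hL, hxy⟩)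
  rw [pw_append, pw_replicate, path_append] at h1
  obtain ⟨Z, hZ, hZY⟩ := h1
  rw [(h.1 L hL).det hZ]
  exact hZY

/-- `S_M (a ⊗ u) = S_M a ⊗ S_M u` -/
lemma str_tensor {M : ℕ} (hM : 1 ≤ M) {la mu : I → ℕ} {K : List I}
    {p : (tensor (F.B la) (F.B mu)).carrier}
    (h : (tensor (F.B la) (F.B mu)).Path K (F.hw la, F.hw mu) p) {la' mu' : I → ℕ}
    (hla : la' = M • la) (hmu : mu' = M • mu) {A : (F.B la').carrier} {U : (F.B mu').carrier}
    (hA : F.Str M la la' p.1 A) (hU : F.Str M mu mu' p.2 U) :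
    (tensor (F.B la') (F.B mu')).Path (pw M K) (F.hw la', F.hw mu') (A, U) := by
  induction K generalizing p A U with
  | nil =>
    rw [path_nil] at h
    subst h
    rw [pw_nil, path_nil]
    have h1 : F.hw la' = A := hA.1 [] rfl
    have h2 : F.hw mu' = U := hU.1 [] rfl
    rw [h1, h2]
  | cons i K ih =>
    obtain ⟨q, hq, hqp⟩ := h
    obtain ⟨A₀, hA₀⟩ := exists_str F hM hla q.1
    obtain ⟨U₀, hU₀⟩ := exists_str F hM hmu q.2
    refine path_pw_cons.2 ⟨(A₀, U₀), ih hq hA₀ hU₀, ?_⟩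
    have e1 := hA₀.2 i
    have e2 := str_phi hmu hU₀ i
    rcases tensor_arrow_cases hqp with ⟨g1, g2, g3⟩ | ⟨g1, g2, g3⟩
    · rw [g2] at hA
      rw [hA.unique hA₀]
      apply tensor_path_right
      · rw [e1, e2]; nlinarith
      · have := hU₀.down hU (i := i) (n := 1) ⟨q.2, rfl, g3⟩
        rwa [mul_one] at this
    · rw [g3] at hU
      rw [hU.unique hU₀]
      apply tensor_path_left
      · rw [e1, e2]; exact Nat.mul_le_mul_left _ g1
      · have := hA₀.down hA (i := i) (n := 1) ⟨q.1, rfl, g2⟩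
        rwa [mul_one] at this

end WFam

end Pool.Agent.H78R2.Crys
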