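import Pool.Agent.H78R2.Crys.Build

/-!
The closed family for the Cartan matrix `A_1 × A_1`.
-/

set_option autoImplicit false
set_option linter.unusedSectionVars false

namespace Pool.Agent.H78R2.Crys

open Crystal

namespace A1A1

variable (D : CartanDatum Bool) (h01 : D.A false true = 0)

/-- the crystal `B_ν` -/
@[reducible] def Bn (nu : Bool → ℕ) : Crystal.{0} D where
  carrier := {p : ℕ × ℕ // p.1 ≤ nu false ∧ p.2 ≤ nu true}
  arrow i p q := match i with
    | false => q.1.1 = p.1.1 + 1 ∧ q.1.2 = p.1.2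
    | true => q.1.1 = p.1.1 ∧ q.1.2 = p.1.2 + 1
  eps i p := match i with
    | false => p.1.1
    | true => p.1.2
  phi i p := match i with
    | false => nu false - p.1.1
    | true => nu true - p.1.2
  arrow_fun := by
    rintro i ⟨⟨a, b⟩, hp⟩ ⟨⟨c, d⟩, hq⟩ ⟨⟨c', d'⟩, hq'⟩ h h'
    cases i <;>
    · simp only at h h'
      simp only [Subtype.mk.injEq, Prod.mk.injEq]
      omega
  arrow_inj := by
    rintro i ⟨⟨a, b⟩, hp⟩ ⟨⟨c, d⟩, hq⟩ ⟨⟨c', d'⟩, hq'⟩ h h'
    cases i <;>
    · simp only at h h'
      simp only [Subtype.mk.injEq, Prod.mk.injEq]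
      omega
  exists_of_phi := by
    rintro i ⟨⟨a, b⟩, hp⟩ h
    simp only at hp
    cases i
    · simp only at h
      exact ⟨⟨(a + 1, b), by simp only; omega⟩, rfl, rfl⟩
    · simp only at h
      exact ⟨⟨(a, b + 1), by simp only; omega⟩, rfl, rfl⟩
  exists_of_eps := by
    rintro i ⟨⟨a, b⟩, hp⟩ h
    simp only at hp
    cases i
    · simp only at h
      exact ⟨⟨(a - 1, b), by simp only; omega⟩, by simp only; omega, rfl⟩
    · simp only at h
      exact ⟨⟨(a, b - 1), by simp only; omega⟩, rfl, by simp only; omega⟩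
  eps_arrow := by
    rintro i ⟨⟨a, b⟩, hp⟩ ⟨⟨c, d⟩, hq⟩ h
    cases i <;>
    · simp only at h ⊢
      omega
  phi_arrow := by
    rintro i ⟨⟨a, b⟩, hp⟩ ⟨⟨c, d⟩, hq⟩ h
    simp only at hp hq
    cases i <;>
    · simp only at h ⊢
      omega
  weight_arrow := by
    rintro i ⟨⟨a, b⟩, hp⟩ ⟨⟨c, d⟩, hq⟩ h j
    have h10 : D.A true false = 0 := D.zero_symm h01
    have h00 := D.diag false
    have h11 := D.diag true
    simp only at hp hq
    cases i <;> cases j <;>
    · simp only at h ⊢
      first
        | rw [h00]; omega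
        | rw [h11]; omega
        | rw [h01]; omega
        | rw [h10]; omega

/-- the highest weight element -/
def hwn (nu : Bool → ℕ) : (Bn D h01 nu).carrier := ⟨(0, 0), Nat.zero_le _, Nat.zero_le _⟩

lemma eps_false (nu : Bool → ℕ) (p : (Bn D h01 nu).carrier) :
    (Bn D h01 nu).eps false p = p.1.1 := rfl
lemma eps_true (nu : Bool → ℕ) (p : (Bn D h01 nu).carrier) :
    (Bn D h01 nu).eps true p = p.1.2 := rfl
lemma phi_false (nu : Bool → ℕ) (p : (Bn D h01 nu).carrier) :
    (Bn D h01 nu).phi false p = nu false - p.1.1 := rfl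
lemma phi_true (nu : Bool → ℕ) (p : (Bn D h01 nu).carrier) :
    (Bn D h01 nu).phi true p = nu true - p.1.2 := rfl
lemma arrow_false (nu : Bool → ℕ) (p q : (Bn D h01 nu).carrier) :
    (Bn D h01 nu).arrow false p q ↔ q.1.1 = p.1.1 + 1 ∧ q.1.2 = p.1.2 := Iff.rfl
lemma arrow_true (nu : Bool → ℕ) (p q : (Bn D h01 nu).carrier) :
    (Bn D h01 nu).arrow true p q ↔ q.1.1 = p.1.1 ∧ q.1.2 = p.1.2 + 1 := Iff.rfl

lemma eq_hwn (nu : Bool → ℕ) (p : (Bn D h01 nu).carrier) (h : (Bn D h01 nu).IsHigh p) :
    p = hwn D h01 nu := by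
  have h1 := h false
  have h2 := h true
  rw [eps_false] at h1
  rw [eps_true] at h2
  exact Subtype.ext (Prod.ext h1 h2)

/-- embedding of components of tensor products -/
lemma exists_emb (la mu nu : Bool → ℕ) (a b : ℕ) (ha : a ≤ la false) (hb : b ≤ la true)
    (ha' : a ≤ mu false) (hb' : b ≤ mu true) (h1 : nu false + 2 * a = la false + mu false)
    (h2 : nu true + 2 * b = la true + mu true) :
    ∃ j : Emb (Bn D h01 nu) (tensor (Bn D h01 la) (Bn D h01 mu)),
      j (hwn D h01 nu) = (⟨(a, b), ha, hb⟩, hwn D h01 mu) := by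
  refine ⟨⟨fun p => (⟨(a + (p.1.1 - (mu false - a)), b + (p.1.2 - (mu true - b))), ?_, ?_⟩,
    ⟨(min p.1.1 (mu false - a), min p.1.2 (mu true - b)), ?_, ?_⟩), ?_, ?_, ?_, ?_⟩, ?_⟩
  · have := p.2.1; simp only; omega
  · have := p.2.2; simp only; omega
  · simp only; omega
  · simp only; omega
  · rintro ⟨⟨p1, p2⟩, hp⟩ ⟨⟨q1, q2⟩, hq⟩ h
    simp only [Prod.mk.injEq, Subtype.mk.injEq] at h ⊢
    omega
  · rintro i ⟨⟨p1, p2⟩, hp⟩ ⟨⟨q1, q2⟩, hq⟩ h
    simp only at hp hq
    cases i
    · rw [arrow_false] at h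
      simp only at h
      by_cases hc : p1 < mu false - a
      · left
        refine ⟨?_, ?_, ?_⟩
        · rw [eps_false, phi_false]; simp only; omega
        · simp only [Subtype.mk.injEq, Prod.mk.injEq]; omega
        · rw [arrow_false]; simp only; omega
      · right
        refine ⟨?_, ?_, ?_⟩
        · rw [eps_false, phi_false]; simp only; omega
        · rw [arrow_false]; simp only; omega
        · simp only [Subtype.mk.injEq, Prod.mk.injEq]; omega
    · rw [arrow_true] at h
      simp only at h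
      by_cases hc : p2 < mu true - b
      · left
        refine ⟨?_, ?_, ?_⟩
        · rw [eps_true, phi_true]; simp only; omega
        · simp only [Subtype.mk.injEq, Prod.mk.injEq]; omega
        · rw [arrow_true]; simp only; omega
      · right
        refine ⟨?_, ?_, ?_⟩
        · rw [eps_true, phi_true]; simp only; omega
        · rw [arrow_true]; simp only; omega
        · simp only [Subtype.mk.injEq, Prod.mk.injEq]; omega
  · rintro i ⟨⟨p1, p2⟩, hp⟩
    simp only at hp
    cases i
    · rw [tensor_eps, eps_false, eps_false, phi_false, eps_false]; simp only; omega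
    · rw [tensor_eps, eps_true, eps_true, phi_true, eps_true]; simp only; omega
  · rintro i ⟨⟨p1, p2⟩, hp⟩
    simp only at hp
    cases i
    · rw [tensor_phi, eps_false, phi_false, phi_false, phi_false]; simp only; omega
    · rw [tensor_phi, eps_true, phi_true, phi_true, phi_true]; simp only; omega
  · simp [hwn]

/-- the closed family -/
def fam : Family.{0} D where
  B := Bn D h01
  hw := hwn D h01
  high la i := by cases i <;> rfl
  phi_hw la i := by cases i <;> rfl
  gen la x := gen_of (X := Bn D h01 la) (fun p => p.1.1 + p.1.2) (by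
    rintro i ⟨⟨a, b⟩, hp⟩ ⟨⟨c, d⟩, hq⟩ h
    cases i
    · rw [arrow_false] at h
      simp only at h ⊢
      omega
    · rw [arrow_true] at h
      simp only at h ⊢
      omega) (eq_hwn D h01 la) x
  closed := by
    rintro la mu ⟨⟨⟨a, b⟩, ha, hb⟩, y⟩ hz
    have hy : y = hwn D h01 mu := eq_hwn D h01 mu y (tensor_high_right hz)
    subst hy
    have h1 := hz false
    have h2 := hz true
    rw [tensor_eps, eps_false, eps_false, phi_false] at h1
    rw [tensor_eps, eps_true, eps_true, phi_true] at h2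
    simp only [hwn] at h1 h2 ha hb
    refine ⟨fun t => cond t (la true + mu true - 2 * b) (la false + mu false - 2 * a), ?_⟩
    apply exists_emb D h01 la mu _ a b ha hb (by omega) (by omega)
    · simp only [cond_false]; omega
    · simp only [cond_true]; omega

end A1A1

end Pool.Agent.H78R2.Crys
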