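import Pool.Agent.H78R2.Crys.FoldFam

/-!
Every Cartan matrix of finite type is folded from a symmetric one.
-/

set_option autoImplicit false
set_option linter.unusedSectionVars false

namespace Pool.Agent.H78R2.Crys

open Crystal

namespace Unfold

/-! ### counting -/

lemma count_one {m n : ℕ} [NeZero m] [NeZero n] (h : m ∣ n) (s : ZMod n)
    [DecidablePred fun r : ZMod m => ∃ t : ℤ, (t : ZMod m) = r ∧ (t : ZMod n) = s] :
    (Finset.univ.filter fun r : ZMod m => ∃ t : ℤ, (t : ZMod m) = r ∧ (t : ZMod n) = s).card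
      = 1 := by
  rw [Finset.card_eq_one]
  refine ⟨ZMod.castHom h (ZMod m) s, ?_⟩
  ext r
  rw [Finset.mem_filter, Finset.mem_singleton]
  constructor
  · rintro ⟨_, t, rfl, rfl⟩
    exact (map_intCast (ZMod.castHom h (ZMod m)) t).symm
  · rintro rfl
    refine ⟨Finset.mem_univ _, (s.val : ℤ), ?_, ?_⟩
    · rw [← map_intCast (ZMod.castHom h (ZMod m)), Int.cast_natCast, ZMod.natCast_zmod_val]
    · rw [Int.cast_natCast, ZMod.natCast_zmod_val]

lemma count_many {m n k : ℕ} [NeZero m] [NeZero n] (h : n = k * m) (r : ZMod m)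
    [DecidablePred fun s : ZMod n => ∃ t : ℤ, (t : ZMod n) = s ∧ (t : ZMod m) = r] :
    (Finset.univ.filter fun s : ZMod n => ∃ t : ℤ, (t : ZMod n) = s ∧ (t : ZMod m) = r).card
      = k := by
  have hd : m ∣ n := ⟨k, by rw [h, mul_comm]⟩
  have h1 : (Finset.univ.filter fun s : ZMod n => ∃ t : ℤ, (t : ZMod n) = s ∧ (t : ZMod m) = r)
      = Finset.univ.filter fun s : ZMod n => (ZMod.castHom hd (ZMod m)) s = r := by
    ext s
    rw [Finset.mem_filter, Finset.mem_filter]
    constructor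
    · rintro ⟨_, t, rfl, rfl⟩
      exact ⟨Finset.mem_univ _, map_intCast (ZMod.castHom hd (ZMod m)) t⟩
    · rintro ⟨_, rfl⟩
      refine ⟨Finset.mem_univ _, (s.val : ℤ), ?_, ?_⟩
      · rw [Int.cast_natCast, ZMod.natCast_zmod_val]
      · rw [← map_intCast (ZMod.castHom hd (ZMod m)), Int.cast_natCast, ZMod.natCast_zmod_val]
  rw [h1]
  have h2 : ∀ r' : ZMod m, (Finset.univ.filter fun s : ZMod n =>
      (ZMod.castHom hd (ZMod m)) s = r').card =
      (Finset.univ.filter fun s : ZMod n => (ZMod.castHom hd (ZMod m)) s = r).card := by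
    intro r'
    exact AddMonoidHom.card_fiber_eq_of_mem_range (ZMod.castHom hd (ZMod m))
      (ZMod.castHom_surjective hd r') (ZMod.castHom_surjective hd r)
  have h3 := Finset.card_eq_sum_card_fiberwise (f := ZMod.castHom hd (ZMod m))
    (s := (Finset.univ : Finset (ZMod n))) (t := (Finset.univ : Finset (ZMod m)))
    (fun x _ => Finset.mem_coe.2 (Finset.mem_univ _))
  rw [Finset.card_univ, ZMod.card, Finset.sum_congr rfl (fun r' _ => h2 r'),
    Finset.sum_const, Finset.card_univ, ZMod.card, smul_eq_mul] at h3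
  have hm : 0 < m := Nat.pos_of_ne_zero (NeZero.ne m)
  have h4 : m * (Finset.univ.filter fun s : ZMod n =>
      (ZMod.castHom hd (ZMod m)) s = r).card = m * k := by
    rw [← h3, h, mul_comm]
  exact Nat.eq_of_mul_eq_mul_left hm h4

/-! ### positivity -/

lemma pos_of_pos {J : Type} [Fintype J] [DecidableEq J] (M : J → J → ℤ)
    (hM : ∀ a b, M a b = M b a) (hn : ∀ a b, a ≠ b → M a b ≤ 0) (u : J → ℤ)
    (hu : ∀ a, 0 < u a) (hu' : ∀ a, 0 < ∑ b, M a b * u b) (x : J → ℤ) (hx : x ≠ 0) :
    0 < ∑ a, ∑ b, M a b * x a * x b := by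
  have key : (0 : ℚ) < ∑ a, ∑ b, (M a b : ℚ) * x a * x b := by
    have huq : ∀ a, (0 : ℚ) < u a := fun a => by exact_mod_cast hu a
    set y : J → ℚ := fun a => (x a : ℚ) / u a with hy
    have hxy : ∀ a, (x a : ℚ) = u a * y a := by
      intro a
      simp only [hy]
      rw [mul_div_cancel₀]
      exact (huq a).ne'
    have h1 : ∀ a b, (M a b : ℚ) * u a * u b * (y a ^ 2 + y b ^ 2) / 2 ≤
        (M a b : ℚ) * x a * x b := by
      intro a b
      rw [hxy a, hxy b]
      have h2 : (M a b : ℚ) * (u a * y a) * (u b * y b) -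
          (M a b : ℚ) * u a * u b * (y a ^ 2 + y b ^ 2) / 2 =
          - ((M a b : ℚ) * (u a * u b * (y a - y b) ^ 2) / 2) := by ring
      have h3 : (M a b : ℚ) * (u a * u b * (y a - y b) ^ 2) ≤ 0 := by
        by_cases hab : a = b
        · subst hab; simp
        · have h4 : (M a b : ℚ) ≤ 0 := by exact_mod_cast hn a b hab
          have h5 : 0 ≤ (u a * u b * (y a - y b) ^ 2 : ℚ) := by
            have := huq a
            have := huq b
            positivity
          exact mul_nonpos_of_nonpos_of_nonneg h4 h5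
      linarith
    have h2 : ∑ a, ∑ b, (M a b : ℚ) * u a * u b * (y a ^ 2 + y b ^ 2) / 2 =
        ∑ a, u a * y a ^ 2 * ∑ b, (M a b : ℚ) * u b := by
      have h3 : ∀ a b, (M a b : ℚ) * u a * u b * (y a ^ 2 + y b ^ 2) / 2 =
          (M a b : ℚ) * u a * u b * y a ^ 2 / 2 + (M a b : ℚ) * u a * u b * y b ^ 2 / 2 := by
        intro a b; ring
      simp only [h3, Finset.sum_add_distrib]
      have h4 : ∑ a, ∑ b, (M a b : ℚ) * u a * u b * y b ^ 2 / 2 =
          ∑ a, ∑ b, (M a b : ℚ) * u a * u b * y a ^ 2 / 2 := by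
        rw [Finset.sum_comm]
        refine Finset.sum_congr rfl fun a _ => Finset.sum_congr rfl fun b _ => ?_
        rw [hM b a]; ring
      rw [h4, ← Finset.sum_add_distrib]
      refine Finset.sum_congr rfl fun a _ => ?_
      rw [← Finset.sum_add_distrib, Finset.mul_sum]
      refine Finset.sum_congr rfl fun b _ => ?_
      ring
    have h3 : 0 < ∑ a, u a * y a ^ 2 * ∑ b, (M a b : ℚ) * u b := by
      obtain ⟨a, ha⟩ : ∃ a, x a ≠ 0 := by
        by_contra hc
        push Not at hc
        exact hx (funext hc)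
      have hpos : ∀ a, 0 < ∑ b, (M a b : ℚ) * u b := by
        intro a
        have := hu' a
        exact_mod_cast this
      refine Finset.sum_pos' (fun b _ => ?_) ⟨a, Finset.mem_univ a, ?_⟩
      · have h4 := huq b
        have h5 := hpos b
        positivity
      · have h4 := huq a
        have h5 := hpos a
        have h6 : y a ≠ 0 := by
          simp only [hy]
          exact div_ne_zero (by exact_mod_cast ha) h4.ne'
        have h7 : 0 < y a ^ 2 := by positivity
        positivity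
    calc (0 : ℚ) < ∑ a, u a * y a ^ 2 * ∑ b, (M a b : ℚ) * u b := h3
      _ = ∑ a, ∑ b, (M a b : ℚ) * u a * u b * (y a ^ 2 + y b ^ 2) / 2 := h2.symm
      _ ≤ ∑ a, ∑ b, (M a b : ℚ) * x a * x b :=
        Finset.sum_le_sum fun a _ => Finset.sum_le_sum fun b _ => h1 a b
  exact_mod_cast key

/-! ### the unfolded matrix -/

variable {I : Type} [Fintype I] [DecidableEq I] (C : CartanDatum I) (e : I → ℕ)
  [∀ i, NeZero (e i)]

/-- the unfolded index set -/
abbrev Ix : Type := Σ i, ZMod (e i)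

variable {e} in
/-- adjacency -/
def Adj (a b : Ix e) : Prop := ∃ t : ℤ, (t : ZMod (e a.1)) = a.2 ∧ (t : ZMod (e b.1)) = b.2

open Classical in
/-- the unfolded matrix -/
noncomputable def mat (a b : Ix e) : ℤ :=
  if a = b then 2 else if a.1 = b.1 then 0 else if C.A a.1 b.1 ≠ 0 ∧ Adj a b then -1 else 0

lemma adj_symm {a b : Ix e} : Adj a b ↔ Adj b a :=
  ⟨fun ⟨t, h1, h2⟩ => ⟨t, h2, h1⟩, fun ⟨t, h1, h2⟩ => ⟨t, h2, h1⟩⟩

lemma mat_symm (a b : Ix e) : mat C e a b = mat C e b a := by
  unfold mat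
  by_cases h1 : a = b
  · rw [if_pos h1, if_pos h1.symm]
  · rw [if_neg h1, if_neg (Ne.symm h1)]
    by_cases h2 : a.1 = b.1
    · rw [if_pos h2, if_pos h2.symm]
    · rw [if_neg h2, if_neg (Ne.symm h2)]
      have h3 : (C.A a.1 b.1 ≠ 0 ∧ Adj a b) ↔ (C.A b.1 a.1 ≠ 0 ∧ Adj b a) := by
        rw [adj_symm]
        have h4 : C.A a.1 b.1 = 0 ↔ C.A b.1 a.1 = 0 := ⟨C.zero_symm, C.zero_symm⟩
        rw [Ne, Ne, h4]
      by_cases h5 : C.A a.1 b.1 ≠ 0 ∧ Adj a b
      · rw [if_pos h5, if_pos (h3.1 h5)]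
      · rw [if_neg h5, if_neg (fun h => h5 (h3.2 h))]

lemma mat_nonpos (a b : Ix e) (h : a ≠ b) : mat C e a b ≤ 0 := by
  unfold mat
  rw [if_neg h]
  split_ifs <;> omega

/-- the rotation -/
def rot : Equiv.Perm (Ix e) where
  toFun a := ⟨a.1, a.2 + 1⟩
  invFun a := ⟨a.1, a.2 - 1⟩
  left_inv a := by
    obtain ⟨i, r⟩ := a
    simp
  right_inv a := by
    obtain ⟨i, r⟩ := a
    simp

lemma rot_apply (a : Ix e) : rot e a = ⟨a.1, a.2 + 1⟩ := rfl

lemma adj_rot {a b : Ix e} : Adj (rot e a) (rot e b) ↔ Adj a b := by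
  constructor
  · rintro ⟨t, h1, h2⟩
    refine ⟨t - 1, ?_, ?_⟩
    · have h1' : (t : ZMod (e a.1)) = a.2 + 1 := h1
      rw [Int.cast_sub, h1', Int.cast_one]; ring
    · have h2' : (t : ZMod (e b.1)) = b.2 + 1 := h2
      rw [Int.cast_sub, h2', Int.cast_one]; ring
  · rintro ⟨t, h1, h2⟩
    refine ⟨t + 1, ?_, ?_⟩
    · show ((t + 1 : ℤ) : ZMod (e a.1)) = a.2 + 1
      rw [Int.cast_add, h1, Int.cast_one]
    · show ((t + 1 : ℤ) : ZMod (e b.1)) = b.2 + 1
      rw [Int.cast_add, h2, Int.cast_one]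

lemma mat_rot (a b : Ix e) : mat C e (rot e a) (rot e b) = mat C e a b := by
  unfold mat
  by_cases h1 : a = b
  · rw [if_pos h1, if_pos (congrArg _ h1)]
  · rw [if_neg h1, if_neg (fun h => h1 ((rot e).injective h))]
    by_cases h2 : a.1 = b.1
    · rw [if_pos h2, if_pos (show (rot e a).1 = (rot e b).1 from h2)]
    · rw [if_neg h2, if_neg (show ¬ (rot e a).1 = (rot e b).1 from h2)]
      by_cases h5 : C.A a.1 b.1 ≠ 0 ∧ Adj a b
      · rw [if_pos h5, if_pos (show C.A (rot e a).1 (rot e b).1 ≠ 0 ∧ Adj (rot e a) (rot e b)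
          from ⟨h5.1, (adj_rot e).2 h5.2⟩)]
      · rw [if_neg h5, if_neg (fun h => h5 ⟨h.1, (adj_rot e).1 h.2⟩)]

lemma rot_iterate (i : I) (n : ℕ) : (rot e)^[n] ⟨i, 0⟩ = ⟨i, (n : ZMod (e i))⟩ := by
  induction n with
  | zero => simp
  | succ n ih =>
    rw [Function.iterate_succ_apply', ih, rot_apply]
    simp

lemma sum_fiber (f : Ix e → ℤ) (i : I) :
    ∑ a with (a : Ix e).1 = i, f a = ∑ r : ZMod (e i), f ⟨i, r⟩ := by
  rw [Finset.sum_filter, Fintype.sum_sigma, Finset.sum_eq_single i]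
  · simp
  · intro k _ hk
    simp [hk]
  · intro h; exact absurd (Finset.mem_univ i) h

variable (he : ∀ i k, (e i : ℤ) * C.A i k = e k * C.A k i)

include he in
lemma mat_sum (b : Ix e) (i : I) : ∑ a with (a : Ix e).1 = i, mat C e b a = C.A b.1 i := by
  classical
  rw [sum_fiber e]
  obtain ⟨k, s⟩ := b
  by_cases hki : k = i
  · subst hki
    rw [Finset.sum_eq_single s]
    · unfold mat
      rw [if_pos rfl, C.diag]
    · intro r _ hr
      unfold mat
      rw [if_neg (by
        intro h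
        have h1 : s = r := by simpa using h
        exact hr h1.symm), if_pos rfl]
    · intro h; exact absurd (Finset.mem_univ s) h
  · have h1 : ∀ r : ZMod (e i), mat C e ⟨k, s⟩ ⟨i, r⟩ =
        if C.A k i ≠ 0 ∧ Adj (⟨k, s⟩ : Ix e) ⟨i, r⟩ then -1 else 0 := by
      intro r
      unfold mat
      have h2 : ¬ ((⟨k, s⟩ : Ix e) = ⟨i, r⟩) := fun h => hki (congrArg Sigma.fst h)
      rw [if_neg h2, if_neg hki]
    simp only [h1]
    by_cases h0 : C.A k i = 0
    · show _ = C.A k i
      rw [h0]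
      simp
    · have h2 : ∀ r : ZMod (e i), (if C.A k i ≠ 0 ∧ Adj (⟨k, s⟩ : Ix e) ⟨i, r⟩ then (-1 : ℤ)
          else 0) = if (∃ t : ℤ, (t : ZMod (e i)) = r ∧ (t : ZMod (e k)) = s) then -1 else 0 := by
        intro r
        have h3 : (C.A k i ≠ 0 ∧ Adj (⟨k, s⟩ : Ix e) ⟨i, r⟩) ↔
            (∃ t : ℤ, (t : ZMod (e i)) = r ∧ (t : ZMod (e k)) = s) :=
          ⟨fun ⟨_, t, h4, h5⟩ => ⟨t, h5, h4⟩, fun ⟨t, h4, h5⟩ => ⟨h0, t, h5, h4⟩⟩
        by_cases h4 : ∃ t : ℤ, (t : ZMod (e i)) = r ∧ (t : ZMod (e k)) = s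
        · rw [if_pos h4, if_pos (h3.2 h4)]
        · rw [if_neg h4, if_neg (fun h => h4 (h3.1 h))]
      simp only [h2]
      rw [← Finset.sum_filter, Finset.sum_const]
      have h3 := he k i
      have hcount : ((Finset.univ.filter fun r : ZMod (e i) =>
          ∃ t : ℤ, (t : ZMod (e i)) = r ∧ (t : ZMod (e k)) = s).card : ℤ) = - C.A k i := by
        rcases C.cases_pair hki with h | h | h | h | h | h
        · exact absurd h.1 h0
        · rw [h.1, h.2] at h3
          have h4 : e i = e k := by omega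
          rw [h.1, count_one ⟨1, by rw [h4, mul_one]⟩ s]
          norm_num
        · rw [h.1, h.2] at h3
          have h4 : e k = e i * 2 := by omega
          rw [h.1, count_one ⟨2, h4⟩ s]
          norm_num
        · rw [h.1, h.2] at h3
          have h4 : e i = 2 * e k := by omega
          rw [h.1, count_many h4 s]
          norm_num
        · rw [h.1, h.2] at h3
          have h4 : e k = e i * 3 := by omega
          rw [h.1, count_one ⟨3, h4⟩ s]
          norm_num
        · rw [h.1, h.2] at h3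
          have h4 : e i = 3 * e k := by omega
          rw [h.1, count_many h4 s]
          norm_num
      rw [nsmul_eq_mul, hcount]
      show - C.A k i * -1 = C.A k i
      ring

include he in
lemma mat_pos (x : Ix e → ℤ) (hx : x ≠ 0) : 0 < ∑ a, ∑ b, mat C e a b * x a * x b := by
  obtain ⟨n, hn, hn'⟩ := C.exists_pos
  refine pos_of_pos (mat C e) (mat_symm C e) (mat_nonpos C e) (fun a => n a.1)
    (fun a => hn a.1) ?_ x hx
  intro a
  have h1 : ∑ b : Ix e, mat C e a b * n b.1 = ∑ i, C.A a.1 i * n i := by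
    have h2 : ∀ i, C.A a.1 i * n i = ∑ b with (b : Ix e).1 = i, mat C e a b * n b.1 := by
      intro i
      rw [← mat_sum C e he a i, Finset.sum_mul]
      refine Finset.sum_congr rfl fun b hb => ?_
      rw [Finset.mem_filter] at hb
      rw [hb.2]
    simp only [h2]
    exact (Finset.sum_fiberwise _ _ _).symm
  rw [h1]
  exact hn' a.1

/-- the unfolded Cartan datum -/
noncomputable def dat : CartanDatum (Ix e) where
  A := mat C e
  diag a := by unfold mat; rw [if_pos rfl]
  nonpos := mat_nonpos C e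
  posdef := by
    refine ⟨fun _ => 1, fun _ => one_pos, fun i j => by rw [mat_symm], fun x hx => ?_⟩
    simp only [one_mul]
    exact mat_pos C e he x hx

/-- the folding data -/
noncomputable def fdat : FoldData C (dat C e he) where
  symm := mat_symm C e
  pos x hx := by
    have h := mat_pos C e he x hx
    unfold Laced.Q Laced.B Laced.p
    have h1 : ∑ a, x a * ∑ b, (dat C e he).A a b * x b =
        ∑ a, ∑ b, mat C e a b * x a * x b := by
      refine Finset.sum_congr rfl fun a _ => ?_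
      rw [Finset.mul_sum]
      refine Finset.sum_congr rfl fun b _ => ?_
      show x a * (mat C e a b * x b) = mat C e a b * x a * x b
      ring
    rw [h1]
    exact h
  π a := a.1
  s i := ⟨i, 0⟩
  σ := rot e
  π_s _ := rfl
  π_σ _ := rfl
  A_σ := mat_rot C e
  trans a := by
    refine ⟨a.2.val, ?_⟩
    rw [rot_iterate, ZMod.natCast_zmod_val]
  orth a b h h' := by
    show mat C e a b = 0
    unfold mat
    rw [if_neg h', if_pos h]
  sum i j := mat_sum C e he ⟨j, 0⟩ i

end Unfold

/-- **Closed families of highest weight crystals exist** for every Cartan matrix of finite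
type. -/
theorem exists_family {I : Type} [Fintype I] [DecidableEq I] (C : CartanDatum I) :
    Nonempty (Family.{0} C) := by
  obtain ⟨d, hd, hs, _⟩ := C.posdef
  have : ∀ i, NeZero (d i).toNat := fun i => ⟨by have := hd i; omega⟩
  exact (Unfold.fdat C (fun i => (d i).toNat) (by
    intro i k
    have h1 : (((d i).toNat : ℕ) : ℤ) = d i := Int.toNat_of_nonneg (hd i).le
    have h2 : (((d k).toNat : ℕ) : ℤ) = d k := Int.toNat_of_nonneg (hd k).le
    rw [h1, h2]
    exact hs i k)).exists_family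

end Pool.Agent.H78R2.Crys
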