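import Pool.Agent.H78R2.Crys.Demazure

/-!
Uniqueness of families of highest weight crystals with embeddings `B_{λ+μ} → B_λ ⊗ B_μ`
(Joseph's theorem).
-/

set_option autoImplicit false
set_option linter.unusedSectionVars false

namespace Pool.Agent.H78R2.Crys

universe u

variable {I : Type} [Fintype I] [DecidableEq I] {C : CartanDatum I}

open Crystal

namespace WFam

variable {F F' : WFam.{u} C}

/-- In the embedding `B_{R ω_k + κ} → B_{R ω_k} ⊗ B_κ`, a word that starts with `F_k` produces a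
positive power of `F_k` in the first factor. -/
lemma emb_large_pos {k : I} {R n : ℕ} {κ : I → ℕ} (hκ : Large k n κ) {L : List I}
    {x : (F.B (Pi.single k R + κ)).carrier} (hL : (F.B _).Path (L ++ [k]) (F.hw _) x)
    (hn : L.length + 1 ≤ n) :
    ∃ s a y, F.emb (Pi.single k R) κ x = (a, y) ∧ F.Pow (Pi.single k R) k (s + 1) a := by
  induction L generalizing x with
  | nil =>
    rw [List.nil_append] at hL
    obtain ⟨z, hz, hzx⟩ := hL
    rw [path_nil] at hz
    subst hz
    obtain ⟨a', y', h5, ⟨h6, h7, h8⟩ | ⟨h6, h7, h8⟩⟩ := emb_step hzx (F.emb_hw _ _)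
    · rw [F.phi_hw, hκ.1] at h6; omega
    · exact ⟨0, a', y', h5, F.hw _, rfl, h7⟩
  | cons i L ih =>
    rw [List.cons_append] at hL
    obtain ⟨z, hz, hzx⟩ := hL
    rw [List.length_cons] at hn
    obtain ⟨s, a, y, h1, h2⟩ := ih hz (by omega)
    obtain ⟨a', y', h5, ⟨h6, h7, h8⟩ | ⟨h6, h7, h8⟩⟩ := emb_step hzx h1
    · exact ⟨s, a', y', h5, h7 ▸ h2⟩
    · have hik : i = k := by
        by_contra hik
        obtain ⟨s', a₁, L₁, y₁, g1, g2, g3, g4⟩ := emb_large hκ hz (by simp; omega)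
        rw [h1] at g1
        obtain ⟨rfl, rfl⟩ := Prod.mk.inj g1
        simp only [List.length_append, List.length_singleton] at g4
        have h9 := phi_pos hκ g3 (by omega) hik
        rw [h2.eps_of_ne hik] at h6
        omega
      subst hik
      exact ⟨s + 1, a', y', h5, h2.succ h7⟩

/-- every word reaching `x` reaches `x'` -/
def Sub (F F' : WFam.{u} C) (la : I → ℕ) (x : (F.B la).carrier) (x' : (F'.B la).carrier) : Prop :=
  ∀ L, (F.B la).Path L (F.hw la) x → (F'.B la).Path L (F'.hw la) x'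

/-- the statement `One n` -/
def One (F F' : WFam.{u} C) (n : ℕ) : Prop :=
  ∀ la x, F.Dep la n x → ∃ x', Sub F F' la x x'

lemma One.mono {n m : ℕ} (h : One F F' n) (hm : m ≤ n) : One F F' m := by
  rintro la x ⟨M, hM, hMn⟩
  exact h la x ⟨M, hM, hMn.trans hm⟩

/-- From `One` in both directions: common words give `Sub`. -/
lemma sub_of_word {n : ℕ} (h : One F F' n) {la : I → ℕ} {L : List I}
    (hn : L.length ≤ n) {x : (F.B la).carrier} {x' : (F'.B la).carrier}
    (h1 : (F.B la).Path L (F.hw la) x) (h2 : (F'.B la).Path L (F'.hw la) x') :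
    Sub F F' la x x' := by
  obtain ⟨x'', hx''⟩ := h la x ⟨L, h1, hn⟩
  have := hx'' L h1
  rw [this.det h2] at hx''
  exact hx''

lemma eps_eq {n : ℕ} (h : One F F' n) (h' : One F' F n) {la : I → ℕ} :
    ∀ {L : List I}, L.length ≤ n → ∀ {x : (F.B la).carrier} {x' : (F'.B la).carrier},
    (F.B la).Path L (F.hw la) x → (F'.B la).Path L (F'.hw la) x' →
    ∀ i, (F.B la).eps i x = (F'.B la).eps i x' := by
  induction n with
  | zero =>
    intro L hn x x' h1 h2 i
    have : L = [] := List.length_eq_zero_iff.1 (by omega)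
    subst this
    rw [path_nil] at h1 h2
    rw [← h1, ← h2, F.high la i, F'.high la i]
  | succ n ih =>
    intro L hn x x' h1 h2 i
    have ih' := @ih (h.mono (Nat.le_succ n)) (h'.mono (Nat.le_succ n))
    by_cases he : (F.B la).eps i x = 0
    · by_cases he' : (F'.B la).eps i x' = 0
      · rw [he, he']
      · obtain ⟨y', hy'⟩ := (F'.B la).exists_of_eps (i := i) (y := x') (by omega)
        obtain ⟨M, hM⟩ := F'.gen la y'
        have h3 : (F'.B la).Path (i :: M) (F'.hw la) x' := ⟨y', hM, hy'⟩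
        obtain ⟨y, _, hyx⟩ := sub_of_word h' hn h2 h1 _ h3
        have := (F.B la).eps_arrow hyx
        omega
    · obtain ⟨y, hy⟩ := (F.B la).exists_of_eps (i := i) (y := x) (by omega)
      obtain ⟨M, hM⟩ := F.gen la y
      have h3 : (F.B la).Path (i :: M) (F.hw la) x := ⟨y, hM, hy⟩
      obtain ⟨y', hM', hyx'⟩ := sub_of_word h hn h1 h2 _ h3
      have h4 := F.length_eq h1 h3
      rw [List.length_cons] at h4
      have h5 := ih' (L := M) (by omega) hM hM' i
      rw [(F.B la).eps_arrow hy, (F'.B la).eps_arrow hyx', h5]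

lemma phi_eq {n : ℕ} (h : One F F' n) (h' : One F' F n) {la : I → ℕ} {L : List I}
    (hn : L.length ≤ n) {x : (F.B la).carrier} {x' : (F'.B la).carrier}
    (h1 : (F.B la).Path L (F.hw la) x) (h2 : (F'.B la).Path L (F'.hw la) x') (i : I) :
    (F.B la).phi i x = (F'.B la).phi i x' := by
  have h3 := eps_eq h h' hn h1 h2 i
  have h4 := congrFun (F.wt_eq_wt F' h1 h2) i
  rw [wt_apply, wt_apply] at h4
  omega

/-- words of length `n + 1` exist in both families simultaneously -/
lemma exists_succ {n : ℕ} (h : One F F' n) (h' : One F' F n) {la : I → ℕ} {i : I} {L : List I}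
    (hn : L.length ≤ n) {x : (F.B la).carrier} (h1 : (F.B la).Path (i :: L) (F.hw la) x) :
    ∃ x', (F'.B la).Path (i :: L) (F'.hw la) x' := by
  obtain ⟨y, hy, hyx⟩ := h1
  obtain ⟨y', hy'⟩ := h la y ⟨L, hy, hn⟩
  have h2 := hy' L hy
  have h3 := phi_eq h h' hn hy h2 i
  have h4 := (F.B la).phi_arrow hyx
  obtain ⟨x', hx'⟩ := (F'.B la).exists_of_phi (i := i) (x := y') (by omega)
  exact ⟨x', y', h2, hx'⟩

/-- tracking a word in both families -/
lemma track {n : ℕ} (h : One F F' n) (h' : One F' F n) {k : I} {R : ℕ} {κ : I → ℕ}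
    (hκ : Large k n κ) : ∀ {L : List I}, L.length ≤ n + 1 →
    ∀ {x : (F.B (Pi.single k R + κ)).carrier} {x' : (F'.B (Pi.single k R + κ)).carrier},
    (F.B _).Path L (F.hw _) x → (F'.B _).Path L (F'.hw _) x' →
    ∃ s a a' L₁ y y', F.emb (Pi.single k R) κ x = (a, y) ∧
      F'.emb (Pi.single k R) κ x' = (a', y') ∧ F.Pow _ k s a ∧ F'.Pow _ k s a' ∧
      (F.B κ).Path L₁ (F.hw κ) y ∧ (F'.B κ).Path L₁ (F'.hw κ) y' ∧ s + L₁.length = L.length := by
  intro L
  induction L with
  | nil =>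
    intro _ x x' h1 h2
    rw [path_nil] at h1 h2
    subst h1; subst h2
    exact ⟨0, F.hw _, F'.hw _, [], F.hw _, F'.hw _, F.emb_hw _ _, F'.emb_hw _ _, rfl, rfl, rfl,
      rfl, rfl⟩
  | cons i L ih =>
    rintro hn x x' ⟨z, hz, hzx⟩ ⟨z', hz', hzx'⟩
    rw [List.length_cons] at hn
    obtain ⟨s, b, b', L₁, w, w', e1, e2, e3, e4, e5, e6, e7⟩ := ih (by omega) hz hz'
    have hL₁ : L₁.length ≤ n := by omega
    have g1 := phi_eq h h' hL₁ e5 e6 i
    have g2 : (F.B (Pi.single k R)).eps i b = (F'.B (Pi.single k R)).eps i b' := by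
      by_cases hik : i = k
      · subst hik; rw [e3.eps, e4.eps]
      · rw [e3.eps_of_ne hik, e4.eps_of_ne hik]
    obtain ⟨a, y, f1, f2⟩ := emb_step hzx e1
    obtain ⟨a', y', f1', f2'⟩ := emb_step hzx' e2
    rcases f2 with ⟨p1, p2, p3⟩ | ⟨p1, p2, p3⟩
    · rcases f2' with ⟨q1, q2, q3⟩ | ⟨q1, q2, q3⟩
      · refine ⟨s, a, a', i :: L₁, y, y', f1, f1', p2 ▸ e3, q2 ▸ e4, ⟨w, e5, p3⟩, ⟨w', e6, q3⟩, ?_⟩
        simp only [List.length_cons]; omega
      · omega
    · rcases f2' with ⟨q1, q2, q3⟩ | ⟨q1, q2, q3⟩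
      · omega
      · have hik : i = k := by
          by_contra hik
          have h9 := phi_pos hκ e5 hL₁ hik
          rw [e3.eps_of_ne hik] at p1
          omega
        subst hik
        refine ⟨s + 1, a, a', L₁, y, y', f1, f1', e3.succ p2, e4.succ q2, p3 ▸ e5, q3 ▸ e6, ?_⟩
        simp only [List.length_cons]; omega

/-- the inductive step, for large weights -/
lemma one_large {n : ℕ} (h : One F F' n) (h' : One F' F n) {k : I} {R : ℕ} {mu κ : I → ℕ}
    (hmu : mu = Pi.single k R + κ) (hκ : Large k (n + 1) κ)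
    {L M : List I} (hL : L.length + 1 ≤ n + 1) (hM : M.length ≤ n + 1)
    {x : (F.B mu).carrier} {x' x'' : (F'.B mu).carrier}
    (h1 : (F.B mu).Path (L ++ [k]) (F.hw mu) x) (h2 : (F.B mu).Path M (F.hw mu) x)
    (h3 : (F'.B mu).Path (L ++ [k]) (F'.hw mu) x') (h4 : (F'.B mu).Path M (F'.hw mu) x'') :
    x' = x'' := by
  subst hmu
  have hκ' : Large k n κ := hκ.mono (Nat.le_succ n)
  obtain ⟨s, a, a', L₁, y, y', e1, e2, e3, e4, e5, e6, e7⟩ :=
    track h h' hκ' (L := L ++ [k]) (by simpa using hL) h1 h3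
  obtain ⟨t, b, b', L₂, w, w', f1, f2, f3, f4, f5, f6, f7⟩ := track h h' hκ' hM h2 h4
  rw [e1] at f1
  obtain ⟨rfl, rfl⟩ := Prod.mk.inj f1
  have hst : s = t := by rw [← e3.eps, ← f3.eps]
  subst hst
  have hab : a' = b' := e4.unique f4
  obtain ⟨s', a₂, y₂, g1, g2⟩ := emb_large_pos hκ h1 hL
  rw [e1] at g1
  obtain ⟨rfl, rfl⟩ := Prod.mk.inj g1
  have hs : s = s' + 1 := by rw [← e3.eps, ← g2.eps]
  simp only [List.length_append, List.length_singleton] at e7
  have k1 : Sub F F' κ y y' := sub_of_word h (by omega) e5 e6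
  have k2 : Sub F F' κ y w' := sub_of_word h (by omega) f5 f6
  have k3 : y' = w' := (k1 L₁ e5).det (k2 L₁ e5)
  apply (F'.emb _ _).inj
  rw [e2, f2, hab, k3]

lemma one_succ {n : ℕ} (h : One F F' n) (h' : One F' F n) : One F F' (n + 1) := by
  rintro la x ⟨L, hL, hn⟩
  by_cases hLn : L.length ≤ n
  · exact h la x ⟨L, hL, hLn⟩
  · have hLl : L.length = n + 1 := by omega
    have hcons : ∀ M, (F.B la).Path M (F.hw la) x → ∃ z, (F'.B la).Path M (F'.hw la) z := by
      intro M hM
      have h1 := F.length_eq hL hM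
      match M, hM, h1 with
      | [], _, h1 => rw [hLl] at h1; simp at h1
      | i :: M, hM, h1 =>
        rw [List.length_cons] at h1
        exact exists_succ h h' (by omega) hM
    obtain ⟨x', hx'⟩ := hcons L hL
    refine ⟨x', fun M hM => ?_⟩
    obtain ⟨x'', hx''⟩ := hcons M hM
    have hMl : M.length = n + 1 := by rw [← F.length_eq hL hM, hLl]
    suffices x' = x'' by rw [this]; exact hx''
    -- last letter of `L`
    rcases List.eq_nil_or_concat L with rfl | ⟨L₀, k, rfl⟩
    · simp at hLl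
    rw [List.concat_eq_append] at hL hx' hLl
    obtain ⟨ka, κ, _, hκ, heq⟩ := exists_large k (n + 1) la
    obtain ⟨X, hX1, hX2⟩ := tr_path (ka := ka) hL
    obtain ⟨Y, hY1, hY2⟩ := tr_path (ka := ka) hM
    obtain ⟨X', hX1', hX2'⟩ := tr_path (ka := ka) hx'
    obtain ⟨Y', hY1', hY2'⟩ := tr_path (ka := ka) hx''
    have hXY : X = Y := by apply (F.emb _ _).inj; rw [hX2, hY2]
    subst hXY
    simp only [List.length_append, List.length_singleton] at hLl
    have := one_large h h' heq hκ (by omega) (by omega) hX1 hY1 hX1' hY1'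
    rw [this] at hX2'
    rw [hY2'] at hX2'
    exact (Prod.mk.inj hX2').2.symm

lemma one_all (F F' : WFam.{u} C) (n : ℕ) : One F F' n ∧ One F' F n := by
  induction n with
  | zero =>
    constructor <;>
    · rintro la x ⟨L, hL, hn⟩
      have : L = [] := List.length_eq_zero_iff.1 (by omega)
      subst this
      rw [path_nil] at hL
      subst hL
      refine ⟨WFam.hw _ la, fun L hL => ?_⟩
      obtain ⟨rfl, _⟩ := hL.high_nil (WFam.high _ la)
      rfl
  | succ n ih => exact ⟨one_succ ih.1 ih.2, one_succ ih.2 ih.1⟩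

/-- **Uniqueness of the family.** -/
theorem exists_iso (F F' : WFam.{u} C) (la : I → ℕ) :
    ∃ j : Emb (F.B la) (F'.B la), Function.Surjective j ∧ j (F.hw la) = F'.hw la := by
  have h1 : ∀ x, ∃ x', Sub F F' la x x' := by
    intro x
    obtain ⟨L, hL⟩ := F.gen la x
    exact (one_all F F' L.length).1 la x ⟨L, hL, le_rfl⟩
  have h2 : ∀ x', ∃ x, Sub F' F la x' x := by
    intro x
    obtain ⟨L, hL⟩ := F'.gen la x
    exact (one_all F F' L.length).2 la x ⟨L, hL, le_rfl⟩
  choose j hj using h1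
  choose k hk using h2
  have hkj : ∀ x, k (j x) = x := by
    intro x
    obtain ⟨L, hL⟩ := F.gen la x
    exact (hk _ L (hj _ L hL)).det hL
  have hjk : ∀ x, j (k x) = x := by
    intro x
    obtain ⟨L, hL⟩ := F'.gen la x
    exact (hj _ L (hk _ L hL)).det hL
  have heps : ∀ i x, (F'.B la).eps i (j x) = (F.B la).eps i x := by
    intro i x
    obtain ⟨L, hL⟩ := F.gen la x
    have h3 := one_all F F' L.length
    exact (eps_eq h3.1 h3.2 le_rfl hL (hj _ L hL) i).symm
  have hphi : ∀ i x, (F'.B la).phi i (j x) = (F.B la).phi i x := by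
    intro i x
    obtain ⟨L, hL⟩ := F.gen la x
    have h3 := one_all F F' L.length
    exact (phi_eq h3.1 h3.2 le_rfl hL (hj _ L hL) i).symm
  refine ⟨⟨j, Function.LeftInverse.injective hkj, ?_, heps, hphi⟩,
    Function.RightInverse.surjective hjk, ?_⟩
  · intro i x y hxy
    obtain ⟨L, hL⟩ := F.gen la x
    obtain ⟨z, hz, hzy⟩ := hj y (i :: L) ⟨x, hL, hxy⟩
    rw [(hj x L hL).det hz]
    exact hzy
  · exact ((hj _ [] rfl : (F'.B la).Path [] _ _)).symm

end WFam

end Pool.Agent.H78R2.Crys
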