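import Pool.Agent.H78R2.Crys.Bru
import Pool.Agent.Helper741.Tits

/-!
Facts on the Weyl group: signs of the coordinates of `w λ`, finiteness, the longest element.
-/

set_option autoImplicit false
set_option linter.unusedSectionVars false

namespace Pool.Agent.H78R2.Crys

open Pool.Agent.Helper741 Real
open scoped BigOperators

namespace CartanDatum

variable {I : Type} [Fintype I] [DecidableEq I] (C : CartanDatum I)

lemma ee_same (i : I) : (ee i : I → ℝ) i = 1 := by simp [ee]

lemma ee_ne {i j : I} (h : j ≠ i) : (ee i : I → ℝ) j = 0 := by simp [ee, h]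

lemma exists_sqrt : ∃ e : I → ℝ, (∀ i, 0 < e i) ∧
    ∀ i j, e i ^ 2 * (C.A i j : ℝ) = e j ^ 2 * (C.A j i : ℝ) := by
  obtain ⟨d, hd, hs, _⟩ := C.posdef
  have hd' : ∀ i, (0 : ℝ) < (d i : ℝ) := fun i => by exact_mod_cast hd i
  refine ⟨fun i => √(d i : ℝ), fun i => Real.sqrt_pos.2 (hd' i), fun i j => ?_⟩
  dsimp only
  rw [Real.sq_sqrt (hd' i).le, Real.sq_sqrt (hd' j).le]
  exact_mod_cast hs i j

lemma four_cc {i j : I} (h : i ≠ j) :
    4 * (cc C.coxM i j) ^ 2 = ((C.A i j * C.A j i : ℤ) : ℝ) ∧ 0 ≤ cc C.coxM i j := by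
  unfold cc
  rw [C.coxM_apply h]
  rcases C.cases_pair h with ⟨h1, h2⟩ | ⟨h1, h2⟩ | ⟨h1, h2⟩ | ⟨h1, h2⟩ | ⟨h1, h2⟩ | ⟨h1, h2⟩
  · rw [h1, h2]; norm_num
  · rw [h1, h2]; norm_num
  · rw [h1, h2]; norm_num
    constructor
    · rw [div_pow, Real.sq_sqrt (by norm_num)]; norm_num
    · positivity
  · rw [h1, h2]; norm_num
    constructor
    · rw [div_pow, Real.sq_sqrt (by norm_num)]; norm_num
    · positivity
  · rw [h1, h2]; norm_num
    constructor
    · rw [div_pow, Real.sq_sqrt (by norm_num)]; norm_num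
    · positivity
  · rw [h1, h2]; norm_num
    constructor
    · rw [div_pow, Real.sq_sqrt (by norm_num)]; norm_num
    · positivity

lemma sqrt_rel {e : I → ℝ} (he : ∀ i, 0 < e i)
    (hs : ∀ i j, e i ^ 2 * (C.A i j : ℝ) = e j ^ 2 * (C.A j i : ℝ)) (i j : I) :
    e j * (C.A j i : ℝ) = e i * (-2 * cc C.coxM i j) := by
  by_cases h : i = j
  · subst h
    rw [C.diag, cc_self]; push_cast; ring
  · obtain ⟨h1, h2⟩ := C.four_cc h
    have h3 : (C.A j i : ℝ) ≤ 0 := by exact_mod_cast C.nonpos j i (Ne.symm h)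
    have h4 : (-(e j * (C.A j i : ℝ))) ^ 2 = (e i * (2 * cc C.coxM i j)) ^ 2 := by
      have h5 := hs i j
      push_cast at h1
      calc (-(e j * (C.A j i : ℝ))) ^ 2 = (e j ^ 2 * (C.A j i : ℝ)) * (C.A j i : ℝ) := by ring
        _ = (e i ^ 2 * (C.A i j : ℝ)) * (C.A j i : ℝ) := by rw [h5]
        _ = e i ^ 2 * ((C.A i j : ℝ) * (C.A j i : ℝ)) := by ring
        _ = e i ^ 2 * (4 * (cc C.coxM i j) ^ 2) := by rw [h1]
        _ = _ := by ring
    have h5 : 0 ≤ -(e j * (C.A j i : ℝ)) := by
      have := mul_nonpos_of_nonneg_of_nonpos (he j).le h3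
      linarith
    have h6 : 0 ≤ e i * (2 * cc C.coxM i j) := by
      have := (he i).le
      positivity
    have h7 := (sq_eq_sq₀ h5 h6).1 h4
    linarith

lemma coroot_apply (i : I) (v : I → ℝ) :
    coroot C.coxM i v = ∑ j, (-2 * cc C.coxM i j) * v j := by
  simp [coroot, LinearMap.sum_apply]

lemma pairing_refl {e : I → ℝ} (he : ∀ i, 0 < e i)
    (hs : ∀ i j, e i ^ 2 * (C.A i j : ℝ) = e j ^ 2 * (C.A j i : ℝ)) (i : I) (x : I → ℤ)
    (v : I → ℝ) :
    ∑ j, e j * (C.refl i x j : ℝ) * v j = ∑ j, e j * (x j : ℝ) * (sg C.coxM i v) j := by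
  have h1 : ∀ j, e j * (C.refl i x j : ℝ) * v j =
      e j * (x j : ℝ) * v j - (x i : ℝ) * e i * ((-2 * cc C.coxM i j) * v j) := by
    intro j
    rw [C.refl_apply_apply]
    push_cast
    have := C.sqrt_rel he hs i j
    calc e j * ((x j : ℝ) - (x i : ℝ) * (C.A j i : ℝ)) * v j
        = e j * (x j : ℝ) * v j - (x i : ℝ) * (e j * (C.A j i : ℝ)) * v j := by ring
      _ = _ := by rw [this]; ring
  have h2 : ∀ j, e j * (x j : ℝ) * (sg C.coxM i v) j =
      e j * (x j : ℝ) * v j - (if j = i then e j * (x j : ℝ) * coroot C.coxM i v else 0) := by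
    intro j
    rw [sg_apply, Pi.sub_apply, Pi.smul_apply, smul_eq_mul]
    by_cases hj : j = i
    · subst hj
      rw [if_pos rfl, ee_same]; ring
    · rw [if_neg hj, ee_ne hj]; ring
  simp only [h1, h2]
  rw [Finset.sum_sub_distrib, Finset.sum_sub_distrib, Finset.sum_ite_eq', if_pos (Finset.mem_univ _),
    ← Finset.mul_sum, ← C.coroot_apply]
  ring

lemma pairing_act {e : I → ℝ} (he : ∀ i, 0 < e i)
    (hs : ∀ i j, e i ^ 2 * (C.A i j : ℝ) = e j ^ 2 * (C.A j i : ℝ)) (w : C.W) (x : I → ℤ) :
    ∀ (v : I → ℝ), ∑ j, e j * (C.act w x j : ℝ) * v j =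
      ∑ j, e j * (x j : ℝ) * (geo C.cs w⁻¹ v) j := by
  refine C.cs.simple_induction_left (p := fun w => ∀ (v : I → ℝ),
    ∑ j, e j * (C.act w x j : ℝ) * v j = ∑ j, e j * (x j : ℝ) * (geo C.cs w⁻¹ v) j) w ?_ ?_
  · intro v
    rw [inv_one, map_one, map_one, Module.End.one_apply, Module.End.one_apply]
  · intro w i ih v
    rw [C.act_simple_mul, C.pairing_refl he hs, ih, mul_inv_rev, map_mul, Module.End.mul_apply,
      C.cs.inv_simple, geo_simple]

lemma length_inv_mul (w : C.W) (i : I) :
    C.cs.length (w⁻¹ * C.cs.simple i) = C.cs.length (C.cs.simple i * w) := by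
  rw [← C.cs.length_inv (C.cs.simple i * w), mul_inv_rev, C.cs.inv_simple]

/-- The key sign property. -/
theorem act_nonneg {w : C.W} {i : I} (h : C.cs.length w < C.cs.length (C.cs.simple i * w))
    (la : I → ℕ) : 0 ≤ C.act w (wz la) i := by
  obtain ⟨e, he, hs⟩ := C.exists_sqrt
  have h1 := C.pairing_act he hs w (wz la) (ee i)
  have h2 : ∑ j, e j * (C.act w (wz la) j : ℝ) * (ee i : I → ℝ) j =
      e i * (C.act w (wz la) i : ℝ) := by
    rw [Finset.sum_eq_single i]
    · rw [ee_same, mul_one]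
    · intro j _ hj
      rw [ee_ne hj, mul_zero]
    · intro hi; exact absurd (Finset.mem_univ i) hi
  rw [h2] at h1
  have h3 : 0 ≤ geo C.cs w⁻¹ (ee i) := by
    apply geo_nonneg
    rw [C.length_inv_mul, C.cs.length_inv]; exact h
  have h4 : 0 ≤ e i * (C.act w (wz la) i : ℝ) := by
    rw [h1]
    apply Finset.sum_nonneg
    intro j _
    have h5 := h3 j
    have h6 := (he j).le
    have h7 : (0 : ℝ) ≤ ((wz la j : ℤ) : ℝ) := by
      simp [wz]
    exact mul_nonneg (mul_nonneg h6 h7) h5
  have h5 : (0 : ℝ) ≤ (C.act w (wz la) i : ℝ) := nonneg_of_mul_nonneg_right h4 (he i)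
  exact_mod_cast h5

theorem act_pos {w : C.W} {i : I} (h : C.cs.length w < C.cs.length (C.cs.simple i * w))
    {la : I → ℕ} (hla : ∀ j, 0 < la j) : 0 < C.act w (wz la) i := by
  obtain ⟨e, he, hs⟩ := C.exists_sqrt
  have h1 := C.pairing_act he hs w (wz la) (ee i)
  have h2 : ∑ j, e j * (C.act w (wz la) j : ℝ) * (ee i : I → ℝ) j =
      e i * (C.act w (wz la) i : ℝ) := by
    rw [Finset.sum_eq_single i]
    · rw [ee_same, mul_one]
    · intro j _ hj
      rw [ee_ne hj, mul_zero]
    · intro hi; exact absurd (Finset.mem_univ i) hi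
  rw [h2] at h1
  have h3 : 0 ≤ geo C.cs w⁻¹ (ee i) := by
    apply geo_nonneg
    rw [C.length_inv_mul, C.cs.length_inv]; exact h
  have hne := geo_ee_ne_zero C.cs w⁻¹ i
  obtain ⟨k, hk⟩ : ∃ k, geo C.cs w⁻¹ (ee i) k ≠ 0 := by
    by_contra hcon
    push Not at hcon
    exact hne (funext hcon)
  have h4 : 0 < e i * (C.act w (wz la) i : ℝ) := by
    rw [h1]
    have h7 : ∀ j, (0 : ℝ) < ((wz la j : ℤ) : ℝ) := by
      intro j
      have := hla j
      simp only [wz]
      exact_mod_cast this
    apply Finset.sum_pos'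
    · intro j _
      exact mul_nonneg (mul_nonneg (he j).le (h7 j).le) (h3 j)
    · refine ⟨k, Finset.mem_univ _, ?_⟩
      exact mul_pos (mul_pos (he k) (h7 k)) (lt_of_le_of_ne (h3 k) (Ne.symm hk))
  have h5 : (0 : ℝ) < (C.act w (wz la) i : ℝ) := pos_of_mul_pos_right h4 (he i).le
  exact_mod_cast h5

lemma refl_self (i : I) (x : I → ℤ) : C.refl i x i = - x i := by
  rw [C.refl_apply_apply, C.diag]; ring

theorem act_nonpos {w : C.W} {i : I} (h : C.cs.length (C.cs.simple i * w) < C.cs.length w)
    (la : I → ℕ) : C.act w (wz la) i ≤ 0 := by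
  have h1 := C.act_nonneg (w := C.cs.simple i * w) (i := i) (by rwa [simple_simple]) la
  rw [C.act_simple_mul, C.refl_self] at h1
  omega

theorem act_neg {w : C.W} {i : I} (h : C.cs.length (C.cs.simple i * w) < C.cs.length w)
    {la : I → ℕ} (hla : ∀ j, 0 < la j) : C.act w (wz la) i < 0 := by
  have h1 := C.act_pos (w := C.cs.simple i * w) (i := i) (by rwa [simple_simple]) hla
  rw [C.act_simple_mul, C.refl_self] at h1
  omega

lemma exists_left_descent {w : C.W} (hw : w ≠ 1) :
    ∃ i, C.cs.length (C.cs.simple i * w) < C.cs.length w := by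
  obtain ⟨i, hi⟩ := C.cs.exists_leftDescent_of_ne_one hw
  exact ⟨i, hi⟩

theorem eq_one_of_regular {w : C.W} {la : I → ℕ} (hla : ∀ j, 0 < la j)
    (h : C.act w (wz la) = wz la) : w = 1 := by
  by_contra hw
  obtain ⟨i, hi⟩ := C.exists_left_descent hw
  have h1 := C.act_neg hi hla
  rw [h] at h1
  have := hla i
  simp only [wz] at h1
  omega

theorem inj_of_regular {w v : C.W} {la : I → ℕ} (hla : ∀ j, 0 < la j)
    (h : C.act w (wz la) = C.act v (wz la)) : w = v := by
  have h1 : C.act (v⁻¹ * w) (wz la) = wz la := by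
    rw [map_mul, Module.End.mul_apply, h, C.act_inv_act]
  have h2 := C.eq_one_of_regular hla h1
  rw [inv_mul_eq_one] at h2
  exact h2.symm

/-- `w` is the shortest element of its coset `w W_λ` -/
def IsMin (la : I → ℕ) (w : C.W) : Prop :=
  ∀ v : C.W, C.act v (wz la) = C.act w (wz la) → C.cs.length w ≤ C.cs.length v

variable {C}

lemma IsMin.descent {la : I → ℕ} {w : C.W} (h : C.IsMin la w) {i : I}
    (hi : C.cs.length (C.cs.simple i * w) < C.cs.length w) : C.act w (wz la) i < 0 := by
  have h1 := C.act_nonpos hi la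
  by_contra hc
  have h2 : C.act w (wz la) i = 0 := by omega
  have h3 : C.act (C.cs.simple i * w) (wz la) = C.act w (wz la) := by
    rw [C.act_simple_mul, C.refl_apply, h2, zero_smul, sub_zero]
  have := h _ h3
  omega

lemma IsMin.simple_mul {la : I → ℕ} {w : C.W} (h : C.IsMin la w) {i : I}
    (hi : C.cs.length (C.cs.simple i * w) < C.cs.length w) :
    C.IsMin la (C.cs.simple i * w) := by
  intro v hv
  have h1 : C.act (C.cs.simple i * v) (wz la) = C.act w (wz la) := by
    rw [C.act_simple_mul, hv, C.act_simple_mul, C.refl_refl]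
  have h2 := h _ h1
  rcases C.cs.length_simple_mul v i with h3 | h3 <;>
  rcases C.cs.length_simple_mul w i with h4 | h4 <;> omega

theorem IsMin.unique {la : I → ℕ} {w v : C.W} (hw : C.IsMin la w) (hv : C.IsMin la v)
    (h : C.act w (wz la) = C.act v (wz la)) : w = v := by
  induction hn : C.cs.length w using Nat.strong_induction_on generalizing w v with
  | _ n ih =>
    have hlen : C.cs.length w = C.cs.length v := le_antisymm (hw v h.symm) (hv w h)
    by_cases h1 : w = 1
    · subst h1
      rw [C.cs.length_one] at hlen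
      exact (C.cs.length_eq_zero_iff.1 hlen.symm).symm
    · obtain ⟨i, hi⟩ := C.exists_left_descent h1
      have h2 := hw.descent hi
      have h3 : C.cs.length (C.cs.simple i * v) < C.cs.length v := by
        by_contra hc
        have h4 : C.cs.length v < C.cs.length (C.cs.simple i * v) := by
          have := C.cs.length_simple_mul_ne v i
          omega
        have h5 := C.act_nonneg h4 la
        rw [← h] at h5
        omega
      have h4 := ih _ (by omega) (hw.simple_mul hi) (hv.simple_mul h3)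
        (by rw [C.act_simple_mul, C.act_simple_mul, h]) rfl
      exact mul_left_cancel h4

lemma exists_isMin (la : I → ℕ) (w : C.W) :
    ∃ v, C.IsMin la v ∧ C.act v (wz la) = C.act w (wz la) := by
  classical
  have h : ∃ n, ∃ v, C.cs.length v = n ∧ C.act v (wz la) = C.act w (wz la) := ⟨_, w, rfl, rfl⟩
  obtain ⟨v, hv1, hv2⟩ := Nat.find_spec h
  refine ⟨v, fun u hu => ?_, hv2⟩
  rw [hv1]
  exact Nat.find_min' h ⟨u, rfl, hu.trans hv2⟩

/-! ### Finiteness -/

variable (C)

lemma exists_regular_root : ∃ (la : I → ℕ) (n : I → ℤ), (∀ j, 0 < la j) ∧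
    ∀ i, (la i : ℤ) = ∑ j, C.A i j * n j := by
  have hdet : C.A.det ≠ 0 := by
    intro h
    obtain ⟨v, hv, h0⟩ := Matrix.exists_mulVec_eq_zero_iff.2 h
    apply hv
    apply C.sum_alpha_eq_zero
    intro j
    have := congrFun h0 j
    simp only [Matrix.mulVec, dotProduct, Pi.zero_apply] at this
    rw [← this]
    apply Finset.sum_congr rfl
    intro i _
    rw [C.alpha_apply]; ring
  have key : ∀ i, ∑ j, C.A i j * (C.A.adjugate.mulVec 1) j = C.A.det := by
    intro i
    have h1 : C.A.mulVec (C.A.adjugate.mulVec 1) = C.A.det • (1 : I → ℤ) := by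
      rw [Matrix.mulVec_mulVec, Matrix.mul_adjugate, Matrix.smul_mulVec, Matrix.one_mulVec]
    have := congrFun h1 i
    rw [Pi.smul_apply, Pi.one_apply, smul_eq_mul, mul_one] at this
    exact this
  refine ⟨fun _ => C.A.det.natAbs, fun j => C.A.det.sign * (C.A.adjugate.mulVec 1) j,
    fun _ => Int.natAbs_pos.2 hdet, fun i => ?_⟩
  have h2 : ∑ j, C.A i j * (C.A.det.sign * (C.A.adjugate.mulVec 1) j) =
      C.A.det.sign * ∑ j, C.A i j * (C.A.adjugate.mulVec 1) j := by
    rw [Finset.mul_sum]
    apply Finset.sum_congr rfl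
    intro j _
    ring
  rw [h2, key, Int.sign_mul_self_eq_natAbs]

lemma bound_aux {d : I → ℤ} (hd : ∀ i, 0 < d i) (hs : ∀ i j, d i * C.A i j = d j * C.A j i)
    (hp : ∀ x : I → ℤ, x ≠ 0 → 0 < ∑ i, ∑ j, d i * C.A i j * x i * x j)
    {m x : I → ℤ} (hx : ∀ i, x i = ∑ j, C.A i j * m j) (i : I) :
    x i * x i ≤ 2 * ∑ k, d k * m k * x k := by
  have hq : ∀ (m x : I → ℤ), (∀ i, x i = ∑ j, C.A i j * m j) →
      ∑ i, ∑ j, d i * C.A i j * m i * m j = ∑ k, d k * m k * x k := by
    intro m x hx
    apply Finset.sum_congr rfl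
    intro k _
    rw [hx k, Finset.mul_sum]
    apply Finset.sum_congr rfl
    intro j _
    ring
  have hnn : ∀ (m x : I → ℤ), (∀ i, x i = ∑ j, C.A i j * m j) → 0 ≤ ∑ k, d k * m k * x k := by
    intro m x hx
    rw [← hq m x hx]
    by_cases h0 : m = 0
    · subst h0; simp
    · exact (hp m h0).le
  set a := 2 * d i with ha
  set b := d i * x i with hb
  have h1 := hnn (fun k => a * m k - (if k = i then b else 0))
    (fun k => a * x k - C.A k i * b) (by
      intro k
      rw [hx k, Finset.mul_sum]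
      simp only [mul_sub, Finset.sum_sub_distrib, mul_ite, mul_zero]
      rw [Finset.sum_ite_eq' Finset.univ i (fun j => C.A k j * b), if_pos (Finset.mem_univ _)]
      congr 1
      apply Finset.sum_congr rfl
      intro j _
      ring)
  set Q := ∑ k, d k * m k * x k with hQ
  have h2 : ∑ k, d k * (a * m k - (if k = i then b else 0)) * (a * x k - C.A k i * b) =
      a * (a * Q - b * b) := by
    have h3 : ∀ k, d k * (a * m k - (if k = i then b else 0)) * (a * x k - C.A k i * b) =
        a * a * (d k * m k * x k) - a * b * (d k * C.A k i * m k)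
          - (if k = i then d k * b * (a * x k - C.A k i * b) else 0) := by
      intro k
      by_cases hk : k = i
      · rw [if_pos hk, if_pos hk]; ring
      · rw [if_neg hk, if_neg hk]; ring
    simp only [h3]
    rw [Finset.sum_sub_distrib, Finset.sum_sub_distrib, Finset.sum_ite_eq' Finset.univ i,
      if_pos (Finset.mem_univ _), ← Finset.mul_sum, ← Finset.mul_sum, ← hQ, C.diag]
    have h4 : ∑ k, d k * C.A k i * m k = b := by
      rw [hb, hx i, Finset.mul_sum]
      apply Finset.sum_congr rfl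
      intro k _
      rw [hs k i]; ring
    rw [h4, ha, hb]
    ring
  rw [h2] at h1
  have ha0 : 0 < a := by have := hd i; omega
  have h5 : 0 ≤ a * Q - b * b := nonneg_of_mul_nonneg_right h1 ha0
  have h6 : d i * (d i * (x i * x i)) ≤ d i * (2 * Q) := by
    rw [ha, hb] at h5
    nlinarith
  have h7 := le_of_mul_le_mul_left h6 (hd i)
  have h8 := hd i
  nlinarith [mul_self_nonneg (x i)]

lemma invariant_aux {d : I → ℤ} (hs : ∀ i j, d i * C.A i j = d j * C.A j i)
    {la : I → ℕ} {n : I → ℤ} (hn : ∀ i, (la i : ℤ) = ∑ j, C.A i j * n j) (w : C.W) :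
    ∃ m : I → ℤ, (∀ i, C.act w (wz la) i = ∑ j, C.A i j * m j) ∧
      ∑ k, d k * m k * C.act w (wz la) k = ∑ k, d k * n k * wz la k := by
  refine C.cs.simple_induction_left (p := fun w => ∃ m : I → ℤ,
    (∀ i, C.act w (wz la) i = ∑ j, C.A i j * m j) ∧
      ∑ k, d k * m k * C.act w (wz la) k = ∑ k, d k * n k * wz la k) w ?_ ?_
  · refine ⟨n, ?_, ?_⟩
    · intro i; rw [map_one, Module.End.one_apply]; exact hn i
    · rw [map_one, Module.End.one_apply]
  · rintro w i ⟨m, hm1, hm2⟩
    set x := C.act w (wz la) with hx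
    refine ⟨fun k => m k - (if k = i then x i else 0), ?_, ?_⟩
    · intro k
      rw [C.act_simple_mul, C.refl_apply_apply, ← hx]
      simp only [mul_sub, Finset.sum_sub_distrib, mul_ite, mul_zero]
      rw [Finset.sum_ite_eq' Finset.univ i (fun j => C.A k j * x i), if_pos (Finset.mem_univ _),
        ← hm1 k]
      ring
    · rw [← hm2]
      have h3 : ∀ k, d k * (m k - (if k = i then x i else 0)) *
          C.act (C.cs.simple i * w) (wz la) k =
          d k * m k * x k - x i * (d k * C.A k i * m k)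
            - (if k = i then d k * x i * (x k - x i * C.A k i) else 0) := by
        intro k
        rw [C.act_simple_mul, C.refl_apply_apply, ← hx]
        by_cases hk : k = i
        · rw [if_pos hk, if_pos hk]; ring
        · rw [if_neg hk, if_neg hk]; ring
      simp only [h3]
      rw [Finset.sum_sub_distrib, Finset.sum_sub_distrib, Finset.sum_ite_eq' Finset.univ i,
        if_pos (Finset.mem_univ _), ← Finset.mul_sum, C.diag]
      have h4 : ∑ k, d k * C.A k i * m k = d i * x i := by
        rw [hm1 i, Finset.mul_sum]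
        apply Finset.sum_congr rfl
        intro k _
        rw [hs k i]; ring
      rw [h4]
      ring

theorem finite_W : Finite C.W := by
  obtain ⟨d, hd, hs, hp⟩ := C.posdef
  obtain ⟨la, n, hla, hn⟩ := C.exists_regular_root
  set K := 2 * ∑ k, d k * n k * wz la k with hK
  have h1 : ∀ w : C.W, C.act w (wz la) ∈ Set.Icc (fun _ : I => -K) (fun _ : I => K) := by
    intro w
    obtain ⟨m, hm1, hm2⟩ := C.invariant_aux hs hn w
    have h2 : ∀ i, C.act w (wz la) i * C.act w (wz la) i ≤ K := by
      intro i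
      have := C.bound_aux hd hs hp hm1 i
      rw [hm2] at this
      exact this
    constructor
    · intro i
      have := h2 i
      dsimp only
      nlinarith
    · intro i
      have := h2 i
      dsimp only
      nlinarith
  have h2 : Finite (Set.Icc (fun _ : I => -K) (fun _ : I => K)) :=
    (Set.finite_Icc _ _).to_subtype
  exact Finite.of_injective (fun w : C.W =>
    (⟨C.act w (wz la), h1 w⟩ : Set.Icc (fun _ : I => -K) (fun _ : I => K)))
    (fun w v h => C.inj_of_regular hla (Subtype.mk.inj h))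

/-! ### The longest element -/

lemma geo_nonpos_of {u : C.W} (h : ∀ i, geo C.cs u (ee i) ≤ 0) {v : I → ℝ} (hv : 0 ≤ v) :
    geo C.cs u v ≤ 0 := by
  have h1 : v = ∑ j, v j • (ee j : I → ℝ) := by
    funext k
    rw [Finset.sum_apply, Finset.sum_eq_single k]
    · rw [Pi.smul_apply, ee_same, smul_eq_mul, mul_one]
    · intro j _ hj
      rw [Pi.smul_apply, ee_ne (Ne.symm hj), smul_zero]
    · intro hk; exact absurd (Finset.mem_univ k) hk
  rw [h1, map_sum]
  apply Finset.sum_nonpos
  intro j _
  rw [map_smul]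
  intro k
  have h2 := h j k
  have h3 := hv j
  rw [Pi.smul_apply, smul_eq_mul, Pi.zero_apply]
  exact mul_nonpos_of_nonneg_of_nonpos h3 h2

lemma length_add {u : C.W} (hu : ∀ i, C.cs.length (u * C.cs.simple i) < C.cs.length u) (x : C.W) :
    C.cs.length (u * x) + C.cs.length x = C.cs.length u := by
  have hu' : ∀ i, geo C.cs u (ee i) ≤ 0 := fun i => geo_nonpos C.cs u i (hu i)
  refine C.cs.simple_induction_right (p := fun x =>
    C.cs.length (u * x) + C.cs.length x = C.cs.length u) x ?_ ?_
  · rw [mul_one, C.cs.length_one, add_zero]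
  · intro x i ih
    rw [← mul_assoc]
    rcases C.cs.length_mul_simple x i with h1 | h1
    · have h2 := geo_nonneg C.cs x i (by omega)
      have h3 := C.geo_nonpos_of hu' h2
      rw [← Module.End.mul_apply, ← map_mul, geo_nonpos_iff] at h3
      rcases C.cs.length_mul_simple (u * x) i with h4 | h4 <;> omega
    · have h2 := geo_nonpos C.cs x i (by omega)
      have h3 := C.geo_nonpos_of hu' (v := - geo C.cs x (ee i)) (by
        intro j; have := h2 j; simp only [Pi.neg_apply, Pi.zero_apply] at *; linarith)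
      rw [map_neg, ← Module.End.mul_apply, ← map_mul] at h3
      have h5 : 0 ≤ geo C.cs (u * x) (ee i) := by
        intro j; have := h3 j; simp only [Pi.neg_apply, Pi.zero_apply] at *; linarith
      rw [geo_nonneg_iff] at h5
      rcases C.cs.length_mul_simple (u * x) i with h4 | h4 <;> omega

/-- `w₀` is a longest element -/
def IsLong (w0 : C.W) : Prop := ∀ w : C.W, C.cs.length w ≤ C.cs.length w0

lemma exists_isLong : ∃ w0, C.IsLong w0 := by
  have := C.finite_W
  obtain ⟨w0, h⟩ := Finite.exists_max (fun w : C.W => C.cs.length w)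
  exact ⟨w0, h⟩

variable {C}

lemma IsLong.right {w0 : C.W} (h : C.IsLong w0) (i : I) :
    C.cs.length (w0 * C.cs.simple i) < C.cs.length w0 := by
  have h1 := h (w0 * C.cs.simple i)
  rcases C.cs.length_mul_simple w0 i with h2 | h2 <;> omega

lemma IsLong.left {w0 : C.W} (h : C.IsLong w0) (i : I) :
    C.cs.length (C.cs.simple i * w0) < C.cs.length w0 := by
  have h1 := h (C.cs.simple i * w0)
  rcases C.cs.length_simple_mul w0 i with h2 | h2 <;> omega

lemma IsLong.add {w0 : C.W} (h : C.IsLong w0) (x : C.W) :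
    C.cs.length (w0 * x) + C.cs.length x = C.cs.length w0 := C.length_add h.right x

lemma IsLong.sq {w0 : C.W} (h : C.IsLong w0) : w0 * w0 = 1 := by
  have := h.add w0
  exact C.cs.length_eq_zero_iff.1 (by omega)

lemma IsLong.unique {w0 w1 : C.W} (h : C.IsLong w0) (h' : C.IsLong w1) : w0 = w1 := by
  have h1 := h.add w1
  have h2 := h w1
  have h3 := h' w0
  have h4 : w0 * w1 = 1 := C.cs.length_eq_zero_iff.1 (by omega)
  have h5 : w0 * w0 = w0 * w1 := by rw [h4, h.sq]
  exact (mul_left_cancel h5)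

lemma IsLong.nonpos {w0 : C.W} (h : C.IsLong w0) (la : I → ℕ) (i : I) :
    C.act w0 (wz la) i ≤ 0 := C.act_nonpos (h.left i) la

lemma IsLong.conj {w0 : C.W} (h : C.IsLong w0) (i : I) :
    ∃ k, w0 * (C.cs.simple i * w0) = C.cs.simple k := by
  have h1 := h.add (C.cs.simple i * w0)
  have h2 : C.cs.length (C.cs.simple i * w0) + 1 = C.cs.length w0 := by
    rcases C.cs.length_simple_mul w0 i with h2 | h2
    · have := h.left i; omega
    · exact h2
  exact C.cs.length_eq_one_iff.1 (by omega)

theorem IsLong.theta {w0 : C.W} (h : C.IsLong w0) (i : I) :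
    ∃ k, C.act w0 (C.alpha i) = - C.alpha k ∧ ∀ y, C.act w0 y i = - y k := by
  obtain ⟨k, hk⟩ := h.conj i
  have hsq : ∀ y, C.act w0 (C.act w0 y) = y := by
    intro y
    rw [← Module.End.mul_apply, ← map_mul, h.sq, map_one, Module.End.one_apply]
  have h1 : ∀ y, (C.act w0 y i) • C.act w0 (C.alpha i) = y k • C.alpha k := by
    intro y
    have h2 : C.act (w0 * (C.cs.simple i * w0)) y = C.act (C.cs.simple k) y := by rw [hk]
    rw [map_mul, Module.End.mul_apply, C.act_simple_mul, C.act_simple, C.refl_apply, C.refl_apply,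
      map_sub, map_smul, hsq] at h2
    exact sub_right_injective h2
  refine ⟨k, ?_, ?_⟩
  · -- `w₀ α_i = m' α_k`, `α_k = m w₀ α_i`
    have h2 := h1 (C.act w0 (wz (Pi.single i 1)))
    have h3 := h1 (wz (Pi.single k 1))
    rw [hsq] at h2
    have e1 : wz (Pi.single i 1) i = 1 := by simp [wz]
    have e2 : wz (Pi.single k 1) k = 1 := by simp [wz]
    rw [e1, one_smul] at h2
    rw [e2, one_smul] at h3
    set m := C.act w0 (wz (Pi.single k 1)) i with hm
    set m' := C.act w0 (wz (Pi.single i 1)) k with hm'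
    have h4 : m * m' = 1 := by
      rw [h2, smul_smul] at h3
      have := congrFun h3 k
      rw [Pi.smul_apply, C.alpha_self, smul_eq_mul] at this
      omega
    have h5 : m' ≤ 0 := h.nonpos _ k
    have h6 : m' = -1 := by
      rcases Int.eq_one_or_neg_one_of_mul_eq_one' h4 with h7 | h7 <;> omega
    rw [h2, h6, neg_one_smul]
  · intro y
    have h2 := h1 (C.act w0 (wz (Pi.single i 1)))
    have h3 := h1 (wz (Pi.single k 1))
    rw [hsq] at h2
    have e1 : wz (Pi.single i 1) i = 1 := by simp [wz]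
    have e2 : wz (Pi.single k 1) k = 1 := by simp [wz]
    rw [e1, one_smul] at h2
    rw [e2, one_smul] at h3
    set m := C.act w0 (wz (Pi.single k 1)) i with hm
    set m' := C.act w0 (wz (Pi.single i 1)) k with hm'
    have h4 : m * m' = 1 := by
      rw [h2, smul_smul] at h3
      have := congrFun h3 k
      rw [Pi.smul_apply, C.alpha_self, smul_eq_mul] at this
      omega
    have h5 : m' ≤ 0 := h.nonpos _ k
    have h6 : m' = -1 := by
      rcases Int.eq_one_or_neg_one_of_mul_eq_one' h4 with h7 | h7 <;> omega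
    have h7 := congrFun (h1 y) k
    rw [h2, h6, neg_one_smul, Pi.smul_apply, Pi.smul_apply, Pi.neg_apply, C.alpha_self,
      smul_eq_mul, smul_eq_mul] at h7
    omega

end CartanDatum

/-- The data of the longest element `w₀` and of the involution `θ` with `w₀ α_i = - α_{θ i}`. -/
structure LongData {I : Type} [Fintype I] [DecidableEq I] (C : CartanDatum I) where
  w0 : C.W
  th : I → I
  long : C.IsLong w0
  alpha_th : ∀ i, C.act w0 (C.alpha i) = - C.alpha (th i)

namespace LongData

variable {I : Type} [Fintype I] [DecidableEq I] {C : CartanDatum I} (T : LongData C)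

lemma act_apply (y : I → ℤ) (i : I) : C.act T.w0 y i = - y (T.th i) := by
  obtain ⟨k, h1, h2⟩ := T.long.theta i
  rw [T.alpha_th i, neg_inj] at h1
  have h3 : T.th i = k := by
    by_contra hne
    have h4 := congrFun h1 k
    rw [C.alpha_self] at h4
    have := C.alpha_nonpos hne
    omega
  rw [h3]; exact h2 y

lemma sq (x : I → ℤ) : C.act T.w0 (C.act T.w0 x) = x := by
  rw [← Module.End.mul_apply, ← map_mul, T.long.sq, map_one, Module.End.one_apply]

lemma th_th (i : I) : T.th (T.th i) = i := by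
  by_contra hne
  have h1 : ∀ y : I → ℤ, y (T.th (T.th i)) = y i := by
    intro y
    have h2 := congrFun (T.sq y) i
    rw [T.act_apply, T.act_apply, neg_neg] at h2
    exact h2
  have h2 := h1 (Pi.single i 1)
  rw [Pi.single_eq_same, Pi.single_eq_of_ne hne] at h2
  omega

lemma th_inj {i j : I} (h : T.th i = T.th j) : i = j := by
  rw [← T.th_th i, h, T.th_th]

lemma A_th (i j : I) : C.A (T.th j) (T.th i) = C.A j i := by
  have h1 := congrFun (T.alpha_th (T.th i)) j
  rw [T.act_apply, T.th_th, Pi.neg_apply, neg_inj, C.alpha_apply, C.alpha_apply] at h1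
  exact h1

lemma act_wz (la : I → ℕ) (i : I) : C.act T.w0 (wz la) (T.th i) = - (la i : ℤ) := by
  rw [T.act_apply, T.th_th]; rfl

/-- a reduced word of `w₀` contains all elements as subwords -/
lemma subW_univ {L : List I} (_ : C.cs.IsReduced L) (h : C.cs.wordProd L = T.w0) (v : C.W) :
    v ∈ WFam.SubW C L := by
  obtain ⟨L₁, h1, h1'⟩ := C.cs.exists_isReduced (T.w0 * v⁻¹)
  obtain ⟨L₂, h2, h2'⟩ := C.cs.exists_isReduced v
  have h3 := T.long.add v⁻¹
  rw [C.cs.length_inv] at h3
  have h4 : C.cs.wordProd (L₁ ++ L₂) = T.w0 := by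
    rw [C.cs.wordProd_append, ← h1', ← h2']; group
  have h5 : C.cs.IsReduced (L₁ ++ L₂) := by
    have e1 : C.cs.length (C.cs.wordProd L₁) = L₁.length := h1
    have e2 : C.cs.length (C.cs.wordProd L₂) = L₂.length := h2
    unfold CoxeterSystem.IsReduced
    rw [h4, List.length_append, ← e1, ← e2, ← h1', ← h2']
    omega
  apply subW_subset h5 (h4.trans h.symm)
  rw [h2']
  exact subW_of_sublist (List.sublist_append_right L₁ L₂)

end LongData

theorem exists_longData {I : Type} [Fintype I] [DecidableEq I] (C : CartanDatum I) :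
    Nonempty (LongData C) := by
  obtain ⟨w0, h⟩ := C.exists_isLong
  choose th h1 _ using h.theta
  exact ⟨⟨w0, th, h, h1⟩⟩

end Pool.Agent.H78R2.Crys
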